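import Pool.Agent.H23.CL.Ind
import Pool.Agent.H57.LC.AStr

/-! Step 2 of note 3669: the sets `A_i` around the seed clique. -/

set_option autoImplicit false

namespace H23CL

open Finset H57LC

set_option linter.unusedSectionVars false

/-- the structure of the sets `A_i` -/
structure AW {V : Type*} [DecidableEq V] (G : SimpleGraph V) [DecidableRel G.Adj]
    (𝒰 : Finset (Finset V)) {w : ℕ} (u m : ℕ) (C : ℝ) (A : Fin w → Finset V) : Prop where
  disj : ∀ i j, i ≠ j → Disjoint (A i) (A j)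
  ind : ∀ i, ∀ a ∈ A i, ∀ b ∈ A i, ¬ G.Adj a b
  size : ∀ i, |((A i).card : ℝ) - m| ≤ C
  tot : ∀ i j, i ≠ j → ∑ z ∈ A i, ((hs G (A j) z).card : ℝ) ≤ C * m
  bad : (((clq G (un A) u).filter fun U => U ∉ 𝒰).card : ℝ) * m ≤ C * (m : ℝ) ^ u

/-! ### numbers -/

/-- all numbers are close to the average -/
private lemma AStr_swap {w R : ℕ} (hR : 1 ≤ R) (hw : R < w) (x : Fin w → ℝ) (m D : ℝ)
    (h : ∀ P : Finset (Fin w), P.card = R → |∑ i ∈ P, x i - R * m| ≤ D) (i : Fin w) :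
    |x i - m| ≤ 3 * D := by
  have hR1 : (1 : ℝ) ≤ R := by exact_mod_cast hR
  obtain ⟨P₀, hiP₀, -, hP₀c⟩ := exists_subsuperset_card_eq (s := ({i} : Finset (Fin w)))
    (t := univ) (n := R) (subset_univ _) (by rw [card_singleton]; exact hR)
    (by rw [card_univ, Fintype.card_fin]; omega)
  have hD : 0 ≤ D := (abs_nonneg _).trans (h P₀ hP₀c)
  have h1 : ∀ j, |x i - x j| ≤ 2 * D := by
    intro j
    by_cases hij : i = j
    · subst hij
      rw [sub_self, abs_zero]
      linarith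
    obtain ⟨P, hiP, hPj, hPc⟩ := exists_subsuperset_card_eq (s := ({i} : Finset (Fin w)))
      (t := univ.erase j) (n := R)
      (singleton_subset_iff.2 (mem_erase.2 ⟨hij, mem_univ _⟩)) (by rw [card_singleton]; exact hR)
      (by rw [card_erase_of_mem (mem_univ _), card_univ, Fintype.card_fin]; omega)
    have hi : i ∈ P := hiP (mem_singleton_self i)
    have hj : j ∉ P := fun hj => (mem_erase.1 (hPj hj)).1 rfl
    have hj' : j ∉ P.erase i := fun hj' => hj (mem_of_mem_erase hj')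
    have e1 : ∑ k ∈ P, x k = x i + ∑ k ∈ P.erase i, x k := (add_sum_erase P x hi).symm
    have e2 : ∑ k ∈ insert j (P.erase i), x k = x j + ∑ k ∈ P.erase i, x k := sum_insert hj'
    have c2 : (insert j (P.erase i)).card = R := by
      rw [card_insert_of_notMem hj', card_erase_of_mem hi, hPc]
      omega
    have a1 := abs_le.1 (h P hPc)
    have a2 := abs_le.1 (h _ c2)
    rw [e1] at a1
    rw [e2] at a2
    rw [abs_le]
    constructor <;> linarith [a1.1, a1.2, a2.1, a2.2]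
  have e : (R : ℝ) * (x i - m) = ∑ k ∈ P₀, (x i - x k) + (∑ k ∈ P₀, x k - R * m) := by
    rw [sum_sub_distrib, sum_const, hP₀c, nsmul_eq_mul]
    ring
  have b1 : |∑ k ∈ P₀, (x i - x k)| ≤ R * (2 * D) := by
    refine (abs_sum_le_sum_abs _ _).trans ((sum_le_sum fun k _ => h1 k).trans ?_)
    rw [sum_const, hP₀c, nsmul_eq_mul]
  have b2 := h P₀ hP₀c
  have b3 : |(R : ℝ) * (x i - m)| ≤ R * (3 * D) := by
    rw [e]
    refine (abs_add_le _ _).trans ?_
    have : D ≤ R * D := by nlinarith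
    linarith
  rw [abs_mul, abs_of_nonneg (by linarith : (0 : ℝ) ≤ R)] at b3
  exact le_of_mul_le_mul_left b3 (by linarith)

/-- many cliques need many vertices -/
private lemma AStr_low {R : ℕ} (hR : 1 ≤ R) {m C₁ s k : ℝ} (hC : 0 ≤ C₁) (hm : C₁ ≤ m)
    (hs : 0 ≤ s) (h1 : (R : ℝ) ^ R * k ≤ s ^ R) (h2 : m ^ R - C₁ * m ^ (R - 1) ≤ k) :
    R * m - R * C₁ ≤ s := by
  by_contra hcon
  push Not at hcon
  have h3 : s ^ R < (R * (m - C₁)) ^ R := pow_lt_pow_left₀ (by linarith) hs (by omega)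
  have h4 : ((R : ℝ) * (m - C₁)) ^ R ≤ (R : ℝ) ^ R * (m ^ R - C₁ * m ^ (R - 1)) := by
    rw [mul_pow]
    refine mul_le_mul_of_nonneg_left ?_ (by positivity)
    obtain ⟨n, rfl⟩ : ∃ n, R = n + 1 := ⟨R - 1, by omega⟩
    rw [Nat.add_sub_cancel, pow_succ (m - C₁), pow_succ m]
    have h5 : (m - C₁) ^ n ≤ m ^ n := pow_le_pow_left₀ (by linarith) (by linarith) n
    have h6 := mul_le_mul_of_nonneg_right h5 (by linarith : 0 ≤ m - C₁)
    linarith
  have h5 : (R : ℝ) ^ R * (m ^ R - C₁ * m ^ (R - 1)) ≤ (R : ℝ) ^ R * k :=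
    mul_le_mul_of_nonneg_left h2 (by positivity)
  linarith

private lemma AStr_pow (n : ℕ) {x d : ℝ} (hx : 0 ≤ x) (hd : 0 ≤ d) :
    (x + d) ^ n ≤ x ^ n + n * d * (x + d) ^ (n - 1) := by
  induction n with
  | zero => simp
  | succ n ih =>
    rw [Nat.add_sub_cancel]
    rcases n with - | n
    · simp
    · rw [Nat.add_sub_cancel] at ih
      have h1 : x * (x + d) ^ n ≤ (x + d) ^ (n + 1) := by
        rw [pow_succ']
        exact mul_le_mul_of_nonneg_right (by linarith) (by positivity)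
      have h2 := mul_le_mul_of_nonneg_left ih hx
      have h3 : ((n + 1 : ℕ) : ℝ) * d * (x * (x + d) ^ n) ≤
          ((n + 1 : ℕ) : ℝ) * d * (x + d) ^ (n + 1) :=
        mul_le_mul_of_nonneg_left h1 (by positivity)
      have e1 : (x + d) ^ (n + 1 + 1) = x * (x + d) ^ (n + 1) + d * (x + d) ^ (n + 1) := by ring
      have e2 : x * (x ^ (n + 1) + ((n + 1 : ℕ) : ℝ) * d * (x + d) ^ n) =
          x ^ (n + 1 + 1) + ((n + 1 : ℕ) : ℝ) * d * (x * (x + d) ^ n) := by ring
      rw [e1]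
      rw [e2] at h2
      have e3 : (((n + 1 + 1 : ℕ) : ℝ)) * d * (x + d) ^ (n + 1) =
          ((n + 1 : ℕ) : ℝ) * d * (x + d) ^ (n + 1) + d * (x + d) ^ (n + 1) := by
        push_cast
        ring
      rw [e3]
      linarith

/-! ### the sets -/

section aux

variable {V : Type*} [Fintype V] [DecidableEq V] {G : SimpleGraph V} [DecidableRel G.Adj]

/-- the sets `A k`, `k ∈ P`, and single vertices for the other `k` -/
private def AStr_B {w : ℕ} (A : Fin w → Finset V) (a : Fin w → V) (P : Finset (Fin w))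
    (k : Fin w) : Finset V := if k ∈ P then A k else {a k}

/-- the data around the seed clique -/
private structure AStr_D (G : SimpleGraph V) [DecidableRel G.Adj] (R u : ℕ) (K₀ : Finset V)
    (a : Fin (R + u) → V) (A : Fin (R + u) → Finset V) : Prop where
  hK : K₀ ∈ clq G univ (R + u)
  hfree : clq G univ (R + u + 1) = ∅
  inj : Function.Injective a
  mem : ∀ i, a i ∈ K₀
  surj : ∀ t ∈ K₀, ∃ i, a i = t
  hA : ∀ i z, z ∈ A i ↔ hs G K₀ z = {a i}

variable {R u : ℕ} {K₀ : Finset V} {a : Fin (R + u) → V} {A : Fin (R + u) → Finset V}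

private lemma AStr_self (h : AStr_D G R u K₀ a A) (i : Fin (R + u)) : a i ∈ A i := by
  rw [h.hA]
  ext t
  rw [mem_hs, mem_singleton]
  constructor
  · rintro ⟨ht, hn⟩
    by_contra hne
    exact hn ((mem_clq.1 h.hK).2 _ (h.mem i) _ ht (Ne.symm hne))
  · rintro rfl
    exact ⟨h.mem i, G.loopless.irrefl _⟩

private lemma AStr_disj (h : AStr_D G R u K₀ a A) :
    ∀ i j, i ≠ j → Disjoint (A i) (A j) := by
  intro i j hij
  rw [disjoint_left]
  intro z hz hz'
  rw [h.hA] at hz hz'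
  rw [hz] at hz'
  exact hij (h.inj (singleton_injective hz'))

private lemma AStr_indA (h : AStr_D G R u K₀ a A) :
    ∀ i, ∀ x ∈ A i, ∀ y ∈ A i, ¬ G.Adj x y := by
  intro i x hx y hy
  exact H57LC.AStr_ind h.hfree h.hK (h.mem i) (mem_univ _) (mem_univ _) ((h.hA i x).1 hx)
    ((h.hA i y).1 hy)

private lemma AStr_Bsub (h : AStr_D G R u K₀ a A) (P : Finset (Fin (R + u))) (i : Fin (R + u)) :
    AStr_B A a P i ⊆ A i := by
  unfold AStr_B
  split_ifs
  · exact Subset.rfl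
  · rw [singleton_subset_iff]
    exact AStr_self h i

private lemma AStr_Bdisj (h : AStr_D G R u K₀ a A) (P : Finset (Fin (R + u))) :
    ∀ i j, i ≠ j → Disjoint (AStr_B A a P i) (AStr_B A a P j) := fun i j hij =>
  disjoint_of_subset_left (AStr_Bsub h P i)
    (disjoint_of_subset_right (AStr_Bsub h P j) (AStr_disj h i j hij))

private lemma AStr_Bind (h : AStr_D G R u K₀ a A) (P : Finset (Fin (R + u))) :
    ∀ i, ∀ x ∈ AStr_B A a P i, ∀ y ∈ AStr_B A a P i, ¬ G.Adj x y := fun i x hx y hy =>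
  AStr_indA h i x (AStr_Bsub h P i hx) y (AStr_Bsub h P i hy)

/-- the facts about `U = a(Pᶜ)` -/
private lemma AStr_U (h : AStr_D G R u K₀ a A) {P : Finset (Fin (R + u))} (hP : P.card = R) :
    (univ \ P).image a ∈ K₀.powersetCard u ∧ (univ \ P).image a ∈ clq G univ u ∧
      K₀ \ (univ \ P).image a = P.image a := by
  have h1 : (univ \ P).image a ⊆ K₀ := image_subset_iff.2 fun i _ => h.mem i
  have h2 : ((univ \ P).image a).card = u := by
    rw [card_image_of_injective _ h.inj, card_sdiff_of_subset (subset_univ _), card_univ,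
      Fintype.card_fin, hP]
    omega
  refine ⟨mem_powersetCard.2 ⟨h1, h2⟩,
    mem_clq.2 ⟨⟨subset_univ _, h2⟩, (mem_clq.1 h.hK).2.subset h1⟩, ?_⟩
  ext t
  rw [mem_sdiff]
  constructor
  · rintro ⟨ht, hn⟩
    obtain ⟨i, rfl⟩ := h.surj t ht
    refine mem_image_of_mem a ?_
    by_contra hi
    exact hn (mem_image_of_mem a (mem_sdiff.2 ⟨mem_univ _, hi⟩))
  · intro ht
    obtain ⟨i, hi, rfl⟩ := mem_image.1 ht
    refine ⟨h.mem i, fun hn => ?_⟩
    obtain ⟨j, hj, hji⟩ := mem_image.1 hn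
    have hji' := h.inj hji
    subst hji'
    exact (mem_sdiff.1 hj).2 hi

private lemma AStr_cn (h : AStr_D G R u K₀ a A) {P : Finset (Fin (R + u))} (hP : P.card = R) :
    P.biUnion A ⊆ cn G ((univ \ P).image a) ∧
      (cn G ((univ \ P).image a) \ P.biUnion A).card ≤
        hge G (cn G ((univ \ P).image a)) (P.image a) := by
  obtain ⟨hU1, hU2, hU3⟩ := AStr_U h hP
  have hcl := (mem_clq.1 h.hK).2
  have hT : P.image a ∈ clq G (cn G ((univ \ P).image a)) R := by
    refine mem_clq.2 ⟨⟨?_, ?_⟩, ?_⟩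
    · intro t ht
      obtain ⟨i, hi, rfl⟩ := mem_image.1 ht
      rw [mem_cn]
      intro s hs'
      obtain ⟨j, hj, rfl⟩ := mem_image.1 hs'
      refine hcl _ (h.mem j) _ (h.mem i) fun e => ?_
      have e' := h.inj e
      subst e'
      exact (mem_sdiff.1 hj).2 hi
    · rw [card_image_of_injective _ h.inj, hP]
    · exact hcl.subset (image_subset_iff.2 fun i _ => h.mem i)
  have hfr : clq G (cn G ((univ \ P).image a)) (R + 1) = ∅ := cn_free h.hfree hU2
  refine ⟨?_, ?_⟩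
  · intro z hz
    obtain ⟨k, hk, hzk⟩ := mem_biUnion.1 hz
    rw [h.hA] at hzk
    rw [mem_cn]
    intro s hs'
    obtain ⟨j, hj, rfl⟩ := mem_image.1 hs'
    by_contra hn
    have h1 : a j ∈ hs G K₀ z := mem_hs.2 ⟨h.mem j, fun e => hn e.symm⟩
    rw [hzk, mem_singleton] at h1
    have h2 := h.inj h1
    subst h2
    exact (mem_sdiff.1 hj).2 hk
  · unfold H57LC.hge
    refine card_le_card fun z hz => ?_
    rw [mem_sdiff] at hz
    rw [mem_filter]
    refine ⟨hz.1, ?_⟩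
    by_contra hcon
    obtain ⟨t, ht, hzt⟩ := AStr_one hfr hT hz.1 hcon
    obtain ⟨i, hi, rfl⟩ := mem_image.1 ht
    refine hz.2 (mem_biUnion.2 ⟨i, hi, (h.hA i z).2 ?_⟩)
    ext s
    constructor
    · intro hs'
      rw [mem_hs] at hs'
      have hsT : s ∈ P.image a := by
        rw [← hU3, mem_sdiff]
        exact ⟨hs'.1, fun hsU => hs'.2 ((mem_cn.1 hz.1 s hsU).symm)⟩
      rw [← hzt]
      exact mem_hs.2 ⟨hsT, hs'.2⟩
    · intro hs'
      rw [← hzt, mem_hs] at hs'
      obtain ⟨j, _, hj⟩ := mem_image.1 hs'.1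
      exact mem_hs.2 ⟨hj ▸ h.mem j, hs'.2⟩

private lemma AStr_maps {𝒰 : Finset (Finset V)} {U K : Finset V} (hUc : U.card = u)
    (hK : K ∈ (KK G 𝒰 u (R + u)).filter fun K => U ⊆ K) : K \ U ∈ clq G (cn G U) R := by
  rw [mem_filter, KK, mem_filter, mem_clq] at hK
  obtain ⟨⟨⟨⟨-, hc⟩, hcl⟩, -⟩, hUK⟩ := hK
  refine mem_clq.2 ⟨⟨?_, ?_⟩, hcl.subset sdiff_subset⟩
  · intro z hz
    rw [mem_sdiff] at hz
    rw [mem_cn]
    intro b hb
    exact hcl b (hUK hb) z hz.1 fun e => hz.2 (e ▸ hb)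
  · rw [card_sdiff_of_subset hUK, hc, hUc]
    omega

private lemma AStr_injOn {𝒰 : Finset (Finset V)} {U : Finset V} :
    Set.InjOn (fun K : Finset V => K \ U)
      ((KK G 𝒰 u (R + u)).filter fun K => U ⊆ K : Finset (Finset V)) := by
  intro K hK K' hK' e
  rw [mem_coe, mem_filter] at hK hK'
  have e' : K \ U = K' \ U := e
  rw [← sdiff_union_of_subset hK.2, e', sdiff_union_of_subset hK'.2]

private lemma AStr_kR {𝒰 : Finset (Finset V)} {U : Finset V} (hUc : U.card = u) :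
    ((KK G 𝒰 u (R + u)).filter fun K => U ⊆ K).card ≤ (clq G (cn G U) R).card :=
  card_le_card_of_injOn (fun K => K \ U) (fun _ hK => AStr_maps hUc hK) AStr_injOn

private lemma AStr_good (h : AStr_D G R u K₀ a A) {P : Finset (Fin (R + u))} (hP : P.card = R)
    (hR : 1 ≤ R) (𝒰 : Finset (Finset V)) :
    (((KK G 𝒰 u (R + u)).filter fun K => (univ \ P).image a ⊆ K).card : ℝ) ≤
      (((tcl G (AStr_B A a P)).filter fun f => im f ∈ KK G 𝒰 u (R + u)).card : ℝ) +
        ((cn G ((univ \ P).image a) \ P.biUnion A).card : ℝ) *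
          ((cn G ((univ \ P).image a)).card : ℝ) ^ (R - 1) := by
  obtain ⟨hU1, hU2, hU3⟩ := AStr_U h hP
  have hUc := (mem_powersetCard.1 hU1).2
  obtain ⟨U, hU⟩ : ∃ U, U = (univ \ P).image a := ⟨_, rfl⟩
  rw [← hU] at hU1 hU2 hU3 hUc ⊢
  have h0 := card_filter_add_card_filter_not (s := (KK G 𝒰 u (R + u)).filter fun K => U ⊆ K)
    (fun K => K ⊆ un (AStr_B A a P))
  have h1 : (((KK G 𝒰 u (R + u)).filter fun K => U ⊆ K).filter
      fun K => K ⊆ un (AStr_B A a P)).card ≤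
      (((clq G univ (R + u)).filter fun T => T ⊆ un (AStr_B A a P)).filter
        fun T => T ∈ KK G 𝒰 u (R + u)).card := by
    refine card_le_card fun K hK => ?_
    rw [mem_filter, mem_filter] at hK
    rw [mem_filter, mem_filter]
    exact ⟨⟨(mem_filter.1 hK.1.1).1, hK.2⟩, hK.1.1⟩
  have h2 : (((((clq G univ (R + u)).filter fun T => T ⊆ un (AStr_B A a P)).filter
        fun T => T ∈ KK G 𝒰 u (R + u)).card : ℕ) : ℝ) =
      (((tcl G (AStr_B A a P)).filter fun f => im f ∈ KK G 𝒰 u (R + u)).card : ℝ) := by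
    have h3 := sum_light (G := G) (S := univ) (B := AStr_B A a P) (fun i => subset_univ _)
      (AStr_Bdisj h P) (AStr_Bind h P) (fun T => if T ∈ KK G 𝒰 u (R + u) then (1 : ℝ) else 0)
    rw [← sum_filter, ← sum_filter] at h3
    rw [sum_const, sum_const, nsmul_eq_mul, nsmul_eq_mul, mul_one, mul_one] at h3
    exact h3
  have h3 : (((KK G 𝒰 u (R + u)).filter fun K => U ⊆ K).filter
      fun K => ¬ K ⊆ un (AStr_B A a P)).card ≤
      ((clq G (cn G U) R).filter fun T => ¬ T ⊆ P.biUnion A).card := by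
    refine card_le_card_of_injOn (fun K => K \ U) (fun K hK => ?_) ?_
    · rw [mem_coe, mem_filter] at hK
      rw [mem_coe, mem_filter]
      refine ⟨AStr_maps hUc hK.1, fun hsub => hK.2 fun x hx => ?_⟩
      by_cases hxU : x ∈ U
      · rw [hU] at hxU
        obtain ⟨j, hj, rfl⟩ := mem_image.1 hxU
        refine mem_un.2 ⟨j, ?_⟩
        unfold AStr_B
        rw [if_neg (mem_sdiff.1 hj).2]
        exact mem_singleton_self _
      · obtain ⟨k, hk, hxk⟩ := mem_biUnion.1 (hsub (mem_sdiff.2 ⟨hx, hxU⟩))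
        refine mem_un.2 ⟨k, ?_⟩
        unfold AStr_B
        rw [if_pos hk]
        exact hxk
    · intro K hK K' hK' e
      rw [mem_coe, mem_filter] at hK hK'
      exact AStr_injOn (mem_coe.2 hK.1) (mem_coe.2 hK'.1) e
  have h4 := card_meet (G := G) (cn G U) (P.biUnion A) hR
  have h5 : (((((KK G 𝒰 u (R + u)).filter fun K => U ⊆ K).filter
      fun K => ¬ K ⊆ un (AStr_B A a P)).card : ℕ) : ℝ) ≤
      ((cn G U \ P.biUnion A).card : ℝ) * ((cn G U).card : ℝ) ^ (R - 1) := by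
    exact_mod_cast h3.trans h4
  have h6 : (((((KK G 𝒰 u (R + u)).filter fun K => U ⊆ K).filter
      fun K => K ⊆ un (AStr_B A a P)).card : ℕ) : ℝ) ≤
      (((tcl G (AStr_B A a P)).filter fun f => im f ∈ KK G 𝒰 u (R + u)).card : ℝ) := by
    rw [← h2]
    exact_mod_cast h1
  rw [← h0]
  push_cast
  linarith

private lemma AStr_prod (h : AStr_D G R u K₀ a A) (P : Finset (Fin (R + u))) :
    ∏ k, ((AStr_B A a P k).card : ℝ) = ∏ k ∈ P, ((A k).card : ℝ) := by
  rw [← prod_sdiff (subset_univ P)]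
  have h1 : ∏ k ∈ univ \ P, ((AStr_B A a P k).card : ℝ) = 1 := by
    refine prod_eq_one fun k hk => ?_
    unfold AStr_B
    rw [if_neg (mem_sdiff.1 hk).2, card_singleton, Nat.cast_one]
  have h2 : ∏ k ∈ P, ((AStr_B A a P k).card : ℝ) = ∏ k ∈ P, ((A k).card : ℝ) := by
    refine prod_congr rfl fun k hk => ?_
    unfold AStr_B
    rw [if_pos hk]
  rw [h1, h2, one_mul]

private lemma AStr_tot (h : AStr_D G R u K₀ a A) {P : Finset (Fin (R + u))} (hP : P.card = R)
    {i j : Fin (R + u)} (hij : i ≠ j) (hi : i ∈ P) (hj : j ∈ P) {m E : ℝ} (hm : 0 < m)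
    (hR : 2 ≤ R) (hlo : ∀ k, m / 2 ≤ ((A k).card : ℝ))
    (hE : ∏ k, ((AStr_B A a P k).card : ℝ) - ((tcl G (AStr_B A a P)).card : ℝ) ≤
      E * m ^ (R - 1)) :
    ∑ z ∈ A i, ((hs G (A j) z).card : ℝ) ≤ E * 2 ^ (R - 2) * m := by
  have hBi : AStr_B A a P i = A i := by
    unfold AStr_B
    rw [if_pos hi]
  have hBj : AStr_B A a P j = A j := by
    unfold AStr_B
    rw [if_pos hj]
  obtain ⟨N, hN⟩ : ∃ N : ℝ, N = ∑ f ∈ Fintype.piFinset (AStr_B A a P), na G (f i) (f j) :=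
    ⟨_, rfl⟩
  obtain ⟨t, ht⟩ : ∃ t : ℝ, t = ∑ z ∈ A i, ((hs G (A j) z).card : ℝ) := ⟨_, rfl⟩
  have h1 := card_tcl_pair (G := G) (AStr_B A a P) hij
  rw [← hN] at h1
  have h2 := pair_sum (AStr_B A a P) hij (na G)
  rw [hBi, hBj] at h2
  have h3 : ∑ y ∈ A i, ∑ z ∈ A j, na G y z = t := by
    rw [ht]
    exact sum_congr rfl fun y _ => sum_na (A j) y
  rw [h3, ← hN, AStr_prod h P] at h2
  have hj' : j ∈ P.erase i := mem_erase.2 ⟨hij.symm, hj⟩
  have h4 : ∏ k ∈ P, ((A k).card : ℝ) =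
      ((A i).card : ℝ) * ((A j).card * ∏ k ∈ (P.erase i).erase j, ((A k).card : ℝ)) := by
    rw [← mul_prod_erase P _ hi, ← mul_prod_erase (P.erase i) _ hj']
  have h5 : (m / 2) ^ (R - 2) ≤ ∏ k ∈ (P.erase i).erase j, ((A k).card : ℝ) := by
    have h6 : (m / 2) ^ (R - 2) = ∏ _k ∈ (P.erase i).erase j, (m / 2) := by
      rw [prod_const, card_erase_of_mem hj', card_erase_of_mem hi, hP]
      congr 1
    rw [h6]
    exact prod_le_prod (fun _ _ => by positivity) fun k _ => hlo k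
  have hAi : (0 : ℝ) < (A i).card := lt_of_lt_of_le (by positivity) (hlo i)
  have hAj : (0 : ℝ) < (A j).card := lt_of_lt_of_le (by positivity) (hlo j)
  have ht0 : 0 ≤ t := by
    rw [ht]
    exact sum_nonneg fun _ _ => by positivity
  have h7 : (m / 2) ^ (R - 2) * t ≤ N := by
    rw [h4] at h2
    have h8 : ((A i).card : ℝ) * (A j).card * ((m / 2) ^ (R - 2) * t) ≤
        ((A i).card : ℝ) * (A j).card * N := by
      rw [h2]
      calc ((A i).card : ℝ) * (A j).card * ((m / 2) ^ (R - 2) * t) =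
          ((A i).card : ℝ) * ((A j).card * (m / 2) ^ (R - 2)) * t := by ring
        _ ≤ _ := by
          refine mul_le_mul_of_nonneg_right ?_ ht0
          refine mul_le_mul_of_nonneg_left ?_ hAi.le
          exact mul_le_mul_of_nonneg_left h5 hAj.le
    exact le_of_mul_le_mul_left h8 (by positivity)
  have h8 : (m / 2) ^ (R - 2) * t ≤ E * m ^ (R - 1) := by linarith
  have h9 : (m / 2) ^ (R - 2) * t ≤ (m / 2) ^ (R - 2) * (E * 2 ^ (R - 2) * m) := by
    refine h8.trans (le_of_eq ?_)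
    have h10 : m ^ (R - 1) = m ^ (R - 2) * m := by
      rw [← pow_succ]
      congr 1
      omega
    rw [h10, div_pow]
    field_simp
  rw [← ht]
  exact le_of_mul_le_mul_left h9 (by positivity)

private lemma AStr_bad (h : AStr_D G R u K₀ a A) {P : Finset (Fin (R + u))} (hP : P.card = R)
    (𝒰 : Finset (Finset V)) {m E : ℝ} (hm : 2 ≤ m) (huR : u ≤ R)
    (hlo : ∀ k, m / 2 ≤ ((A k).card : ℝ)) (hE0 : 0 ≤ E)
    (hE : ∏ k, ((AStr_B A a P k).card : ℝ) -
      (((tcl G (AStr_B A a P)).filter fun f => im f ∈ KK G 𝒰 u (R + u)).card : ℝ) ≤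
        E * m ^ (R - 1)) :
    ((((clq G (un A) u).filter fun U => U ∉ 𝒰).filter
      fun U => U ⊆ un (AStr_B A a P)).card : ℝ) ≤
      ((R + u).choose u : ℝ) * (E * m ^ (R - 1) / (m / 2) ^ (R - u)) := by
  have hne : ∀ k, (AStr_B A a P k).Nonempty := by
    intro k
    unfold AStr_B
    split_ifs
    · exact ⟨_, AStr_self h k⟩
    · exact singleton_nonempty _
  obtain ⟨W, hW⟩ : ∃ W, W = ((clq G (un A) u).filter fun U => U ∉ 𝒰).filter
      fun U => U ⊆ un (AStr_B A a P) := ⟨_, rfl⟩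
  have hWm : ∀ X ∈ W, (X.card = u ∧ IsCl G X) ∧ X ∉ 𝒰 ∧ X ⊆ un (AStr_B A a P) := by
    intro X hX
    rw [hW, mem_filter, mem_filter, mem_clq] at hX
    exact ⟨⟨hX.1.1.1.2, hX.1.1.2⟩, hX.1.2, hX.2⟩
  rw [← hW]
  rw [card_fam (s := u) (AStr_Bdisj h P) (AStr_Bind h P) hne W fun X hX =>
    ⟨(hWm X hX).2.2, (hWm X hX).1⟩]
  have hcard : (powersetCard u (univ : Finset (Fin (R + u)))).card = (R + u).choose u := by
    rw [card_powersetCard, card_univ, Fintype.card_fin]
  have h1 : ∀ Q ∈ powersetCard u (univ : Finset (Fin (R + u))),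
      (((Fintype.piFinset (AStr_B A a P)).filter fun f => Q.image f ∈ W).card : ℝ) /
        ∏ k ∈ univ \ Q, ((AStr_B A a P k).card : ℝ) ≤ E * m ^ (R - 1) / (m / 2) ^ (R - u) := by
    intro Q hQ
    have hQc := (mem_powersetCard.1 hQ).2
    have h2 : (((Fintype.piFinset (AStr_B A a P)).filter fun f => Q.image f ∈ W).card : ℝ) ≤
        E * m ^ (R - 1) := by
      have hdisj : Disjoint ((Fintype.piFinset (AStr_B A a P)).filter fun f => Q.image f ∈ W)
          ((tcl G (AStr_B A a P)).filter fun f => im f ∈ KK G 𝒰 u (R + u)) := by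
        rw [disjoint_left]
        intro f hf hf'
        have h3 := (mem_filter.1 hf).2
        have h4 := (mem_filter.1 hf').2
        rw [KK, mem_filter] at h4
        refine (hWm _ h3).2.1 (h4.2 (mem_powersetCard.2 ⟨?_, (hWm _ h3).1.1⟩))
        unfold H57LC.im
        exact image_subset_image (subset_univ Q)
      have hsub : ((Fintype.piFinset (AStr_B A a P)).filter fun f => Q.image f ∈ W) ∪
          ((tcl G (AStr_B A a P)).filter fun f => im f ∈ KK G 𝒰 u (R + u)) ⊆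
          Fintype.piFinset (AStr_B A a P) := by
        refine union_subset (filter_subset _ _) ((filter_subset _ _).trans ?_)
        unfold tcl
        exact filter_subset _ _
      have h5 := card_le_card hsub
      rw [card_union_of_disjoint hdisj, Fintype.card_piFinset] at h5
      have h6 : (((Fintype.piFinset (AStr_B A a P)).filter fun f => Q.image f ∈ W).card : ℝ) +
          (((tcl G (AStr_B A a P)).filter fun f => im f ∈ KK G 𝒰 u (R + u)).card : ℝ) ≤
          ∏ k, ((AStr_B A a P k).card : ℝ) := by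
        exact_mod_cast h5
      linarith
    have h3 : (m / 2) ^ (R - u) ≤ ∏ k ∈ univ \ Q, ((AStr_B A a P k).card : ℝ) := by
      have h4 : (m / 2) ^ (R - u) ≤ (m / 2) ^ (P \ Q).card := by
        refine pow_le_pow_right₀ (by linarith) ?_
        have h8 := le_card_sdiff Q P
        rw [hP, hQc] at h8
        exact h8
      have h5 : (m / 2) ^ (P \ Q).card = ∏ _k ∈ P \ Q, (m / 2) := by rw [prod_const]
      have h6 : ∏ _k ∈ P \ Q, (m / 2) ≤ ∏ k ∈ P \ Q, ((AStr_B A a P k).card : ℝ) := by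
        refine prod_le_prod (fun _ _ => by linarith) fun k hk => ?_
        unfold AStr_B
        rw [if_pos (mem_sdiff.1 hk).1]
        exact hlo k
      have h7 : ∏ k ∈ P \ Q, ((AStr_B A a P k).card : ℝ) ≤
          ∏ k ∈ univ \ Q, ((AStr_B A a P k).card : ℝ) := by
        refine prod_le_prod_of_subset_of_one_le (sdiff_subset_sdiff (subset_univ _) Subset.rfl)
          (fun k _ => by positivity) fun k _ _ => ?_
        exact_mod_cast (hne k).card_pos
      linarith
    exact div_le_div₀ (mul_nonneg hE0 (by positivity)) h2 (by positivity) h3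
  refine (sum_le_card_nsmul _ _ _ h1).trans (le_of_eq ?_)
  rw [hcard, nsmul_eq_mul]

end aux

/-- Proof: enumerate `K₀ = {a_i}`, `A_i := {z : hs K₀ z = {a_i}}`.  For `U ⊆ K₀`, `|U| = u`,
`T = K₀ \ U`: `cn U` is the disjoint union of the `A_i`, `a_i ∈ T`, and of at most `C₁` vertices
(`hge`); `Rm - C ≤ |cn U| ≤ Rm + r` (`star_zyk` for the lower bound), swap one element of `T`:
`|A_i| = m + O(1)`.  The members of `KK` containing `U` meet `cn U` in `R`-cliques, all but
`C m^(R-1)` of them are transversals of `(A_i)_{i ∈ T}`; their number is at least `m^R - C m^(R-1)`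
and `∏_{i ∈ T} |A_i| ≤ m^R + C m^(R-1)`, so at most `C m^(R-1)` tuples of `∏_{i ∈ T} A_i` are not of
this form.  A missing pair `A_i - A_j` destroys `≥ (m/2)^(R-2)` of them, a `u`-clique in `un A` which
is not in `𝒰` (choose `T` containing its parts, `u ≤ R`) destroys `≥ (m/2)^(R-u)`. -/
theorem exists_AW (u R r : ℕ) (hu : 1 ≤ u) (huR : u ≤ R) (hR : 2 ≤ R) (C₁ : ℝ) (hC₁ : 0 < C₁) :
    ∃ C : ℝ, 0 < C ∧ ∃ m₀ : ℕ, ∀ m : ℕ, m₀ ≤ m →
      ∀ (V : Type) [Fintype V] [DecidableEq V] (G : SimpleGraph V) [DecidableRel G.Adj]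
        (𝒰 : Finset (Finset V)) (K₀ : Finset V),
        clq G univ (R + u + 1) = ∅ → (∀ U ∈ clq G univ u, (cn G U).card ≤ R * m + r) →
        𝒰 ⊆ clq G univ u → K₀ ∈ KK G 𝒰 u (R + u) →
        (∀ U ∈ K₀.powersetCard u, (hge G (cn G U) (K₀ \ U) : ℝ) ≤ C₁ ∧
          (m : ℝ) ^ R - C₁ * (m : ℝ) ^ (R - 1) ≤
            (((KK G 𝒰 u (R + u)).filter fun K => U ⊆ K).card : ℝ)) →
        ∃ A : Fin (R + u) → Finset V, AW G 𝒰 u m C A := by
  have hR1 : (1 : ℝ) ≤ R := by exact_mod_cast (by omega : 1 ≤ R)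
  have hr0 : (0 : ℝ) ≤ r := by positivity
  obtain ⟨D, hD⟩ : ∃ D : ℝ, D = (R + 1) * C₁ + r := ⟨_, rfl⟩
  have hD0 : 0 < D := by
    rw [hD]
    positivity
  obtain ⟨C₂, hC₂⟩ : ∃ C₂ : ℝ, C₂ = C₁ + C₁ * ((R : ℝ) + r) ^ (R - 1) := ⟨_, rfl⟩
  have hC₂0 : 0 < C₂ := by
    rw [hC₂]
    positivity
  obtain ⟨E, hE⟩ : ∃ E : ℝ, E = C₂ + R * (3 * D) * 2 ^ (R - 1) := ⟨_, rfl⟩
  have hE0 : 0 < E := by
    rw [hE]
    positivity
  obtain ⟨E₁, hE₁⟩ : ∃ E₁ : ℝ, E₁ = E * 2 ^ (R - 2) := ⟨_, rfl⟩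
  have hE₁0 : 0 < E₁ := by
    rw [hE₁]
    positivity
  obtain ⟨E₂, hE₂⟩ : ∃ E₂ : ℝ, E₂ = ((R + u).choose R : ℝ) * (((R + u).choose u : ℝ) *
      (E * 2 ^ (R - u))) := ⟨_, rfl⟩
  have hE₂0 : 0 ≤ E₂ := by
    rw [hE₂]
    positivity
  obtain ⟨m₀, hm₀⟩ := exists_nat_gt (C₁ + 6 * D + 2)
  refine ⟨3 * D + E₁ + E₂, by positivity, m₀, fun m hm V _ _ G _ 𝒰 K₀ hfree hval hsub hK₀ hU => ?_⟩
  have hm1 : C₁ + 6 * D + 2 < (m : ℝ) := hm₀.trans_le (by exact_mod_cast hm)
  have hm0 : (0 : ℝ) < m := by linarith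
  have hK : K₀ ∈ clq G univ (R + u) := (mem_filter.1 hK₀).1
  have hKc : K₀.card = R + u := (mem_clq.1 hK).1.2
  obtain ⟨a, hai, ham, has⟩ : ∃ a : Fin (R + u) → V, Function.Injective a ∧ (∀ i, a i ∈ K₀) ∧
      ∀ t ∈ K₀, ∃ i, a i = t := by
    refine ⟨fun i => ((K₀.equivFinOfCardEq hKc).symm i : V), ?_, ?_, ?_⟩
    · intro i j hij
      exact (K₀.equivFinOfCardEq hKc).symm.injective (Subtype.ext hij)
    · exact fun i => ((K₀.equivFinOfCardEq hKc).symm i).2
    · exact fun t ht => ⟨K₀.equivFinOfCardEq hKc ⟨t, ht⟩, by simp⟩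
  obtain ⟨A, hA⟩ : ∃ A : Fin (R + u) → Finset V, A = fun i => univ.filter fun z =>
      hs G K₀ z = {a i} := ⟨_, rfl⟩
  have h : AStr_D G R u K₀ a A := by
    refine ⟨hK, hfree, hai, ham, has, fun i z => ?_⟩
    rw [hA]
    simp
  -- the sums of the sizes
  have hsum : ∀ P : Finset (Fin (R + u)), P.card = R →
      |∑ k ∈ P, ((A k).card : ℝ) - R * m| ≤ D ∧
      ((cn G ((univ \ P).image a) \ P.biUnion A).card : ℝ) ≤ C₁ ∧
      ((cn G ((univ \ P).image a)).card : ℝ) ≤ R * m + r := by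
    intro P hP
    obtain ⟨hU1, hU2, hU3⟩ := AStr_U h hP
    obtain ⟨hc1, hc2⟩ := AStr_cn h hP
    have hUc := (mem_powersetCard.1 hU1).2
    obtain ⟨hx1, hx2⟩ := hU _ hU1
    rw [hU3] at hx1
    have hX : ((cn G ((univ \ P).image a) \ P.biUnion A).card : ℝ) ≤ C₁ :=
      le_trans (by exact_mod_cast hc2) hx1
    have hS : ((cn G ((univ \ P).image a)).card : ℝ) ≤ R * m + r := by
      exact_mod_cast hval _ hU2
    have hlow : (R : ℝ) * m - R * C₁ ≤ ((cn G ((univ \ P).image a)).card : ℝ) := by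
      refine AStr_low (by omega) hC₁.le (by linarith) (by positivity)
        ((star_zyk (G := G) R (by omega)).1 _ (cn_free hfree hU2)) ?_
      refine hx2.trans ?_
      exact_mod_cast AStr_kR (G := G) (𝒰 := 𝒰) hUc
    have h1 : (cn G ((univ \ P).image a) \ P.biUnion A).card + (P.biUnion A).card =
        (cn G ((univ \ P).image a)).card := card_sdiff_add_card_eq_card hc1
    have h2 : (P.biUnion A).card = ∑ k ∈ P, (A k).card :=
      card_biUnion fun i _ j _ hij => AStr_disj h i j hij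
    rw [h2] at h1
    have h3 : ((cn G ((univ \ P).image a) \ P.biUnion A).card : ℝ) +
        ∑ k ∈ P, ((A k).card : ℝ) = ((cn G ((univ \ P).image a)).card : ℝ) := by
      exact_mod_cast h1
    have h4 : (0 : ℝ) ≤ ((cn G ((univ \ P).image a) \ P.biUnion A).card : ℝ) := by positivity
    refine ⟨?_, hX, hS⟩
    rw [abs_le, hD]
    constructor <;> nlinarith
  have hsz : ∀ i, |((A i).card : ℝ) - m| ≤ 3 * D := fun i =>
    AStr_swap (by omega) (by omega) (fun k => ((A k).card : ℝ)) m D (fun P hP => (hsum P hP).1) i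
  have hlo : ∀ k, (m : ℝ) / 2 ≤ ((A k).card : ℝ) := by
    intro k
    have := (abs_le.1 (hsz k)).1
    linarith
  have hhi : ∀ k, ((A k).card : ℝ) ≤ m + 3 * D := by
    intro k
    have := (abs_le.1 (hsz k)).2
    linarith
  -- the tuples which are not good
  have hnon : ∀ P : Finset (Fin (R + u)), P.card = R →
      ∏ k, ((AStr_B A a P k).card : ℝ) -
        (((tcl G (AStr_B A a P)).filter fun f => im f ∈ KK G 𝒰 u (R + u)).card : ℝ) ≤
        E * (m : ℝ) ^ (R - 1) := by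
    intro P hP
    obtain ⟨-, hX, hS⟩ := hsum P hP
    obtain ⟨hU1, hU2, hU3⟩ := AStr_U h hP
    have h1 := (hU _ hU1).2
    have h2 := AStr_good h hP (by omega) 𝒰
    have h3 : ((cn G ((univ \ P).image a)).card : ℝ) ≤ ((R : ℝ) + r) * m := by
      have h5 : (r : ℝ) * 1 ≤ r * m := mul_le_mul_of_nonneg_left (by linarith) hr0
      linarith
    have h4 : ((cn G ((univ \ P).image a) \ P.biUnion A).card : ℝ) *
        ((cn G ((univ \ P).image a)).card : ℝ) ^ (R - 1) ≤
        C₁ * (((R : ℝ) + r) ^ (R - 1) * (m : ℝ) ^ (R - 1)) := by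
      refine mul_le_mul hX ?_ (by positivity) hC₁.le
      rw [← mul_pow]
      exact pow_le_pow_left₀ (by positivity) h3 _
    have h5 : ∏ k, ((AStr_B A a P k).card : ℝ) ≤
        (m : ℝ) ^ R + R * (3 * D) * (2 ^ (R - 1) * (m : ℝ) ^ (R - 1)) := by
      rw [AStr_prod h P]
      calc ∏ k ∈ P, ((A k).card : ℝ) ≤ ∏ _k ∈ P, ((m : ℝ) + 3 * D) :=
            prod_le_prod (fun _ _ => by positivity) fun k _ => hhi k
        _ = ((m : ℝ) + 3 * D) ^ R := by rw [prod_const, hP]
        _ ≤ (m : ℝ) ^ R + R * (3 * D) * ((m : ℝ) + 3 * D) ^ (R - 1) :=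
            AStr_pow R hm0.le (by positivity)
        _ ≤ _ := by
            rw [← mul_pow]
            have h6 : ((m : ℝ) + 3 * D) ^ (R - 1) ≤ (2 * (m : ℝ)) ^ (R - 1) :=
              pow_le_pow_left₀ (by positivity) (by linarith) _
            have h7 := mul_le_mul_of_nonneg_left h6 (by positivity : 0 ≤ (R : ℝ) * (3 * D))
            linarith
    rw [hE, hC₂]
    linarith
  refine ⟨A, AStr_disj h, AStr_indA h, fun i => ?_, fun i j hij => ?_, ?_⟩
  · have := hsz i
    linarith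
  · obtain ⟨P, hPs, -, hPc⟩ := exists_subsuperset_card_eq (s := ({i, j} : Finset (Fin (R + u))))
      (t := univ) (n := R) (subset_univ _) (by rw [card_pair hij]; exact hR)
      (by rw [card_univ, Fintype.card_fin]; omega)
    have hi : i ∈ P := hPs (mem_insert_self _ _)
    have hj : j ∈ P := hPs (mem_insert_of_mem (mem_singleton_self _))
    have h1 : ∏ k, ((AStr_B A a P k).card : ℝ) - ((tcl G (AStr_B A a P)).card : ℝ) ≤
        E * (m : ℝ) ^ (R - 1) := by
      have h2 := hnon P hPc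
      have h3 : (((tcl G (AStr_B A a P)).filter fun f => im f ∈ KK G 𝒰 u (R + u)).card : ℝ) ≤
          ((tcl G (AStr_B A a P)).card : ℝ) := by
        exact_mod_cast card_le_card (filter_subset _ _)
      linarith
    have h2 := AStr_tot h hPc hij hi hj hm0 hR hlo h1
    rw [← hE₁] at h2
    have h3 : E₁ * (m : ℝ) ≤ (3 * D + E₁ + E₂) * m :=
      mul_le_mul_of_nonneg_right (by linarith) hm0.le
    linarith
  · obtain ⟨W, hW⟩ : ∃ W, W = (clq G (un A) u).filter fun U => U ∉ 𝒰 := ⟨_, rfl⟩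
    rw [← hW]
    have h1 : W ⊆ (powersetCard R (univ : Finset (Fin (R + u)))).biUnion fun P =>
        W.filter fun U => U ⊆ un (AStr_B A a P) := by
      intro U hUW
      have hUW' := hUW
      rw [hW, mem_filter, mem_clq] at hUW'
      obtain ⟨⟨⟨hUA, hUc⟩, -⟩, -⟩ := hUW'
      have h2 : ∀ x ∈ U, ∃ k, x ∈ A k := fun x hx => mem_un.1 (hUA hx)
      classical
      obtain ⟨κ, hκ⟩ : ∃ κ : V → Fin (R + u), ∀ x ∈ U, x ∈ A (κ x) := by
        have : Nonempty (Fin (R + u)) := ⟨⟨0, by omega⟩⟩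
        choose! κ hκ using h2
        exact ⟨κ, hκ⟩
      obtain ⟨P, hPs, -, hPc⟩ := exists_subsuperset_card_eq (s := U.image κ)
        (t := univ) (n := R) (subset_univ _) (card_image_le.trans (by rw [hUc]; exact huR))
        (by rw [card_univ, Fintype.card_fin]; omega)
      refine mem_biUnion.2 ⟨P, mem_powersetCard.2 ⟨subset_univ _, hPc⟩,
        mem_filter.2 ⟨hUW, fun x hx => mem_un.2 ⟨κ x, ?_⟩⟩⟩
      unfold AStr_B
      rw [if_pos (hPs (mem_image_of_mem κ hx))]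
      exact hκ x hx
    have h2 : (W.card : ℝ) ≤ ∑ P ∈ powersetCard R (univ : Finset (Fin (R + u))),
        ((W.filter fun U => U ⊆ un (AStr_B A a P)).card : ℝ) := by
      exact_mod_cast (card_le_card h1).trans card_biUnion_le
    have h3 : ∀ P ∈ powersetCard R (univ : Finset (Fin (R + u))),
        ((W.filter fun U => U ⊆ un (AStr_B A a P)).card : ℝ) ≤
        ((R + u).choose u : ℝ) * (E * (m : ℝ) ^ (R - 1) / ((m : ℝ) / 2) ^ (R - u)) := by
      intro P hP
      have hPc := (mem_powersetCard.1 hP).2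
      rw [hW]
      exact AStr_bad h hPc 𝒰 (by linarith) huR hlo hE0.le (hnon P hPc)
    have h4 := h2.trans (sum_le_card_nsmul _ _ _ h3)
    rw [card_powersetCard, card_univ, Fintype.card_fin, nsmul_eq_mul] at h4
    have h5 : ((R + u).choose R : ℝ) * (((R + u).choose u : ℝ) *
        (E * (m : ℝ) ^ (R - 1) / ((m : ℝ) / 2) ^ (R - u))) * m = E₂ * (m : ℝ) ^ u := by
      have h6 : (m : ℝ) ^ (R - 1) * m = (m : ℝ) ^ (R - u) * (m : ℝ) ^ u := by
        rw [← pow_succ, ← pow_add]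
        congr 1
        omega
      rw [hE₂, div_pow]
      have h7 : (m : ℝ) ^ (R - u) ≠ 0 := by positivity
      have h8 : ((2 : ℝ) ^ (R - u)) ≠ 0 := by positivity
      calc ((R + u).choose R : ℝ) * (((R + u).choose u : ℝ) *
          (E * (m : ℝ) ^ (R - 1) / ((m : ℝ) ^ (R - u) / 2 ^ (R - u)))) * m =
          ((R + u).choose R : ℝ) * (((R + u).choose u : ℝ) * (E *
            (((m : ℝ) ^ (R - 1) * m) / ((m : ℝ) ^ (R - u) / 2 ^ (R - u))))) := by ring
        _ = _ := by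
          rw [h6]
          field_simp
    calc (W.card : ℝ) * m ≤ ((R + u).choose R : ℝ) * (((R + u).choose u : ℝ) *
        (E * (m : ℝ) ^ (R - 1) / ((m : ℝ) / 2) ^ (R - u))) * m :=
          mul_le_mul_of_nonneg_right h4 hm0.le
      _ = E₂ * (m : ℝ) ^ u := h5
      _ ≤ (3 * D + E₁ + E₂) * (m : ℝ) ^ u :=
          mul_le_mul_of_nonneg_right (by linarith) (by positivity)

end H23CL
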