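import Pool.Agent.H23.CL.Defs

/-! Step 5 of note 3669: sums over tuples, independence. -/

set_option autoImplicit false

namespace H23CL

open Finset H57LC

set_option linter.unusedSectionVars false

variable {V : Type*} [DecidableEq V] {G : SimpleGraph V} [DecidableRel G.Adj] {w : ℕ}

/-- independence of the coordinates (induction on `T`, `H57LC.resample`) -/
theorem indep (B : Fin w → Finset V) (P T : Finset (Fin w)) (hPT : Disjoint P T)
    (F : (Fin w → V) → ℝ) (hF : ∀ f g : Fin w → V, (∀ k ∈ P, f k = g k) → F f = F g)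
    (g : Fin w → V → ℝ) :
    (∑ f ∈ Fintype.piFinset B, F f * ∏ k ∈ T, g k (f k)) * ∏ k ∈ T, ((B k).card : ℝ) =
      (∑ f ∈ Fintype.piFinset B, F f) * ∏ k ∈ T, ∑ y ∈ B k, g k y := by
  induction T using Finset.induction_on with
  | empty => simp
  | insert k T hk ih =>
    have hkP : k ∉ P := fun h => (disjoint_left.1 hPT h) (mem_insert_self k T)
    have ih' := ih (disjoint_of_subset_right (subset_insert k T) hPT)
    have h1 := resample B k (fun f => F f * ∏ l ∈ insert k T, g l (f l))
    have h2 : ∑ f ∈ Fintype.piFinset B, ∑ y ∈ B k,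
        (fun f => F f * ∏ l ∈ insert k T, g l (f l)) (Function.update f k y) =
        (∑ f ∈ Fintype.piFinset B, F f * ∏ l ∈ T, g l (f l)) * ∑ y ∈ B k, g k y := by
      rw [sum_mul]
      refine sum_congr rfl fun f _ => ?_
      rw [mul_sum]
      refine sum_congr rfl fun y _ => ?_
      have e1 : F (Function.update f k y) = F f := by
        refine hF _ _ fun l hl => ?_
        rw [Function.update_of_ne]
        rintro rfl
        exact hkP hl
      have e2 : ∏ l ∈ T, g l (Function.update f k y l) = ∏ l ∈ T, g l (f l) := by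
        refine prod_congr rfl fun l hl => ?_
        rw [Function.update_of_ne]
        rintro rfl
        exact hk hl
      show F (Function.update f k y) * ∏ l ∈ insert k T, g l (Function.update f k y l) =
        (F f * ∏ l ∈ T, g l (f l)) * g k y
      rw [prod_insert hk, e1, e2, Function.update_self]
      ring
    rw [h2] at h1
    rw [prod_insert hk (f := fun l => ((B l).card : ℝ)),
      prod_insert hk (f := fun l => ∑ y ∈ B l, g l y)]
    calc (∑ f ∈ Fintype.piFinset B, F f * ∏ l ∈ insert k T, g l (f l)) *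
          (((B k).card : ℝ) * ∏ l ∈ T, ((B l).card : ℝ))
        = (((B k).card : ℝ) * ∑ f ∈ Fintype.piFinset B, F f * ∏ l ∈ insert k T, g l (f l)) *
          ∏ l ∈ T, ((B l).card : ℝ) := by ring
      _ = ((∑ f ∈ Fintype.piFinset B, F f * ∏ l ∈ T, g l (f l)) * ∏ l ∈ T, ((B l).card : ℝ)) *
          ∑ y ∈ B k, g k y := by rw [h1]; ring
      _ = _ := by rw [ih']; ring

/-- the image of a set of parts under a tuple determines the values -/
theorem image_inj {B : Fin w → Finset V} (hdisj : ∀ i j, i ≠ j → Disjoint (B i) (B j))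
    {f g : Fin w → V} (hf : f ∈ Fintype.piFinset B) (hg : g ∈ Fintype.piFinset B)
    {P Q : Finset (Fin w)} (h : P.image f = Q.image g) : P = Q ∧ ∀ k ∈ P, f k = g k := by
  rw [Fintype.mem_piFinset] at hf hg
  have key : ∀ (f g : Fin w → V), (∀ k, f k ∈ B k) → (∀ k, g k ∈ B k) →
      ∀ P Q : Finset (Fin w), P.image f = Q.image g → ∀ k ∈ P, k ∈ Q ∧ f k = g k := by
    intro f g hf hg P Q h k hk
    have h1 : f k ∈ Q.image g := h ▸ mem_image_of_mem f hk
    obtain ⟨l, hl, hlk⟩ := mem_image.1 h1
    have hlk' : l = k := by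
      by_contra hne
      exact disjoint_left.1 (hdisj l k hne) (hg l) (hlk ▸ hf k)
    subst hlk'
    exact ⟨hl, hlk.symm⟩
  have h1 := key f g hf hg P Q h
  have h2 := key g f hg hf Q P h.symm
  refine ⟨?_, fun k hk => (h1 k hk).2⟩
  ext k
  exact ⟨fun hk => (h1 k hk).1, fun hk => (h2 k hk).1⟩

/-- a clique inside the parts is the image of a tuple -/
private lemma Ind_exists {s : ℕ} {B : Fin w → Finset V}
    (hdisj : ∀ i j, i ≠ j → Disjoint (B i) (B j))
    (hind : ∀ i, ∀ a ∈ B i, ∀ b ∈ B i, ¬ G.Adj a b) (hne : ∀ k, (B k).Nonempty)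
    {X : Finset V} (hX : X ⊆ un B ∧ X.card = s ∧ IsCl G X) :
    ∃ P : Finset (Fin w), P.card = s ∧ ∃ f ∈ Fintype.piFinset B, P.image f = X := by
  classical
  obtain ⟨hXB, hXs, hXc⟩ := hX
  set P : Finset (Fin w) := univ.filter fun k => (X ∩ B k).Nonempty with hP
  set f : Fin w → V := fun k => if h : (X ∩ B k).Nonempty then h.choose else (hne k).choose
    with hf
  have hfB : ∀ k, f k ∈ B k := by
    intro k
    rw [hf]
    by_cases h : (X ∩ B k).Nonempty
    · simp only [dif_pos h]
      exact (mem_inter.1 h.choose_spec).2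
    · simp only [dif_neg h]
      exact (hne k).choose_spec
  have hfX : ∀ k ∈ P, f k ∈ X := by
    intro k hk
    have h : (X ∩ B k).Nonempty := (mem_filter.1 hk).2
    rw [hf]
    simp only [dif_pos h]
    exact (mem_inter.1 h.choose_spec).1
  have him : P.image f = X := by
    apply Subset.antisymm
    · intro x hx
      obtain ⟨k, hk, rfl⟩ := mem_image.1 hx
      exact hfX k hk
    · intro x hx
      obtain ⟨k, hk⟩ := mem_un.1 (hXB hx)
      have hkP : k ∈ P := mem_filter.2 ⟨mem_univ k, ⟨x, mem_inter.2 ⟨hx, hk⟩⟩⟩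
      have : f k = x := by
        have h1 := clique_inter_card hind hXc k
        rw [card_le_one] at h1
        exact h1 _ (mem_inter.2 ⟨hfX k hkP, hfB k⟩) _ (mem_inter.2 ⟨hx, hk⟩)
      exact mem_image.2 ⟨k, hkP, this⟩
  refine ⟨P, ?_, f, Fintype.mem_piFinset.2 hfB, him⟩
  rw [← hXs, ← him, card_image_of_injOn]
  intro k _ l _ hkl
  by_contra hne'
  have h1 := hfB k
  rw [show f k = f l from hkl] at h1
  exact disjoint_left.1 (hdisj k l hne') h1 (hfB l)

/-- the number of tuples with given values on `P` -/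
private lemma Ind_fiber (B : Fin w → Finset V) (P : Finset (Fin w)) {f : Fin w → V}
    (hf : f ∈ Fintype.piFinset B) :
    (((Fintype.piFinset B).filter fun f' => ∀ k ∈ P, f' k = f k).card : ℝ) =
      ∏ k ∈ univ \ P, ((B k).card : ℝ) := by
  classical
  have h1 : (Fintype.piFinset B).filter (fun f' => ∀ k ∈ P, f' k = f k) =
      Fintype.piFinset (fun k => if k ∈ P then {f k} else B k) := by
    rw [Fintype.mem_piFinset] at hf
    ext f'
    rw [mem_filter, Fintype.mem_piFinset, Fintype.mem_piFinset]
    constructor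
    · rintro ⟨h1, h2⟩ k
      by_cases hk : k ∈ P
      · rw [if_pos hk, h2 k hk]; exact mem_singleton_self _
      · rw [if_neg hk]; exact h1 k
    · intro h
      refine ⟨fun k => ?_, fun k hk => ?_⟩
      · have := h k
        by_cases hk : k ∈ P
        · rw [if_pos hk, mem_singleton] at this
          rw [this]; exact hf k
        · rw [if_neg hk] at this; exact this
      · have := h k
        rw [if_pos hk, mem_singleton] at this
        exact this
  rw [h1, Fintype.card_piFinset]
  push_cast
  rw [← prod_sdiff (subset_univ P)]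
  have h2 : ∏ k ∈ P, (((if k ∈ P then ({f k} : Finset V) else B k).card : ℕ) : ℝ) = 1 := by
    refine prod_eq_one fun k hk => ?_
    rw [if_pos hk, card_singleton]
    norm_num
  have h3 : ∏ k ∈ univ \ P, (((if k ∈ P then ({f k} : Finset V) else B k).card : ℕ) : ℝ) =
      ∏ k ∈ univ \ P, ((B k).card : ℝ) := by
    refine prod_congr rfl fun k hk => ?_
    rw [if_neg (mem_sdiff.1 hk).2]
  rw [h2, h3, mul_one]

/-- counting a family of cliques inside the parts by tuples -/
theorem card_fam {s : ℕ} {B : Fin w → Finset V} (hdisj : ∀ i j, i ≠ j → Disjoint (B i) (B j))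
    (hind : ∀ i, ∀ a ∈ B i, ∀ b ∈ B i, ¬ G.Adj a b) (hne : ∀ k, (B k).Nonempty)
    (W : Finset (Finset V)) (hW : ∀ X ∈ W, X ⊆ un B ∧ X.card = s ∧ IsCl G X) :
    (W.card : ℝ) = ∑ P ∈ powersetCard s (univ : Finset (Fin w)),
      (((Fintype.piFinset B).filter fun f => P.image f ∈ W).card : ℝ) /
        ∏ k ∈ univ \ P, ((B k).card : ℝ) := by
  classical
  have h1 : ∀ P : Finset (Fin w),
      (((Fintype.piFinset B).filter fun f => P.image f ∈ W).card : ℝ) =
        ∑ X ∈ W, (((Fintype.piFinset B).filter fun f => P.image f = X).card : ℝ) := by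
    intro P
    have := card_eq_sum_card_fiberwise (s := (Fintype.piFinset B).filter fun f => P.image f ∈ W)
      (t := W) (f := fun f => P.image f) (fun f hf => (mem_filter.1 hf).2)
    rw [this]
    push_cast
    refine sum_congr rfl fun X hX => ?_
    congr 2
    ext f
    simp only [mem_filter]
    constructor
    · rintro ⟨⟨h1, -⟩, h2⟩; exact ⟨h1, h2⟩
    · rintro ⟨h1, h2⟩; exact ⟨⟨h1, h2 ▸ hX⟩, h2⟩
  have h2 : ∀ X ∈ W, ∑ P ∈ powersetCard s (univ : Finset (Fin w)),
      (((Fintype.piFinset B).filter fun f => P.image f = X).card : ℝ) /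
        ∏ k ∈ univ \ P, ((B k).card : ℝ) = 1 := by
    intro X hX
    obtain ⟨P, hPs, f, hf, hfX⟩ := Ind_exists hdisj hind hne (hW X hX)
    have h3 : ∀ Q ∈ powersetCard s (univ : Finset (Fin w)), Q ≠ P →
        (((Fintype.piFinset B).filter fun f => Q.image f = X).card : ℝ) /
          ∏ k ∈ univ \ Q, ((B k).card : ℝ) = 0 := by
      intro Q _ hQP
      have : (Fintype.piFinset B).filter (fun f => Q.image f = X) = ∅ := by
        rw [filter_eq_empty_iff]
        intro g hg hgX
        exact hQP (image_inj hdisj hg hf (hgX.trans hfX.symm)).1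
      rw [this]
      simp
    rw [sum_eq_single_of_mem P (mem_powersetCard.2 ⟨subset_univ P, hPs⟩) h3]
    have h4 : (Fintype.piFinset B).filter (fun g => P.image g = X) =
        (Fintype.piFinset B).filter (fun g => ∀ k ∈ P, g k = f k) := by
      refine filter_congr fun g hg => ⟨fun h => ?_, fun h => ?_⟩
      · exact (image_inj hdisj hg hf (h.trans hfX.symm)).2
      · rw [← hfX]
        exact image_congr fun k hk => h k hk
    rw [h4, Ind_fiber B P hf]
    refine div_self (ne_of_gt (prod_pos fun k _ => ?_))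
    exact_mod_cast (hne k).card_pos
  calc (W.card : ℝ) = ∑ _X ∈ W, (1 : ℝ) := by simp
    _ = ∑ X ∈ W, ∑ P ∈ powersetCard s (univ : Finset (Fin w)),
        (((Fintype.piFinset B).filter fun f => P.image f = X).card : ℝ) /
          ∏ k ∈ univ \ P, ((B k).card : ℝ) := sum_congr rfl fun X hX => (h2 X hX).symm
    _ = ∑ P ∈ powersetCard s (univ : Finset (Fin w)), ∑ X ∈ W,
        (((Fintype.piFinset B).filter fun f => P.image f = X).card : ℝ) /
          ∏ k ∈ univ \ P, ((B k).card : ℝ) := sum_comm
    _ = _ := by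
      refine sum_congr rfl fun P _ => ?_
      rw [h1, sum_div]

end H23CL
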