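import Pool.Agent.H23.CL.Val
import Pool.Agent.H23.CL.Ind

/-! Steps 6, 7 of note 3669: averages of the validity. -/

set_option autoImplicit false

namespace H23CL

open Finset H57LC

set_option linter.unusedSectionVars false

section avm

variable {V : Type} [DecidableEq V] {G : SimpleGraph V} [DecidableRel G.Adj] {w : ℕ}

/-- the tuples which are cliques on `P` -/
private def OmP (G : SimpleGraph V) [DecidableRel G.Adj] (B : Fin w → Finset V)
    (P : Finset (Fin w)) : Finset (Fin w → V) :=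
  (Fintype.piFinset B).filter fun f => ∀ k ∈ P, ∀ l ∈ P, k ≠ l → G.Adj (f k) (f l)

private lemma card_Om (B : Fin w → Finset V) :
    ((Fintype.piFinset B).card : ℝ) = ∏ k, ((B k).card : ℝ) := by
  rw [Fintype.card_piFinset]
  push_cast
  rfl

/-- the number of tuples with `z` adjacent to all `f l`, `l ∈ P` -/
private lemma card_adj {B : Fin w → Finset V} (hb : ∀ k, 0 < ((B k).card : ℝ)) (z : V)
    (P : Finset (Fin w)) :
    (((Fintype.piFinset B).filter fun f => ∀ l ∈ P, G.Adj (f l) z).card : ℝ) =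
      (∏ k, ((B k).card : ℝ)) * ∏ l ∈ P, al G B z l := by
  have h1 := indep B ∅ P (disjoint_empty_left _) (fun _ => (1 : ℝ)) (fun _ _ _ => rfl)
    (fun _ y => if G.Adj z y then (1 : ℝ) else 0)
  have h2 : ∀ f : Fin w → V, (∏ k ∈ P, (if G.Adj z (f k) then (1 : ℝ) else 0)) =
      if ∀ l ∈ P, G.Adj (f l) z then (1 : ℝ) else 0 := by
    intro f
    split_ifs with h
    · exact prod_eq_one fun k hk => if_pos (h k hk).symm
    · push Not at h
      obtain ⟨l, hl, hl'⟩ := h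
      exact prod_eq_zero hl (if_neg fun h' => hl' h'.symm)
  have h3 : ∑ f ∈ Fintype.piFinset B, (1 : ℝ) * ∏ k ∈ P, (if G.Adj z (f k) then (1 : ℝ) else 0) =
      (((Fintype.piFinset B).filter fun f => ∀ l ∈ P, G.Adj (f l) z).card : ℝ) := by
    rw [card_filter]
    push_cast
    refine sum_congr rfl fun f _ => ?_
    rw [one_mul, h2 f]
  have h4 : ∑ _f ∈ Fintype.piFinset B, (1 : ℝ) = ∏ k, ((B k).card : ℝ) := by
    rw [sum_const, nsmul_eq_mul, mul_one, card_Om]
  have h5 : ∏ k ∈ P, ∑ y ∈ B k, (if G.Adj z y then (1 : ℝ) else 0) =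
      (∏ l ∈ P, al G B z l) * ∏ k ∈ P, ((B k).card : ℝ) := by
    rw [← prod_mul_distrib]
    refine prod_congr rfl fun k _ => ?_
    unfold al
    rw [div_mul_cancel₀ _ (hb k).ne', card_filter]
    push_cast
    rfl
  rw [h3, h4, h5, ← mul_assoc] at h1
  exact mul_right_cancel₀ (prod_pos fun k _ => hb k).ne' h1

/-- most tuples are cliques on `P` -/
private lemma card_OmP {B : Fin w → Finset V} {m : ℕ} {C η : ℝ} (hbs : BS G m C η B)
    (hC : 0 < C) (hm : 2 * C ≤ m) (hm0 : 0 < m) (P : Finset (Fin w)) :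
    (∏ k, ((B k).card : ℝ)) * (1 - 4 * w ^ 2 * C / m) ≤ ((OmP G B P).card : ℝ) := by
  set Q : ℝ := ∏ k, ((B k).card : ℝ) with hQ
  have hm' : (0 : ℝ) < m := by exact_mod_cast hm0
  have hQ0 : 0 ≤ Q := prod_nonneg fun _ _ => Nat.cast_nonneg _
  have hb : ∀ k, (m : ℝ) / 2 ≤ ((B k).card : ℝ) := by
    intro k
    have := (abs_le.1 (hbs.size k)).1
    linarith
  have hpair : ∀ k l : Fin w, k ≠ l → ∑ f ∈ Fintype.piFinset B, na G (f k) (f l) ≤
      Q * (4 * C / m) := by
    intro k l hkl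
    have h1 := pair_sum B hkl fun y z => na G y z
    have h2 : ∑ y ∈ B k, ∑ z ∈ B l, na G y z ≤ C * m := by
      refine le_trans (le_of_eq ?_) (hbs.tot k l hkl)
      exact sum_congr rfl fun y _ => sum_na (B l) y
    have h3 : (0 : ℝ) ≤ ∑ f ∈ Fintype.piFinset B, na G (f k) (f l) :=
      sum_nonneg fun _ _ => na_nonneg _ _
    have h4 : (m : ℝ) / 2 * (m / 2) * ∑ f ∈ Fintype.piFinset B, na G (f k) (f l) ≤
        Q * (C * m) := by
      calc (m : ℝ) / 2 * (m / 2) * ∑ f ∈ Fintype.piFinset B, na G (f k) (f l)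
          ≤ ((B k).card : ℝ) * (B l).card * ∑ f ∈ Fintype.piFinset B, na G (f k) (f l) := by
            refine mul_le_mul_of_nonneg_right ?_ h3
            exact mul_le_mul (hb k) (hb l) (by positivity) (Nat.cast_nonneg _)
        _ = Q * ∑ y ∈ B k, ∑ z ∈ B l, na G y z := h1
        _ ≤ Q * (C * m) := mul_le_mul_of_nonneg_left h2 hQ0
    have h5 : Q * (C * m) = (m : ℝ) / 2 * (m / 2) * (Q * (4 * C / m)) := by
      field_simp
      ring
    rw [h5] at h4
    exact le_of_mul_le_mul_left h4 (by positivity)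
  have h6 : Q - ((OmP G B P).card : ℝ) ≤
      ∑ f ∈ Fintype.piFinset B, ∑ k ∈ P, ∑ l ∈ P.erase k, na G (f k) (f l) := by
    have e1 : ((OmP G B P).card : ℝ) = ∑ f ∈ Fintype.piFinset B,
        (if (∀ k ∈ P, ∀ l ∈ P, k ≠ l → G.Adj (f k) (f l)) then (1 : ℝ) else 0) := by
      unfold OmP
      rw [card_filter]
      push_cast
      rfl
    have e2 : Q = ∑ _f ∈ Fintype.piFinset B, (1 : ℝ) := by
      rw [sum_const, nsmul_eq_mul, mul_one, card_Om]
    rw [e1, e2, ← sum_sub_distrib]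
    refine sum_le_sum fun f _ => ?_
    have hnn : ∀ k ∈ P, 0 ≤ ∑ l ∈ P.erase k, na G (f k) (f l) :=
      fun k _ => sum_nonneg fun l _ => na_nonneg _ _
    split_ifs with h
    · have := sum_nonneg hnn
      linarith
    · push Not at h
      obtain ⟨k, hk, l, hl, hkl, hadj⟩ := h
      have h7 : (1 : ℝ) ≤ ∑ l ∈ P.erase k, na G (f k) (f l) := by
        have h8 : na G (f k) (f l) = 1 := by
          unfold na
          rw [if_neg hadj]
        rw [← h8]
        exact single_le_sum (f := fun l => na G (f k) (f l)) (fun l _ => na_nonneg _ _)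
          (mem_erase.2 ⟨hkl.symm, hl⟩)
      have h9 := single_le_sum (f := fun k => ∑ l ∈ P.erase k, na G (f k) (f l)) hnn hk
      linarith
  have h7 : ∑ f ∈ Fintype.piFinset B, ∑ k ∈ P, ∑ l ∈ P.erase k, na G (f k) (f l) ≤
      Q * (4 * w ^ 2 * C / m) := by
    rw [sum_comm]
    have hPw : ∀ S : Finset (Fin w), (S.card : ℝ) ≤ w := by
      intro S
      have := card_le_univ S
      rw [Fintype.card_fin] at this
      exact_mod_cast this
    have hD : 0 ≤ Q * (4 * C / m) :=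
      mul_nonneg hQ0 (div_nonneg (mul_nonneg (by norm_num) hC.le) hm'.le)
    calc ∑ k ∈ P, ∑ f ∈ Fintype.piFinset B, ∑ l ∈ P.erase k, na G (f k) (f l)
        ≤ ∑ _k ∈ P, (w : ℝ) * (Q * (4 * C / m)) := by
          refine sum_le_sum fun k _ => ?_
          rw [sum_comm]
          calc ∑ l ∈ P.erase k, ∑ f ∈ Fintype.piFinset B, na G (f k) (f l)
              ≤ ∑ _l ∈ P.erase k, Q * (4 * C / m) :=
                sum_le_sum fun l hl => hpair k l (mem_erase.1 hl).1.symm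
            _ = ((P.erase k).card : ℝ) * (Q * (4 * C / m)) := by rw [sum_const, nsmul_eq_mul]
            _ ≤ w * (Q * (4 * C / m)) := mul_le_mul_of_nonneg_right (hPw _) hD
      _ = (P.card : ℝ) * (w * (Q * (4 * C / m))) := by rw [sum_const, nsmul_eq_mul]
      _ ≤ w * (w * (Q * (4 * C / m))) :=
          mul_le_mul_of_nonneg_right (hPw _) (mul_nonneg (Nat.cast_nonneg _) hD)
      _ = Q * (4 * w ^ 2 * C / m) := by ring
  nlinarith

end avm

section avm2

variable {V : Type} [Fintype V] [DecidableEq V] {G : SimpleGraph V} [DecidableRel G.Adj]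
  {𝒰 : Finset (Finset V)} {w u R r m : ℕ} {B : Fin w → Finset V} {ty : V → Fin w} {C η : ℝ}

/-- the sum of the validity over the clique tuples -/
private lemma val_sum (h : Stp G 𝒰 B ty u R r m C η) {b₀ : ℝ} (hb₀ : 0 < b₀)
    (hb : ∀ k, b₀ ≤ ((B k).card : ℝ)) {P : Finset (Fin w)} (hP : P.card = u) (Z : Finset V)
    (hZ : Z ⊆ outs B) :
    ∑ z ∈ Z, (((OmP G B P).filter fun f => ∀ l ∈ P, G.Adj (f l) z).card : ℝ) ≤
      ((OmP G B P).card : ℝ) * ((R * m + r : ℝ) - ∑ k ∈ univ \ P, ((B k).card : ℝ)) +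
        (∏ k, ((B k).card : ℝ)) * (ee G B univ / b₀) := by
  have h1 : ∑ z ∈ Z, (((OmP G B P).filter fun f => ∀ l ∈ P, G.Adj (f l) z).card : ℝ) =
      ∑ f ∈ OmP G B P, ((Z.filter fun z => ∀ l ∈ P, G.Adj (f l) z).card : ℝ) := by
    have e1 : ∀ z, (((OmP G B P).filter fun f => ∀ l ∈ P, G.Adj (f l) z).card : ℝ) =
        ∑ f ∈ OmP G B P, (if ∀ l ∈ P, G.Adj (f l) z then (1 : ℝ) else 0) := by
      intro z
      rw [card_filter]
      push_cast
      rfl
    have e2 : ∀ f : Fin w → V, ((Z.filter fun z => ∀ l ∈ P, G.Adj (f l) z).card : ℝ) =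
        ∑ z ∈ Z, (if ∀ l ∈ P, G.Adj (f l) z then (1 : ℝ) else 0) := by
      intro f
      rw [card_filter]
      push_cast
      rfl
    rw [sum_congr rfl fun z _ => e1 z, sum_congr rfl fun f _ => e2 f, sum_comm]
  have h2 : ∀ f ∈ OmP G B P, ((Z.filter fun z => ∀ l ∈ P, G.Adj (f l) z).card : ℝ) ≤
      (R * m + r : ℝ) - ∑ k ∈ univ \ P, ((B k).card : ℝ) + (rw G B univ f P : ℝ) := by
    intro f hf
    obtain ⟨hf1, hf2⟩ := mem_filter.1 hf
    have h3 := val_point h hP (fun k _ => Fintype.mem_piFinset.1 hf1 k) hf2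
    refine le_trans ?_ h3
    exact_mod_cast card_le_card (filter_subset_filter _ hZ)
  have h4 : ∑ f ∈ OmP G B P, (rw G B univ f P : ℝ) ≤
      (∏ k, ((B k).card : ℝ)) * (ee G B univ / b₀) :=
    (sum_le_sum_of_subset_of_nonneg (filter_subset _ _) fun _ _ _ => Nat.cast_nonneg _).trans
      (sum_rw_le hb₀ hb P)
  rw [h1]
  calc _ ≤ ∑ f ∈ OmP G B P, ((R * m + r : ℝ) - ∑ k ∈ univ \ P, ((B k).card : ℝ) +
        (rw G B univ f P : ℝ)) := sum_le_sum h2
    _ = ((OmP G B P).card : ℝ) * ((R * m + r : ℝ) - ∑ k ∈ univ \ P, ((B k).card : ℝ)) +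
        ∑ f ∈ OmP G B P, (rw G B univ f P : ℝ) := by
        rw [sum_add_distrib, sum_const, nsmul_eq_mul]
    _ ≤ _ := by linarith

/-- the clique tuples adjacent to `z` are most of the tuples adjacent to `z` -/
private lemma card_both (B : Fin w → Finset V) (P : Finset (Fin w)) (z : V) :
    (((Fintype.piFinset B).filter fun f => ∀ l ∈ P, G.Adj (f l) z).card : ℝ) +
        ((OmP G B P).card : ℝ) - ∏ k, ((B k).card : ℝ) ≤
      (((OmP G B P).filter fun f => ∀ l ∈ P, G.Adj (f l) z).card : ℝ) := by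
  set S := (Fintype.piFinset B).filter fun f => ∀ l ∈ P, G.Adj (f l) z with hS
  have h1 : S ∩ OmP G B P = (OmP G B P).filter fun f => ∀ l ∈ P, G.Adj (f l) z := by
    ext f
    simp only [hS, OmP, mem_inter, mem_filter]
    tauto
  have h2 := card_union_add_card_inter S (OmP G B P)
  have h3 : (S ∪ OmP G B P).card ≤ (Fintype.piFinset B).card :=
    card_le_card (union_subset (filter_subset _ _) (filter_subset _ _))
  have h4 : ((S ∪ OmP G B P).card : ℝ) ≤ ∏ k, ((B k).card : ℝ) := by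
    rw [← card_Om]
    exact_mod_cast h3
  have h5 : ((S ∪ OmP G B P).card : ℝ) + ((S ∩ OmP G B P).card : ℝ) =
      (S.card : ℝ) + ((OmP G B P).card : ℝ) := by exact_mod_cast h2
  rw [h1] at h5
  linarith

/-- a bound for the vertices whose type is not in `P` -/
private lemma Z1_P (h : Stp G 𝒰 B ty u R r m C η) (hp : Par u R) (hC : 0 < C) (hm : 2 * C ≤ m)
    (hm0 : 0 < m) (hm1 : 8 * (w : ℝ) ^ 2 * C / eta0 u R ≤ m) {P : Finset (Fin w)}
    (hP : P.card = u) :
    (((Z1 G B ty (4 * w * η) (eta0 u R)).filter fun z => ty z ∉ P).card : ℝ) ≤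
      2 * (r + R * C + 2 * w ^ 2 * C) / eta0 u R := by
  classical
  have he := (eta0_pos hp).1
  have hm' : (0 : ℝ) < m := by exact_mod_cast hm0
  have hb : ∀ k, (m : ℝ) / 2 ≤ ((B k).card : ℝ) := by
    intro k
    have := (abs_le.1 (h.bs.size k)).1
    linarith
  have hbpos : ∀ k, 0 < ((B k).card : ℝ) := fun k => lt_of_lt_of_le (by positivity) (hb k)
  set Q : ℝ := ∏ k, ((B k).card : ℝ) with hQ
  have hQ0 : 0 < Q := prod_pos fun k _ => hbpos k
  set Z := (Z1 G B ty (4 * w * η) (eta0 u R)).filter fun z => ty z ∉ P with hZ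
  have hZo : Z ⊆ outs B := by
    intro z hz
    have h1 := (mem_filter.1 hz).1
    unfold Z1 at h1
    exact (mem_filter.1 h1).1
  have h1 := val_sum h (half_pos hm') hb hP Z hZo
  have hOm := card_OmP h.bs hC hm hm0 P
  -- lower bound
  have h2 : ∀ z ∈ Z, Q * (eta0 u R / 2) ≤
      (((OmP G B P).filter fun f => ∀ l ∈ P, G.Adj (f l) z).card : ℝ) := by
    intro z hz
    obtain ⟨hz1, hz2⟩ := mem_filter.1 hz
    unfold Z1 at hz1
    obtain ⟨_, hz3, hz4⟩ := mem_filter.1 hz1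
    have h3 := card_both (G := G) B P z
    rw [card_adj hbpos z P] at h3
    have h4 : eta0 u R ≤ ∏ l ∈ P, al G B z l := by
      refine hz4.trans ?_
      unfold pz
      have hsub : P ⊆ univ.erase (ty z) := by
        intro l hl
        refine mem_erase.2 ⟨?_, mem_univ _⟩
        rintro rfl
        exact hz2 hl
      rw [← prod_sdiff hsub]
      have h5 : ∏ k ∈ univ.erase (ty z) \ P, al G B z k ≤ 1 :=
        prod_le_one (fun k _ => al_nonneg B z k) fun k _ => al_le_one B z k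
      have h6 : 0 ≤ ∏ k ∈ P, al G B z k := prod_nonneg fun k _ => al_nonneg B z k
      calc _ ≤ 1 * ∏ k ∈ P, al G B z k := mul_le_mul_of_nonneg_right h5 h6
        _ = _ := one_mul _
    have h5 : Q * eta0 u R ≤ Q * ∏ l ∈ P, al G B z l := mul_le_mul_of_nonneg_left h4 hQ0.le
    have h6 : 4 * (w : ℝ) ^ 2 * C / m ≤ eta0 u R / 2 := by
      rw [div_le_iff₀ hm']
      rw [div_le_iff₀ he] at hm1
      linarith
    have h7 : Q * (4 * (w : ℝ) ^ 2 * C / m) ≤ Q * (eta0 u R / 2) :=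
      mul_le_mul_of_nonneg_left h6 hQ0.le
    nlinarith
  have h3 : (Z.card : ℝ) * (Q * (eta0 u R / 2)) ≤
      ∑ z ∈ Z, (((OmP G B P).filter fun f => ∀ l ∈ P, G.Adj (f l) z).card : ℝ) := by
    have := card_nsmul_le_sum Z _ _ h2
    rwa [nsmul_eq_mul] at this
  -- upper bound
  have hcR : ((univ \ P).card : ℝ) = R := by
    have h4 : (univ \ P).card = R := by
      rw [card_sdiff_of_subset (subset_univ P), card_univ, Fintype.card_fin, hP, h.hw]
      omega
    rw [h4]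
  have h4 : (R * m + r : ℝ) - ∑ k ∈ univ \ P, ((B k).card : ℝ) ≤ r + R * C := by
    have h5 : ∑ _k ∈ univ \ P, ((m : ℝ) - C) ≤ ∑ k ∈ univ \ P, ((B k).card : ℝ) := by
      refine sum_le_sum fun k _ => ?_
      have := (abs_le.1 (h.bs.size k)).1
      linarith
    rw [sum_const, nsmul_eq_mul, hcR] at h5
    nlinarith
  have h5 : ((OmP G B P).card : ℝ) ≤ Q := by
    rw [hQ, ← card_Om]
    exact_mod_cast card_le_card (filter_subset _ _)
  have h6 : ((OmP G B P).card : ℝ) * ((R * m + r : ℝ) - ∑ k ∈ univ \ P, ((B k).card : ℝ)) ≤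
      Q * (r + R * C) := by
    calc _ ≤ ((OmP G B P).card : ℝ) * (r + R * C) :=
          mul_le_mul_of_nonneg_left h4 (Nat.cast_nonneg _)
      _ ≤ Q * (r + R * C) := mul_le_mul_of_nonneg_right h5 (by positivity)
  have h7 : ee G B univ / (m / 2) ≤ 2 * w ^ 2 * C := by
    rw [div_le_iff₀ (half_pos hm')]
    have := (ee_le h).1
    linarith
  have h8 : Q * (ee G B univ / (m / 2)) ≤ Q * (2 * w ^ 2 * C) :=
    mul_le_mul_of_nonneg_left h7 hQ0.le
  have h9 : (Z.card : ℝ) * (Q * (eta0 u R / 2)) ≤ Q * (r + R * C + 2 * w ^ 2 * C) := by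
    linarith
  have h10 : Q * ((Z.card : ℝ) * (eta0 u R / 2)) ≤ Q * (r + R * C + 2 * w ^ 2 * C) := by
    linarith
  have h11 := le_of_mul_le_mul_left h10 hQ0
  rw [le_div_iff₀ he]
  linarith

end avm2

/-- `|Z₁| ≤ C'`.  Proof: for every `i` choose `P ∌ i`, `|P| = u`; sum `val_point` over the
`f ∈ Ω` whose restriction to `P` is a clique: the right side is `≤ (w C + r) |Ω| + ∑ rw ≤ C |Ω|`;
every `z ∈ Z₁` with `ty z = i` is adjacent to `≥ (η₀ - C/m) |Ω|` of these `f`. -/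
theorem Z1_card (u R r : ℕ) (hp : Par u R) (hr : r < R) :
    ∀ η : ℝ, 0 < η → ∀ C : ℝ, 0 < C → ∃ C' : ℝ, 0 < C' ∧ ∃ m₀ : ℕ, ∀ m : ℕ, m₀ ≤ m →
      ∀ (V : Type) [Fintype V] [DecidableEq V] (G : SimpleGraph V) [DecidableRel G.Adj]
        (𝒰 : Finset (Finset V)) (w : ℕ) (B : Fin w → Finset V) (ty : V → Fin w),
        Stp G 𝒰 B ty u R r m C η →
        ((Z1 G B ty (4 * w * η) (eta0 u R)).card : ℝ) ≤ C' := by
  intro η hη C hC
  have he := (eta0_pos hp).1
  set C₅ : ℝ := 2 * (r + R * C + 2 * ((R + u : ℕ) : ℝ) ^ 2 * C) / eta0 u R with hC₅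
  have hC₅0 : 0 ≤ C₅ := by positivity
  obtain ⟨m₀, hm₀⟩ := exists_nat_ge (2 * C + 8 * ((R + u : ℕ) : ℝ) ^ 2 * C / eta0 u R)
  refine ⟨((R + u : ℕ) : ℝ) * C₅ + 1, by positivity, m₀ + 1, ?_⟩
  intro m hm V _ _ G _ 𝒰 w B ty h
  classical
  obtain rfl : w = R + u := h.hw
  have hm0 : 0 < m := by omega
  have hmm : (m₀ : ℝ) ≤ m := by exact_mod_cast (by omega : m₀ ≤ m)
  have hpos1 : 0 ≤ 8 * ((R + u : ℕ) : ℝ) ^ 2 * C / eta0 u R := by positivity
  have hm2 : 2 * C ≤ m := by linarith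
  have hm3 : 8 * ((R + u : ℕ) : ℝ) ^ 2 * C / eta0 u R ≤ m := by linarith
  set Z := Z1 G B ty (4 * ((R + u : ℕ) : ℝ) * η) (eta0 u R) with hZ
  have hone : ∀ i : Fin (R + u), ((Z.filter fun z => ty z = i).card : ℝ) ≤ C₅ := by
    intro i
    have hRpos : 0 < R := by
      have := hp.hR
      omega
    have hex : ∃ P ⊆ (univ : Finset (Fin (R + u))).erase i, P.card = u := by
      refine exists_subset_card_eq ?_
      rw [card_erase_of_mem (mem_univ i), card_univ, Fintype.card_fin]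
      omega
    obtain ⟨P, hPi, hP⟩ := hex
    have h1 : ((Z.filter fun z => ty z ∉ P).card : ℝ) ≤ C₅ := Z1_P h hp hC hm2 hm0 hm3 hP
    refine le_trans ?_ h1
    have h2 : (Z.filter fun z => ty z = i) ⊆ Z.filter fun z => ty z ∉ P := by
      intro z hz
      obtain ⟨hz1, hz2⟩ := mem_filter.1 hz
      refine mem_filter.2 ⟨hz1, ?_⟩
      rw [hz2]
      intro hi
      exact (mem_erase.1 (hPi hi)).1 rfl
    exact_mod_cast card_le_card h2
  have hsum : (Z.card : ℝ) = ∑ i, ((Z.filter fun z => ty z = i).card : ℝ) := by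
    have := card_eq_sum_card_fiberwise (s := Z) (t := (univ : Finset (Fin (R + u)))) (f := ty)
      (fun _ _ => mem_univ _)
    exact_mod_cast this
  rw [hsum]
  calc ∑ i, ((Z.filter fun z => ty z = i).card : ℝ) ≤ ∑ _i : Fin (R + u), C₅ :=
        sum_le_sum fun i _ => hone i
    _ = ((R + u : ℕ) : ℝ) * C₅ := by rw [sum_const, card_univ, Fintype.card_fin, nsmul_eq_mul]
    _ ≤ _ := by linarith

/-- (AV).  Proof: sum `val_point` over the `f ∈ Ω` with `f(P)` a clique; a vertex `z ∈ Z₁`,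
`ty z ∉ P`, is not adjacent to at most `∑_{l ∈ P} (1 - al z l) |Ω|` of them. -/
theorem av (u R r : ℕ) (hp : Par u R) (hr : r < R) :
    ∀ η : ℝ, 0 < η → ∀ C : ℝ, 0 < C → ∃ C' : ℝ, 0 < C' ∧ ∃ m₀ : ℕ, ∀ m : ℕ, m₀ ≤ m →
      ∀ (V : Type) [Fintype V] [DecidableEq V] (G : SimpleGraph V) [DecidableRel G.Adj]
        (𝒰 : Finset (Finset V)) (w : ℕ) (B : Fin w → Finset V) (ty : V → Fin w),
        Stp G 𝒰 B ty u R r m C η → ∀ P : Finset (Fin w), P.card = u →
        (nP G B ty m r (4 * w * η) (eta0 u R) : ℝ) -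
            ((∑ k ∈ P, xP G B ty m (4 * w * η) (eta0 u R) k : ℤ) : ℝ) - C' / m ≤
          yy G B ty m (4 * w * η) (eta0 u R) := by
  intro η hη C hC
  obtain ⟨C₁, hC₁, m₁, hm₁⟩ := Z1_card u R r hp hr η hη C hC
  have he := (eta0_pos hp).1
  set W : ℝ := ((R + u : ℕ) : ℝ) with hW
  have hW0 : 0 ≤ W := Nat.cast_nonneg _
  obtain ⟨m₀, hm₀⟩ := exists_nat_ge (2 * C)
  refine ⟨4 * W ^ 2 * C * (R * C + C₁) + 2 * W ^ 2 * C ^ 2 + 1, by positivity,
    max m₁ (m₀ + 1), ?_⟩
  intro m hm V _ _ G _ 𝒰 w B ty h P hP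
  classical
  obtain rfl : w = R + u := h.hw
  have hZc := hm₁ m (le_trans (le_max_left _ _) hm) V G 𝒰 (R + u) B ty h
  have hm' : m₀ + 1 ≤ m := le_trans (le_max_right _ _) hm
  have hm0 : 0 < m := by omega
  have hmm : (m₀ : ℝ) ≤ m := by exact_mod_cast (by omega : m₀ ≤ m)
  have hm2 : 2 * C ≤ m := by linarith
  have hmR : (0 : ℝ) < m := by exact_mod_cast hm0
  set ε : ℝ := 4 * ((R + u : ℕ) : ℝ) * η with hε
  set Z := Z1 G B ty ε (eta0 u R) with hZ
  have hbl : ∀ k, (m : ℝ) - C ≤ ((B k).card : ℝ) := by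
    intro k
    have := (abs_le.1 (h.bs.size k)).1
    linarith
  have hmC : (m : ℝ) / 2 ≤ m - C := by linarith
  have hbpos : ∀ k, 0 < ((B k).card : ℝ) := fun k => lt_of_lt_of_le (by linarith) (hbl k)
  set Q : ℝ := ∏ k, ((B k).card : ℝ) with hQ
  have hQ0 : 0 < Q := prod_pos fun k _ => hbpos k
  have hcR : (univ \ P).card = R := by
    rw [card_sdiff_of_subset (subset_univ P), card_univ, Fintype.card_fin, hP]
    omega
  set Z' := Z.filter fun z => ty z ∉ P with hZ'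
  -- the left side
  set N : ℝ := ∑ k ∈ univ \ P, ((B k).card : ℝ) - R * m - r + (Z'.card : ℝ) with hN
  have hleft : (nP G B ty m r ε (eta0 u R) : ℝ) -
      ((∑ k ∈ P, xP G B ty m ε (eta0 u R) k : ℤ) : ℝ) = N := by
    have e1 : nP G B ty m r ε (eta0 u R) - ∑ k ∈ P, xP G B ty m ε (eta0 u R) k =
        ∑ k ∈ univ \ P, xP G B ty m ε (eta0 u R) k - r := by
      unfold nP
      rw [← sum_sdiff (subset_univ P)]
      ring
    have e2 : ∑ k ∈ univ \ P, xP G B ty m ε (eta0 u R) k =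
        ∑ k ∈ univ \ P, ((B k).card : ℤ) - R * m + Z'.card := by
      unfold xP
      rw [sum_add_distrib, sum_sub_distrib, sum_const, hcR, nsmul_eq_mul]
      congr 1
      have e3 : Z'.card = ∑ k ∈ univ \ P, (Z.filter fun z => ty z = k).card := by
        rw [card_eq_sum_card_fiberwise (s := Z') (t := univ \ P) (f := ty)
          (fun z hz => mem_sdiff.2 ⟨mem_univ _, (mem_filter.1 hz).2⟩)]
        refine sum_congr rfl fun k hk => ?_
        congr 1
        ext z
        simp only [hZ', mem_filter]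
        constructor
        · rintro ⟨⟨h1, _⟩, h2⟩
          exact ⟨h1, h2⟩
        · rintro ⟨h1, h2⟩
          exact ⟨⟨h1, h2 ▸ (mem_sdiff.1 hk).2⟩, h2⟩
      rw [e3]
      push_cast
      rfl
    have e4 : ((nP G B ty m r ε (eta0 u R) - ∑ k ∈ P, xP G B ty m ε (eta0 u R) k : ℤ) : ℝ) =
        N := by
      rw [e1, e2, hN]
      push_cast
      ring
    rw [← e4]
    push_cast
    ring
  rw [hleft]
  -- `y` is nonnegative
  have hee := ee_le h
  have hsg : ∀ z ∈ Z, 0 ≤ sgm G B z := by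
    intro z hz
    rw [hZ] at hz
    unfold Z1 at hz
    have h1 := (mem_filter.1 hz).1
    have h2 := h.sgl z (mem_sdiff.1 h1).2
    linarith
  have hS0 : 0 ≤ ∑ z ∈ Z, sgm G B z := sum_nonneg hsg
  have hy : yy G B ty m ε (eta0 u R) = ee G B univ / m + ∑ z ∈ Z, sgm G B z := rfl
  rw [hy]
  rcases le_or_gt N 0 with hN0 | hN0
  · have h1 : 0 ≤ ee G B univ / m := div_nonneg hee.2 hmR.le
    have h2 : 0 ≤ (4 * W ^ 2 * C * (R * C + C₁) + 2 * W ^ 2 * C ^ 2 + 1) / (m : ℝ) := by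
      positivity
    linarith
  -- the main inequality
  have hZo : Z' ⊆ outs B := by
    intro z hz
    have h1 := (mem_filter.1 hz).1
    rw [hZ] at h1
    unfold Z1 at h1
    exact (mem_filter.1 h1).1
  have hmCpos : 0 < (m : ℝ) - C := by linarith
  have h1 := val_sum h hmCpos hbl hP Z' hZo
  have hOm := card_OmP h.bs hC hm2 hm0 P
  set O : ℝ := ((OmP G B P).card : ℝ) with hO
  have h2 : ∀ z ∈ Z', O - Q * sgm G B z ≤
      (((OmP G B P).filter fun f => ∀ l ∈ P, G.Adj (f l) z).card : ℝ) := by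
    intro z hz
    obtain ⟨hz1, hz2⟩ := mem_filter.1 hz
    rw [hZ] at hz1
    unfold Z1 at hz1
    obtain ⟨_, hz3, _⟩ := mem_filter.1 hz1
    have h3 := card_both (G := G) B P z
    rw [card_adj hbpos z P] at h3
    have h4 : 1 - sgm G B z ≤ ∏ l ∈ P, al G B z l := by
      rw [sgm_eq hz3]
      have h5 : ∑ l ∈ P, (1 - al G B z l) ≤ sgE G B univ ty z := by
        unfold sgE
        refine sum_le_sum_of_subset_of_nonneg ?_ fun k _ _ => sub_nonneg.2 (al_le_one B z k)
        intro l hl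
        refine mem_erase.2 ⟨?_, mem_univ _⟩
        rintro rfl
        exact hz2 hl
      have h6 : 1 - ∑ l ∈ P, (1 - al G B z l) ≤ ∏ l ∈ P, al G B z l := by
        have h7 := one_sub_le_pz (G := G) B (insert (ty z) P) ty z
        unfold sgE pz at h7
        rwa [erase_insert hz2] at h7
      linarith
    have h5 : Q * (1 - sgm G B z) ≤ Q * ∏ l ∈ P, al G B z l :=
      mul_le_mul_of_nonneg_left h4 hQ0.le
    linarith
  have h3 : (Z'.card : ℝ) * O - Q * ∑ z ∈ Z', sgm G B z ≤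
      ∑ z ∈ Z', (((OmP G B P).filter fun f => ∀ l ∈ P, G.Adj (f l) z).card : ℝ) := by
    have h4 := sum_le_sum h2
    rw [sum_sub_distrib, sum_const, nsmul_eq_mul, ← mul_sum] at h4
    exact h4
  have h4 : ∑ z ∈ Z', sgm G B z ≤ ∑ z ∈ Z, sgm G B z :=
    sum_le_sum_of_subset_of_nonneg (filter_subset _ _) fun z hz _ => hsg z hz
  have h5 : O * N ≤ Q * (ee G B univ / (m - C) + ∑ z ∈ Z, sgm G B z) := by
    have h6 : Q * ∑ z ∈ Z', sgm G B z ≤ Q * ∑ z ∈ Z, sgm G B z :=
      mul_le_mul_of_nonneg_left h4 hQ0.le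
    have h7 : O * N = (Z'.card : ℝ) * O -
        O * ((R * m + r : ℝ) - ∑ k ∈ univ \ P, ((B k).card : ℝ)) := by
      rw [hN]
      ring
    rw [h7]
    linarith
  have h6 : Q * (1 - 4 * W ^ 2 * C / m) * N ≤
      Q * (ee G B univ / (m - C) + ∑ z ∈ Z, sgm G B z) :=
    (mul_le_mul_of_nonneg_right hOm hN0.le).trans h5
  have h7 : (1 - 4 * W ^ 2 * C / m) * N ≤
      ee G B univ / (m - C) + ∑ z ∈ Z, sgm G B z := by
    rw [mul_assoc] at h6
    exact le_of_mul_le_mul_left h6 hQ0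
  -- bounds of the error terms
  have hNle : N ≤ R * C + C₁ := by
    have h8 : ∑ k ∈ univ \ P, ((B k).card : ℝ) ≤ R * (m + C) := by
      calc ∑ k ∈ univ \ P, ((B k).card : ℝ) ≤ ∑ _k ∈ univ \ P, ((m : ℝ) + C) := by
            refine sum_le_sum fun k _ => ?_
            have := (abs_le.1 (h.bs.size k)).2
            linarith
        _ = R * (m + C) := by rw [sum_const, nsmul_eq_mul, hcR]
    have h9 : (Z'.card : ℝ) ≤ C₁ := by
      refine le_trans ?_ hZc
      exact_mod_cast card_le_card (filter_subset _ _)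
    have h10 : (0 : ℝ) ≤ r := Nat.cast_nonneg _
    rw [hN]
    clear_value N
    linarith [mul_add (R : ℝ) (m : ℝ) C]
  have h8 : 4 * W ^ 2 * C / m * N ≤ 4 * W ^ 2 * C * (R * C + C₁) / m := by
    have h9 : 0 ≤ 4 * W ^ 2 * C / m := by positivity
    calc 4 * W ^ 2 * C / m * N ≤ 4 * W ^ 2 * C / m * (R * C + C₁) :=
          mul_le_mul_of_nonneg_left hNle h9
      _ = _ := by ring
  have h9 : ee G B univ / (m - C) ≤ ee G B univ / m + 2 * W ^ 2 * C ^ 2 / m := by
    have h10 : ee G B univ ≤ W ^ 2 * C * m := hee.1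
    have h11 : ee G B univ / (m - C) - ee G B univ / m = ee G B univ * C / (m * (m - C)) := by
      field_simp
      ring
    have h12 : ee G B univ * C / (m * (m - C)) ≤ 2 * W ^ 2 * C ^ 2 / m := by
      rw [div_le_div_iff₀ (mul_pos hmR hmCpos) hmR]
      have h13 : ee G B univ * C * m ≤ W ^ 2 * C * m * C * m := by
        have h16 := mul_le_mul_of_nonneg_right h10 (mul_nonneg hC.le hmR.le)
        linarith
      have h14 : W ^ 2 * C * m * C * m ≤ 2 * W ^ 2 * C ^ 2 * (m * (m - C)) := by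
        have h15 : 0 ≤ W ^ 2 * C ^ 2 * m := by positivity
        have h16 := mul_nonneg h15 (sub_nonneg.2 hm2)
        linarith
      linarith
    linarith
  have h10 : (4 * W ^ 2 * C * (R * C + C₁) + 2 * W ^ 2 * C ^ 2 + 1) / (m : ℝ) =
      4 * W ^ 2 * C * (R * C + C₁) / m + 2 * W ^ 2 * C ^ 2 / m + 1 / m := by ring
  have h11 : 0 ≤ 1 / (m : ℝ) := by positivity
  rw [h10]
  have h12 : (1 - 4 * W ^ 2 * C / m) * N = N - 4 * W ^ 2 * C / m * N := by ring
  rw [h12] at h7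
  linarith

end H23CL
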