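import Pool.Agent.H23.CL.AStr
import Pool.Agent.H57.LC.LStr

/-! Step 3 of note 3669: the parts `B_i`. -/

set_option autoImplicit false

namespace H23CL

open Finset H57LC

set_option linter.unusedSectionVars false

section aux

variable {V : Type} [Fintype V] [DecidableEq V] {G : SimpleGraph V} [DecidableRel G.Adj]

/-- Markov: few members of `A` miss many elements of `D` -/
private lemma BStr_markov (A D : Finset V) {K S : ℝ} (hK : 0 < K)
    (h : ∑ z ∈ D, ((hs G A z).card : ℝ) ≤ S) :
    ((A.filter fun y => K < ((hs G D y).card : ℝ)).card : ℝ) ≤ S / K := by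
  rw [le_div_iff₀ hK]
  calc ((A.filter fun y => K < ((hs G D y).card : ℝ)).card : ℝ) * K
      = ∑ _y ∈ A.filter fun y => K < ((hs G D y).card : ℝ), K := by
        rw [sum_const, nsmul_eq_mul]
    _ ≤ ∑ y ∈ A.filter fun y => K < ((hs G D y).card : ℝ), ((hs G D y).card : ℝ) :=
        sum_le_sum fun y hy => (mem_filter.1 hy).2.le
    _ ≤ ∑ y ∈ A, ((hs G D y).card : ℝ) :=
        sum_le_sum_of_subset_of_nonneg (filter_subset _ _) fun _ _ _ => Nat.cast_nonneg _
    _ = ∑ y ∈ A, ∑ z ∈ D, na G y z := sum_congr rfl fun y _ => (sum_na _ _).symm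
    _ = ∑ z ∈ D, ∑ y ∈ A, na G y z := sum_comm
    _ = ∑ z ∈ D, ((hs G A z).card : ℝ) := by
        refine sum_congr rfl fun z _ => ?_
        rw [← sum_na]
        exact sum_congr rfl fun y _ => na_comm _ _
    _ ≤ S := h

/-- the common neighbours of a set of vertices inside `D` -/
private lemma BStr_common (D U : Finset V) {K : ℝ} (hU : ∀ a ∈ U, ((hs G D a).card : ℝ) ≤ K) :
    (D.card : ℝ) - U.card * K ≤ ((D.filter fun z => ∀ a ∈ U, G.Adj a z).card : ℝ) := by
  have h1 : D ⊆ (D.filter fun z => ∀ a ∈ U, G.Adj a z) ∪ U.biUnion fun a => hs G D a := by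
    intro t ht
    by_cases h : ∀ a ∈ U, G.Adj a t
    · exact mem_union_left _ (mem_filter.2 ⟨ht, h⟩)
    · push Not at h
      obtain ⟨a, ha, h⟩ := h
      exact mem_union_right _ (mem_biUnion.2 ⟨a, ha, mem_hs.2 ⟨ht, h⟩⟩)
  have h2 := (card_le_card h1).trans ((card_union_le _ _).trans
    (Nat.add_le_add_left card_biUnion_le _))
  have h3 : (D.card : ℝ) ≤ ((D.filter fun z => ∀ a ∈ U, G.Adj a z).card : ℝ) +
      ∑ a ∈ U, ((hs G D a).card : ℝ) := by exact_mod_cast h2
  have h4 : ∑ a ∈ U, ((hs G D a).card : ℝ) ≤ U.card * K := by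
    calc ∑ a ∈ U, ((hs G D a).card : ℝ) ≤ ∑ _a ∈ U, K := sum_le_sum hU
      _ = U.card * K := by rw [sum_const, nsmul_eq_mul]
  linarith

end aux

/-- Proof: `B_i := {z : ∀ j ≠ i, |hs (A_j) z| ≤ η m}`.  Large subsets of the `A_j` have a clique
transversal (`H57LC.tcl_nonempty_of_large`), so the `B_i` are disjoint and independent
(`clq univ (w+1) = ∅`), `|A_i \ B_i| ≤ C` by `tot`.  `z ∈ B_i \ A_i` is in no `A_k`; choose
`P ∌ i`, `|P| = u`, and sum the validity over the clique transversals `f` of `(A_k)_{k ∈ P}`: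
`∑_{k ∉ P} |A_k| - (missing) + #{z ∈ B_i \ A_i : z ~ f} ≤ R m + r`, so `|B_i \ A_i| ≤ C`.
`bad`: the `u`-cliques in `un B` not inside `un A` are at most `C (un B).card^(u-1)`. -/
theorem exists_BS (u R r : ℕ) (hu : 1 ≤ u) (huR : u ≤ R) (hR : 2 ≤ R) :
    ∃ η₁ : ℝ, 0 < η₁ ∧ ∀ η : ℝ, 0 < η → η ≤ η₁ → ∀ C₁ : ℝ, 0 < C₁ →
      ∃ C : ℝ, 0 < C ∧ ∃ m₀ : ℕ, ∀ m : ℕ, m₀ ≤ m →
      ∀ (V : Type) [Fintype V] [DecidableEq V] (G : SimpleGraph V) [DecidableRel G.Adj]
        (𝒰 : Finset (Finset V)) (A : Fin (R + u) → Finset V),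
        clq G univ (R + u + 1) = ∅ → (∀ U ∈ clq G univ u, (cn G U).card ≤ R * m + r) →
        AW G 𝒰 u m C₁ A →
        ∃ B : Fin (R + u) → Finset V, BS G m C η B ∧
          (∀ z, z ∉ un B → ∀ i, ∃ j, j ≠ i ∧ η / 2 * m ≤ ((hs G (B j) z).card : ℝ)) ∧
          (((clq G (un B) u).filter fun U => U ∉ 𝒰).card : ℝ) * m ≤ C * (m : ℝ) ^ u := by
  have hu0 : (0 : ℝ) < u := by exact_mod_cast hu
  have hu1 : (1 : ℝ) ≤ u := by exact_mod_cast hu
  refine ⟨1 / (16 * u), by positivity, fun η hη hη1 C₁ hC₁ => ?_⟩
  have hηu : u * η ≤ 1 / 16 := by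
    have h : u * η ≤ u * (1 / (16 * u)) := mul_le_mul_of_nonneg_left hη1 hu0.le
    have e : (u : ℝ) * (1 / (16 * u)) = 1 / 16 := by field_simp
    linarith
  have hη16 : η ≤ 1 / 16 := by nlinarith
  obtain ⟨W, hW⟩ : ∃ W : ℝ, W = ((R + u : ℕ) : ℝ) := ⟨_, rfl⟩
  have hW0 : 0 < W := by
    rw [hW]
    have : 0 < R + u := by omega
    exact_mod_cast this
  obtain ⟨K, hK⟩ : ∃ K : ℝ, K = 8 * W * C₁ := ⟨_, rfl⟩
  have hK0 : 0 < K := by rw [hK]; positivity
  obtain ⟨CD, hCD⟩ : ∃ CD : ℝ, CD = 2 * (r + R * C₁ + R * (u * K)) := ⟨_, rfl⟩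
  have hCD0 : 0 ≤ CD := by rw [hCD]; positivity
  obtain ⟨CA, hCA⟩ : ∃ CA : ℝ, CA = W * C₁ / η := ⟨_, rfl⟩
  have hCA0 : 0 ≤ CA := by rw [hCA]; positivity
  refine ⟨3 * CD + C₁ + CA + W * CD * (2 * W) ^ (u - 1), by positivity, ?_⟩
  obtain ⟨m₀, hm₀⟩ := exists_nat_gt (1 + 2 * W ^ 2 * C₁ + 16 * C₁ + CD / η + 2 * CA / η +
    CD + C₁)
  refine ⟨m₀, fun m hm V _ _ G _ 𝒰 A hfree hval hA => ?_⟩
  have hmm : (m₀ : ℝ) ≤ m := by exact_mod_cast hm
  have p1 : 0 ≤ 2 * W ^ 2 * C₁ := by positivity
  have p2 : 0 ≤ CD / η := by positivity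
  have p3 : 0 ≤ 2 * CA / η := by positivity
  have hm1 : (1 : ℝ) ≤ m := by linarith
  have hm2 : 2 * W ^ 2 * C₁ < m := by linarith
  have hm3 : 16 * C₁ ≤ m := by linarith
  have hm4 : CD / η ≤ m := by linarith
  have hm5 : 2 * CA / η ≤ m := by linarith
  have hm6 : CD + C₁ ≤ m := by linarith
  have hmpos : (0 : ℝ) < m := by linarith
  have n4 : CD ≤ η * m := by
    rw [div_le_iff₀ hη] at hm4
    linarith
  have n5 : CA ≤ η / 2 * m := by
    rw [div_le_iff₀ hη] at hm5
    linarith
  have hηm : η * m ≤ m / 16 := by nlinarith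
  classical
  -- the parts
  set B : Fin (R + u) → Finset V := fun i =>
    univ.filter fun z => ∀ j, j ≠ i → ((hs G (A j) z).card : ℝ) ≤ η * m with hB
  have memB : ∀ {i : Fin (R + u)} {z : V}, z ∈ B i ↔
      ∀ j, j ≠ i → ((hs G (A j) z).card : ℝ) ≤ η * m := by
    intro i z
    simp only [hB, mem_filter, mem_univ, true_and]
  have Alo : ∀ l, (m : ℝ) - C₁ ≤ ((A l).card : ℝ) := fun l => by
    have := (abs_le.1 (hA.size l)).1
    linarith
  have Ahi : ∀ l, ((A l).card : ℝ) ≤ m + C₁ := fun l => by
    have := (abs_le.1 (hA.size l)).2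
    linarith
  have Alarge : ∀ l, 3 / 4 * (m : ℝ) ≤ ((A l).card : ℝ) := by
    intro l
    have h := Alo l
    linarith
  -- existence of transversals in subfamilies
  have key : ∀ A' : Fin (R + u) → Finset V, (∀ l, A' l ⊆ A l) →
      (∀ l, (m : ℝ) / 2 ≤ ((A' l).card : ℝ)) → (tcl G A').Nonempty := by
    intro A' hsub hlarge
    refine tcl_nonempty_of_large A' hmpos (by rw [← hW]; exact hm2) hC₁.le hlarge
      fun i j hij => ?_
    calc ∑ z ∈ A' i, ((hs G (A' j) z).card : ℝ) ≤ ∑ z ∈ A' i, ((hs G (A j) z).card : ℝ) := by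
          refine sum_le_sum fun z _ => ?_
          exact_mod_cast card_le_card (hs_mono (hsub j) z)
      _ ≤ ∑ z ∈ A i, ((hs G (A j) z).card : ℝ) :=
          sum_le_sum_of_subset_of_nonneg (hsub i) fun _ _ _ => Nat.cast_nonneg _
      _ ≤ C₁ * m := hA.tot i j hij
  have hdisj : ∀ i j, i ≠ j → Disjoint (B i) (B j) := by
    intro i j hij
    rw [disjoint_left]
    intro z hzi hzj
    have hall : ∀ l, ((hs G (A l) z).card : ℝ) ≤ η * m := by
      intro l
      by_cases h : l = i
      · subst h
        exact memB.1 hzj l hij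
      · exact memB.1 hzi l h
    obtain ⟨f, hf⟩ := key (fun l => (A l).filter fun t => G.Adj z t) (fun l => filter_subset _ _)
      (fun l => by
        rw [hs_card_filter]
        have h1 := hall l
        have h2 := Alarge l
        linarith)
    have hf' := mem_tcl.1 hf
    have hT : im f ∈ clq G univ (R + u) := im_mem_clq (fun l => subset_univ _) hf
    obtain ⟨t, ht⟩ := hs_nonempty hfree hT (mem_univ z)
    rw [mem_hs] at ht
    obtain ⟨l, rfl⟩ := mem_im.1 ht.1
    exact ht.2 (mem_filter.1 (hf'.1 l)).2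
  have hind : ∀ i, ∀ a ∈ B i, ∀ b ∈ B i, ¬ G.Adj a b := by
    intro i a ha b hb hab
    have ha' := memB.1 ha
    have hb' := memB.1 hb
    obtain ⟨f, hf⟩ := key (fun l => if l = i then A l else
        (A l).filter fun t => G.Adj a t ∧ G.Adj b t) (fun l => by
        split_ifs
        · exact Subset.rfl
        · exact filter_subset _ _)
      (fun l => by
        split_ifs with h
        · have h2 := Alarge l
          linarith
        · have h1 := ha' l h
          have h2 := hb' l h
          have h3 := Alarge l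
          have h4 := hs_card_filter2 (G := G) (T := A l) (z := a) (z' := b)
          linarith)
    have hf' := mem_tcl.1 hf
    have hadj : ∀ l, l ≠ i → G.Adj a (f l) ∧ G.Adj b (f l) := by
      intro l hl
      have h := hf'.1 l
      rw [if_neg hl] at h
      exact (mem_filter.1 h).2
    have hg : Function.update f i a ∈ tcl G (fun _ : Fin (R + u) => (univ : Finset V)) := by
      rw [mem_tcl]
      constructor
      · intro l
        exact mem_univ _
      · intro l l' hll'
        by_cases hl : l = i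
        · subst hl
          rw [Function.update_self, Function.update_of_ne hll'.symm]
          exact (hadj l' hll'.symm).1
        · rw [Function.update_of_ne hl]
          by_cases hl' : l' = i
          · subst hl'
            rw [Function.update_self]
            exact (hadj l hl).1.symm
          · rw [Function.update_of_ne hl']
            exact hf'.2 l l' hll'
    have hT : im (Function.update f i a) ∈ clq G univ (R + u) :=
      im_mem_clq (fun _ => Subset.rfl) hg
    obtain ⟨t, ht⟩ := hs_nonempty hfree hT (mem_univ b)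
    rw [mem_hs] at ht
    obtain ⟨l, rfl⟩ := mem_im.1 ht.1
    apply ht.2
    by_cases hl : l = i
    · subst hl
      rw [Function.update_self]
      exact hab.symm
    · rw [Function.update_of_ne hl]
      exact (hadj l hl).2
  -- differences
  have hBA : ∀ i j, i ≠ j → Disjoint (B i) (A j) := by
    intro i j hij
    rw [disjoint_left]
    intro z hz hzA
    have h1 := memB.1 hz j hij.symm
    have h2 : hs G (A j) z = A j := by
      apply Subset.antisymm (hs_subset _ _)
      intro t ht
      exact mem_hs.2 ⟨ht, hA.ind j z hzA t ht⟩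
    rw [h2] at h1
    have h3 := Alarge j
    linarith
  have cBmA : ∀ i, ((B i \ A i).card : ℝ) ≤ CD := by
    intro i
    obtain ⟨D, hD⟩ : ∃ D : Finset V, D = B i \ A i := ⟨_, rfl⟩
    rw [← hD]
    rcases D.eq_empty_or_nonempty with h0 | hDne
    · rw [h0]
      simpa using hCD0
    have hDpos : (0 : ℝ) < D.card := by exact_mod_cast hDne.card_pos
    have hDA : ∀ k, Disjoint D (A k) := by
      intro k
      rw [disjoint_left]
      intro z hz hzk
      rw [hD, mem_sdiff] at hz
      by_cases h : k = i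
      · subst h
        exact hz.2 hzk
      · exact disjoint_left.1 (hBA i k (Ne.symm h)) hz.1 hzk
    -- the good vertices
    obtain ⟨f, hf⟩ := key (fun l => if l = i then A l else
        (A l).filter fun y => (∀ k, k ≠ l → ((hs G (A k) y).card : ℝ) ≤ K) ∧
          ((hs G D y).card : ℝ) ≤ D.card / (2 * u)) (fun l => by
        split_ifs
        · exact Subset.rfl
        · exact filter_subset _ _)
      (fun l => by
        split_ifs with h
        · have h2 := Alarge l
          linarith
        · -- bad vertices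
          have hb1 : ((A l).filter fun y => (D.card : ℝ) / (2 * u) < ((hs G D y).card : ℝ)).card ≤
              (m : ℝ) / 8 := by
            have h1 := BStr_markov (G := G) (A l) D (K := (D.card : ℝ) / (2 * u))
              (S := D.card * (η * m)) (by positivity) (by
                calc ∑ z ∈ D, ((hs G (A l) z).card : ℝ) ≤ ∑ _z ∈ D, η * m := by
                      refine sum_le_sum fun z hz => ?_
                      rw [hD, mem_sdiff] at hz
                      exact memB.1 hz.1 l h
                  _ = D.card * (η * m) := by rw [sum_const, nsmul_eq_mul])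
            refine h1.trans ?_
            rw [div_le_iff₀ (by positivity)]
            have e : (m : ℝ) / 8 * ((D.card : ℝ) / (2 * u)) = D.card * (m * (1 / (16 * u))) := by
              field_simp
              ring
            rw [e]
            have h2 : η * m ≤ m * (1 / (16 * u)) := by
              rw [mul_comm]
              exact mul_le_mul_of_nonneg_left hη1 hmpos.le
            exact mul_le_mul_of_nonneg_left h2 hDpos.le
          have hb2 : ∀ k, k ≠ l →
              (((A l).filter fun y => K < ((hs G (A k) y).card : ℝ)).card : ℝ) ≤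
                C₁ * m / K := by
            intro k hk
            exact BStr_markov (G := G) (A l) (A k) hK0 (hA.tot k l hk)
          have hcov : A l ⊆ ((A l).filter fun y => (∀ k, k ≠ l →
              ((hs G (A k) y).card : ℝ) ≤ K) ∧ ((hs G D y).card : ℝ) ≤ D.card / (2 * u)) ∪
              (((A l).filter fun y => (D.card : ℝ) / (2 * u) < ((hs G D y).card : ℝ)) ∪
              (univ.erase l).biUnion fun k =>
                (A l).filter fun y => K < ((hs G (A k) y).card : ℝ)) := by
            intro y hy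
            by_cases g1 : (D.card : ℝ) / (2 * u) < ((hs G D y).card : ℝ)
            · exact mem_union_right _ (mem_union_left _ (mem_filter.2 ⟨hy, g1⟩))
            by_cases g2 : ∀ k, k ≠ l → ((hs G (A k) y).card : ℝ) ≤ K
            · exact mem_union_left _ (mem_filter.2 ⟨hy, g2, not_lt.1 g1⟩)
            · push Not at g2
              obtain ⟨k, hk, g3⟩ := g2
              exact mem_union_right _ (mem_union_right _ (mem_biUnion.2
                ⟨k, mem_erase.2 ⟨hk, mem_univ _⟩, mem_filter.2 ⟨hy, g3⟩⟩))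
          have hc := (card_le_card hcov).trans ((card_union_le _ _).trans
            (Nat.add_le_add_left ((card_union_le _ _).trans
              (Nat.add_le_add_left card_biUnion_le _)) _))
          have hc' : ((A l).card : ℝ) ≤ (((A l).filter fun y => (∀ k, k ≠ l →
              ((hs G (A k) y).card : ℝ) ≤ K) ∧
              ((hs G D y).card : ℝ) ≤ D.card / (2 * u)).card : ℝ) +
              ((((A l).filter fun y => (D.card : ℝ) / (2 * u) < ((hs G D y).card : ℝ)).card : ℝ) +
              ∑ k ∈ univ.erase l,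
                (((A l).filter fun y => K < ((hs G (A k) y).card : ℝ)).card : ℝ)) := by
            exact_mod_cast hc
          have hs2 : ∑ k ∈ univ.erase l,
              (((A l).filter fun y => K < ((hs G (A k) y).card : ℝ)).card : ℝ) ≤ m / 8 := by
            calc ∑ k ∈ univ.erase l,
                (((A l).filter fun y => K < ((hs G (A k) y).card : ℝ)).card : ℝ)
                ≤ ∑ _k ∈ univ.erase l, C₁ * m / K :=
                  sum_le_sum fun k hk => hb2 k (ne_of_mem_erase hk)
              _ ≤ ∑ _k : Fin (R + u), C₁ * m / K :=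
                  sum_le_sum_of_subset_of_nonneg (erase_subset _ _) fun _ _ _ => by positivity
              _ = W * (C₁ * m / K) := by
                  rw [sum_const, card_univ, Fintype.card_fin, nsmul_eq_mul, hW]
              _ = m / 8 := by
                  rw [hK]
                  field_simp
          have h3 := Alo l
          linarith)
    have hf' := mem_tcl.1 hf
    have hfA : ∀ l, f l ∈ A l := by
      intro l
      have h := hf'.1 l
      by_cases hl : l = i
      · rw [if_pos hl] at h
        exact h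
      · rw [if_neg hl] at h
        exact (mem_filter.1 h).1
    have hfg : ∀ l, l ≠ i → (∀ k, k ≠ l → ((hs G (A k) (f l)).card : ℝ) ≤ K) ∧
        ((hs G D (f l)).card : ℝ) ≤ D.card / (2 * u) := by
      intro l hl
      have h := hf'.1 l
      rw [if_neg hl] at h
      exact (mem_filter.1 h).2
    -- the set `P`
    obtain ⟨P, hPsub, hPcard⟩ : ∃ P ⊆ (univ.erase i : Finset (Fin (R + u))), P.card = u := by
      apply exists_subset_card_eq
      rw [card_erase_of_mem (mem_univ _), card_univ, Fintype.card_fin]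
      omega
    have hPi : ∀ l ∈ P, l ≠ i := fun l hl => ne_of_mem_erase (hPsub hl)
    have hinj : Function.Injective f := tcl_injective hf
    obtain ⟨U, hU⟩ : ∃ U : Finset V, U = P.image f := ⟨_, rfl⟩
    have hUcard : U.card = u := by
      rw [hU, card_image_of_injective _ hinj, hPcard]
    have hUclq : U ∈ clq G univ u := by
      rw [mem_clq]
      refine ⟨⟨subset_univ _, hUcard⟩, (im_isCl hf).subset ?_⟩
      rw [hU]
      exact image_subset_image (subset_univ _)
    have hv := hval U hUclq
    -- lower bound for the common neighbourhood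
    have hsub : ((univ \ P).biUnion fun k => (A k).filter fun z => ∀ a ∈ U, G.Adj a z) ∪
        (D.filter fun z => ∀ a ∈ U, G.Adj a z) ⊆ cn G U := by
      intro z hz
      rw [mem_cn]
      rw [mem_union, mem_biUnion] at hz
      rcases hz with ⟨k, -, hz⟩ | hz
      · exact (mem_filter.1 hz).2
      · exact (mem_filter.1 hz).2
    have hd1 : Disjoint ((univ \ P).biUnion fun k => (A k).filter fun z => ∀ a ∈ U, G.Adj a z)
        (D.filter fun z => ∀ a ∈ U, G.Adj a z) := by
      rw [disjoint_left]
      intro z hz hzD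
      rw [mem_biUnion] at hz
      obtain ⟨k, -, hz⟩ := hz
      exact disjoint_left.1 (hDA k) (mem_filter.1 hzD).1 (mem_filter.1 hz).1
    have hd2 : ((univ \ P : Finset (Fin (R + u))) : Set (Fin (R + u))).PairwiseDisjoint
        fun k => (A k).filter fun z => ∀ a ∈ U, G.Adj a z := by
      intro k _ l _ hkl
      exact disjoint_filter_filter (hA.disj k l hkl)
    have hcard := card_le_card hsub
    rw [card_union_of_disjoint hd1, card_biUnion hd2] at hcard
    have hcard' : ∑ k ∈ univ \ P, (((A k).filter fun z => ∀ a ∈ U, G.Adj a z).card : ℝ) +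
        ((D.filter fun z => ∀ a ∈ U, G.Adj a z).card : ℝ) ≤ R * m + r := by
      have h := hcard.trans hv
      exact_mod_cast h
    have hlow1 : ∀ k ∈ univ \ P, (m : ℝ) - C₁ - u * K ≤
        (((A k).filter fun z => ∀ a ∈ U, G.Adj a z).card : ℝ) := by
      intro k hk
      have h1 := BStr_common (G := G) (A k) U (K := K) (by
        intro a ha
        rw [hU, mem_image] at ha
        obtain ⟨l, hl, rfl⟩ := ha
        exact (hfg l (hPi l hl)).1 k (fun e => (mem_sdiff.1 hk).2 (e ▸ hl)))
      rw [hUcard] at h1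
      have h2 := Alo k
      linarith
    have hlow2 : (D.card : ℝ) / 2 ≤ ((D.filter fun z => ∀ a ∈ U, G.Adj a z).card : ℝ) := by
      have h1 := BStr_common (G := G) D U (K := (D.card : ℝ) / (2 * u)) (by
        intro a ha
        rw [hU, mem_image] at ha
        obtain ⟨l, hl, rfl⟩ := ha
        exact (hfg l (hPi l hl)).2)
      rw [hUcard] at h1
      have e : (u : ℝ) * ((D.card : ℝ) / (2 * u)) = D.card / 2 := by field_simp
      rw [e] at h1
      linarith
    have hcardP : ((univ \ P : Finset (Fin (R + u))).card : ℝ) = R := by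
      have h := card_sdiff_add_card_eq_card (subset_univ P)
      rw [card_univ, Fintype.card_fin, hPcard] at h
      have h' : (univ \ P : Finset (Fin (R + u))).card = R := by omega
      rw [h']
    have hlow3 : (R : ℝ) * (m - C₁ - u * K) ≤
        ∑ k ∈ univ \ P, (((A k).filter fun z => ∀ a ∈ U, G.Adj a z).card : ℝ) := by
      calc (R : ℝ) * (m - C₁ - u * K) = ∑ _k ∈ univ \ P, ((m : ℝ) - C₁ - u * K) := by
            rw [sum_const, nsmul_eq_mul, hcardP]
        _ ≤ _ := sum_le_sum hlow1
    rw [hCD]
    linarith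
  have cAmB : ∀ i, ((A i \ B i).card : ℝ) ≤ CA := by
    intro i
    rw [hCA, le_div_iff₀ hη]
    have h1 : ((A i \ B i).card : ℝ) * (η * m) ≤
        ∑ z ∈ A i, ∑ j ∈ univ.erase i, ((hs G (A j) z).card : ℝ) := by
      calc ((A i \ B i).card : ℝ) * (η * m) = ∑ _z ∈ A i \ B i, (η * m) := by
            rw [sum_const, nsmul_eq_mul]
        _ ≤ ∑ z ∈ A i \ B i, ∑ j ∈ univ.erase i, ((hs G (A j) z).card : ℝ) := by
            refine sum_le_sum fun z hz => ?_
            rw [mem_sdiff] at hz
            have hn : ¬ ∀ j, j ≠ i → ((hs G (A j) z).card : ℝ) ≤ η * m := fun h =>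
              hz.2 (memB.2 h)
            push Not at hn
            obtain ⟨j, hji, hj⟩ := hn
            refine hj.le.trans ?_
            exact single_le_sum (f := fun j => ((hs G (A j) z).card : ℝ))
              (fun _ _ => Nat.cast_nonneg _) (mem_erase.2 ⟨hji, mem_univ _⟩)
        _ ≤ ∑ z ∈ A i, ∑ j ∈ univ.erase i, ((hs G (A j) z).card : ℝ) :=
            sum_le_sum_of_subset_of_nonneg sdiff_subset fun _ _ _ =>
              sum_nonneg fun _ _ => Nat.cast_nonneg _
    have h2 : ∑ z ∈ A i, ∑ j ∈ univ.erase i, ((hs G (A j) z).card : ℝ) ≤ W * (C₁ * m) := by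
      rw [sum_comm]
      calc ∑ j ∈ univ.erase i, ∑ z ∈ A i, ((hs G (A j) z).card : ℝ)
          ≤ ∑ _j ∈ univ.erase i, (C₁ * m) :=
            sum_le_sum fun j hj => hA.tot i j (ne_of_mem_erase hj).symm
        _ ≤ ∑ _j : Fin (R + u), (C₁ * m) :=
            sum_le_sum_of_subset_of_nonneg (erase_subset _ _) fun _ _ _ => by positivity
        _ = W * (C₁ * m) := by
            rw [sum_const, card_univ, Fintype.card_fin, nsmul_eq_mul, hW]
    have h3 : ((A i \ B i).card : ℝ) * η * m ≤ W * C₁ * m := by
      calc ((A i \ B i).card : ℝ) * η * m = ((A i \ B i).card : ℝ) * (η * m) := by ring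
        _ ≤ W * (C₁ * m) := h1.trans h2
        _ = W * C₁ * m := by ring
    exact le_of_mul_le_mul_right h3 hmpos
  have cBle : ∀ i, ((B i).card : ℝ) ≤ ((A i).card : ℝ) + CD := by
    intro i
    have h : (B i).card ≤ (A i).card + (B i \ A i).card := by
      have h1 : B i ⊆ A i ∪ (B i \ A i) := by
        intro z hz
        by_cases h : z ∈ A i
        · exact mem_union_left _ h
        · exact mem_union_right _ (mem_sdiff.2 ⟨hz, h⟩)
      exact (card_le_card h1).trans (card_union_le _ _)
    have h' : ((B i).card : ℝ) ≤ ((A i).card : ℝ) + ((B i \ A i).card : ℝ) := by exact_mod_cast h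
    linarith [cBmA i]
  have cAle : ∀ i, ((A i).card : ℝ) ≤ ((B i).card : ℝ) + CA := by
    intro i
    have h : (A i).card ≤ (B i).card + (A i \ B i).card := by
      have h1 : A i ⊆ B i ∪ (A i \ B i) := by
        intro z hz
        by_cases h : z ∈ B i
        · exact mem_union_left _ h
        · exact mem_union_right _ (mem_sdiff.2 ⟨hz, h⟩)
      exact (card_le_card h1).trans (card_union_le _ _)
    have h' : ((A i).card : ℝ) ≤ ((B i).card : ℝ) + ((A i \ B i).card : ℝ) := by exact_mod_cast h
    linarith [cAmB i]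
  have hB2m : ∀ i, ((B i).card : ℝ) ≤ 2 * m := by
    intro i
    have h5 := cBle i
    have h6 := Ahi i
    linarith
  have hq0 : 0 ≤ W * CD * (2 * W) ^ (u - 1) := by positivity
  refine ⟨B, ⟨hdisj, hind, ?_, ?_, ?_⟩, ?_, ?_⟩
  · -- size
    intro i
    rw [abs_le]
    constructor
    · have h1 := Alo i
      have h2 := cAle i
      linarith
    · have h1 := Ahi i
      have h2 := cBle i
      linarith
  · -- row
    intro i j hij z hz
    have h1 := memB.1 hz j hij.symm
    have h2 := hs_card_le_add (G := G) (T := B j) (T' := A j) z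
    linarith [cBmA j]
  · -- tot
    intro i j hij
    have h1 : ∑ z ∈ B i, ((hs G (B j) z).card : ℝ) ≤
        ∑ z ∈ B i, (((hs G (A j) z).card : ℝ) + CD) := by
      refine sum_le_sum fun z _ => ?_
      have h2 := hs_card_le_add (G := G) (T := B j) (T' := A j) z
      linarith [cBmA j]
    have h2 : ∑ z ∈ B i, ((hs G (A j) z).card : ℝ) ≤ C₁ * m + CD * (η * m) := by
      have e : B i = (B i ∩ A i) ∪ (B i \ A i) := by
        rw [union_comm, sdiff_union_inter]
      have hd : Disjoint (B i ∩ A i) (B i \ A i) := (disjoint_sdiff_inter _ _).symm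
      have h3 : ∑ z ∈ B i ∩ A i, ((hs G (A j) z).card : ℝ) ≤ C₁ * m :=
        (sum_le_sum_of_subset_of_nonneg inter_subset_right
          (fun _ _ _ => Nat.cast_nonneg _)).trans (hA.tot i j hij)
      have h4 : ∑ z ∈ B i \ A i, ((hs G (A j) z).card : ℝ) ≤ CD * (η * m) := by
        calc ∑ z ∈ B i \ A i, ((hs G (A j) z).card : ℝ) ≤ ∑ _z ∈ B i \ A i, (η * m) :=
              sum_le_sum fun z hz => memB.1 (mem_sdiff.1 hz).1 j hij.symm
          _ = ((B i \ A i).card : ℝ) * (η * m) := by rw [sum_const, nsmul_eq_mul]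
          _ ≤ CD * (η * m) := by
              have := cBmA i
              gcongr
      have h5 : ∑ z ∈ B i, ((hs G (A j) z).card : ℝ) =
          ∑ z ∈ B i ∩ A i, ((hs G (A j) z).card : ℝ) +
            ∑ z ∈ B i \ A i, ((hs G (A j) z).card : ℝ) := by
        rw [← sum_union hd, ← e]
      linarith
    have h3 : ∑ z ∈ B i, (((hs G (A j) z).card : ℝ) + CD) =
        ∑ z ∈ B i, ((hs G (A j) z).card : ℝ) + ((B i).card : ℝ) * CD := by
      rw [sum_add_distrib, sum_const, nsmul_eq_mul]
    have h4 := hB2m i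
    have h5 : ((B i).card : ℝ) * CD ≤ 2 * m * CD := by gcongr
    have h6 : CD * (η * m) ≤ CD * m := by
      have : η * m ≤ m := by linarith
      gcongr
    have h7 : 0 ≤ CA * m := by positivity
    have h8 : 0 ≤ W * CD * (2 * W) ^ (u - 1) * m := by positivity
    linarith
  · -- heavy
    intro z hz i
    have hn : ¬ ∀ j, j ≠ i → ((hs G (A j) z).card : ℝ) ≤ η * m := fun h =>
      hz (mem_un.2 ⟨i, memB.2 h⟩)
    push Not at hn
    obtain ⟨j, hji, hj⟩ := hn
    refine ⟨j, hji, ?_⟩
    have h2 := hs_card_le_add (G := G) (T := A j) (T' := B j) z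
    have h3 := cAmB j
    linarith
  · -- bad
    have hcov : ((clq G (un B) u).filter fun U => U ∉ 𝒰) ⊆
        ((clq G (un A) u).filter fun U => U ∉ 𝒰) ∪
          ((clq G (un B) u).filter fun T => ¬ T ⊆ un A) := by
      intro U hU
      obtain ⟨h1, h2⟩ := mem_filter.1 hU
      by_cases h : U ⊆ un A
      · refine mem_union_left _ (mem_filter.2 ⟨?_, h2⟩)
        rw [mem_clq] at h1 ⊢
        exact ⟨⟨h, h1.1.2⟩, h1.2⟩
      · exact mem_union_right _ (mem_filter.2 ⟨h1, h⟩)
    have h1 := (card_le_card hcov).trans ((card_union_le _ _).trans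
      (Nat.add_le_add_left (card_meet (un B) (un A) hu) _))
    have h2 : (((clq G (un B) u).filter fun U => U ∉ 𝒰).card : ℝ) ≤
        (((clq G (un A) u).filter fun U => U ∉ 𝒰).card : ℝ) +
          ((un B \ un A).card : ℝ) * ((un B).card : ℝ) ^ (u - 1) := by exact_mod_cast h1
    have h3 : ((un B \ un A).card : ℝ) ≤ W * CD := by
      have g1 : un B \ un A ⊆ univ.biUnion fun i => B i \ A i := by
        intro z hz
        rw [mem_sdiff] at hz
        obtain ⟨i, hi⟩ := mem_un.1 hz.1
        exact mem_biUnion.2 ⟨i, mem_univ _, mem_sdiff.2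
          ⟨hi, fun h => hz.2 (mem_un.2 ⟨i, h⟩)⟩⟩
      have g2 := (card_le_card g1).trans card_biUnion_le
      have g3 : ((un B \ un A).card : ℝ) ≤ ∑ i : Fin (R + u), ((B i \ A i).card : ℝ) := by
        exact_mod_cast g2
      refine g3.trans ?_
      calc ∑ i : Fin (R + u), ((B i \ A i).card : ℝ) ≤ ∑ _i : Fin (R + u), CD :=
            sum_le_sum fun i _ => cBmA i
        _ = W * CD := by rw [sum_const, card_univ, Fintype.card_fin, nsmul_eq_mul, hW]
    have h4 : ((un B).card : ℝ) ≤ 2 * W * m := by
      have g2 : (un B).card ≤ ∑ i : Fin (R + u), (B i).card := card_biUnion_le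
      have g3 : ((un B).card : ℝ) ≤ ∑ i : Fin (R + u), ((B i).card : ℝ) := by
        exact_mod_cast g2
      refine g3.trans ?_
      calc ∑ i : Fin (R + u), ((B i).card : ℝ) ≤ ∑ _i : Fin (R + u), 2 * (m : ℝ) :=
            sum_le_sum fun i _ => hB2m i
        _ = 2 * W * m := by
            rw [sum_const, card_univ, Fintype.card_fin, nsmul_eq_mul, hW]
            ring
    have h5 : ((un B \ un A).card : ℝ) * ((un B).card : ℝ) ^ (u - 1) * m ≤
        W * CD * (2 * W) ^ (u - 1) * (m : ℝ) ^ u := by
      have e : (m : ℝ) ^ u = (m : ℝ) ^ (u - 1) * m := by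
        rw [← pow_succ]
        congr 1
        omega
      calc ((un B \ un A).card : ℝ) * ((un B).card : ℝ) ^ (u - 1) * m
          ≤ W * CD * (2 * W * m) ^ (u - 1) * m := by gcongr
        _ = W * CD * (2 * W) ^ (u - 1) * (m : ℝ) ^ u := by
            rw [e, mul_pow (2 * W) (m : ℝ)]
            ring
    have h6 := hA.bad
    have hmu : (0 : ℝ) ≤ (m : ℝ) ^ u := by positivity
    calc (((clq G (un B) u).filter fun U => U ∉ 𝒰).card : ℝ) * m
        ≤ ((((clq G (un A) u).filter fun U => U ∉ 𝒰).card : ℝ) +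
          ((un B \ un A).card : ℝ) * ((un B).card : ℝ) ^ (u - 1)) * m :=
          mul_le_mul_of_nonneg_right h2 hmpos.le
      _ = (((clq G (un A) u).filter fun U => U ∉ 𝒰).card : ℝ) * m +
          ((un B \ un A).card : ℝ) * ((un B).card : ℝ) ^ (u - 1) * m := by ring
      _ ≤ C₁ * (m : ℝ) ^ u + W * CD * (2 * W) ^ (u - 1) * (m : ℝ) ^ u := add_le_add h6 h5
      _ ≤ (3 * CD + C₁ + CA + W * CD * (2 * W) ^ (u - 1)) * (m : ℝ) ^ u := by
          have g1 : 0 ≤ (3 * CD + CA) * (m : ℝ) ^ u := by positivity
          linarith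

end H23CL
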