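import Pool.Agent.H23.CL.Defs

/-! Step 0 of note 3669: the closure argument. -/

set_option autoImplicit false

namespace H23CL

open Finset H57LC

variable {V : Type*} [Fintype V] [DecidableEq V] (G : SimpleGraph V) [DecidableRel G.Adj]

/-- a minimal family of `u`-cliques with many `w`-cliques -/
theorem exists_min {u w : ℕ} (huw : u ≤ w) (ρ : ℝ)
    (h : ρ * ((clq G univ u).card : ℝ) < ((clq G univ w).card : ℝ)) :
    ∃ 𝒰 ⊆ clq G univ u, 𝒰.Nonempty ∧ ρ * (𝒰.card : ℝ) < ((KK G 𝒰 u w).card : ℝ) ∧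
      ∀ 𝒮 ⊆ 𝒰, 𝒮.Nonempty → ρ * (𝒮.card : ℝ) < ((NN G 𝒰 𝒮 u w).card : ℝ) := by
  classical
  let fam := (clq G univ u).powerset.filter fun 𝒰 => ρ * (𝒰.card : ℝ) < ((KK G 𝒰 u w).card : ℝ)
  have hKK : KK G (clq G univ u) u w = clq G univ w := by
    unfold KK
    refine filter_true_of_mem fun K hK U hU => ?_
    rw [mem_powersetCard] at hU
    rw [mem_clq] at hK ⊢
    exact ⟨⟨subset_univ _, hU.2⟩, hK.2.subset hU.1⟩
  have hne : fam.Nonempty := ⟨clq G univ u, by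
    refine mem_filter.2 ⟨mem_powerset.2 (Subset.refl _), ?_⟩
    rw [hKK]
    exact h⟩
  obtain ⟨𝒰, h𝒰, hmin⟩ := exists_min_image fam (fun 𝒰 => 𝒰.card) hne
  have h1 := (mem_filter.1 h𝒰).2
  have hsub := mem_powerset.1 (mem_filter.1 h𝒰).1
  refine ⟨𝒰, hsub, ?_, h1, ?_⟩
  · by_contra hcon
    rw [not_nonempty_iff_eq_empty] at hcon
    subst hcon
    have h2 : KK G (∅ : Finset (Finset V)) u w = ∅ := by
      rw [eq_empty_iff_forall_notMem]
      intro K hK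
      obtain ⟨hK1, hK2⟩ := mem_filter.1 hK
      have h3 : (K.powersetCard u).Nonempty := by
        rw [powersetCard_nonempty, (mem_clq.1 hK1).1.2]
        exact huw
      obtain ⟨U, hU⟩ := h3
      exact absurd (hK2 hU) (notMem_empty _)
    rw [h2] at h1
    simp at h1
  · intro 𝒮 h𝒮 hne𝒮
    by_contra hcon
    rw [not_lt] at hcon
    have hlt : (𝒰 \ 𝒮).card < 𝒰.card := by
      refine card_lt_card ⟨sdiff_subset, fun h2 => ?_⟩
      obtain ⟨U, hU⟩ := hne𝒮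
      exact (mem_sdiff.1 (h2 (h𝒮 hU))).2 hU
    have hnot : 𝒰 \ 𝒮 ∉ fam := fun h2 => absurd (hmin _ h2) (by simpa using hlt)
    have h3 : ((KK G (𝒰 \ 𝒮) u w).card : ℝ) ≤ ρ * ((𝒰 \ 𝒮).card : ℝ) := by
      by_contra h4
      rw [not_le] at h4
      exact hnot (mem_filter.2 ⟨mem_powerset.2 (sdiff_subset.trans hsub), h4⟩)
    have h5 : KK G 𝒰 u w ⊆ KK G (𝒰 \ 𝒮) u w ∪ NN G 𝒰 𝒮 u w := by
      intro K hK
      obtain ⟨hK1, hK2⟩ := mem_filter.1 hK
      by_cases h6 : ∃ U ∈ 𝒮, U ⊆ K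
      · exact mem_union_right _ (mem_filter.2 ⟨hK, h6⟩)
      · refine mem_union_left _ (mem_filter.2 ⟨hK1, fun U hU => mem_sdiff.2 ⟨hK2 hU, fun h7 => ?_⟩⟩)
        exact h6 ⟨U, h7, (mem_powersetCard.1 hU).1⟩
    have h8 : ((KK G 𝒰 u w).card : ℝ) ≤
        ((KK G (𝒰 \ 𝒮) u w).card : ℝ) + ((NN G 𝒰 𝒮 u w).card : ℝ) := by
      exact_mod_cast (card_le_card h5).trans (card_union_le _ _)
    have h9 : ((𝒰 \ 𝒮).card : ℝ) = 𝒰.card - 𝒮.card := by
      rw [card_sdiff_of_subset h𝒮, Nat.cast_sub (card_le_card h𝒮)]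
    rw [h9, mul_sub] at h3
    linarith

end H23CL
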