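import Pool.Agent.H23.CL.Ind

/-! Step 5 of note 3669: sums over tuples, independence. -/

set_option autoImplicit false

namespace H23CL

open Finset H57LC

set_option linter.unusedSectionVars false

variable {V : Type*} [DecidableEq V] {G : SimpleGraph V} [DecidableRel G.Adj] {w : ℕ}

variable [Fintype V]

/-- the image of a tuple lies in the parts -/
private lemma IndB_sub {B : Fin w → Finset V} {f : Fin w → V} (hf : f ∈ Fintype.piFinset B)
    (P : Finset (Fin w)) : P.image f ⊆ un B := by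
  intro x hx
  obtain ⟨k, _, rfl⟩ := mem_image.1 hx
  exact mem_un.2 ⟨k, Fintype.mem_piFinset.1 hf k⟩

private lemma IndB_notMem {B : Fin w → Finset V} {f : Fin w → V} (hf : f ∈ Fintype.piFinset B)
    (P : Finset (Fin w)) {z : V} (hz : z ∉ un B) : z ∉ P.image f :=
  fun h => hz (IndB_sub hf P h)

private lemma IndB_inj {B : Fin w → Finset V} (hdisj : ∀ i j, i ≠ j → Disjoint (B i) (B j))
    {f : Fin w → V} (hf : f ∈ Fintype.piFinset B) : Function.Injective f := by
  intro k l hkl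
  by_contra hne
  have h1 := Fintype.mem_piFinset.1 hf k
  have h2 := Fintype.mem_piFinset.1 hf l
  rw [hkl] at h1
  exact disjoint_left.1 (hdisj k l hne) h1 h2

/-- membership of the image of a tuple in the erased family -/
private lemma IndB_erase {B : Fin w → Finset V} {z : V} (hz : z ∉ un B) (W : Finset (Finset V))
    {X : Finset V} (hX : X ⊆ un B) :
    X ∈ (W.filter fun U => z ∈ U ∧ U.erase z ⊆ un B).image (fun U => U.erase z) ↔
      insert z X ∈ W := by
  have hzX : z ∉ X := fun h => hz (hX h)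
  rw [mem_image]
  constructor
  · rintro ⟨U, hU, rfl⟩
    obtain ⟨h1, h2, -⟩ := mem_filter.1 hU
    rwa [insert_erase h2]
  · intro h
    refine ⟨insert z X, mem_filter.2 ⟨h, mem_insert_self _ _, ?_⟩, erase_insert hzX⟩
    rwa [erase_insert hzX]

private lemma IndB_card (B : Fin w → Finset V) (z : V) (W : Finset (Finset V)) :
    ((W.filter fun U => z ∈ U ∧ U.erase z ⊆ un B).image (fun U => U.erase z)).card =
      (W.filter fun U => z ∈ U ∧ U.erase z ⊆ un B).card := by
  refine card_image_of_injOn ?_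
  intro U hU U' hU' h
  have h1 := (mem_filter.1 (mem_coe.1 hU)).2.1
  have h2 := (mem_filter.1 (mem_coe.1 hU')).2.1
  have h3 : U.erase z = U'.erase z := h
  rw [← insert_erase h1, ← insert_erase h2, h3]

/-- `|UC|` by tuples -/
theorem UC_card {u : ℕ} {B : Fin w → Finset V} (hdisj : ∀ i j, i ≠ j → Disjoint (B i) (B j))
    (hind : ∀ i, ∀ a ∈ B i, ∀ b ∈ B i, ¬ G.Adj a b) (hne : ∀ k, (B k).Nonempty)
    {𝒰 : Finset (Finset V)} (hsub : 𝒰 ⊆ clq G univ u) :
    ((UC 𝒰 B).card : ℝ) = ∑ P ∈ powersetCard u (univ : Finset (Fin w)),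
      (((Fintype.piFinset B).filter fun f => P.image f ∈ 𝒰).card : ℝ) /
        ∏ k ∈ univ \ P, ((B k).card : ℝ) := by
  rw [card_fam (G := G) (s := u) hdisj hind hne (UC 𝒰 B) ?_]
  · refine sum_congr rfl fun P _ => ?_
    congr 3
    refine filter_congr fun f hf => ?_
    unfold UC
    rw [mem_filter]
    exact ⟨fun h => h.1, fun h => ⟨h, IndB_sub hf P⟩⟩
  · intro X hX
    obtain ⟨h1, h2⟩ := mem_filter.1 hX
    obtain ⟨⟨-, h3⟩, h4⟩ := mem_clq.1 (hsub h1)
    exact ⟨h2, h3, h4⟩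

/-- `|K0|` by tuples -/
theorem K0_card {u : ℕ} {B : Fin w → Finset V} (hdisj : ∀ i j, i ≠ j → Disjoint (B i) (B j))
    (hind : ∀ i, ∀ a ∈ B i, ∀ b ∈ B i, ¬ G.Adj a b) (hne : ∀ k, (B k).Nonempty)
    (𝒰 : Finset (Finset V)) :
    ((K0 G 𝒰 B u).card : ℝ) =
      (((Fintype.piFinset B).filter fun f => univ.image f ∈ KK G 𝒰 u w).card : ℝ) := by
  rw [card_fam (G := G) (s := w) hdisj hind hne (K0 G 𝒰 B u) ?_]
  · have h1 : powersetCard w (univ : Finset (Fin w)) = {univ} := by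
      have := powersetCard_self (univ : Finset (Fin w))
      rwa [card_univ, Fintype.card_fin] at this
    rw [h1, sum_singleton, Finset.sdiff_self, prod_empty, div_one]
    congr 2
    refine filter_congr fun f hf => ?_
    unfold K0
    rw [mem_filter]
    exact ⟨fun h => h.1, fun h => ⟨h, IndB_sub hf univ⟩⟩
  · intro X hX
    obtain ⟨h1, h2⟩ := mem_filter.1 hX
    obtain ⟨⟨-, h3⟩, h4⟩ := mem_clq.1 (mem_filter.1 h1).1
    exact ⟨h2, h3, h4⟩

private lemma IndB_powerset (hw : 1 ≤ w) :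
    powersetCard (w - 1) (univ : Finset (Fin w)) = univ.image (fun i => univ.erase i) := by
  ext P
  rw [mem_powersetCard, mem_image]
  constructor
  · rintro ⟨-, hP⟩
    have h1 : (univ \ P).card = 1 := by
      rw [card_sdiff_of_subset (subset_univ P), card_univ, Fintype.card_fin, hP]
      omega
    obtain ⟨i, hi⟩ := card_eq_one.1 h1
    refine ⟨i, mem_univ i, ?_⟩
    rw [← Finset.sdiff_sdiff_eq_self (subset_univ P), hi, sdiff_singleton_eq_erase]
  · rintro ⟨i, -, rfl⟩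
    refine ⟨erase_subset _ _, ?_⟩
    rw [card_erase_of_mem (mem_univ i), card_univ, Fintype.card_fin]

/-- `|Kz|` by tuples -/
theorem Kz_card {u : ℕ} {B : Fin w → Finset V} (hw : 1 ≤ w)
    (hdisj : ∀ i j, i ≠ j → Disjoint (B i) (B j))
    (hind : ∀ i, ∀ a ∈ B i, ∀ b ∈ B i, ¬ G.Adj a b) (hne : ∀ k, (B k).Nonempty)
    (𝒰 : Finset (Finset V)) {z : V} (hz : z ∉ un B) :
    ((Kz G 𝒰 B u z).card : ℝ) = ∑ i, kz G 𝒰 B u z i := by
  unfold Kz
  rw [← IndB_card B z (KK G 𝒰 u w), card_fam (G := G) (s := w - 1) hdisj hind hne _ ?_]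
  · rw [IndB_powerset hw, sum_image]
    · refine sum_congr rfl fun i _ => ?_
      have h1 : univ \ (univ : Finset (Fin w)).erase i = {i} := by
        ext j
        simp
      unfold kz
      rw [h1, prod_singleton]
      congr 3
      exact filter_congr fun f hf => IndB_erase hz (KK G 𝒰 u w) (IndB_sub hf _)
    · intro i _ j _ hij
      by_contra hne'
      have h1 : i ∈ (univ : Finset (Fin w)).erase j := mem_erase.2 ⟨hne', mem_univ i⟩
      have h2 : (univ : Finset (Fin w)).erase i = (univ : Finset (Fin w)).erase j := hij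
      rw [← h2] at h1
      exact (mem_erase.1 h1).1 rfl
  · intro X hX
    obtain ⟨K, hK, rfl⟩ := mem_image.1 hX
    obtain ⟨h1, h2, h3⟩ := mem_filter.1 hK
    obtain ⟨⟨-, h4⟩, h5⟩ := mem_clq.1 (mem_filter.1 h1).1
    refine ⟨h3, ?_, h5.subset (erase_subset _ _)⟩
    rw [card_erase_of_mem h2, h4]

/-- `|Jz|` by tuples -/
theorem Jz_card {u : ℕ} {B : Fin w → Finset V} (hu : 1 ≤ u)
    (hdisj : ∀ i j, i ≠ j → Disjoint (B i) (B j))
    (hind : ∀ i, ∀ a ∈ B i, ∀ b ∈ B i, ¬ G.Adj a b) (hne : ∀ k, (B k).Nonempty)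
    {𝒰 : Finset (Finset V)} (hsub : 𝒰 ⊆ clq G univ u) {z : V} (hz : z ∉ un B) :
    ((Jz 𝒰 B z).card : ℝ) =
      ∑ P ∈ powersetCard (u - 1) (univ : Finset (Fin w)), jz 𝒰 B z P := by
  unfold Jz
  rw [← IndB_card B z 𝒰, card_fam (G := G) (s := u - 1) hdisj hind hne _ ?_]
  · refine sum_congr rfl fun P _ => ?_
    unfold jz
    congr 3
    exact filter_congr fun f hf => IndB_erase hz 𝒰 (IndB_sub hf P)
  · intro X hX
    obtain ⟨K, hK, rfl⟩ := mem_image.1 hX
    obtain ⟨h1, h2, h3⟩ := mem_filter.1 hK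
    obtain ⟨⟨-, h4⟩, h5⟩ := mem_clq.1 (hsub h1)
    refine ⟨h3, ?_, h5.subset (erase_subset _ _)⟩
    rw [card_erase_of_mem h2, h4]

/-- the common part of the next two theorems -/
private lemma IndB_le {u : ℕ} {B : Fin w → Finset V} (hne : ∀ k, (B k).Nonempty)
    (𝒰 : Finset (Finset V)) {z : V} {P : Finset (Fin w)} {i : Fin w} (hi : i ∉ P)
    (p : (Fin w → V) → Prop) [DecidablePred p]
    (hF : ∀ f g : Fin w → V, (∀ k ∈ P, f k = g k) → (p f ↔ p g))
    (hK : ∀ f ∈ Fintype.piFinset B, insert z ((univ.erase i).image f) ∈ KK G 𝒰 u w →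
      p f ∧ ∀ k, k ≠ i → G.Adj z (f k)) :
    kz G 𝒰 B u z i ≤ (((Fintype.piFinset B).filter p).card : ℝ) /
      (∏ k ∈ univ \ P, ((B k).card : ℝ)) *
        ∏ k ∈ (univ \ P).erase i, (al G B z k * (B k).card) := by
  classical
  set T : Finset (Fin w) := (univ \ P).erase i with hT
  have hb : ∀ k, 0 < ((B k).card : ℝ) := fun k => by exact_mod_cast (hne k).card_pos
  set F : (Fin w → V) → ℝ := fun f => if p f then 1 else 0 with hFd
  set g : Fin w → V → ℝ := fun _ y => if G.Adj z y then 1 else 0 with hg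
  have hPT : Disjoint P T := by
    rw [disjoint_right]
    intro k hk hkP
    exact (mem_sdiff.1 (mem_of_mem_erase hk)).2 hkP
  have hind := indep B P T hPT F (fun f f' h => by
    have := hF f f' h
    simp only [hFd]
    by_cases hp : p f
    · rw [if_pos hp, if_pos (this.1 hp)]
    · rw [if_neg hp, if_neg (fun h' => hp (this.2 h'))]) g
  have h1 : ∏ k ∈ T, ∑ y ∈ B k, g k y = ∏ k ∈ T, (al G B z k * (B k).card) := by
    refine prod_congr rfl fun k _ => ?_
    unfold al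
    rw [div_mul_cancel₀ _ (hb k).ne', card_filter]
    push_cast
    rfl
  have h2 : ∑ f ∈ Fintype.piFinset B, F f = (((Fintype.piFinset B).filter p).card : ℝ) := by
    rw [card_filter]
    push_cast
    rfl
  have h3 : ∏ k ∈ univ \ P, ((B k).card : ℝ) = ((B i).card : ℝ) * ∏ k ∈ T, ((B k).card : ℝ) := by
    rw [hT, mul_prod_erase (univ \ P) (fun k => ((B k).card : ℝ))
      (mem_sdiff.2 ⟨mem_univ i, hi⟩)]
  have hTp : 0 < ∏ k ∈ T, ((B k).card : ℝ) := prod_pos fun k _ => hb k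
  have h4 : (((Fintype.piFinset B).filter fun f =>
      insert z ((univ.erase i).image f) ∈ KK G 𝒰 u w).card : ℝ) ≤
      ∑ f ∈ Fintype.piFinset B, F f * ∏ k ∈ T, g k (f k) := by
    rw [card_filter]
    push_cast
    refine sum_le_sum fun f hf => ?_
    have hpos : 0 ≤ F f * ∏ k ∈ T, g k (f k) := by
      refine mul_nonneg ?_ (prod_nonneg fun k _ => ?_)
      · simp only [hFd]; split_ifs <;> norm_num
      · simp only [hg]; split_ifs <;> norm_num
    split_ifs with h
    · obtain ⟨hp, hadj⟩ := hK f hf h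
      have e1 : F f = 1 := if_pos hp
      have e2 : ∏ k ∈ T, g k (f k) = 1 := prod_eq_one fun k hk =>
        if_pos (hadj k (ne_of_mem_erase hk))
      rw [e1, e2]
      norm_num
    · exact hpos
  have h5 : ∑ f ∈ Fintype.piFinset B, F f * ∏ k ∈ T, g k (f k) =
      (((Fintype.piFinset B).filter p).card : ℝ) * (∏ k ∈ T, (al G B z k * (B k).card)) /
        ∏ k ∈ T, ((B k).card : ℝ) := by
    rw [eq_div_iff hTp.ne', hind, h1, h2]
  unfold kz
  rw [h3, div_le_iff₀ (hb i)]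
  refine h4.trans (le_of_eq ?_)
  rw [h5]
  have := (hb i).ne'
  have := hTp.ne'
  field_simp

private lemma IndB_adj {u : ℕ} {B : Fin w → Finset V} {𝒰 : Finset (Finset V)} {z : V}
    (hz : z ∉ un B) {i : Fin w} {f : Fin w → V} (hf : f ∈ Fintype.piFinset B)
    (h : insert z ((univ.erase i).image f) ∈ KK G 𝒰 u w) : ∀ k, k ≠ i → G.Adj z (f k) := by
  intro k hk
  have h1 := (mem_clq.1 (mem_filter.1 h).1).2
  refine h1 z (mem_insert_self _ _) (f k) (mem_insert_of_mem (mem_image_of_mem f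
    (mem_erase.2 ⟨hk, mem_univ k⟩))) ?_
  intro h2
  exact hz (h2 ▸ mem_un.2 ⟨k, Fintype.mem_piFinset.1 hf k⟩)

/-- (M): `κ_{z,i} ≤ j_{z,P} ∏ al_k b_k` -/
theorem kz_le_jz {u : ℕ} {B : Fin w → Finset V} (hne : ∀ k, (B k).Nonempty)
    (𝒰 : Finset (Finset V)) {z : V} (hz : z ∉ un B) {P : Finset (Fin w)} (hP : P.card + 1 = u)
    (hdisj : ∀ i j, i ≠ j → Disjoint (B i) (B j)) {i : Fin w} (hi : i ∉ P) :
    kz G 𝒰 B u z i ≤ jz 𝒰 B z P * ∏ k ∈ (univ \ P).erase i, (al G B z k * (B k).card) := by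
  refine IndB_le hne 𝒰 hi (fun f => insert z (P.image f) ∈ 𝒰) ?_ ?_
  · intro f g h
    have : P.image f = P.image g := image_congr fun k hk => h k hk
    rw [this]
  · intro f hf h
    refine ⟨?_, IndB_adj hz hf h⟩
    refine (mem_filter.1 h).2 (mem_powersetCard.2 ⟨?_, ?_⟩)
    · refine insert_subset_insert z (image_subset_image ?_)
      intro k hk
      refine mem_erase.2 ⟨?_, mem_univ k⟩
      rintro rfl
      exact hi hk
    · rw [card_insert_of_notMem (IndB_notMem hf P hz),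
        card_image_of_injective P (IndB_inj hdisj hf), hP]

/-- `κ_{z,i} ≤ np_{z,P} ∏ al_k b_k` -/
theorem kz_le_npz {u : ℕ} {B : Fin w → Finset V} (hne : ∀ k, (B k).Nonempty)
    (𝒰 : Finset (Finset V)) {z : V} (hz : z ∉ un B) {P : Finset (Fin w)}
    (hdisj : ∀ i j, i ≠ j → Disjoint (B i) (B j)) {i : Fin w} (hi : i ∉ P) :
    kz G 𝒰 B u z i ≤ npz G B z P * ∏ k ∈ (univ \ P).erase i, (al G B z k * (B k).card) := by
  refine IndB_le hne 𝒰 hi (fun f => (∀ k ∈ P, ∀ l ∈ P, k ≠ l → G.Adj (f k) (f l)) ∧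
    ∀ l ∈ P, G.Adj z (f l)) ?_ ?_
  · intro f g h
    constructor
    · rintro ⟨h1, h2⟩
      refine ⟨fun k hk l hl hkl => ?_, fun l hl => ?_⟩
      · rw [← h k hk, ← h l hl]; exact h1 k hk l hl hkl
      · rw [← h l hl]; exact h2 l hl
    · rintro ⟨h1, h2⟩
      refine ⟨fun k hk l hl hkl => ?_, fun l hl => ?_⟩
      · rw [h k hk, h l hl]; exact h1 k hk l hl hkl
      · rw [h l hl]; exact h2 l hl
  · intro f hf h
    have hadj := IndB_adj hz hf h
    have hne' : ∀ k ∈ P, k ≠ i := by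
      rintro k hk rfl
      exact hi hk
    refine ⟨⟨fun k hk l hl hkl => ?_, fun l hl => hadj l (hne' l hl)⟩, hadj⟩
    have h1 := (mem_clq.1 (mem_filter.1 h).1).2
    refine h1 (f k) (mem_insert_of_mem (mem_image_of_mem f (mem_erase.2 ⟨hne' k hk, mem_univ k⟩)))
      (f l) (mem_insert_of_mem (mem_image_of_mem f (mem_erase.2 ⟨hne' l hl, mem_univ l⟩))) ?_
    exact fun h2 => hkl (IndB_inj hdisj hf h2)

end H23CL
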