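import Pool.Agent.H23.CL.Val
import Pool.Agent.H23.CL.IndB

/-! Step 6 of note 3669: lower bounds for `|Jz|`. -/

set_option autoImplicit false

namespace H23CL

open Finset H57LC

/-- `(m + C) ^ k ≤ m ^ k (1 + K / m)` -/
private lemma CostJ_pow {C : ℝ} (hC : 0 ≤ C) (k : ℕ) : ∃ K : ℝ, 0 < K ∧ ∀ m : ℕ, 1 ≤ m →
    ((m : ℝ) + C) ^ k ≤ (m : ℝ) ^ k * (1 + K / m) := by
  induction k with
  | zero =>
    refine ⟨1, one_pos, fun m hm => ?_⟩
    have : (0 : ℝ) ≤ 1 / (m : ℝ) := by positivity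
    simp only [pow_zero, one_mul]
    linarith
  | succ k ih =>
    obtain ⟨K, hK, h⟩ := ih
    refine ⟨K + C + K * C, by positivity, fun m hm => ?_⟩
    have hm' : (1 : ℝ) ≤ m := by exact_mod_cast hm
    have hm0 : (0 : ℝ) < m := by linarith
    have h1 := h m hm
    have h2 : (1 + K / m) * ((m : ℝ) + C) ≤ m * (1 + (K + C + K * C) / m) := by
      have e1 : (1 + K / m) * ((m : ℝ) + C) = m + K + C + K * C / m := by
        field_simp
        ring
      have e2 : (m : ℝ) * (1 + (K + C + K * C) / m) = m + K + C + K * C := by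
        field_simp
        ring
      have e3 : K * C / m ≤ K * C := div_le_self (by positivity) hm'
      rw [e1, e2]
      linarith
    calc ((m : ℝ) + C) ^ (k + 1) = ((m : ℝ) + C) ^ k * ((m : ℝ) + C) := pow_succ _ _
      _ ≤ (m : ℝ) ^ k * (1 + K / m) * ((m : ℝ) + C) :=
        mul_le_mul_of_nonneg_right h1 (by positivity)
      _ = (m : ℝ) ^ k * ((1 + K / m) * ((m : ℝ) + C)) := by ring
      _ ≤ (m : ℝ) ^ k * (m * (1 + (K + C + K * C) / m)) :=
        mul_le_mul_of_nonneg_left h2 (by positivity)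
      _ = (m : ℝ) ^ (k + 1) * (1 + (K + C + K * C) / m) := by ring

/-- `∏ a (1 + ∑ (1 - a)) ≤ 1` -/
private lemma CostJ_prod {ι : Type*} [DecidableEq ι] (T : Finset ι) (a : ι → ℝ)
    (h0 : ∀ k, 0 ≤ a k) (h1 : ∀ k, a k ≤ 1) : (∏ k ∈ T, a k) * (1 + ∑ k ∈ T, (1 - a k)) ≤ 1 := by
  induction T using Finset.induction_on with
  | empty => simp
  | insert i K hi ih =>
    rw [prod_insert hi, sum_insert hi]
    have hp0 : 0 ≤ ∏ k ∈ K, a k := prod_nonneg fun k _ => h0 k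
    have hp1 : ∏ k ∈ K, a k ≤ 1 := prod_le_one (fun k _ => h0 k) fun k _ => h1 k
    have hai := h0 i
    have hai1 := h1 i
    have e : a i * (∏ k ∈ K, a k) * (1 + (1 - a i + ∑ k ∈ K, (1 - a k))) =
        a i * ((∏ k ∈ K, a k) * (1 + ∑ k ∈ K, (1 - a k)) + (∏ k ∈ K, a k) * (1 - a i)) := by ring
    rw [e]
    have h2 : (∏ k ∈ K, a k) * (1 - a i) ≤ 1 * (1 - a i) :=
      mul_le_mul_of_nonneg_right hp1 (by linarith)
    calc a i * ((∏ k ∈ K, a k) * (1 + ∑ k ∈ K, (1 - a k)) + (∏ k ∈ K, a k) * (1 - a i))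
        ≤ a i * (1 + 1 * (1 - a i)) := mul_le_mul_of_nonneg_left (by linarith) hai
      _ ≤ 1 := by nlinarith [sq_nonneg (1 - a i)]

/-- double counting over the sets `P` -/
private lemma CostJ_count {w : ℕ} (n : ℕ) (i : Fin w) (b : Fin w → ℝ) :
    ∑ P ∈ powersetCard n ((univ : Finset (Fin w)).erase i), (1 + ∑ k ∈ (univ \ P).erase i, b k) =
      ((w - 1).choose n : ℝ) + ((w - 2).choose n : ℝ) * ∑ k ∈ univ.erase i, b k := by
  have hc : ((univ : Finset (Fin w)).erase i).card = w - 1 := by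
    rw [card_erase_of_mem (mem_univ i), card_univ, Fintype.card_fin]
  rw [sum_add_distrib, sum_const, card_powersetCard, hc, nsmul_eq_mul, mul_one]
  congr 1
  have h1 : ∀ P ∈ powersetCard n ((univ : Finset (Fin w)).erase i),
      ∑ k ∈ (univ \ P).erase i, b k = ∑ k ∈ (univ : Finset (Fin w)).erase i,
        if k ∉ P then b k else 0 := by
    intro P _
    rw [← sum_filter]
    refine sum_congr ?_ fun _ _ => rfl
    ext k
    simp only [mem_erase, mem_sdiff, mem_univ, true_and, mem_filter, and_true]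
  rw [sum_congr rfl h1, sum_comm, mul_sum]
  refine sum_congr rfl fun k hk => ?_
  rw [← sum_filter, sum_const, nsmul_eq_mul]
  congr 2
  have h2 : (powersetCard n ((univ : Finset (Fin w)).erase i)).filter (fun P => k ∉ P) =
      powersetCard n (((univ : Finset (Fin w)).erase i).erase k) := by
    ext P
    simp only [mem_filter, mem_powersetCard, subset_erase]
    tauto
  rw [h2, card_powersetCard, card_erase_of_mem hk, hc]
  rfl

/-- the binomial coefficients -/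
private lemma CostJ_choose {u R : ℕ} (hu : 1 ≤ u) (hR : 1 ≤ R) :
    ((R + u - 1).choose (u - 1) : ℝ) = ((R + u).choose u : ℝ) * (u / ((R : ℝ) + u)) ∧
      ((R + u - 2).choose (u - 1) : ℝ) = ((R + u).choose u : ℝ) * ck u R := by
  obtain ⟨v, rfl⟩ : ∃ v, u = v + 1 := ⟨u - 1, by omega⟩
  obtain ⟨q, rfl⟩ : ∃ q, R = q + 1 := ⟨R - 1, by omega⟩
  have e1 : q + 1 + (v + 1) - 1 = q + v + 1 := by omega
  have e2 : q + 1 + (v + 1) - 2 = q + v := by omega
  have e3 : q + 1 + (v + 1) = q + v + 1 + 1 := by omega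
  have e4 : v + 1 - 1 = v := by omega
  rw [e1, e2, e3, e4]
  have h1 := Nat.add_one_mul_choose_eq (q + v + 1) v
  have h2 := Nat.choose_mul_succ_eq (q + v) v
  have e5 : q + v + 1 - v = q + 1 := by omega
  rw [e5] at h2
  have h1' : ((q : ℝ) + v + 1 + 1) * ((q + v + 1).choose v : ℝ) =
      ((q + v + 1 + 1).choose (v + 1) : ℝ) * ((v : ℝ) + 1) := by exact_mod_cast h1
  have h2' : ((q + v).choose v : ℝ) * ((q : ℝ) + v + 1) =
      ((q + v + 1).choose v : ℝ) * ((q : ℝ) + 1) := by exact_mod_cast h2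
  have hq : (0 : ℝ) ≤ q := Nat.cast_nonneg _
  have hv : (0 : ℝ) ≤ v := Nat.cast_nonneg _
  have hA : ((q + v + 1).choose v : ℝ) = ((q + v + 1 + 1).choose (v + 1) : ℝ) *
      ((v + 1) / ((q : ℝ) + 1 + (v + 1))) := by
    have : (q : ℝ) + 1 + (v + 1) ≠ 0 := by positivity
    field_simp
    linarith
  refine ⟨?_, ?_⟩
  · push_cast
    exact hA
  · unfold ck
    push_cast
    have h3 : (q : ℝ) + 1 + (v + 1) ≠ 0 := by positivity
    have h4 : (q : ℝ) + 1 + (v + 1) - 1 ≠ 0 := by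
      have : (q : ℝ) + 1 + (v + 1) - 1 = q + v + 1 := by ring
      rw [this]; positivity
    have h5 : (q : ℝ) + v + 1 ≠ 0 := by positivity
    have h6 : ((q + v).choose v : ℝ) = ((q + v + 1).choose v : ℝ) * ((q : ℝ) + 1) /
        ((q : ℝ) + v + 1) := by
      rw [← h2']
      field_simp
    rw [h6, hA]
    have h7 : (q : ℝ) + 1 + (v + 1) - 1 = q + v + 1 := by ring
    rw [h7]
    field_simp

/-- facts on the situation -/
private lemma CostJ_basic {V : Type} [Fintype V] [DecidableEq V] {G : SimpleGraph V}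
    [DecidableRel G.Adj] {𝒰 : Finset (Finset V)} {w u R r m : ℕ} {B : Fin w → Finset V}
    {ty : V → Fin w} {C η : ℝ} (h : Stp G 𝒰 B ty u R r m C η) (hm : C < m) :
    (∀ k, (B k).Nonempty) ∧ ∀ k, ((B k).card : ℝ) ≤ m + C := by
  refine ⟨fun k => ?_, fun k => ?_⟩
  · have h1 := (abs_le.1 (h.bs.size k)).1
    rw [← card_pos]
    have h2 : (0 : ℝ) < ((B k).card : ℝ) := by linarith
    exact_mod_cast h2
  · have h1 := (abs_le.1 (h.bs.size k)).2
    linarith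

/-- `κ_z = κ_{z, ty z}` -/
private lemma CostJ_Kz {V : Type} [Fintype V] [DecidableEq V] {G : SimpleGraph V}
    [DecidableRel G.Adj] {𝒰 : Finset (Finset V)} {w u R r m : ℕ} {B : Fin w → Finset V}
    {ty : V → Fin w} {C η : ℝ} (h : Stp G 𝒰 B ty u R r m C η) (hm : C < m) (hw : 1 ≤ w) {z : V}
    (hz : z ∈ outs B) {ε : ℝ} (ht : Typ G B ε z (ty z)) :
    ((Kz G 𝒰 B u z).card : ℝ) = kz G 𝒰 B u z (ty z) := by
  have hz' : z ∉ un B := (mem_sdiff.1 hz).2
  rw [Kz_card hw h.bs.disj h.bs.ind (CostJ_basic h hm).1 𝒰 hz', ← add_sum_erase univ _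
    (mem_univ (ty z)), add_eq_left]
  refine sum_eq_zero fun i hi => ?_
  have hne : i ≠ ty z := ne_of_mem_erase hi
  unfold kz
  rw [filter_eq_empty_iff.2 ?_]
  · simp
  · intro f hf hK
    have h1 := (mem_clq.1 (mem_filter.1 hK).1).2
    have h2 : f (ty z) ∈ B (ty z) := Fintype.mem_piFinset.1 hf _
    have h3 : f (ty z) ∈ (univ.erase i).image f :=
      mem_image_of_mem f (mem_erase.2 ⟨hne.symm, mem_univ _⟩)
    refine ht.1 _ h2 (h1 z (mem_insert_self _ _) _ (mem_insert_of_mem h3) ?_)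
    intro h4
    have h5 : f (ty z) ∈ un B := mem_un.2 ⟨ty z, h2⟩
    apply hz'
    rw [h4]
    exact h5

/-- Proof: `Kz_card`, `kz z i = 0` for `i ≠ ty z` (no neighbour in `B (ty z)`), `kz_le_jz` for every
`P ∌ ty z`, `|P| = u-1`, `Jz_card`; `∏ b_k ≤ m^R (1 + C/m)`.  With `T = (univ \ P).erase (ty z)`,
`|T| = R`: `∑_P 1/∏_T al ≥ ∑_T (1 + ∑_T (1 - al)) = C(w-1,R) + C(w-2,R-1) σ`;
`C(w-1,R)/C(w,u) = u/w`, `C(w-2,R-1)/C(w,u) = ck u R`. -/
theorem Jz_typ (u R r : ℕ) (hp : Par u R) (hr : r < R) :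
    ∀ η : ℝ, 0 < η → ∀ C : ℝ, 0 < C → ∃ C' : ℝ, 0 < C' ∧ ∃ m₀ : ℕ, ∀ m : ℕ, m₀ ≤ m →
      ∀ (V : Type) [Fintype V] [DecidableEq V] (G : SimpleGraph V) [DecidableRel G.Adj]
        (𝒰 : Finset (Finset V)) (w : ℕ) (B : Fin w → Finset V) (ty : V → Fin w),
        Stp G 𝒰 B ty u R r m C η → ∀ z ∈ outs B, Typ G B (4 * w * η) z (ty z) →
        ((Kz G 𝒰 B u z).card : ℝ) * (u / ((R : ℝ) + u) + ck u R * sgm G B z) * (1 - C' / m) ≤
          (m : ℝ) ^ R / ((R + u).choose u : ℝ) * ((Jz 𝒰 B z).card : ℝ) := by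
  intro η hη C hC
  obtain ⟨K, hK, hpow⟩ := CostJ_pow hC.le R
  refine ⟨K, hK, ⌈K⌉₊ + ⌈C⌉₊ + 1, ?_⟩
  intro m hm V _ _ G _ 𝒰 w B ty h z hz ht
  obtain rfl := h.hw
  have hm1 : 1 ≤ m := by omega
  have hmR : (1 : ℝ) ≤ m := by exact_mod_cast hm1
  have hm0 : (0 : ℝ) < m := by linarith
  have hmm : ((⌈K⌉₊ : ℕ) : ℝ) + ((⌈C⌉₊ : ℕ) : ℝ) + 1 ≤ m := by exact_mod_cast hm
  have hKm : K < m := by
    have h1 := Nat.le_ceil K
    have h2 : (0 : ℝ) ≤ ((⌈C⌉₊ : ℕ) : ℝ) := Nat.cast_nonneg _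
    linarith
  have hCm : C < m := by
    have h1 := Nat.le_ceil C
    have h2 : (0 : ℝ) ≤ ((⌈K⌉₊ : ℕ) : ℝ) := Nat.cast_nonneg _
    linarith
  have hu := hp.hu
  have hR10 := hp.hR
  have hz' : z ∉ un B := (mem_sdiff.1 hz).2
  obtain ⟨hne, hb⟩ := CostJ_basic h hCm
  set i := ty z with hi
  have hal0 : ∀ k, 0 ≤ al G B z k := fun k => al_nonneg B z k
  have hal1 : ∀ k, al G B z k ≤ 1 := fun k => al_le_one B z k
  set M : ℝ := (m : ℝ) ^ R * (1 + K / m) with hM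
  have hM0 : 0 ≤ M := by positivity
  have hjz0 : ∀ P, 0 ≤ jz 𝒰 B z P := by
    intro P
    unfold jz
    exact div_nonneg (Nat.cast_nonneg _) (prod_nonneg fun _ _ => Nat.cast_nonneg _)
  have hkz := CostJ_Kz h hCm (by omega) hz ht
  -- for every `P`
  have hP : ∀ P ∈ powersetCard (u - 1) ((univ : Finset (Fin (R + u))).erase i),
      kz G 𝒰 B u z i * (1 + ∑ k ∈ (univ \ P).erase i, (1 - al G B z k)) ≤ M * jz 𝒰 B z P := by
    intro P hP
    obtain ⟨hP1, hP2⟩ := mem_powersetCard.1 hP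
    have hiP : i ∉ P := fun h' => (mem_erase.1 (hP1 h')).1 rfl
    have h1 := kz_le_jz (G := G) hne 𝒰 hz' (P := P) (u := u) (by omega) h.bs.disj hiP
    have hTc : ((univ \ P).erase i).card = R := by
      rw [card_erase_of_mem (mem_sdiff.2 ⟨mem_univ i, hiP⟩), card_sdiff_of_subset (subset_univ P),
        card_univ, Fintype.card_fin, hP2]
      omega
    have h2 : ∏ k ∈ (univ \ P).erase i, (al G B z k * ((B k).card : ℝ)) ≤
        (∏ k ∈ (univ \ P).erase i, al G B z k) * M := by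
      rw [prod_mul_distrib]
      refine mul_le_mul_of_nonneg_left ?_ (prod_nonneg fun k _ => hal0 k)
      calc ∏ k ∈ (univ \ P).erase i, ((B k).card : ℝ) ≤ ∏ _k ∈ (univ \ P).erase i, ((m : ℝ) + C) :=
            prod_le_prod (fun _ _ => Nat.cast_nonneg _) fun k _ => hb k
        _ = ((m : ℝ) + C) ^ R := by rw [prod_const, hTc]
        _ ≤ M := hpow m hm1
    have h3 := CostJ_prod ((univ \ P).erase i) (fun k => al G B z k) hal0 hal1
    have hS0 : 0 ≤ 1 + ∑ k ∈ (univ \ P).erase i, (1 - al G B z k) := by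
      have : 0 ≤ ∑ k ∈ (univ \ P).erase i, (1 - al G B z k) :=
        sum_nonneg fun k _ => sub_nonneg.2 (hal1 k)
      linarith
    calc kz G 𝒰 B u z i * (1 + ∑ k ∈ (univ \ P).erase i, (1 - al G B z k))
        ≤ (jz 𝒰 B z P * ((∏ k ∈ (univ \ P).erase i, al G B z k) * M)) *
          (1 + ∑ k ∈ (univ \ P).erase i, (1 - al G B z k)) :=
          mul_le_mul_of_nonneg_right (h1.trans (mul_le_mul_of_nonneg_left h2 (hjz0 P))) hS0
      _ = (M * jz 𝒰 B z P) * ((∏ k ∈ (univ \ P).erase i, al G B z k) *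
          (1 + ∑ k ∈ (univ \ P).erase i, (1 - al G B z k))) := by ring
      _ ≤ (M * jz 𝒰 B z P) * 1 :=
          mul_le_mul_of_nonneg_left h3 (mul_nonneg hM0 (hjz0 P))
      _ = M * jz 𝒰 B z P := mul_one _
  -- the sum
  have hsum := sum_le_sum hP
  rw [← mul_sum, CostJ_count (u - 1) i fun k => 1 - al G B z k, ← mul_sum] at hsum
  have hJ : ∑ P ∈ powersetCard (u - 1) ((univ : Finset (Fin (R + u))).erase i), jz 𝒰 B z P ≤
      ((Jz 𝒰 B z).card : ℝ) := by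
    rw [Jz_card hu h.bs.disj h.bs.ind hne h.sub hz']
    exact sum_le_sum_of_subset_of_nonneg (powersetCard_mono (erase_subset _ _))
      fun P _ _ => hjz0 P
  have hsg : ∑ k ∈ univ.erase i, (1 - al G B z k) = sgm G B z := by
    rw [sgm_eq ht]
    rfl
  obtain ⟨hc1, hc2⟩ := CostJ_choose hu (by omega : 1 ≤ R)
  rw [hsg, hc1, hc2, ← hkz] at hsum
  have hch : 0 < ((R + u).choose u : ℝ) := by
    exact_mod_cast Nat.choose_pos (by omega : u ≤ R + u)
  have hfin : ((Kz G 𝒰 B u z).card : ℝ) * (u / ((R : ℝ) + u) + ck u R * sgm G B z) ≤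
      M / ((R + u).choose u : ℝ) * ((Jz 𝒰 B z).card : ℝ) := by
    rw [div_mul_eq_mul_div, le_div_iff₀ hch]
    calc ((Kz G 𝒰 B u z).card : ℝ) * (u / ((R : ℝ) + u) + ck u R * sgm G B z) *
          ((R + u).choose u : ℝ)
        = ((Kz G 𝒰 B u z).card : ℝ) * (((R + u).choose u : ℝ) * (u / ((R : ℝ) + u)) +
          ((R + u).choose u : ℝ) * ck u R * sgm G B z) := by ring
      _ ≤ M * ∑ P ∈ powersetCard (u - 1) ((univ : Finset (Fin (R + u))).erase i), jz 𝒰 B z P :=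
          hsum
      _ ≤ M * ((Jz 𝒰 B z).card : ℝ) := mul_le_mul_of_nonneg_left hJ hM0
  have h1K : 0 ≤ 1 - K / m := by
    rw [sub_nonneg, div_le_one hm0]
    exact hKm.le
  calc ((Kz G 𝒰 B u z).card : ℝ) * (u / ((R : ℝ) + u) + ck u R * sgm G B z) * (1 - K / m)
      ≤ M / ((R + u).choose u : ℝ) * ((Jz 𝒰 B z).card : ℝ) * (1 - K / m) :=
        mul_le_mul_of_nonneg_right hfin h1K
    _ = (m : ℝ) ^ R / ((R + u).choose u : ℝ) * ((Jz 𝒰 B z).card : ℝ) * (1 - (K / m) ^ 2) := by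
        rw [hM]; ring
    _ ≤ (m : ℝ) ^ R / ((R + u).choose u : ℝ) * ((Jz 𝒰 B z).card : ℝ) * 1 := by
        refine mul_le_mul_of_nonneg_left ?_ (by positivity)
        have := sq_nonneg (K / (m : ℝ))
        linarith
    _ = (m : ℝ) ^ R / ((R + u).choose u : ℝ) * ((Jz 𝒰 B z).card : ℝ) := mul_one _

/-- `κ_z ≤ π_z m^(w-1) (1 + C'/m)` for `z` of a type -/
theorem Kz_le_pz (u R r : ℕ) (hp : Par u R) (hr : r < R) :
    ∀ η : ℝ, 0 < η → ∀ C : ℝ, 0 < C → ∃ C' : ℝ, 0 < C' ∧ ∃ m₀ : ℕ, ∀ m : ℕ, m₀ ≤ m →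
      ∀ (V : Type) [Fintype V] [DecidableEq V] (G : SimpleGraph V) [DecidableRel G.Adj]
        (𝒰 : Finset (Finset V)) (w : ℕ) (B : Fin w → Finset V) (ty : V → Fin w),
        Stp G 𝒰 B ty u R r m C η → ∀ z ∈ outs B, Typ G B (4 * w * η) z (ty z) →
        ((Kz G 𝒰 B u z).card : ℝ) ≤ pz G B univ ty z * (m : ℝ) ^ (w - 1) * (1 + C' / m) := by
  intro η hη C hC
  obtain ⟨K, hK, hpow⟩ := CostJ_pow hC.le (R + u - 1)
  refine ⟨K, hK, ⌈C⌉₊ + 1, ?_⟩
  intro m hm V _ _ G _ 𝒰 w B ty h z hz ht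
  obtain rfl := h.hw
  have hm1 : 1 ≤ m := by omega
  have hmm : ((⌈C⌉₊ : ℕ) : ℝ) + 1 ≤ m := by exact_mod_cast hm
  have hCm : C < m := by
    have h1 := Nat.le_ceil C
    linarith
  have hu := hp.hu
  have hz' : z ∉ un B := (mem_sdiff.1 hz).2
  obtain ⟨hne, hb⟩ := CostJ_basic h hCm
  rw [CostJ_Kz h hCm (by omega) hz ht]
  have h1 := kz_le_npz (G := G) (u := u) hne 𝒰 hz' (P := ∅) h.bs.disj (notMem_empty (ty z))
  have hnp : npz G B z ∅ = 1 := by
    unfold npz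
    have h2 : ((Fintype.piFinset B).filter fun f => (∀ k ∈ (∅ : Finset (Fin (R + u))),
        ∀ l ∈ (∅ : Finset (Fin (R + u))), k ≠ l → G.Adj (f k) (f l)) ∧
        ∀ l ∈ (∅ : Finset (Fin (R + u))), G.Adj z (f l)) = Fintype.piFinset B :=
      filter_true_of_mem fun f _ => ⟨fun k hk => absurd hk (notMem_empty k),
        fun k hk => absurd hk (notMem_empty k)⟩
    rw [h2, Fintype.card_piFinset, sdiff_empty]
    push_cast
    refine div_self (prod_ne_zero_iff.2 fun k _ => ?_)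
    exact_mod_cast (hne k).card_pos.ne'
  rw [hnp, one_mul, sdiff_empty, prod_mul_distrib] at h1
  have hcard : ((univ : Finset (Fin (R + u))).erase (ty z)).card = R + u - 1 := by
    rw [card_erase_of_mem (mem_univ _), card_univ, Fintype.card_fin]
  have h2 : ∏ k ∈ univ.erase (ty z), ((B k).card : ℝ) ≤
      (m : ℝ) ^ (R + u - 1) * (1 + K / m) := by
    calc ∏ k ∈ univ.erase (ty z), ((B k).card : ℝ) ≤ ∏ _k ∈ univ.erase (ty z), ((m : ℝ) + C) :=
          prod_le_prod (fun _ _ => Nat.cast_nonneg _) fun k _ => hb k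
      _ = ((m : ℝ) + C) ^ (R + u - 1) := by rw [prod_const, hcard]
      _ ≤ _ := hpow m hm1
  refine h1.trans ?_
  have hpz : pz G B univ ty z = ∏ k ∈ univ.erase (ty z), al G B z k := rfl
  rw [hpz, mul_assoc]
  exact mul_le_mul_of_nonneg_left h2 (prod_nonneg fun k _ => al_nonneg B z k)

end H23CL
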