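import Pool.Agent.H23.CL.Val
import Pool.Agent.H23.CL.IndB

/-! Step 6 of note 3669: lower bounds for `|Jz|`. -/

set_option autoImplicit false

namespace H23CL

open Finset H57LC

lemma CostK_pow (R : ℕ) (C : ℝ) : ∃ m₀ : ℕ, ∀ m : ℕ, m₀ ≤ m →
    1 ≤ m ∧ C < m ∧ ((m : ℝ) + C) ^ R ≤ 3 / 2 * (m : ℝ) ^ R := by
  have h1 : Filter.Tendsto (fun m : ℕ => (1 + C / (m : ℝ)) ^ R) Filter.atTop
      (nhds ((1 + 0 : ℝ) ^ R)) :=
    ((tendsto_const_nhds.add (tendsto_const_div_atTop_nhds_zero_nat C)).pow R)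
  have h2 : ∀ᶠ m : ℕ in Filter.atTop, (1 + C / (m : ℝ)) ^ R < 3 / 2 := by
    refine h1.eventually (gt_mem_nhds ?_)
    norm_num
  have h3 : ∀ᶠ m : ℕ in Filter.atTop, C < (m : ℝ) :=
    tendsto_natCast_atTop_atTop.eventually (Filter.eventually_gt_atTop C)
  obtain ⟨m₀, hm₀⟩ := Filter.eventually_atTop.1
    ((h2.and h3).and (Filter.eventually_ge_atTop 1))
  refine ⟨m₀, fun m hm => ?_⟩
  obtain ⟨⟨h4, h5⟩, h6⟩ := hm₀ m hm
  refine ⟨h6, h5, ?_⟩
  have hmp : (0 : ℝ) < m := by exact_mod_cast h6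
  have h7 : (m : ℝ) + C = m * (1 + C / m) := by
    field_simp
  rw [h7, mul_pow, mul_comm]
  exact mul_le_mul_of_nonneg_right h4.le (by positivity)

section

variable {V : Type} [Fintype V] [DecidableEq V] {G : SimpleGraph V} [DecidableRel G.Adj]
  {𝒰 : Finset (Finset V)} {w : ℕ} {B : Fin w → Finset V}

lemma CostK_prod {m : ℕ} {C : ℝ} (hb : ∀ k, ((B k).card : ℝ) ≤ m + C) (z : V)
    (T : Finset (Fin w)) :
    ∏ k ∈ T, (al G B z k * (B k).card) ≤ (∏ k ∈ T, al G B z k) * ((m : ℝ) + C) ^ T.card := by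
  rw [Finset.prod_mul_distrib]
  refine mul_le_mul_of_nonneg_left ?_ (Finset.prod_nonneg fun k _ => al_nonneg B z k)
  rw [← Finset.prod_const]
  exact Finset.prod_le_prod (fun k _ => by positivity) fun k _ => hb k

lemma CostK_jz_nonneg (z : V) (P : Finset (Fin w)) : 0 ≤ jz 𝒰 B z P := by
  unfold jz
  exact div_nonneg (by positivity) (Finset.prod_nonneg fun k _ => by positivity)

lemma CostK_kz_zero {u : ℕ} {ty : V → Fin w} {ε : ℝ} {z : V} (hz : z ∉ un B)
    (ht : Typ G B ε z (ty z)) {i : Fin w} (hi : ty z ≠ i) : kz G 𝒰 B u z i = 0 := by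
  unfold kz
  have h0 : ((Fintype.piFinset B).filter
      fun f => insert z ((univ.erase i).image f) ∈ KK G 𝒰 u w) = ∅ := by
    rw [Finset.filter_eq_empty_iff]
    intro f hf hK
    rw [Fintype.mem_piFinset] at hf
    unfold KK at hK
    rw [Finset.mem_filter] at hK
    have hK1 := hK.1
    unfold clq at hK1
    rw [Finset.mem_filter] at hK1
    have hne : z ≠ f (ty z) := by
      intro h
      apply hz
      unfold un
      rw [Finset.mem_biUnion]
      exact ⟨ty z, Finset.mem_univ _, by rw [h]; exact h ▸ hf (ty z)⟩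
    have hadj := hK1.2 z (Finset.mem_insert_self _ _) (f (ty z))
      (Finset.mem_insert_of_mem (Finset.mem_image.2
        ⟨ty z, Finset.mem_erase.2 ⟨hi, Finset.mem_univ _⟩, rfl⟩)) hne
    exact ht.1 _ (hf (ty z)) hadj
  rw [h0, Finset.card_empty, Nat.cast_zero, zero_div]

/-- the mean of the sums over complements -/
lemma CostK_sum {ι : Type*} [DecidableEq ι] (S : Finset ι) (n : ℕ) (x : ι → ℝ) :
    ∑ P ∈ powersetCard n S, ∑ k ∈ S \ P, x k =
      ((S.card - 1).choose n : ℝ) * ∑ k ∈ S, x k := by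
  classical
  have h1 : ∀ P ∈ powersetCard n S, ∑ k ∈ S \ P, x k =
      ∑ k ∈ S, if k ∉ P then x k else 0 := by
    intro P _
    rw [← Finset.sum_filter]
    congr 1
    ext k
    simp [Finset.mem_sdiff]
  rw [Finset.sum_congr rfl h1, Finset.sum_comm, Finset.mul_sum]
  refine Finset.sum_congr rfl fun k hk => ?_
  rw [← Finset.sum_filter, Finset.sum_const, nsmul_eq_mul]
  congr 1
  have h2 : (powersetCard n S).filter (fun P => k ∉ P) = powersetCard n (S.erase k) := by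
    ext P
    rw [Finset.mem_filter, Finset.mem_powersetCard, Finset.mem_powersetCard]
    constructor
    · rintro ⟨⟨h3, h4⟩, h5⟩
      exact ⟨fun y hy => Finset.mem_erase.2 ⟨fun h => h5 (h ▸ hy), h3 hy⟩, h4⟩
    · rintro ⟨h3, h4⟩
      exact ⟨⟨fun y hy => (Finset.mem_erase.1 (h3 hy)).2, h4⟩,
        fun h => (Finset.mem_erase.1 (h3 h)).1 rfl⟩
  rw [h2, Finset.card_powersetCard, Finset.card_erase_of_mem hk]

end

/-- the same, second bound: `∑_T 1/∏_T al ≥ C(w-1,R) exp((R/(w-1)) (-log π))`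
(`e^X ≥ e^a (1 + X - a)` with `X_T = -∑_T log al`, mean `a = (R/(w-1)) (-log π)`), `R/(w-1) ≥ 1/2`,
`(u/w) η₀^(-1/2) = 3` -/
theorem Jz_typ' (u R r : ℕ) (hp : Par u R) (hr : r < R) :
    ∀ η : ℝ, 0 < η → ∀ C : ℝ, 0 < C → ∃ m₀ : ℕ, ∀ m : ℕ, m₀ ≤ m →
      ∀ (V : Type) [Fintype V] [DecidableEq V] (G : SimpleGraph V) [DecidableRel G.Adj]
        (𝒰 : Finset (Finset V)) (w : ℕ) (B : Fin w → Finset V) (ty : V → Fin w),
        Stp G 𝒰 B ty u R r m C η → ∀ z ∈ outs B, Typ G B (4 * w * η) z (ty z) →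
        pz G B univ ty z < eta0 u R →
        2 * ((Kz G 𝒰 B u z).card : ℝ) ≤
          (m : ℝ) ^ R / ((R + u).choose u : ℝ) * ((Jz 𝒰 B z).card : ℝ) := by
  intro η hη C hC
  obtain ⟨m₀, hm₀⟩ := CostK_pow R C
  refine ⟨m₀, ?_⟩
  intro m hm V _ _ G _ 𝒰 w B ty h z hz ht hpi
  obtain ⟨hm1, hmC, hpow⟩ := hm₀ m hm
  have hmp : (0 : ℝ) < m := by exact_mod_cast hm1
  have hu := hp.hu
  have hR := hp.hR
  have huR := hp.huR
  have hw : w = R + u := h.hw
  subst hw
  have hz' : z ∉ un B := by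
    unfold outs at hz
    exact (Finset.mem_sdiff.1 hz).2
  have hb : ∀ k, ((B k).card : ℝ) ≤ m + C := fun k => by
    have := (abs_le.1 (h.bs.size k)).2
    linarith
  have hne : ∀ k, (B k).Nonempty := fun k => by
    rw [← Finset.card_pos]
    have := (abs_le.1 (h.bs.size k)).1
    have h2 : (0 : ℝ) < (B k).card := by linarith
    exact_mod_cast h2
  set i₀ := ty z with hi₀
  set S : Finset (Fin (R + u)) := univ.erase i₀ with hS
  have hScard : S.card = R + u - 1 := by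
    rw [hS, Finset.card_erase_of_mem (Finset.mem_univ _), Finset.card_univ, Fintype.card_fin]
  have hal : ∀ k ∈ S, 0 < al G B z k := fun k hk => by
    have h1 := ht.2 k (Finset.mem_erase.1 hk).1
    have h2 : (0 : ℝ) < 4 * ((R + u : ℕ) : ℝ) * η := by
      have : (0 : ℝ) < ((R + u : ℕ) : ℝ) := by
        have : 0 < R + u := by omega
        exact_mod_cast this
      positivity
    linarith
  -- `κ`
  set κ := kz G 𝒰 B u z i₀ with hκ
  have hKz : ((Kz G 𝒰 B u z).card : ℝ) = κ := by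
    rw [Kz_card (by omega) h.bs.disj h.bs.ind hne 𝒰 hz']
    rw [Finset.sum_eq_single i₀]
    · intro i _ hi
      exact CostK_kz_zero hz' ht (fun h' => hi (by rw [hi₀]; exact h'.symm))
    · intro h'
      exact absurd (Finset.mem_univ _) h'
  -- the sums over `P`
  have hJ : ∑ P ∈ powersetCard (u - 1) S, jz 𝒰 B z P ≤ ((Jz 𝒰 B z).card : ℝ) := by
    rw [Jz_card hu h.bs.disj h.bs.ind hne h.sub hz']
    refine Finset.sum_le_sum_of_subset_of_nonneg ?_ fun P _ _ => CostK_jz_nonneg z P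
    exact Finset.powersetCard_mono (Finset.erase_subset _ _)
  set x : Fin (R + u) → ℝ := fun k => -Real.log (al G B z k) with hx
  have hM : ∀ P ∈ powersetCard (u - 1) S,
      κ * Real.exp (∑ k ∈ S \ P, x k) ≤ jz 𝒰 B z P * ((m : ℝ) + C) ^ R := by
    intro P hP
    rw [Finset.mem_powersetCard] at hP
    have hiP : i₀ ∉ P := fun h' => (Finset.mem_erase.1 (hP.1 h')).1 rfl
    have h1 := kz_le_jz (u := u) (G := G) hne 𝒰 hz' (P := P) (by omega) h.bs.disj hiP
    have hT : (univ \ P).erase i₀ = S \ P := by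
      ext k
      simp only [hS, Finset.mem_erase, Finset.mem_sdiff, Finset.mem_univ, true_and, and_true]
    rw [hT] at h1
    have hTc : (S \ P).card = R := by
      rw [Finset.card_sdiff_of_subset hP.1, hScard, hP.2]
      omega
    have h2 := CostK_prod (G := G) hb z (S \ P)
    rw [hTc] at h2
    have hpos : 0 < ∏ k ∈ S \ P, al G B z k :=
      Finset.prod_pos fun k hk => hal k (Finset.mem_sdiff.1 hk).1
    have hexp : Real.exp (∑ k ∈ S \ P, x k) * ∏ k ∈ S \ P, al G B z k = 1 := by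
      rw [Real.exp_sum, ← Finset.prod_mul_distrib]
      refine Finset.prod_eq_one fun k hk => ?_
      have hk' := hal k (Finset.mem_sdiff.1 hk).1
      rw [hx]
      simp only
      rw [Real.exp_neg, Real.exp_log hk', inv_mul_cancel₀ hk'.ne']
    have h3 : κ ≤ jz 𝒰 B z P * ((∏ k ∈ S \ P, al G B z k) * ((m : ℝ) + C) ^ R) :=
      h1.trans (mul_le_mul_of_nonneg_left h2 (CostK_jz_nonneg z P))
    calc κ * Real.exp (∑ k ∈ S \ P, x k)
        ≤ jz 𝒰 B z P * ((∏ k ∈ S \ P, al G B z k) * ((m : ℝ) + C) ^ R) *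
            Real.exp (∑ k ∈ S \ P, x k) :=
          mul_le_mul_of_nonneg_right h3 (Real.exp_pos _).le
      _ = jz 𝒰 B z P * ((m : ℝ) + C) ^ R *
            (Real.exp (∑ k ∈ S \ P, x k) * ∏ k ∈ S \ P, al G B z k) := by ring
      _ = jz 𝒰 B z P * ((m : ℝ) + C) ^ R := by rw [hexp, mul_one]
  have hκ0 : 0 ≤ κ := by
    rw [hκ]
    unfold kz
    positivity
  -- Jensen
  set L := ∑ k ∈ S, x k with hL
  set a := (R : ℝ) / ((R : ℝ) + u - 1) * L with ha
  have hden : (0 : ℝ) < (R : ℝ) + u - 1 := by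
    have h1 : (10 : ℝ) ≤ R := by exact_mod_cast hR
    have h2 : (1 : ℝ) ≤ u := by exact_mod_cast hu
    linarith
  have hN : ((R + u - 1 - 1).choose (u - 1) : ℝ) * ((R : ℝ) + u - 1) =
      ((R + u - 1).choose (u - 1) : ℝ) * R := by
    obtain ⟨v, rfl⟩ : ∃ v, u = v + 1 := ⟨u - 1, by omega⟩
    obtain ⟨n, hn⟩ : ∃ n, R + v = n + 1 := ⟨R + v - 1, by omega⟩
    have e1 : R + (v + 1) - 1 - 1 = n := by omega
    have e2 : R + (v + 1) - 1 = n + 1 := by omega
    have e3 : v + 1 - 1 = v := by omega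
    rw [e1, e2, e3]
    have h1 := Nat.choose_mul_succ_eq n v
    have h2 : n + 1 - v = R := by omega
    rw [h2] at h1
    have h3 : ((n.choose v * (n + 1) : ℕ) : ℝ) = (((n + 1).choose v * R : ℕ) : ℝ) := by rw [h1]
    push_cast at h3
    have h4 : ((R : ℝ) + v) = (n : ℝ) + 1 := by exact_mod_cast hn
    push_cast
    have h5 : (R : ℝ) + (v + 1) - 1 = (n : ℝ) + 1 := by linarith
    rw [h5]
    exact h3
  have hJen : ((R + u - 1).choose (u - 1) : ℝ) * Real.exp a ≤
      ∑ P ∈ powersetCard (u - 1) S, Real.exp (∑ k ∈ S \ P, x k) := by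
    have h1 : ∀ P ∈ powersetCard (u - 1) S,
        Real.exp a * (1 + (∑ k ∈ S \ P, x k) - a) ≤ Real.exp (∑ k ∈ S \ P, x k) := by
      intro P _
      have h2 := Real.add_one_le_exp ((∑ k ∈ S \ P, x k) - a)
      have h3 : Real.exp (∑ k ∈ S \ P, x k) =
          Real.exp a * Real.exp ((∑ k ∈ S \ P, x k) - a) := by
        rw [← Real.exp_add]
        congr 1
        ring
      rw [h3]
      refine mul_le_mul_of_nonneg_left ?_ (Real.exp_pos _).le
      linarith
    refine le_trans (le_of_eq ?_) (Finset.sum_le_sum h1)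
    rw [← Finset.mul_sum, Finset.sum_sub_distrib, Finset.sum_add_distrib, CostK_sum,
      Finset.sum_const, Finset.sum_const, Finset.card_powersetCard, hScard, nsmul_eq_mul,
      nsmul_eq_mul, ← hL]
    have h4 : ((R + u - 1 - 1).choose (u - 1) : ℝ) * L =
        ((R + u - 1).choose (u - 1) : ℝ) * a := by
      rw [ha]
      have h5 : ((R + u - 1 - 1).choose (u - 1) : ℝ) =
          ((R + u - 1).choose (u - 1) : ℝ) * R / ((R : ℝ) + u - 1) := by
        rw [← hN]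
        field_simp
      rw [h5]
      ring
    rw [h4]
    ring
  -- the size of `exp a`
  have hLpi : L = -Real.log (pz G B univ ty z) := by
    rw [hL]
    unfold pz
    rw [Real.log_prod (fun k hk => (hal k hk).ne'), ← Finset.sum_neg_distrib]
  have hpzpos : 0 < pz G B univ ty z := by
    unfold pz
    exact Finset.prod_pos fun k hk => hal k hk
  have huw : (0 : ℝ) < (u : ℝ) / (3 * ((R : ℝ) + u)) := by
    have h2 : (1 : ℝ) ≤ u := by exact_mod_cast hu
    have h1 : (10 : ℝ) ≤ R := by exact_mod_cast hR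
    positivity
  have hLge : -2 * Real.log ((u : ℝ) / (3 * ((R : ℝ) + u))) ≤ L := by
    rw [hLpi]
    have h1 : Real.log (pz G B univ ty z) ≤ Real.log (eta0 u R) :=
      Real.log_le_log hpzpos hpi.le
    unfold eta0 at h1
    rw [Real.log_pow] at h1
    push_cast at h1
    linarith
  have hlog0 : 0 ≤ -Real.log ((u : ℝ) / (3 * ((R : ℝ) + u))) := by
    have h2 : (1 : ℝ) ≤ u := by exact_mod_cast hu
    have h1 : (10 : ℝ) ≤ R := by exact_mod_cast hR
    have h3 : (u : ℝ) / (3 * ((R : ℝ) + u)) ≤ 1 := by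
      rw [div_le_one (by positivity)]
      linarith
    have := Real.log_nonpos huw.le h3
    linarith
  have hhalf : (1 : ℝ) / 2 ≤ (R : ℝ) / ((R : ℝ) + u - 1) := by
    rw [div_le_div_iff₀ (by norm_num) hden]
    have h2 : 2 * (u : ℝ) ≤ R := by exact_mod_cast huR
    linarith
  have ha1 : -Real.log ((u : ℝ) / (3 * ((R : ℝ) + u))) ≤ a := by
    have hL0 : 0 ≤ L := by linarith
    have := mul_le_mul_of_nonneg_right hhalf hL0
    rw [ha]
    linarith
  have hexpa : 3 * ((R : ℝ) + u) / u ≤ Real.exp a := by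
    have h1 := Real.exp_le_exp.2 ha1
    rw [Real.exp_neg, Real.exp_log huw, inv_div] at h1
    exact h1
  -- conclusion
  have hsum : κ * (((R + u - 1).choose (u - 1) : ℝ) * (3 * ((R : ℝ) + u) / u)) ≤
      ((Jz 𝒰 B z).card : ℝ) * (3 / 2 * (m : ℝ) ^ R) := by
    calc κ * (((R + u - 1).choose (u - 1) : ℝ) * (3 * ((R : ℝ) + u) / u))
        ≤ κ * (((R + u - 1).choose (u - 1) : ℝ) * Real.exp a) :=
          mul_le_mul_of_nonneg_left (mul_le_mul_of_nonneg_left hexpa (by positivity)) hκ0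
      _ ≤ κ * ∑ P ∈ powersetCard (u - 1) S, Real.exp (∑ k ∈ S \ P, x k) :=
          mul_le_mul_of_nonneg_left hJen hκ0
      _ = ∑ P ∈ powersetCard (u - 1) S, κ * Real.exp (∑ k ∈ S \ P, x k) := by
          rw [Finset.mul_sum]
      _ ≤ ∑ P ∈ powersetCard (u - 1) S, jz 𝒰 B z P * ((m : ℝ) + C) ^ R :=
          Finset.sum_le_sum hM
      _ = (∑ P ∈ powersetCard (u - 1) S, jz 𝒰 B z P) * ((m : ℝ) + C) ^ R := by
          rw [Finset.sum_mul]
      _ ≤ ((Jz 𝒰 B z).card : ℝ) * ((m : ℝ) + C) ^ R :=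
          mul_le_mul_of_nonneg_right hJ (by positivity)
      _ ≤ ((Jz 𝒰 B z).card : ℝ) * (3 / 2 * (m : ℝ) ^ R) :=
          mul_le_mul_of_nonneg_left hpow (by positivity)
  have hch : ((R + u - 1).choose (u - 1) : ℝ) * (3 * ((R : ℝ) + u) / u) =
      3 * ((R + u).choose u : ℝ) := by
    have hu0 : (u : ℝ) ≠ 0 := by
      have : (1 : ℝ) ≤ u := by exact_mod_cast hu
      linarith
    obtain ⟨v, hv⟩ : ∃ v, u = v + 1 := ⟨u - 1, by omega⟩
    have h1 := Nat.add_one_mul_choose_eq (R + u - 1) (u - 1)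
    have e1 : R + u - 1 + 1 = R + u := by omega
    have e2 : u - 1 + 1 = u := by omega
    rw [e1, e2] at h1
    have h2 : (((R + u) * (R + u - 1).choose (u - 1) : ℕ) : ℝ) =
        (((R + u).choose u * u : ℕ) : ℝ) := by rw [h1]
    push_cast at h2
    field_simp
    linarith
  rw [hch] at hsum
  rw [hKz]
  have hcp : (0 : ℝ) < ((R + u).choose u : ℝ) := by
    have : 0 < (R + u).choose u := Nat.choose_pos (by omega)
    exact_mod_cast this
  rw [div_mul_eq_mul_div, le_div_iff₀ hcp]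
  nlinarith [hsum]

/-- thin vertices: for every `i` there is `j ≠ i` with `al z j < 4wη`; `kz_le_jz` for the
`C(w-2,u-1)` sets `P` without `i`, `j`; sum over `i`. -/
theorem Jz_thin (u R r : ℕ) (hp : Par u R) (hr : r < R) :
    ∃ η₁ : ℝ, 0 < η₁ ∧ ∀ η : ℝ, 0 < η → η ≤ η₁ → ∀ C : ℝ, 0 < C →
      ∃ m₀ : ℕ, ∀ m : ℕ, m₀ ≤ m →
      ∀ (V : Type) [Fintype V] [DecidableEq V] (G : SimpleGraph V) [DecidableRel G.Adj]
        (𝒰 : Finset (Finset V)) (w : ℕ) (B : Fin w → Finset V) (ty : V → Fin w),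
        Stp G 𝒰 B ty u R r m C η → ∀ z ∈ outs B, Thin G B (4 * w * η) z →
        2 * ((Kz G 𝒰 B u z).card : ℝ) ≤
          (m : ℝ) ^ R / ((R + u).choose u : ℝ) * ((Jz 𝒰 B z).card : ℝ) := by
  have hu := hp.hu
  have hR := hp.hR
  have hcp : (0 : ℝ) < ((R + u).choose u : ℝ) := by
    have : 0 < (R + u).choose u := Nat.choose_pos (by omega)
    exact_mod_cast this
  have hwp : (0 : ℝ) < ((R + u : ℕ) : ℝ) := by
    have : 0 < R + u := by omega
    exact_mod_cast this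
  refine ⟨1 / (16 * ((R + u : ℕ) : ℝ) ^ 2 * ((R + u).choose u : ℝ)), by positivity, ?_⟩
  intro η hη hη1 C hC
  obtain ⟨m₀, hm₀⟩ := CostK_pow R C
  refine ⟨m₀, ?_⟩
  intro m hm V _ _ G _ 𝒰 w B ty h z hz ht
  obtain ⟨hm1, hmC, hpow⟩ := hm₀ m hm
  have hmp : (0 : ℝ) < m := by exact_mod_cast hm1
  have hw : w = R + u := h.hw
  subst hw
  have hz' : z ∉ un B := by
    unfold outs at hz
    exact (Finset.mem_sdiff.1 hz).2
  have hb : ∀ k, ((B k).card : ℝ) ≤ m + C := fun k => by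
    have := (abs_le.1 (h.bs.size k)).2
    linarith
  have hne : ∀ k, (B k).Nonempty := fun k => by
    rw [← Finset.card_pos]
    have := (abs_le.1 (h.bs.size k)).1
    have h2 : (0 : ℝ) < (B k).card := by linarith
    exact_mod_cast h2
  obtain ⟨j₁, j₂, hj, h1, h2⟩ := ht
  set ε : ℝ := 4 * ((R + u : ℕ) : ℝ) * η with hε
  have hεp : 0 < ε := by positivity
  have hJ0 : (0 : ℝ) ≤ ((Jz 𝒰 B z).card : ℝ) := by positivity
  have key : ∀ i, kz G 𝒰 B u z i ≤ ε * (3 / 2 * (m : ℝ) ^ R) * ((Jz 𝒰 B z).card : ℝ) := by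
    intro i
    obtain ⟨j, hji, hjε⟩ : ∃ j, j ≠ i ∧ al G B z j < ε := by
      by_cases h3 : j₁ = i
      · exact ⟨j₂, fun h4 => hj (h3.trans h4.symm), h2⟩
      · exact ⟨j₁, h3, h1⟩
    obtain ⟨P, hPs, hPc⟩ : ∃ P ⊆ ((univ : Finset (Fin (R + u))).erase i).erase j,
        P.card = u - 1 := by
      refine Finset.exists_subset_card_eq ?_
      rw [Finset.card_erase_of_mem (Finset.mem_erase.2 ⟨hji, Finset.mem_univ _⟩),
        Finset.card_erase_of_mem (Finset.mem_univ _), Finset.card_univ, Fintype.card_fin]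
      omega
    have hiP : i ∉ P := fun h' => (Finset.mem_erase.1 (Finset.mem_erase.1 (hPs h')).2).1 rfl
    have hjP : j ∉ P := fun h' => (Finset.mem_erase.1 (hPs h')).1 rfl
    have h3 := kz_le_jz (u := u) (G := G) hne 𝒰 hz' (P := P) (by omega) h.bs.disj hiP
    have h4 := CostK_prod (G := G) hb z ((univ \ P).erase i)
    have hTc : ((univ \ P).erase i).card = R := by
      rw [Finset.card_erase_of_mem (Finset.mem_sdiff.2 ⟨Finset.mem_univ _, hiP⟩),
        Finset.card_sdiff_of_subset (Finset.subset_univ _), Finset.card_univ, Fintype.card_fin,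
        hPc]
      omega
    rw [hTc] at h4
    have hjT : j ∈ (univ \ P).erase i :=
      Finset.mem_erase.2 ⟨hji, Finset.mem_sdiff.2 ⟨Finset.mem_univ _, hjP⟩⟩
    have h5 : ∏ k ∈ (univ \ P).erase i, al G B z k ≤ ε := by
      rw [← Finset.mul_prod_erase _ _ hjT]
      have h6 : ∏ k ∈ ((univ \ P).erase i).erase j, al G B z k ≤ 1 :=
        Finset.prod_le_one (fun k _ => al_nonneg B z k) fun k _ => al_le_one B z k
      calc al G B z j * ∏ k ∈ ((univ \ P).erase i).erase j, al G B z k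
          ≤ al G B z j * 1 := mul_le_mul_of_nonneg_left h6 (al_nonneg B z j)
        _ ≤ ε := by rw [mul_one]; exact hjε.le
    have h6 : jz 𝒰 B z P ≤ ((Jz 𝒰 B z).card : ℝ) := by
      rw [Jz_card hu h.bs.disj h.bs.ind hne h.sub hz']
      exact Finset.single_le_sum (f := fun P => jz 𝒰 B z P)
        (fun P _ => CostK_jz_nonneg z P)
        (Finset.mem_powersetCard.2 ⟨Finset.subset_univ _, hPc⟩)
    calc kz G 𝒰 B u z i
        ≤ jz 𝒰 B z P * ∏ k ∈ (univ \ P).erase i, (al G B z k * (B k).card) := h3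
      _ ≤ jz 𝒰 B z P * ((∏ k ∈ (univ \ P).erase i, al G B z k) * ((m : ℝ) + C) ^ R) :=
          mul_le_mul_of_nonneg_left h4 (CostK_jz_nonneg z P)
      _ ≤ ((Jz 𝒰 B z).card : ℝ) * (ε * (3 / 2 * (m : ℝ) ^ R)) := by
          refine mul_le_mul h6 ?_ ?_ hJ0
          · exact mul_le_mul h5 hpow (by positivity) hεp.le
          · exact mul_nonneg (Finset.prod_nonneg fun k _ => al_nonneg B z k) (by positivity)
      _ = ε * (3 / 2 * (m : ℝ) ^ R) * ((Jz 𝒰 B z).card : ℝ) := by ring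
  have hK : ((Kz G 𝒰 B u z).card : ℝ) ≤
      ((R + u : ℕ) : ℝ) * (ε * (3 / 2 * (m : ℝ) ^ R) * ((Jz 𝒰 B z).card : ℝ)) := by
    rw [Kz_card (by omega) h.bs.disj h.bs.ind hne 𝒰 hz']
    refine le_trans (Finset.sum_le_sum fun i _ => key i) ?_
    rw [Finset.sum_const, Finset.card_univ, Fintype.card_fin, nsmul_eq_mul]
  have hεb : ((R + u : ℕ) : ℝ) * ε * ((R + u).choose u : ℝ) ≤ 1 / 4 := by
    rw [hε]
    have h7 : η * (16 * ((R + u : ℕ) : ℝ) ^ 2 * ((R + u).choose u : ℝ)) ≤ 1 := by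
      rw [le_div_iff₀ (by positivity)] at hη1
      exact hη1
    nlinarith [h7]
  have hmR : (0 : ℝ) ≤ (m : ℝ) ^ R * ((Jz 𝒰 B z).card : ℝ) := by positivity
  rw [div_mul_eq_mul_div, le_div_iff₀ hcp]
  calc 2 * ((Kz G 𝒰 B u z).card : ℝ) * ((R + u).choose u : ℝ)
      ≤ 2 * (((R + u : ℕ) : ℝ) * (ε * (3 / 2 * (m : ℝ) ^ R) * ((Jz 𝒰 B z).card : ℝ))) *
          ((R + u).choose u : ℝ) :=
        mul_le_mul_of_nonneg_right (mul_le_mul_of_nonneg_left hK (by norm_num)) hcp.le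
    _ = 3 * (((R + u : ℕ) : ℝ) * ε * ((R + u).choose u : ℝ)) *
          ((m : ℝ) ^ R * ((Jz 𝒰 B z).card : ℝ)) := by ring
    _ ≤ 3 * (1 / 4) * ((m : ℝ) ^ R * ((Jz 𝒰 B z).card : ℝ)) :=
        mul_le_mul_of_nonneg_right (mul_le_mul_of_nonneg_left hεb (by norm_num)) hmR
    _ ≤ (m : ℝ) ^ R * ((Jz 𝒰 B z).card : ℝ) := by linarith

end H23CL
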