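import Pool.Agent.H23.CL.CostO
import Pool.Agent.H23.CL.CostJ
import Pool.Agent.H23.CL.CostK

/-! Step 6 of note 3669: the costs. -/

set_option autoImplicit false

namespace H23CL

open Finset H57LC

private theorem cost_epsp_nonneg (u R : ℕ) : 0 ≤ epsp u R := by
  unfold epsp; positivity

private theorem cost_mem_outs {V : Type} [Fintype V] [DecidableEq V] {G : SimpleGraph V}
    [DecidableRel G.Adj] {w : ℕ} {B : Fin w → Finset V} {R : ℕ} {z : V}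
    (h : z ∈ Zin G B R) : z ∈ outs B := by
  classical
  unfold Zin at h
  exact (mem_filter.mp h).1

private theorem cost_Z1_iff {V : Type} [Fintype V] [DecidableEq V] {G : SimpleGraph V}
    [DecidableRel G.Adj] {w : ℕ} {B : Fin w → Finset V} {ty : V → Fin w} {ε η₀ : ℝ} {z : V} :
    z ∈ Z1 G B ty ε η₀ ↔ z ∈ outs B ∧ Typ G B ε z (ty z) ∧ η₀ ≤ pz G B univ ty z := by
  classical
  unfold Z1
  exact mem_filter

private theorem cost_not_un {V : Type} [Fintype V] [DecidableEq V] {w : ℕ} {B : Fin w → Finset V}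
    {z : V} (h : z ∈ outs B) : z ∉ un B := by
  unfold outs at h
  exact (mem_sdiff.mp h).2

/-- real arithmetic for `cost_nonpos` -/
private theorem cost_arith1 {κ O X ε mn : ℝ} (hX : 0 ≤ X) (hε : 0 ≤ ε) (hε2 : ε ≤ 1 / 2)
    (hmn : mn ≤ 1) (hO : O ≤ ε * mn * X) (hκ : 2 * κ ≤ X) : κ + O - X ≤ 0 := by
  have h1 : ε * mn ≤ 1 / 2 := le_trans (mul_le_of_le_one_right hε hmn) hε2
  have h2 : ε * mn * X ≤ 1 / 2 * X := mul_le_mul_of_nonneg_right h1 hX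
  linarith

theorem cost_nonpos (u R r : ℕ) (hp : Par u R) (hr : r < R) :
    ∃ η₁ : ℝ, 0 < η₁ ∧ ∀ η : ℝ, 0 < η → η ≤ η₁ → ∀ C : ℝ, 0 < C →
      ∃ m₀ : ℕ, ∀ m : ℕ, m₀ ≤ m →
      ∀ (V : Type) [Fintype V] [DecidableEq V] (G : SimpleGraph V) [DecidableRel G.Adj]
        (𝒰 : Finset (Finset V)) (w : ℕ) (B : Fin w → Finset V) (ty : V → Fin w),
        Stp G 𝒰 B ty u R r m C η → ∀ z ∈ Zin G B R, z ∉ Z1 G B ty (4 * w * η) (eta0 u R) →
        ((Kz G 𝒰 B u z).card : ℝ) + ((Oz G 𝒰 B u z).card : ℝ) -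
          (m : ℝ) ^ R / ((R + u).choose u : ℝ) * ((Jz 𝒰 B z).card : ℝ) ≤ 0 := by
  obtain ⟨η₁, hη₁, hO⟩ := Oz_le u R r hp hr
  obtain ⟨η₂, hη₂, hT⟩ := Jz_thin u R r hp hr
  refine ⟨min η₁ η₂, lt_min hη₁ hη₂, ?_⟩
  intro η hη hηle C hC
  obtain ⟨m₁, hO⟩ := hO η hη (le_trans hηle (min_le_left _ _)) C hC
  obtain ⟨m₂, hT⟩ := hT η hη (le_trans hηle (min_le_right _ _)) C hC
  obtain ⟨m₃, hJ⟩ := Jz_typ' u R r hp hr η hη C hC
  refine ⟨max m₁ (max m₂ m₃), ?_⟩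
  intro m hm V _ _ G _ 𝒰 w B ty hS z hz hz1
  have hm1 : m₁ ≤ m := le_trans (le_max_left _ _) hm
  have hm2 : m₂ ≤ m := le_trans (le_trans (le_max_left _ _) (le_max_right _ _)) hm
  have hm3 : m₃ ≤ m := le_trans (le_trans (le_max_right _ _) (le_max_right _ _)) hm
  have hout : z ∈ outs B := cost_mem_outs hz
  have h1 := hO m hm1 V G 𝒰 w B ty hS z hz
  have hX : (0 : ℝ) ≤ (m : ℝ) ^ R / ((R + u).choose u : ℝ) * ((Jz 𝒰 B z).card : ℝ) := by
    positivity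
  have hκ : 2 * ((Kz G 𝒰 B u z).card : ℝ) ≤
      (m : ℝ) ^ R / ((R + u).choose u : ℝ) * ((Jz 𝒰 B z).card : ℝ) := by
    rcases hS.typ z (cost_not_un hout) with htyp | hthin
    · refine hJ m hm3 V G 𝒰 w B ty hS z hout htyp ?_
      by_contra hcon
      exact hz1 (cost_Z1_iff.mpr ⟨hout, htyp, not_lt.mp hcon⟩)
    · exact hT m hm2 V G 𝒰 w B ty hS z hout hthin
  refine cost_arith1 hX (cost_epsp_nonneg u R) hp.p3' (min_le_left 1 (sgm G B z)) ?_ hκ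
  calc ((Oz G 𝒰 B u z).card : ℝ) ≤ epsp u R * min 1 (sgm G B z) *
          ((m : ℝ) ^ R / ((R + u).choose u : ℝ)) * ((Jz 𝒰 B z).card : ℝ) := h1
    _ = epsp u R * min 1 (sgm G B z) *
          ((m : ℝ) ^ R / ((R + u).choose u : ℝ) * ((Jz 𝒰 B z).card : ℝ)) := by ring

/-- `a = u/w`, `b = R/w`, `s = σ`, `d = C₁/m`, `e = C₂/m` -/
private theorem cost_arith2 {κ O X ε c s a b d e p M : ℝ} (hκ0 : 0 ≤ κ) (hε : 0 ≤ ε)
    (hε2 : ε ≤ 1 / 2) (hc : 0 ≤ c) (hs : 0 ≤ s) (ha : 0 ≤ a) (hab : a + b = 1)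
    (hp3 : ε * (a + c) ≤ c / 2) (hbr : c / 2 * s ≤ b) (hd0 : 0 ≤ d) (hd1 : d ≤ 1)
    (he0 : 0 ≤ e) (_hp0 : 0 ≤ p) (hp1 : p ≤ 1) (hM : 0 ≤ M)
    (hO : O ≤ ε * min 1 s * X)
    (hJ : κ * (a + c * s) * (1 - d) ≤ X) (hK : κ ≤ p * M * (1 + e)) :
    κ + O - X ≤ M * (p * (b - c / 2 * s) + (e + 2 * (1 + e) * d)) := by
  set mn := min 1 s with hmn
  have hmn1 : mn ≤ 1 := min_le_left _ _
  have hmns : mn ≤ s := min_le_right _ _
  have hmn0 : 0 ≤ mn := le_min zero_le_one hs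
  have h1 : ε * mn ≤ 1 / 2 := le_trans (mul_le_of_le_one_right hε hmn1) hε2
  -- (1 - ε mn)(a + c s) ≥ a + c/2 s
  have h2 : a + c / 2 * s ≤ (1 - ε * mn) * (a + c * s) := by
    have e1 : ε * mn * a ≤ ε * s * a := by
      have := mul_le_mul_of_nonneg_left hmns hε
      exact mul_le_mul_of_nonneg_right this ha
    have e2 : ε * mn * (c * s) ≤ ε * (c * s) := by
      have : ε * mn ≤ ε := mul_le_of_le_one_right hε hmn1
      exact mul_le_mul_of_nonneg_right this (mul_nonneg hc hs)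
    have e3 : ε * (a + c) * s ≤ c / 2 * s := mul_le_mul_of_nonneg_right hp3 hs
    nlinarith
  have h3 : κ + O - X ≤ κ - (1 - ε * mn) * X := by nlinarith
  have h4 : κ * ((a + c / 2 * s) * (1 - d)) ≤ (1 - ε * mn) * X := by
    have e1 : (1 - ε * mn) * (κ * (a + c * s) * (1 - d)) ≤ (1 - ε * mn) * X :=
      mul_le_mul_of_nonneg_left hJ (by linarith)
    have e2 : κ * ((a + c / 2 * s) * (1 - d)) ≤
        κ * (((1 - ε * mn) * (a + c * s)) * (1 - d)) :=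
      mul_le_mul_of_nonneg_left (mul_le_mul_of_nonneg_right h2 (by linarith)) hκ0
    calc κ * ((a + c / 2 * s) * (1 - d)) ≤ κ * (((1 - ε * mn) * (a + c * s)) * (1 - d)) := e2
      _ = (1 - ε * mn) * (κ * (a + c * s) * (1 - d)) := by ring
      _ ≤ _ := e1
  have hb1 : b ≤ 1 := by linarith
  have hcs : 0 ≤ c / 2 * s := by positivity
  have h5 : κ + O - X ≤ κ * (b - c / 2 * s) + κ * ((a + c / 2 * s) * d) := by
    have : κ - κ * ((a + c / 2 * s) * (1 - d)) =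
        κ * (b - c / 2 * s) + κ * ((a + c / 2 * s) * d) := by
      have hb : b = 1 - a := by linarith
      rw [hb]; ring
    linarith
  have h6 : κ * (b - c / 2 * s) ≤ M * (p * (b - c / 2 * s) + e) := by
    have e1 : κ * (b - c / 2 * s) ≤ p * M * (1 + e) * (b - c / 2 * s) :=
      mul_le_mul_of_nonneg_right hK (by linarith)
    have e2 : p * (b - c / 2 * s) ≤ 1 := by
      have : p * (b - c / 2 * s) ≤ 1 * 1 :=
        mul_le_mul hp1 (by linarith) (by linarith) zero_le_one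
      linarith
    have e3 : M * e * (p * (b - c / 2 * s)) ≤ M * e :=
      mul_le_of_le_one_right (mul_nonneg hM he0) e2
    calc κ * (b - c / 2 * s) ≤ p * M * (1 + e) * (b - c / 2 * s) := e1
      _ = M * (p * (b - c / 2 * s)) + M * e * (p * (b - c / 2 * s)) := by ring
      _ ≤ M * (p * (b - c / 2 * s)) + M * e := by linarith
      _ = _ := by ring
  have h7 : κ * ((a + c / 2 * s) * d) ≤ M * (2 * (1 + e) * d) := by
    have e1 : κ ≤ M * (1 + e) := by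
      have : p * M * (1 + e) ≤ 1 * M * (1 + e) :=
        mul_le_mul_of_nonneg_right (mul_le_mul_of_nonneg_right hp1 hM) (by linarith)
      linarith
    have e2 : (a + c / 2 * s) * d ≤ 2 * d :=
      mul_le_mul_of_nonneg_right (by linarith) hd0
    calc κ * ((a + c / 2 * s) * d) ≤ (M * (1 + e)) * (2 * d) :=
          mul_le_mul e1 e2 (by positivity) (by positivity)
      _ = _ := by ring
  calc κ + O - X ≤ κ * (b - c / 2 * s) + κ * ((a + c / 2 * s) * d) := h5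
    _ ≤ M * (p * (b - c / 2 * s) + e) + M * (2 * (1 + e) * d) := by linarith
    _ = _ := by ring

private theorem cost_pz_le_one {V : Type} [Fintype V] [DecidableEq V] {G : SimpleGraph V}
    [DecidableRel G.Adj] {w : ℕ} (B : Fin w → Finset V) (ty : V → Fin w) (z : V) :
    0 ≤ pz G B univ ty z ∧ pz G B univ ty z ≤ 1 := by
  unfold pz
  exact ⟨prod_nonneg fun k _ => al_nonneg B z k,
    prod_le_one (fun k _ => al_nonneg B z k) fun k _ => al_le_one B z k⟩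

/-- Proof: `Oz_le`, `Jz_typ`: `κ + O - ρ₀ J ≤ κ (1 - (1 - ε' min(1,σ)) (u/w + ck σ) (1 - C/m))`,
`Par.p3`; `κ ≤ π m^(w-1) (1 + C/m)`, the bracket `R/w - (ck/2) σ` is `≥ 0` by `Par.p2`. -/
theorem cost_Z1 (u R r : ℕ) (hp : Par u R) (hr : r < R) :
    ∃ η₁ : ℝ, 0 < η₁ ∧ ∀ η : ℝ, 0 < η → η ≤ η₁ → ∀ C : ℝ, 0 < C →
      ∃ C' : ℝ, 0 < C' ∧ ∃ m₀ : ℕ, ∀ m : ℕ, m₀ ≤ m →
      ∀ (V : Type) [Fintype V] [DecidableEq V] (G : SimpleGraph V) [DecidableRel G.Adj]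
        (𝒰 : Finset (Finset V)) (w : ℕ) (B : Fin w → Finset V) (ty : V → Fin w),
        Stp G 𝒰 B ty u R r m C η → ∀ z ∈ Z1 G B ty (4 * w * η) (eta0 u R),
        ((Kz G 𝒰 B u z).card : ℝ) + ((Oz G 𝒰 B u z).card : ℝ) -
          (m : ℝ) ^ R / ((R + u).choose u : ℝ) * ((Jz 𝒰 B z).card : ℝ) ≤
        (m : ℝ) ^ (w - 1) *
          (pz G B univ ty z * ((R : ℝ) / (R + u) - ck u R / 2 * sgm G B z) + C' / m) := by
  obtain ⟨η₁, hη₁, hO⟩ := Oz_le u R r hp hr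
  refine ⟨η₁, hη₁, ?_⟩
  intro η hη hηle C hC
  obtain ⟨m₁, hO⟩ := hO η hη hηle C hC
  obtain ⟨C₁, hC₁, m₂, hJ⟩ := Jz_typ u R r hp hr η hη C hC
  obtain ⟨C₂, hC₂, m₃, hK⟩ := Kz_le_pz u R r hp hr η hη C hC
  refine ⟨C₂ + 2 * (1 + C₂) * C₁, by positivity, max (max m₁ (⌈C₁⌉₊ + 1)) (max m₂ m₃), ?_⟩
  intro m hm V _ _ G _ 𝒰 w B ty hS z hz
  have hm1 : m₁ ≤ m := le_trans (le_trans (le_max_left _ _) (le_max_left _ _)) hm
  have hm0 : ⌈C₁⌉₊ + 1 ≤ m := le_trans (le_trans (le_max_right _ _) (le_max_left _ _)) hm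
  have hm2 : m₂ ≤ m := le_trans (le_trans (le_max_left _ _) (le_max_right _ _)) hm
  have hm3 : m₃ ≤ m := le_trans (le_trans (le_max_right _ _) (le_max_right _ _)) hm
  have hzin : z ∈ Zin G B R := Z1_subset_Zin hp B ty _ hz
  obtain ⟨hout, htyp, hpz⟩ := cost_Z1_iff.mp hz
  have h1 := hO m hm1 V G 𝒰 w B ty hS z hzin
  have h2 := hJ m hm2 V G 𝒰 w B ty hS z hout htyp
  have h3 := hK m hm3 V G 𝒰 w B ty hS z hout htyp
  obtain ⟨hpz0, hpz1⟩ := cost_pz_le_one (G := G) B ty z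
  have hmpos : (1 : ℝ) ≤ m := by
    have : 1 ≤ m := by omega
    exact_mod_cast this
  have hmC : C₁ ≤ m := by
    have e1 : C₁ ≤ (⌈C₁⌉₊ : ℝ) := Nat.le_ceil C₁
    have e2 : ((⌈C₁⌉₊ : ℕ) : ℝ) ≤ m := by
      have : ⌈C₁⌉₊ ≤ m := by omega
      exact_mod_cast this
    linarith
  have hm00 : (0 : ℝ) < m := by linarith
  have hs : η / 4 ≤ sgm G B z := hS.sgl z (cost_not_un hout)
  have hs0 : 0 ≤ sgm G B z := by linarith
  obtain ⟨he0, _⟩ := eta0_pos hp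
  have hlog : sgm G B z ≤ -Real.log (eta0 u R) := by
    rw [sgm_eq htyp]
    have h4 := sgE_le (G := G) (B := B) (I := univ) (ty := ty) (z := z) (lt_of_lt_of_le he0 hpz)
    have h5 := Real.log_le_log he0 hpz
    linarith
  have hRu : (0 : ℝ) < (R : ℝ) + u := by
    have : 0 < R := by omega
    have : (0 : ℝ) < R := by exact_mod_cast this
    positivity
  have hck : 0 ≤ ck u R := by
    unfold ck
    have : (1 : ℝ) ≤ (R : ℝ) := by
      have : 1 ≤ R := by omega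
      exact_mod_cast this
    have h0 : (0 : ℝ) ≤ (R : ℝ) + u - 1 := by
      have : (0 : ℝ) ≤ (u : ℝ) := Nat.cast_nonneg _
      linarith
    positivity
  have hbr : ck u R / 2 * sgm G B z ≤ (R : ℝ) / (R + u) :=
    le_trans (mul_le_mul_of_nonneg_left hlog (by positivity)) hp.p2
  have key := cost_arith2 (κ := ((Kz G 𝒰 B u z).card : ℝ)) (O := ((Oz G 𝒰 B u z).card : ℝ))
    (X := (m : ℝ) ^ R / ((R + u).choose u : ℝ) * ((Jz 𝒰 B z).card : ℝ)) (ε := epsp u R)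
    (c := ck u R) (s := sgm G B z) (a := u / ((R : ℝ) + u)) (b := (R : ℝ) / (R + u))
    (d := C₁ / m) (e := C₂ / m) (p := pz G B univ ty z) (M := (m : ℝ) ^ (w - 1))
    (Nat.cast_nonneg _) (cost_epsp_nonneg u R) hp.p3' hck hs0 (by positivity)
    (by field_simp; ring) hp.p3 hbr (by positivity) ((div_le_one hm00).mpr hmC) (by positivity)
    hpz0 hpz1 (by positivity)
    (by
      calc ((Oz G 𝒰 B u z).card : ℝ) ≤ epsp u R * min 1 (sgm G B z) *
            ((m : ℝ) ^ R / ((R + u).choose u : ℝ)) * ((Jz 𝒰 B z).card : ℝ) := h1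
        _ = _ := by ring)
    h2 h3
  refine le_trans key (mul_le_mul_of_nonneg_left ?_ (by positivity))
  have h6 : C₂ / m + 2 * (1 + C₂ / m) * (C₁ / m) ≤ (C₂ + 2 * (1 + C₂) * C₁) / m := by
    have h7 : C₂ / m ≤ C₂ := div_le_self hC₂.le hmpos
    have h8 : 2 * (1 + C₂ / m) * (C₁ / m) ≤ 2 * (1 + C₂) * (C₁ / m) :=
      mul_le_mul_of_nonneg_right (by linarith) (by positivity)
    have h9 : (C₂ + 2 * (1 + C₂) * C₁) / m = C₂ / m + 2 * (1 + C₂) * (C₁ / m) := by ring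
    linarith
  linarith

end H23CL
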