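import Pool.Agent.H23.CL.Val
import Pool.Agent.H57.LC.Zyk

/-! Step 6 of note 3669: the cliques counted by `Oz`. -/

set_option autoImplicit false

namespace H23CL

open Finset H57LC

set_option linter.unusedSectionVars false

/-- the elementary inequality -/
private theorem CostO_elem (u R : ℕ) (hR : 10 ≤ R) {σ x η d : ℝ}
    (hx0 : 0 ≤ x) (hx : x ≤ σ + 2 * u * ((R : ℝ) + u) * η + d) (hη : 0 < η) (hσ : η / 4 ≤ σ)
    (hd1 : d ≤ η / 4) (hd2 : d ≤ R / 200) (hη2 : 2 * u * ((R : ℝ) + u) * η ≤ R / 200)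
    (hσ2 : σ ≤ R / 2) :
    (x / R) ^ R ≤ (2 + 4 * u * ((R : ℝ) + u)) * (51 / 100) ^ R * min 1 σ := by
  have hR10 : (10 : ℝ) ≤ R := by exact_mod_cast hR
  have hR0 : (0 : ℝ) < R := by linarith
  have huw : (0 : ℝ) ≤ u * ((R : ℝ) + u) := by positivity
  have hxR0 : 0 ≤ x / R := div_nonneg hx0 hR0.le
  have hxR : x / R ≤ 51 / 100 := by
    rw [div_le_iff₀ hR0]
    linarith
  rcases le_or_gt 1 σ with h1 | h1
  · rw [min_eq_left h1, mul_one]
    have h2 : (x / R) ^ R ≤ (51 / 100) ^ R := pow_le_pow_left₀ hxR0 hxR R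
    have h3 : (0 : ℝ) ≤ (51 / 100) ^ R := by positivity
    nlinarith
  · rw [min_eq_right h1.le]
    obtain ⟨S, rfl⟩ : ∃ S, R = S + 1 := ⟨R - 1, by omega⟩
    have h2 : (x / ((S + 1 : ℕ) : ℝ)) ^ S ≤ (51 / 100) ^ S := pow_le_pow_left₀ hxR0 hxR S
    have h3 : (0 : ℝ) ≤ (51 / 100) ^ S := by positivity
    have hσ0 : 0 < σ := by linarith
    set W : ℝ := u * (((S + 1 : ℕ) : ℝ) + u) with hW
    have h4 : x ≤ σ * (2 + 8 * W) := by
      have h5 : 2 * u * (((S + 1 : ℕ) : ℝ) + u) * η = 2 * W * η := by rw [hW]; ring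
      rw [h5] at hx
      have h6 : W * (η / 4) ≤ W * σ := mul_le_mul_of_nonneg_left hσ huw
      nlinarith
    have h7 : x / ((S + 1 : ℕ) : ℝ) ≤ σ * (2 + 8 * W) / 10 := by
      calc x / ((S + 1 : ℕ) : ℝ) ≤ (σ * (2 + 8 * W)) / ((S + 1 : ℕ) : ℝ) :=
            div_le_div_of_nonneg_right h4 hR0.le
        _ ≤ σ * (2 + 8 * W) / 10 := by
            refine div_le_div_of_nonneg_left ?_ (by norm_num) hR10
            positivity
    have h8 : (x / ((S + 1 : ℕ) : ℝ)) ^ (S + 1) ≤ (51 / 100) ^ S * (σ * (2 + 8 * W) / 10) := by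
      rw [pow_succ]
      exact mul_le_mul h2 h7 hxR0 h3
    have h9 : (2 + 4 * u * (((S + 1 : ℕ) : ℝ) + u)) = 2 + 4 * W := by rw [hW]; ring
    rw [h9, pow_succ]
    refine h8.trans ?_
    have h10 : σ * (2 + 8 * W) / 10 ≤ (2 + 4 * W) * (51 / 100) * σ := by
      nlinarith [mul_nonneg hσ0.le huw]
    calc (51 / 100) ^ S * (σ * (2 + 8 * W) / 10) ≤ (51 / 100) ^ S * ((2 + 4 * W) * (51 / 100) * σ) :=
          mul_le_mul_of_nonneg_left h10 h3
      _ = _ := by ring

/-- the outside common neighbours of a member of `Jz z` -/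
private theorem CostO_s {V : Type} [Fintype V] [DecidableEq V] {G : SimpleGraph V}
    [DecidableRel G.Adj] {𝒰 : Finset (Finset V)} {w u R r m : ℕ} {B : Fin w → Finset V}
    {ty : V → Fin w} {C η : ℝ} (h : Stp G 𝒰 B ty u R r m C η) (hη : 0 < η)
    (hCm : C < m) (hC : 0 < C) (hu : 1 ≤ u) {z : V} (hz : z ∉ un B) {U : Finset V}
    (hU : U ∈ Jz 𝒰 B z) :
    (((cn G U) \ un B).card : ℝ) ≤
      sgm G B z * m + 2 * u * w * η * m + (r + R * C) := by
  classical
  obtain ⟨hU1, hzU, hUB⟩ : U ∈ 𝒰 ∧ z ∈ U ∧ U.erase z ⊆ un B := by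
    unfold Jz at hU
    simpa using hU
  have hUc := h.sub hU1
  have hUcard : U.card = u := (mem_clq.1 hUc).1.2
  have hval := h.val U hUc
  have hm0 : (0 : ℝ) < m := hC.trans hCm
  have hηm : 0 ≤ 2 * η * m := by positivity
  -- the parts which meet `U.erase z`
  set U' := U.erase z with hU'
  have hU'card : U'.card + 1 = u := by
    rw [hU', card_erase_of_mem hzU, hUcard]
    omega
  set P : Finset (Fin w) := univ.filter fun k => (U' ∩ B k).Nonempty with hP
  have hPcard : P.card ≤ U'.card := by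
    calc P.card = ∑ _k ∈ P, 1 := by simp
      _ ≤ ∑ k ∈ P, (U' ∩ B k).card := by
          refine sum_le_sum fun k hk => ?_
          exact card_pos.2 (mem_filter.1 hk).2
      _ = (P.biUnion fun k => U' ∩ B k).card := by
          rw [card_biUnion]
          intro i _ j _ hij
          exact (h.bs.disj i j hij).mono inter_subset_right inter_subset_right
      _ ≤ U'.card := card_le_card (biUnion_subset.2 fun k _ => inter_subset_left)
  -- the common neighbours in a part outside `P`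
  have hpart : ∀ k ∈ univ \ P, al G B z k * ((B k).card : ℝ) - (U'.card : ℝ) * (2 * η * m) ≤
      ((cn G U ∩ B k).card : ℝ) := by
    intro k hk
    have hkP : ¬ (U' ∩ B k).Nonempty := by
      intro hne
      exact (mem_sdiff.1 hk).2 (mem_filter.2 ⟨mem_univ k, hne⟩)
    have hbk : (0 : ℝ) < ((B k).card : ℝ) := by
      have := h.bs.size k
      rw [abs_le] at this
      linarith
    have hal : al G B z k * ((B k).card : ℝ) = (((B k).filter fun y => G.Adj z y).card : ℝ) := by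
      unfold al
      rw [div_mul_cancel₀ _ hbk.ne']
    have hsub : ((B k).filter fun y => G.Adj z y) ⊆
        (cn G U ∩ B k) ∪ U'.biUnion fun a => hs G (B k) a := by
      intro y hy
      obtain ⟨hyB, hzy⟩ := mem_filter.1 hy
      by_cases hcase : ∀ a ∈ U', G.Adj a y
      · refine mem_union_left _ (mem_inter.2 ⟨mem_cn.2 fun a ha => ?_, hyB⟩)
        by_cases haz : a = z
        · rw [haz]
          exact hzy
        · exact hcase a (mem_erase.2 ⟨haz, ha⟩)
      · push Not at hcase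
        obtain ⟨a, ha, hay⟩ := hcase
        exact mem_union_right _ (mem_biUnion.2 ⟨a, ha, mem_hs.2 ⟨hyB, hay⟩⟩)
    have hrow : ∀ a ∈ U', ((hs G (B k) a).card : ℝ) ≤ 2 * η * m := by
      intro a ha
      obtain ⟨l, hl⟩ := mem_un.1 (hUB ha)
      have hlk : l ≠ k := by
        rintro rfl
        exact hkP ⟨a, mem_inter.2 ⟨ha, hl⟩⟩
      exact h.bs.row l k hlk a hl
    have h1 : (((B k).filter fun y => G.Adj z y).card : ℝ) ≤
        ((cn G U ∩ B k).card : ℝ) + ∑ a ∈ U', ((hs G (B k) a).card : ℝ) := by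
      have h2 := (card_le_card hsub).trans (card_union_le _ _)
      have h3 : (U'.biUnion fun a => hs G (B k) a).card ≤ ∑ a ∈ U', (hs G (B k) a).card :=
        card_biUnion_le
      exact_mod_cast h2.trans (Nat.add_le_add_left h3 _)
    have h4 : ∑ a ∈ U', ((hs G (B k) a).card : ℝ) ≤ (U'.card : ℝ) * (2 * η * m) := by
      calc ∑ a ∈ U', ((hs G (B k) a).card : ℝ) ≤ ∑ _a ∈ U', (2 * η * m) := sum_le_sum hrow
        _ = _ := by rw [sum_const, nsmul_eq_mul]
    rw [hal]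
    linarith
  -- all parts
  have hsplit : ((cn G U) \ un B).card + ∑ k ∈ univ \ P, (cn G U ∩ B k).card ≤ R * m + r := by
    refine le_trans ?_ hval
    rw [← card_biUnion, ← card_union_of_disjoint]
    · refine card_le_card (union_subset sdiff_subset (biUnion_subset.2 fun k _ => inter_subset_left))
    · rw [Finset.disjoint_left]
      intro y hy hy'
      obtain ⟨k, _, hk⟩ := mem_biUnion.1 hy'
      exact (mem_sdiff.1 hy).2 (mem_un.2 ⟨k, (mem_inter.1 hk).2⟩)
    · intro i _ j _ hij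
      exact (h.bs.disj i j hij).mono inter_subset_right inter_subset_right
  have hsplit' : (((cn G U) \ un B).card : ℝ) + ∑ k ∈ univ \ P, ((cn G U ∩ B k).card : ℝ) ≤
      R * m + r := by exact_mod_cast hsplit
  have hσ0 : 0 < sgm G B z := lt_of_lt_of_le (by linarith) (h.sgl z hz)
  -- the sum of the shares
  have hsum : (R : ℝ) - sgm G B z ≤ ∑ k ∈ univ \ P, al G B z k := by
    have h1 : ∑ k ∈ univ \ P, al G B z k + ∑ k ∈ P, al G B z k = ∑ k, al G B z k :=
      sum_sdiff (subset_univ P)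
    have h2 : ∑ k ∈ P, al G B z k ≤ (U'.card : ℝ) := by
      calc ∑ k ∈ P, al G B z k ≤ ∑ _k ∈ P, (1 : ℝ) := sum_le_sum fun k _ => al_le_one B z k
        _ = (P.card : ℝ) := by simp
        _ ≤ (U'.card : ℝ) := by exact_mod_cast hPcard
    have h3 : sgm G B z = (w : ℝ) - ∑ k, al G B z k - 1 := by
      unfold sgm
      rw [sum_sub_distrib]
      simp
    have h4 : (U'.card : ℝ) + 1 = u := by exact_mod_cast hU'card
    have h5 : (w : ℝ) = R + u := by
      have := h.hw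
      exact_mod_cast this
    linarith
  have hlow : ((m : ℝ) - C) * (∑ k ∈ univ \ P, al G B z k) - w * ((U'.card : ℝ) * (2 * η * m)) ≤
      ∑ k ∈ univ \ P, ((cn G U ∩ B k).card : ℝ) := by
    have h1 := sum_le_sum hpart
    rw [sum_sub_distrib, sum_const, nsmul_eq_mul] at h1
    have h2 : ((m : ℝ) - C) * (∑ k ∈ univ \ P, al G B z k) ≤
        ∑ k ∈ univ \ P, al G B z k * ((B k).card : ℝ) := by
      rw [mul_sum]
      refine sum_le_sum fun k _ => ?_
      rw [mul_comm]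
      refine mul_le_mul_of_nonneg_left ?_ (al_nonneg B z k)
      have := h.bs.size k
      rw [abs_le] at this
      linarith
    have h3 : ((univ \ P).card : ℝ) * ((U'.card : ℝ) * (2 * η * m)) ≤
        w * ((U'.card : ℝ) * (2 * η * m)) := by
      refine mul_le_mul_of_nonneg_right ?_ (by positivity)
      have h4 : (univ \ P).card ≤ w := by
        refine (card_le_card (subset_univ _)).trans ?_
        rw [card_univ, Fintype.card_fin]
      exact_mod_cast h4
    linarith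
  have h6 : ((m : ℝ) - C) * ((R : ℝ) - sgm G B z) ≤
      ((m : ℝ) - C) * (∑ k ∈ univ \ P, al G B z k) :=
    mul_le_mul_of_nonneg_left hsum (by linarith)
  have h7 : (w : ℝ) * ((U'.card : ℝ) * (2 * η * m)) ≤ 2 * u * w * η * m := by
    have h8 : (U'.card : ℝ) ≤ u := by
      have : U'.card ≤ u := by omega
      exact_mod_cast this
    have h9 : (w : ℝ) * ((U'.card : ℝ) * (2 * η * m)) ≤ (w : ℝ) * ((u : ℝ) * (2 * η * m)) :=
      mul_le_mul_of_nonneg_left (mul_le_mul_of_nonneg_right h8 hηm) (Nat.cast_nonneg _)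
    calc _ ≤ _ := h9
      _ = _ := by ring
  have h10 : 0 ≤ C * sgm G B z := by positivity
  nlinarith

/-- the cliques of `Oz` -/
private theorem CostO_sub {V : Type} [Fintype V] [DecidableEq V] {G : SimpleGraph V}
    [DecidableRel G.Adj] {𝒰 : Finset (Finset V)} {u R : ℕ} {B : Fin (R + u) → Finset V}
    {z : V} (hz : z ∉ un B) :
    (Oz G 𝒰 B u z).card ≤ ∑ U ∈ Jz 𝒰 B z, (clq G (cn G U \ un B) R).card := by
  classical
  have hsub : Oz G 𝒰 B u z ⊆ (Jz 𝒰 B z).biUnion fun U =>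
      (clq G (cn G U \ un B) R).image fun T => U ∪ T := by
    intro K hK
    obtain ⟨hKK, hzK, hcard⟩ : K ∈ KK G 𝒰 u (R + u) ∧ z ∈ K ∧ (K ∩ un B).card + 1 = u := by
      unfold Oz at hK
      simpa using hK
    obtain ⟨hKc, hKU⟩ := mem_filter.1 hKK
    obtain ⟨⟨_, hKcard⟩, hKcl⟩ := mem_clq.1 hKc
    have hzn : z ∉ K ∩ un B := fun h' => hz (mem_inter.1 h').2
    set U := insert z (K ∩ un B) with hU
    have hUK : U ⊆ K := insert_subset hzK inter_subset_left
    have hUcard : U.card = u := by rw [hU, card_insert_of_notMem hzn, hcard]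
    have hUJ : U ∈ Jz 𝒰 B z := by
      unfold Jz
      refine mem_filter.2 ⟨hKU (mem_powersetCard.2 ⟨hUK, hUcard⟩), mem_insert_self _ _, ?_⟩
      rw [hU, erase_insert hzn]
      exact inter_subset_right
    refine mem_biUnion.2 ⟨U, hUJ, mem_image.2 ⟨K \ U, ?_, union_sdiff_of_subset hUK⟩⟩
    rw [mem_clq]
    refine ⟨⟨?_, ?_⟩, hKcl.subset sdiff_subset⟩
    · intro y hy
      obtain ⟨hyK, hyU⟩ := mem_sdiff.1 hy
      refine mem_sdiff.2 ⟨mem_cn.2 fun a ha => ?_, fun hyB => ?_⟩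
      · exact hKcl a (hUK ha) y hyK fun e => hyU (e ▸ ha)
      · exact hyU (mem_insert_of_mem (mem_inter.2 ⟨hyK, hyB⟩))
    · have := card_sdiff_add_card_eq_card hUK
      omega
  refine (card_le_card hsub).trans (card_biUnion_le.trans ?_)
  exact sum_le_sum fun U _ => card_image_le

/-- Proof: a member `K` of `Oz z` contains exactly one `U ∈ Jz z` (`U = insert z (K ∩ un B)`), and
`K \ U` is an `R`-clique in `cn U \ un B`, so `|Oz z| ≤ ∑_{U ∈ Jz z} (s_U / R)^R`,
`s_U = |cn U \ un B|` (`H57LC.star_zyk`, first part; `cn_free`).  For `U = insert z U'`, `U'` a clique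
in the parts `P'`, `|P'| = u-1`: `|cn U ∩ B_k| ≥ al z k * b_k - (u-1) 2 η m` for `k ∉ P'`, and
`∑_{k ∉ P'} al z k ≥ (w - 1 - σ) - (u-1) = R - σ`; so `s_U ≤ m σ + 2 u w η m + C'`.
Then `C(w,u) ((σ + 2uwη + C'/m)/R)^R ≤ ε' min(1,σ)` for `η/4 ≤ σ ≤ R/2` (two cases `σ ≤ 1`,
`σ > 1`; `ε' = C(w,u) (2+4uw) (51/100)^R`, `η` small, `m` large). -/
theorem Oz_le (u R r : ℕ) (hp : Par u R) (hr : r < R) :
    ∃ η₁ : ℝ, 0 < η₁ ∧ ∀ η : ℝ, 0 < η → η ≤ η₁ → ∀ C : ℝ, 0 < C →
      ∃ m₀ : ℕ, ∀ m : ℕ, m₀ ≤ m →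
      ∀ (V : Type) [Fintype V] [DecidableEq V] (G : SimpleGraph V) [DecidableRel G.Adj]
        (𝒰 : Finset (Finset V)) (w : ℕ) (B : Fin w → Finset V) (ty : V → Fin w),
        Stp G 𝒰 B ty u R r m C η → ∀ z ∈ Zin G B R,
        ((Oz G 𝒰 B u z).card : ℝ) ≤ epsp u R * min 1 (sgm G B z) *
          ((m : ℝ) ^ R / ((R + u).choose u : ℝ)) * ((Jz 𝒰 B z).card : ℝ) := by
  have hu : (1 : ℝ) ≤ u := by exact_mod_cast hp.hu
  have hR10 : (10 : ℝ) ≤ R := by exact_mod_cast hp.hR
  have hR0 : (0 : ℝ) < R := by linarith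
  have huw : (0 : ℝ) < 2 * u * ((R : ℝ) + u) := by positivity
  refine ⟨R / 200 / (2 * u * ((R : ℝ) + u)), by positivity, fun η hη hη1 C hC => ?_⟩
  have hη2 : 2 * u * ((R : ℝ) + u) * η ≤ R / 200 := by
    rw [le_div_iff₀ huw] at hη1
    linarith
  have hC' : (0 : ℝ) < r + R * C := by positivity
  obtain ⟨m₀, hm₀⟩ := exists_nat_gt (max C (max ((r + R * C) / (η / 4)) ((r + R * C) / (R / 200))))
  refine ⟨m₀, fun m hm V _ _ G _ 𝒰 w B ty h z hz => ?_⟩
  classical
  have hmm : (m₀ : ℝ) ≤ m := by exact_mod_cast hm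
  have hm1 : C < m := lt_of_lt_of_le (lt_of_le_of_lt (le_max_left _ _) hm₀) hmm
  have hm2 : (r + R * C) / (η / 4) < m :=
    lt_of_lt_of_le (lt_of_le_of_lt ((le_max_left _ _).trans (le_max_right _ _)) hm₀) hmm
  have hm3 : (r + R * C) / (R / 200) < m :=
    lt_of_lt_of_le (lt_of_le_of_lt ((le_max_right _ _).trans (le_max_right _ _)) hm₀) hmm
  have hm0 : (0 : ℝ) < m := hC.trans hm1
  obtain rfl := h.hw
  have hz' : z ∉ un B ∧ sgm G B z ≤ R / 2 := by
    unfold Zin outs at hz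
    rw [mem_filter, mem_sdiff] at hz
    exact ⟨hz.1.2, hz.2⟩
  set σ := sgm G B z with hσ
  set d : ℝ := (r + R * C) / m with hd
  have hd1 : d ≤ η / 4 := by
    rw [hd, div_le_iff₀ hm0]
    rw [div_lt_iff₀ (by positivity)] at hm2
    linarith
  have hd2 : d ≤ R / 200 := by
    rw [hd, div_le_iff₀ hm0]
    rw [div_lt_iff₀ (by positivity)] at hm3
    linarith
  have hch : (0 : ℝ) < ((R + u).choose u : ℝ) := by
    have : 0 < (R + u).choose u := Nat.choose_pos (Nat.le_add_left u R)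
    exact_mod_cast this
  -- one member of `Jz`
  have hone : ∀ U ∈ Jz 𝒰 B z, ((clq G (cn G U \ un B) R).card : ℝ) ≤
      epsp u R * min 1 σ * ((m : ℝ) ^ R / ((R + u).choose u : ℝ)) := by
    intro U hU
    have hU1 : U ∈ 𝒰 := by
      unfold Jz at hU
      exact (mem_filter.1 hU).1
    set s : ℝ := ((cn G U \ un B).card : ℝ) with hs
    have hs1 : s ≤ σ * m + 2 * u * ((R + u : ℕ) : ℝ) * η * m + (r + R * C) :=
      CostO_s h hη hm1 hC hp.hu hz'.1 hU
    have hfree : clq G (cn G U \ un B) (R + 1) = ∅ := by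
      have h1 := cn_free h.free (h.sub hU1)
      rw [eq_empty_iff_forall_notMem] at h1 ⊢
      intro T hT
      refine h1 T ?_
      rw [mem_clq] at hT ⊢
      exact ⟨⟨hT.1.1.trans sdiff_subset, hT.1.2⟩, hT.2⟩
    have hzy := (star_zyk (G := G) R (by have := hp.hR; omega)).1 _ hfree
    have hx : s / m ≤ σ + 2 * u * ((R : ℝ) + u) * η + d := by
      rw [hd, div_le_iff₀ hm0]
      have h2 : (r + R * C) / m * m = (r + R * C) := div_mul_cancel₀ _ hm0.ne'
      push_cast at hs1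
      calc s ≤ σ * m + 2 * u * ((R : ℝ) + u) * η * m + (r + R * C) := hs1
        _ = (σ + 2 * u * ((R : ℝ) + u) * η + (r + R * C) / m) * m := by
            rw [add_mul, add_mul, h2]
    have hs0 : 0 ≤ s := Nat.cast_nonneg _
    have hel := CostO_elem u R hp.hR (div_nonneg hs0 hm0.le) hx hη (h.sgl z hz'.1) hd1 hd2 hη2 hz'.2
    have h3 : ((clq G (cn G U \ un B) R).card : ℝ) ≤ (m : ℝ) ^ R * (s / m / R) ^ R := by
      have h4 : (m : ℝ) ^ R * (s / m / R) ^ R = s ^ R / (R : ℝ) ^ R := by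
        rw [← mul_pow, ← div_pow]
        congr 1
        field_simp
      rw [h4, le_div_iff₀ (by positivity), mul_comm]
      exact hzy
    calc ((clq G (cn G U \ un B) R).card : ℝ) ≤ (m : ℝ) ^ R * (s / m / R) ^ R := h3
      _ ≤ (m : ℝ) ^ R * ((2 + 4 * u * ((R : ℝ) + u)) * (51 / 100) ^ R * min 1 σ) :=
          mul_le_mul_of_nonneg_left hel (by positivity)
      _ = epsp u R * min 1 σ * ((m : ℝ) ^ R / ((R + u).choose u : ℝ)) := by
          unfold epsp
          field_simp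
  have hcard : ((Oz G 𝒰 B u z).card : ℝ) ≤
      ∑ U ∈ Jz 𝒰 B z, ((clq G (cn G U \ un B) R).card : ℝ) := by
    exact_mod_cast CostO_sub (G := G) (𝒰 := 𝒰) hz'.1
  calc ((Oz G 𝒰 B u z).card : ℝ) ≤ ∑ U ∈ Jz 𝒰 B z, ((clq G (cn G U \ un B) R).card : ℝ) := hcard
    _ ≤ ∑ _U ∈ Jz 𝒰 B z, epsp u R * min 1 σ * ((m : ℝ) ^ R / ((R + u).choose u : ℝ)) :=
        sum_le_sum hone
    _ = _ := by
        rw [sum_const, nsmul_eq_mul]
        ring

end H23CL
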