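import Pool.Agent.H23.CL.Defs

/-! Step 5 of note 3669: the cliques hit by `𝒮`. -/

set_option autoImplicit false

namespace H23CL

open Finset H57LC

variable {V : Type*} [Fintype V] [DecidableEq V] (G : SimpleGraph V) [DecidableRel G.Adj] {w : ℕ}

private lemma mem_outs' {B : Fin w → Finset V} {z : V} : z ∈ outs B ↔ z ∉ un B := by
  simp [outs]

private lemma mem_Zin' {B : Fin w → Finset V} {R : ℕ} {z : V} (h : z ∈ Zin G B R) :
    z ∉ un B := by
  unfold Zin at h
  rw [mem_filter] at h
  exact mem_outs'.1 h.1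

/-- the members of `NN 𝒰 (SS ..)`, by the number of vertices outside the parts -/
theorem NN_le {u R : ℕ} (hu : 1 ≤ u) (hR : 2 ≤ R) (hw : w = R + u) {𝒰 : Finset (Finset V)}
    (hsub : 𝒰 ⊆ clq G univ u) (B : Fin w → Finset V) :
    ((NN G 𝒰 (SS G 𝒰 B R) u w).card : ℝ) ≤ ((K0 G 𝒰 B u).card : ℝ) +
      ∑ z ∈ outs B, ((Kz G 𝒰 B u z).card : ℝ) + ((N2 G 𝒰 B u).card : ℝ) +
      ∑ z ∈ Zin G B R, ((Oz G 𝒰 B u z).card : ℝ) := by
  have hsubset : NN G 𝒰 (SS G 𝒰 B R) u w ⊆
      ((K0 G 𝒰 B u ∪ (outs B).biUnion (Kz G 𝒰 B u)) ∪ N2 G 𝒰 B u) ∪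
        (Zin G B R).biUnion (Oz G 𝒰 B u) := by
    intro K hK
    unfold NN at hK
    rw [mem_filter] at hK
    obtain ⟨hKK, U, hU, hUK⟩ := hK
    rcases Nat.lt_or_ge (K \ un B).card 2 with h2 | h2
    · -- zero or one vertex outside
      rcases Nat.eq_zero_or_pos (K \ un B).card with h0 | h1
      · refine mem_union_left _ (mem_union_left _ (mem_union_left _ ?_))
        unfold K0
        rw [mem_filter]
        refine ⟨hKK, ?_⟩
        rw [card_eq_zero, sdiff_eq_empty_iff_subset] at h0
        exact h0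
      · have h1' : (K \ un B).card = 1 := by omega
        obtain ⟨z, hz⟩ := card_eq_one.1 h1'
        have hzm : z ∈ K \ un B := by rw [hz]; exact mem_singleton_self z
        rw [mem_sdiff] at hzm
        refine mem_union_left _ (mem_union_left _ (mem_union_right _ ?_))
        rw [mem_biUnion]
        refine ⟨z, mem_outs'.2 hzm.2, ?_⟩
        unfold Kz
        rw [mem_filter]
        refine ⟨hKK, hzm.1, ?_⟩
        intro y hy
        rw [mem_erase] at hy
        by_contra hyn
        have : y ∈ K \ un B := mem_sdiff.2 ⟨hy.2, hyn⟩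
        rw [hz, mem_singleton] at this
        exact hy.1 this
    · rcases Nat.lt_or_ge (K ∩ un B).card u with h3 | h3
      · unfold SS at hU
        rw [mem_union, mem_biUnion] at hU
        rcases hU with hU | ⟨z, hz, hU⟩
        · exfalso
          unfold UC at hU
          rw [mem_filter] at hU
          have hc := (mem_clq.1 (hsub hU.1)).1.2
          have : U.card ≤ (K ∩ un B).card := card_le_card (subset_inter hUK hU.2)
          omega
        · unfold Jz at hU
          rw [mem_filter] at hU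
          have hc := (mem_clq.1 (hsub hU.1)).1.2
          have hle : (U.erase z).card ≤ (K ∩ un B).card :=
            card_le_card (subset_inter ((erase_subset _ _).trans hUK) hU.2.2)
          rw [card_erase_of_mem hU.2.1] at hle
          refine mem_union_right _ ?_
          rw [mem_biUnion]
          refine ⟨z, hz, ?_⟩
          unfold Oz
          rw [mem_filter]
          refine ⟨hKK, hUK hU.2.1, ?_⟩
          omega
      · refine mem_union_left _ (mem_union_right _ ?_)
        unfold N2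
        rw [mem_filter]
        exact ⟨hKK, h2, h3⟩
  have h1 : (NN G 𝒰 (SS G 𝒰 B R) u w).card ≤ (K0 G 𝒰 B u).card +
      ∑ z ∈ outs B, (Kz G 𝒰 B u z).card + (N2 G 𝒰 B u).card +
      ∑ z ∈ Zin G B R, (Oz G 𝒰 B u z).card := by
    refine (card_le_card hsubset).trans ?_
    refine (card_union_le _ _).trans ?_
    refine Nat.add_le_add ?_ card_biUnion_le
    refine (card_union_le _ _).trans ?_
    refine Nat.add_le_add_right ?_ _
    refine (card_union_le _ _).trans ?_
    exact Nat.add_le_add_left card_biUnion_le _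
  exact_mod_cast h1

theorem SS_card {R : ℕ} (𝒰 : Finset (Finset V)) (B : Fin w → Finset V) :
    ((SS G 𝒰 B R).card : ℝ) = ((UC 𝒰 B).card : ℝ) +
      ∑ z ∈ Zin G B R, ((Jz 𝒰 B z).card : ℝ) := by
  have hd : Disjoint (UC 𝒰 B) ((Zin G B R).biUnion (Jz 𝒰 B)) := by
    rw [disjoint_left]
    intro U hU hU'
    rw [mem_biUnion] at hU'
    obtain ⟨z, hz, hU'⟩ := hU'
    unfold UC at hU
    unfold Jz at hU'
    rw [mem_filter] at hU hU'
    exact mem_Zin' G hz (hU.2 hU'.2.1)
  have hp : ∀ z ∈ Zin G B R, ∀ z' ∈ Zin G B R, z ≠ z' → Disjoint (Jz 𝒰 B z) (Jz 𝒰 B z') := by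
    intro z _ z' hz' hne
    rw [disjoint_left]
    intro U hU hU'
    unfold Jz at hU hU'
    rw [mem_filter] at hU hU'
    exact mem_Zin' G hz' (hU.2.2 (mem_erase.2 ⟨hne.symm, hU'.2.1⟩))
  have h1 : (SS G 𝒰 B R).card = (UC 𝒰 B).card + ∑ z ∈ Zin G B R, (Jz 𝒰 B z).card := by
    unfold SS
    rw [card_union_of_disjoint hd, card_biUnion hp]
  exact_mod_cast h1

theorem SS_subset {R : ℕ} (𝒰 : Finset (Finset V)) (B : Fin w → Finset V) : SS G 𝒰 B R ⊆ 𝒰 := by
  intro U hU
  unfold SS at hU
  rw [mem_union, mem_biUnion] at hU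
  rcases hU with hU | ⟨z, _, hU⟩
  · exact (mem_filter.1 hU).1
  · exact (mem_filter.1 hU).1

end H23CL
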