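import Pool.Agent.H57.LC.Tup
import Pool.Agent.H57.LC.Count

/-!
Project CL (all residues for `H = K_w`, `w` large): definitions.
Paper proof: note 3669 on MP_e32fce_co.
-/

set_option autoImplicit false

namespace H23CL

open Finset H57LC

set_option linter.unusedSectionVars false

section fam

variable {V : Type*} [Fintype V] [DecidableEq V] (G : SimpleGraph V) [DecidableRel G.Adj]

/-- the `w`-cliques all of whose `u`-subsets are in `𝒰` -/
def KK (𝒰 : Finset (Finset V)) (u w : ℕ) : Finset (Finset V) :=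
  (clq G univ w).filter fun K => K.powersetCard u ⊆ 𝒰

/-- the members of `KK` which contain a member of `𝒮` -/
def NN (𝒰 𝒮 : Finset (Finset V)) (u w : ℕ) : Finset (Finset V) :=
  (KK G 𝒰 u w).filter fun K => ∃ U ∈ 𝒮, U ⊆ K

end fam

section parts

variable {V : Type*} [DecidableEq V] (G : SimpleGraph V) [DecidableRel G.Adj]
variable {ι : Type*} [DecidableEq ι]

/-- the share of the part `B k` adjacent to `z` -/
noncomputable def al (B : ι → Finset V) (z : V) (k : ι) : ℝ :=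
  (((B k).filter fun y => G.Adj z y).card : ℝ) / (B k).card

/-- the number of missing pairs between different parts of `I` -/
noncomputable def ee (B : ι → Finset V) (I : Finset ι) : ℝ :=
  (∑ i ∈ I, ∑ j ∈ I.erase i, ∑ z ∈ B i, ((hs G (B j) z).card : ℝ)) / 2

/-- the product of the shares of `z` in the parts of `I` other than `ty z` -/
noncomputable def pz (B : ι → Finset V) (I : Finset ι) (ty : V → ι) (z : V) : ℝ :=
  ∏ k ∈ I.erase (ty z), al G B z k

/-- the sum of the missing shares of `z` in the parts of `I` other than `ty z` -/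
noncomputable def sgE (B : ι → Finset V) (I : Finset ι) (ty : V → ι) (z : V) : ℝ :=
  ∑ k ∈ I.erase (ty z), (1 - al G B z k)

/-- validity of the parts `B k`, `k ∈ I`, and of the vertices `z ∈ Z` of the parts `ty z`, for the
clique transversals of `u` parts -/
def Valid (B : ι → Finset V) (Z : Finset V) (ty : V → ι) (I : Finset ι) (u N : ℕ) : Prop :=
  ∀ P ⊆ I, P.card = u → ∀ f : ι → V, (∀ k ∈ P, f k ∈ B k) →
    (∀ k ∈ P, ∀ l ∈ P, k ≠ l → G.Adj (f k) (f l)) →
    ∑ k ∈ I \ P, ((B k).filter fun y => ∀ l ∈ P, G.Adj (f l) y).card +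
      (Z.filter fun z => ty z ∉ P ∧ ∀ l ∈ P, G.Adj (f l) z).card ≤ N

/-- the number of vertices in the parts outside `P` which are not adjacent to all `f l`, `l ∈ P` -/
def rw (B : ι → Finset V) (I : Finset ι) (f : ι → V) (P : Finset ι) : ℕ :=
  ∑ k ∈ I \ P, ((B k).filter fun y => ∃ l ∈ P, ¬ G.Adj (f l) y).card

end parts

section cluster

variable {V : Type*} [DecidableEq V] (G : SimpleGraph V) [DecidableRel G.Adj] {w : ℕ}

/-- the structure of the parts -/
structure BS (m : ℕ) (C η : ℝ) (B : Fin w → Finset V) : Prop where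
  disj : ∀ i j, i ≠ j → Disjoint (B i) (B j)
  ind : ∀ i, ∀ a ∈ B i, ∀ b ∈ B i, ¬ G.Adj a b
  size : ∀ i, |((B i).card : ℝ) - m| ≤ C
  row : ∀ i j, i ≠ j → ∀ z ∈ B i, ((hs G (B j) z).card : ℝ) ≤ 2 * η * m
  tot : ∀ i j, i ≠ j → ∑ z ∈ B i, ((hs G (B j) z).card : ℝ) ≤ C * m

/-- `z` has no neighbour in `B i` and many neighbours in every other part -/
def Typ (B : Fin w → Finset V) (ε : ℝ) (z : V) (i : Fin w) : Prop :=
  (∀ y ∈ B i, ¬ G.Adj z y) ∧ ∀ k, k ≠ i → ε ≤ al G B z k

/-- `z` has few neighbours in at least two parts -/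
def Thin (B : Fin w → Finset V) (ε : ℝ) (z : V) : Prop :=
  ∃ j₁ j₂, j₁ ≠ j₂ ∧ al G B z j₁ < ε ∧ al G B z j₂ < ε

/-- `σ_z`, the sum of all missing shares minus one -/
noncomputable def sgm (B : Fin w → Finset V) (z : V) : ℝ := ∑ k, (1 - al G B z k) - 1

variable [Fintype V]

/-- the vertices outside the parts -/
def outs (B : Fin w → Finset V) : Finset V := univ \ un B

/-- the outside vertices with small `σ` -/
noncomputable def Zin (B : Fin w → Finset V) (R : ℕ) : Finset V := by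
  classical
  exact (outs B).filter fun z => sgm G B z ≤ R / 2

/-- the outside vertices with large `σ` -/
noncomputable def Zou (B : Fin w → Finset V) (R : ℕ) : Finset V := by
  classical
  exact (outs B).filter fun z => ¬ sgm G B z ≤ R / 2

/-- the outside vertices of a type with `π_z ≥ η₀` -/
noncomputable def Z1 (B : Fin w → Finset V) (ty : V → Fin w) (ε η₀ : ℝ) : Finset V := by
  classical
  exact (outs B).filter fun z => Typ G B ε z (ty z) ∧ η₀ ≤ pz G B univ ty z

/-- the members of `𝒰` inside the parts -/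
def UC (𝒰 : Finset (Finset V)) (B : Fin w → Finset V) : Finset (Finset V) :=
  𝒰.filter fun U => U ⊆ un B

/-- the members of `𝒰` which consist of `z` and of vertices of the parts -/
def Jz (𝒰 : Finset (Finset V)) (B : Fin w → Finset V) (z : V) : Finset (Finset V) :=
  𝒰.filter fun U => z ∈ U ∧ U.erase z ⊆ un B

/-- the cliques of `KK` inside the parts -/
def K0 (𝒰 : Finset (Finset V)) (B : Fin w → Finset V) (u : ℕ) : Finset (Finset V) :=
  (KK G 𝒰 u w).filter fun K => K ⊆ un B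

/-- the cliques of `KK` which consist of `z` and of vertices of the parts -/
def Kz (𝒰 : Finset (Finset V)) (B : Fin w → Finset V) (u : ℕ) (z : V) : Finset (Finset V) :=
  (KK G 𝒰 u w).filter fun K => z ∈ K ∧ K.erase z ⊆ un B

/-- the cliques of `KK` with at least two vertices outside and at least `u` vertices inside the
parts -/
def N2 (𝒰 : Finset (Finset V)) (B : Fin w → Finset V) (u : ℕ) : Finset (Finset V) :=
  (KK G 𝒰 u w).filter fun K => 2 ≤ (K \ un B).card ∧ u ≤ (K ∩ un B).card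

/-- the cliques of `KK` which contain `z` and exactly `u - 1` vertices of the parts -/
def Oz (𝒰 : Finset (Finset V)) (B : Fin w → Finset V) (u : ℕ) (z : V) : Finset (Finset V) :=
  (KK G 𝒰 u w).filter fun K => z ∈ K ∧ (K ∩ un B).card + 1 = u

/-- the family `𝒮` -/
noncomputable def SS (𝒰 : Finset (Finset V)) (B : Fin w → Finset V) (R : ℕ) :
    Finset (Finset V) :=
  UC 𝒰 B ∪ (Zin G B R).biUnion (Jz 𝒰 B)

/-- `κ_{z,i}` -/
noncomputable def kz (𝒰 : Finset (Finset V)) (B : Fin w → Finset V) (u : ℕ) (z : V) (i : Fin w) :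
    ℝ :=
  (((Fintype.piFinset B).filter fun f => insert z ((univ.erase i).image f) ∈ KK G 𝒰 u w).card : ℝ) /
    (B i).card

/-- `j_{z,P}` -/
noncomputable def jz (𝒰 : Finset (Finset V)) (B : Fin w → Finset V) (z : V) (P : Finset (Fin w)) :
    ℝ :=
  (((Fintype.piFinset B).filter fun f => insert z (P.image f) ∈ 𝒰).card : ℝ) /
    ∏ k ∈ univ \ P, ((B k).card : ℝ)

/-- the number of clique transversals of the parts `P` in the neighbourhood of `z` -/
noncomputable def npz (B : Fin w → Finset V) (z : V) (P : Finset (Fin w)) : ℝ :=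
  (((Fintype.piFinset B).filter fun f => (∀ k ∈ P, ∀ l ∈ P, k ≠ l → G.Adj (f k) (f l)) ∧
    ∀ l ∈ P, G.Adj z (f l)).card : ℝ) / ∏ k ∈ univ \ P, ((B k).card : ℝ)

/-- the situation around the cluster -/
structure Stp (𝒰 : Finset (Finset V)) (B : Fin w → Finset V) (ty : V → Fin w) (u R r m : ℕ)
    (C η : ℝ) : Prop where
  hw : w = R + u
  free : clq G univ (w + 1) = ∅
  val : ∀ U ∈ clq G univ u, (cn G U).card ≤ R * m + r
  sub : 𝒰 ⊆ clq G univ u
  bs : BS G m C η B
  bad : (((clq G (un B) u).filter fun U => U ∉ 𝒰).card : ℝ) * m ≤ C * (m : ℝ) ^ u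
  typ : ∀ z, z ∉ un B → Typ G B (4 * w * η) z (ty z) ∨ Thin G B (4 * w * η) z
  sgl : ∀ z, z ∉ un B → η / 4 ≤ sgm G B z

/-- `x⁺_k` -/
noncomputable def xP (B : Fin w → Finset V) (ty : V → Fin w) (m : ℕ) (ε η₀ : ℝ) (k : Fin w) : ℤ :=
  ((B k).card : ℤ) - m + (((Z1 G B ty ε η₀).filter fun z => ty z = k).card : ℤ)

/-- `n⁺` -/
noncomputable def nP (B : Fin w → Finset V) (ty : V → Fin w) (m r : ℕ) (ε η₀ : ℝ) : ℤ :=
  ∑ k, xP G B ty m ε η₀ k - r

/-- `y = e/m + Σ_{z ∈ Z₁} σ_z` -/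
noncomputable def yy (B : Fin w → Finset V) (ty : V → Fin w) (m : ℕ) (ε η₀ : ℝ) : ℝ :=
  ee G B univ / m + ∑ z ∈ Z1 G B ty ε η₀, sgm G B z

end cluster

/-! ### constants -/

/-- `c_κ` -/
noncomputable def ck (u R : ℕ) : ℝ := u * R / (((R : ℝ) + u) * ((R : ℝ) + u - 1))

/-- `η₀` -/
noncomputable def eta0 (u R : ℕ) : ℝ := ((u : ℝ) / (3 * ((R : ℝ) + u))) ^ 2

/-- `ε'` -/
noncomputable def epsp (u R : ℕ) : ℝ :=
  ((R + u).choose u : ℝ) * (2 + 4 * u * ((R : ℝ) + u)) * (51 / 100) ^ R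

/-- `τ` -/
noncomputable def tau (u R : ℕ) : ℝ := Real.exp (-((R : ℝ) / 2 - u))

/-- the conditions on `u` and `R` -/
structure Par (u R : ℕ) : Prop where
  hu : 1 ≤ u
  hR : 10 ≤ R
  huR : 2 * u ≤ R
  half : ((R + u).choose u : ℝ) ≤ 2 * (R.choose u : ℝ)
  p2 : ck u R / 2 * (-Real.log (eta0 u R)) ≤ R / ((R : ℝ) + u)
  p2' : -Real.log (eta0 u R) ≤ R / 2
  p3 : epsp u R * (u / ((R : ℝ) + u) + ck u R) ≤ ck u R / 2
  p3' : epsp u R ≤ 1 / 2
  p4 : 2 * tau u R * ((R : ℝ) + u) * (6 * u + 4) ≤ 1 / 8 * ck u R * eta0 u R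
  p5 : ∃ Lp : ℝ, 2 ≤ Lp ∧ (∀ x : ℝ, eta0 u R / 2 ^ u ≤ x → x ≤ 1 → -Real.log x ≤ Lp * (1 - x)) ∧
    u * (u + 1) * Lp ≤ (R : ℝ) + u - 1

end H23CL
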