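import Pool.Agent.H23.CL.Defs
import Pool.Agent.H57.LC.Smooth

/-! Step 9 of note 3669: the first order term of the complete multipartite part. -/

set_option autoImplicit false

namespace H23CL

open Finset H57LC

private lemma Fst_one_add_pow {t : ℝ} (ht : 0 ≤ t) (ht1 : t ≤ 1) (n : ℕ) :
    (1 + t) ^ n ≤ 1 + (2 ^ n - 1) * t := by
  induction n with
  | zero => simp
  | succ n ih =>
    have h2 : (1 : ℝ) ≤ 2 ^ n := one_le_pow₀ (by norm_num)
    rw [pow_succ, pow_succ]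
    refine (mul_le_mul_of_nonneg_right ih (by linarith)).trans ?_
    nlinarith [mul_nonneg (mul_nonneg (sub_nonneg.2 h2) ht) (sub_nonneg.2 ht1)]

private lemma Fst_one_add_pow' {t : ℝ} (ht : 0 ≤ t) (ht1 : t ≤ 1) (n : ℕ) :
    (1 + t) ^ n ≤ 1 + 2 ^ n * t := by
  have := Fst_one_add_pow ht ht1 n
  linarith

/-- the tangent plane of the product of the inverses -/
private lemma Fst_prod_inv_ge {ι : Type*} (T : Finset ι) (b : ι → ℝ) (m : ℝ) (hm : 0 < m)
    (hb : ∀ k ∈ T, 0 < b k) :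
    (1 - (∑ k ∈ T, (b k - m)) / m) / m ^ T.card ≤ ∏ k ∈ T, (b k)⁻¹ := by
  have h1 : ∏ k ∈ T, (b k)⁻¹ = Real.exp (- ∑ k ∈ T, Real.log (b k / m)) / m ^ T.card := by
    rw [← sum_neg_distrib, Real.exp_sum, ← prod_const, ← prod_div_distrib]
    refine prod_congr rfl fun k hk => ?_
    have := hb k hk
    rw [Real.exp_neg, Real.exp_log (by positivity)]
    field_simp
  rw [h1]
  refine div_le_div_of_nonneg_right ?_ (by positivity)
  have h2 : ∑ k ∈ T, Real.log (b k / m) ≤ (∑ k ∈ T, (b k - m)) / m := by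
    rw [sum_div]
    refine sum_le_sum fun k hk => ?_
    have := hb k hk
    refine (Real.log_le_sub_one_of_pos (by positivity)).trans (le_of_eq ?_)
    field_simp
  have h3 := Real.add_one_le_exp (- ∑ k ∈ T, Real.log (b k / m))
  linarith

private lemma Fst_sum_sum {w R : ℕ} (hR : 1 ≤ R) (x : Fin w → ℝ) :
    ∑ T ∈ powersetCard R (univ : Finset (Fin w)), ∑ k ∈ T, x k =
      ((w - 1).choose (R - 1) : ℝ) * ∑ k, x k := by
  have h1 : ∀ T : Finset (Fin w), ∑ k ∈ T, x k = ∑ k, if k ∈ T then x k else 0 := by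
    intro T
    rw [← sum_filter]
    refine sum_congr ?_ fun _ _ => rfl
    ext i
    simp
  rw [sum_congr rfl fun T _ => h1 T, sum_comm, mul_sum]
  refine sum_congr rfl fun i _ => ?_
  rw [← sum_filter, sum_const, nsmul_eq_mul]
  congr 2
  have h3 : ((powersetCard R (univ : Finset (Fin w))).filter fun T => i ∈ T) =
      (powersetCard (R - 1) ((univ : Finset (Fin w)).erase i)).image (insert i) := by
    ext T
    simp only [mem_filter, mem_powersetCard, mem_image]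
    constructor
    · rintro ⟨⟨-, hc⟩, hi⟩
      refine ⟨T.erase i, ⟨erase_subset_erase _ (subset_univ _), ?_⟩, insert_erase hi⟩
      rw [card_erase_of_mem hi, hc]
    · rintro ⟨T', ⟨hT', hc⟩, rfl⟩
      have hi : i ∉ T' := fun h => notMem_erase _ _ (hT' h)
      refine ⟨⟨subset_univ _, ?_⟩, mem_insert_self _ _⟩
      rw [card_insert_of_notMem hi, hc]
      omega
  rw [h3, card_image_of_injOn, card_powersetCard, card_erase_of_mem (mem_univ _), card_univ,
    Fintype.card_fin]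
  intro T hT T' hT' h
  have h1 : i ∉ T := fun h => notMem_erase _ _ ((mem_powersetCard.1 hT).1 h)
  have h2 : i ∉ T' := fun h => notMem_erase _ _ ((mem_powersetCard.1 hT').1 h)
  rw [← erase_insert h1, ← erase_insert h2, h]

private lemma Fst_choose {w R : ℕ} (hR : 1 ≤ R) (hw : R ≤ w) :
    ((w - 1).choose (R - 1) : ℝ) * w = (w.choose R : ℝ) * R := by
  obtain ⟨R', rfl⟩ : ∃ R', R = R' + 1 := ⟨R - 1, by omega⟩
  obtain ⟨w', rfl⟩ : ∃ w', w = w' + 1 := ⟨w - 1, by omega⟩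
  have := Nat.add_one_mul_choose_eq w' R'
  simp only [Nat.add_sub_cancel]
  have h2 : ((w' + 1 : ℕ) : ℝ) * (w'.choose R' : ℝ) =
      ((w' + 1).choose (R' + 1) : ℝ) * ((R' + 1 : ℕ) : ℝ) := by exact_mod_cast this
  linarith

/-- lower bound of the elementary symmetric function -/
private lemma Fst_eS_ge {w R : ℕ} (hR : 1 ≤ R) (b : Fin w → ℝ) (m : ℝ) (hm : 0 < m)
    (hb : ∀ k, 0 < b k) :
    ((w.choose R : ℝ) - ((w - 1).choose (R - 1) : ℝ) * (∑ k, (b k - m)) / m) / m ^ R ≤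
      ∑ T ∈ powersetCard R (univ : Finset (Fin w)), ∏ k ∈ T, (b k)⁻¹ := by
  have h1 : ∀ T ∈ powersetCard R (univ : Finset (Fin w)),
      (1 - (∑ k ∈ T, (b k - m)) / m) / m ^ R ≤ ∏ k ∈ T, (b k)⁻¹ := by
    intro T hT
    have := Fst_prod_inv_ge T b m hm fun k _ => hb k
    rwa [(mem_powersetCard.1 hT).2] at this
  refine le_trans (le_of_eq ?_) (sum_le_sum h1)
  have h2 : ∑ T ∈ powersetCard R (univ : Finset (Fin w)), (1 - (∑ k ∈ T, (b k - m)) / m) =
      (w.choose R : ℝ) - ((w - 1).choose (R - 1) : ℝ) * (∑ k, (b k - m)) / m := by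
    rw [sum_sub_distrib, sum_const, card_powersetCard, card_univ, Fintype.card_fin,
      nsmul_eq_mul, mul_one, ← Fst_sum_sum hR, sum_div]
  rw [← sum_div, h2]

private lemma Fst_P {w : ℕ} (b : Fin w → ℝ) (m C : ℝ) (hm : 0 < m) (hC : 0 < C)
    (hm1 : C + 1 ≤ m) (hb : ∀ k, |b k - m| ≤ C) :
    m ^ w * (1 - w * (C / m)) ≤ ∏ k, b k ∧ ∏ k, b k ≤ m ^ w * (1 + 2 ^ w * (C / m)) := by
  have hb1 : ∀ k, m - C ≤ b k := fun k => by
    have := (abs_le.1 (hb k)).1
    linarith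
  have hb2 : ∀ k, b k ≤ m + C := fun k => by
    have := (abs_le.1 (hb k)).2
    linarith
  have hb0 : ∀ k, 0 < b k := fun k => by
    have := hb1 k
    linarith
  have ht0 : 0 ≤ C / m := by positivity
  have ht1 : C / m ≤ 1 := by
    rw [div_le_one hm]
    linarith
  have htm : m * (C / m) = C := by field_simp
  constructor
  · have h1 : ∏ _k : Fin w, (m - C) ≤ ∏ k, b k :=
      prod_le_prod (fun k _ => by linarith) fun k _ => hb1 k
    rw [prod_const, card_univ, Fintype.card_fin] at h1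
    refine le_trans ?_ h1
    have h2 : m - C = m * (1 + (-(C / m))) := by rw [mul_add, mul_neg, htm, mul_one]; ring
    rw [h2, mul_pow]
    refine mul_le_mul_of_nonneg_left ?_ (by positivity)
    have h3 := one_add_mul_le_pow (a := -(C / m)) (by linarith) w
    linarith
  · have h1 : ∏ k, b k ≤ ∏ _k : Fin w, (m + C) :=
      prod_le_prod (fun k _ => (hb0 k).le) fun k _ => hb2 k
    rw [prod_const, card_univ, Fintype.card_fin] at h1
    refine h1.trans ?_
    have h2 : m + C = m * (1 + C / m) := by rw [mul_add, htm, mul_one]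
    rw [h2, mul_pow]
    exact mul_le_mul_of_nonneg_left (Fst_one_add_pow' ht0 ht1 w) (by positivity)

private lemma Fst_PA {M P A m r K a c D : ℝ} (hm : 0 < m) (hM : 0 < M) (hP : 0 < P)
    (hr0 : 0 ≤ r) (hr : 2 * r + 1 ≤ m) (hK : 0 ≤ K) (ha : 0 ≤ a) (hc : 0 ≤ c)
    (hA1 : 1 - r / m ≤ A) (hA2 : A ≤ 1 + K / m)
    (hPl : M * (1 - a / m) ≤ P) (hPu : P ≤ M * (1 + c / m)) (hD : 2 * (r + c) + K + a ≤ D) :
    M * (1 - D / m) ≤ P / A ∧ P / A ≤ M * (1 + D / m) := by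
  have hD0 : 0 ≤ D := by linarith
  have hrm : r / m ≤ 1 / 2 := by
    rw [div_le_div_iff₀ hm (by norm_num)]
    linarith
  have hA0 : 0 < A := by linarith
  have hd1 : K / m + a / m ≤ D / m := by
    rw [← add_div]
    exact div_le_div_of_nonneg_right (by linarith) hm.le
  have hd2 : 2 * (r / m) + 2 * (c / m) ≤ D / m := by
    have h6 : 2 * (r / m) + 2 * (c / m) = 2 * (r + c) / m := by ring
    rw [h6]
    exact div_le_div_of_nonneg_right (by linarith) hm.le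
  have hDm : 0 ≤ D / m := by positivity
  have hKm : 0 ≤ K / m := by positivity
  have hcm : 0 ≤ c / m := by positivity
  have hrm0 : 0 ≤ r / m := by positivity
  constructor
  · by_cases hc1 : 0 ≤ 1 - D / m
    · rw [le_div_iff₀ hA0]
      refine le_trans ?_ hPl
      rw [mul_assoc]
      refine mul_le_mul_of_nonneg_left ?_ hM.le
      refine (mul_le_mul_of_nonneg_left hA2 hc1).trans ?_
      have h7 : 0 ≤ D / m * (K / m) := by positivity
      linarith
    · push Not at hc1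
      have : 0 < P / A := by positivity
      have h2 : M * (1 - D / m) ≤ 0 := mul_nonpos_of_nonneg_of_nonpos hM.le hc1.le
      linarith
  · rw [div_le_iff₀ hA0]
    refine hPu.trans ?_
    rw [mul_assoc]
    refine mul_le_mul_of_nonneg_left ?_ hM.le
    have h4 : (1 + D / m) * (1 - r / m) ≤ (1 + D / m) * A :=
      mul_le_mul_of_nonneg_left hA1 (by positivity)
    refine le_trans ?_ h4
    have h6 : D / m * (r / m) ≤ D / m * (1 / 2) := mul_le_mul_of_nonneg_left hrm hDm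
    linarith

private lemma Fst_fin {M X m q K D Q : ℝ} (hm : 1 ≤ m) (hM : 0 < M) (hK : 0 ≤ K) (hD : 0 ≤ D)
    (hX1 : m * M * (1 - D / m) ≤ X) (hX2 : X ≤ m * M * (1 + D / m)) (hq : |q| ≤ Q) :
    X * (q / m + K / m ^ 2) ≤ M * (q + (K + D * (Q + K)) / m) := by
  have hm0 : 0 < m := by linarith
  have h1 : X * (q / m + K / m ^ 2) = X / m * (q + K / m) := by
    field_simp
  have hy1 : M * (1 - D / m) ≤ X / m := by
    rw [le_div_iff₀ hm0]
    linarith
  have hy2 : X / m ≤ M * (1 + D / m) := by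
    rw [div_le_iff₀ hm0]
    linarith
  have hKm : K / m ≤ K := by
    rw [div_le_iff₀ hm0]
    nlinarith
  have hKm0 : 0 ≤ K / m := by positivity
  have hDm : 0 ≤ D / m := by positivity
  have hMD : 0 ≤ M * (D / m) := by positivity
  obtain ⟨hq1, hq2⟩ := abs_le.1 hq
  have h2 : X / m * (q + K / m) ≤ M * (q + K / m) + M * (D / m) * (Q + K) := by
    by_cases hy : 0 ≤ q + K / m
    · have h3 := mul_le_mul_of_nonneg_right hy2 hy
      have h4 : M * (D / m) * (q + K / m) ≤ M * (D / m) * (Q + K) :=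
        mul_le_mul_of_nonneg_left (by linarith) hMD
      linarith
    · push Not at hy
      have h3 := mul_le_mul_of_nonpos_right hy1 hy.le
      have h4 : M * (D / m) * (-(q + K / m)) ≤ M * (D / m) * (Q + K) :=
        mul_le_mul_of_nonneg_left (by linarith) hMD
      linarith
  rw [h1]
  refine h2.trans (le_of_eq ?_)
  ring

/-- Proof: `rinv = C(w,R) m^(-R) (1 - (R/w) r/m + O(m^-2))` (for the upper bound of `rinv⁻¹` only a
lower bound of `rinv` is needed; `H57LC.prod_eq`, Bernoulli), `∏_{k ∈ T} (b k)⁻¹ ≥ m^(-R)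
(1 - ∑_{k ∈ T} x_k/m)`, `x_k = b k - m`, sum over `T`, `∏ b_k ≤ m^w (1 + ∑ x_k/m + C/m^2)`. -/
theorem fst_le (u R r : ℕ) (hu : 1 ≤ u) (hR : 1 ≤ R) (hr : r < R) (C : ℝ) (hC : 0 < C) :
    ∃ C' : ℝ, 0 < C' ∧ ∃ m₀ : ℕ, ∀ m : ℕ, m₀ ≤ m → ∀ w : ℕ, w = R + u → ∀ b : Fin w → ℕ,
      (∀ k, |(b k : ℝ) - m| ≤ C) →
      (∏ k, (b k : ℝ)) * (1 - (rinv w R r m)⁻¹ *
          ∑ T ∈ powersetCard R (univ : Finset (Fin w)), ∏ k ∈ T, ((b k : ℝ))⁻¹) ≤
        (m : ℝ) ^ (w - 1) *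
          ((R : ℝ) / (R + u) * (∑ k, (b k : ℝ) - w * m - r) + C' / m) := by
  have hR0 : (1 : ℝ) ≤ R := by exact_mod_cast hR
  have hu0 : (1 : ℝ) ≤ u := by exact_mod_cast hu
  have hr0 : (0 : ℝ) ≤ r := Nat.cast_nonneg r
  obtain ⟨W, hW⟩ : ∃ W : ℝ, W = (R : ℝ) + u := ⟨_, rfl⟩
  have hWp : 0 < W := by rw [hW]; positivity
  obtain ⟨D, hD⟩ : ∃ D : ℝ, D = 2 * (r + 2 ^ (R + u) * C) + R ^ 2 + W * C := ⟨_, rfl⟩
  have hDp : 0 < D := by rw [hD]; positivity
  obtain ⟨Q, hQ⟩ : ∃ Q : ℝ, Q = R * C + r := ⟨_, rfl⟩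
  have hQp : 0 < Q := by rw [hQ]; positivity
  refine ⟨R ^ 2 + D * (Q + R ^ 2), by positivity, ⌈C⌉₊ + 2 * r + 1, ?_⟩
  intro m hm w hw b hb
  have hm1 : C + 1 ≤ m := by
    have h1 := Nat.le_ceil C
    have h2 : ((⌈C⌉₊ : ℕ) : ℝ) + 1 ≤ m := by exact_mod_cast (show ⌈C⌉₊ + 1 ≤ m by omega)
    linarith
  have hm2 : 2 * (r : ℝ) + 1 ≤ m := by exact_mod_cast (show 2 * r + 1 ≤ m by omega)
  have hmp : (0 : ℝ) < m := by linarith
  have hm3 : (1 : ℝ) ≤ m := by linarith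
  have hmN : 1 ≤ m := by omega
  have hwr : (w : ℝ) = W := by rw [hw, hW]; push_cast; ring
  have hb0 : ∀ k, 0 < (b k : ℝ) := fun k => by
    have := (abs_le.1 (hb k)).1
    linarith
  obtain ⟨s, hs⟩ : ∃ s : ℝ, s = ∑ k, ((b k : ℝ) - m) := ⟨_, rfl⟩
  have hs' : ∑ k, (b k : ℝ) - w * m = s := by
    rw [hs, sum_sub_distrib, sum_const, card_univ, Fintype.card_fin, nsmul_eq_mul]
  have hsC : |s| ≤ W * C := by
    rw [hs]
    refine (abs_sum_le_sum_abs _ _).trans ((sum_le_sum fun k _ => hb k).trans ?_)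
    rw [sum_const, card_univ, Fintype.card_fin, nsmul_eq_mul, hwr]
  -- the product
  obtain ⟨P, hP⟩ : ∃ P : ℝ, P = ∏ k, (b k : ℝ) := ⟨_, rfl⟩
  have hP0 : 0 < P := by rw [hP]; exact prod_pos fun k _ => hb0 k
  have hPb := Fst_P (fun k => (b k : ℝ)) m C hmp hC hm1 hb
  rw [← hP] at hPb
  obtain ⟨hPl, hPu⟩ := hPb
  -- the number A
  obtain ⟨A, hA⟩ : ∃ A : ℝ, A = 1 - R / W * (r / m) + R ^ 2 / m ^ 2 := ⟨_, rfl⟩
  have hRW : (R : ℝ) / W ≤ 1 := by
    rw [div_le_one hWp, hW]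
    linarith
  have hRW0 : 0 ≤ (R : ℝ) / W := by positivity
  have hrm : (r : ℝ) / m ≤ 1 / 2 := by
    rw [div_le_div_iff₀ hmp (by norm_num)]
    linarith
  have hrm0 : 0 ≤ (r : ℝ) / m := by positivity
  have hA1 : 1 - r / m ≤ A := by
    have h1 : R / W * (r / m) ≤ r / m := by
      have := mul_le_mul_of_nonneg_right hRW hrm0
      linarith
    have h2 : 0 ≤ (R : ℝ) ^ 2 / m ^ 2 := by positivity
    linarith
  have hA0 : 0 < A := by linarith
  have hA2 : A ≤ 1 + R ^ 2 / m := by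
    have h1 : 0 ≤ R / W * ((r : ℝ) / m) := by positivity
    have h2 : (R : ℝ) ^ 2 / m ^ 2 ≤ R ^ 2 / m := by
      refine div_le_div_of_nonneg_left (by positivity) hmp ?_
      nlinarith
    linarith
  -- the sums
  obtain ⟨Wc, hWc⟩ : ∃ Wc : ℝ, Wc = (w.choose R : ℝ) := ⟨_, rfl⟩
  have hWc0 : 0 < Wc := by
    rw [hWc]
    exact_mod_cast Nat.choose_pos (by omega)
  have hch : ((w - 1).choose (R - 1) : ℝ) = Wc * (R / W) := by
    have := Fst_choose (w := w) hR (by omega)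
    rw [hwr, ← hWc] at this
    rw [mul_div_assoc', eq_div_iff hWp.ne']
    exact this
  obtain ⟨E, hE⟩ : ∃ E : ℝ, E = ∑ T ∈ powersetCard R (univ : Finset (Fin w)),
    ∏ k ∈ T, ((b k : ℝ))⁻¹ := ⟨_, rfl⟩
  have hE1 : Wc * (1 - R / W * (s / m)) / (m : ℝ) ^ R ≤ E := by
    have := Fst_eS_ge hR (fun k => (b k : ℝ)) m hmp hb0
    rw [hch, ← hs, ← hWc, ← hE] at this
    refine le_trans (le_of_eq ?_) this
    ring
  have hE0 : 0 ≤ E := by
    rw [hE]
    exact sum_nonneg fun T _ => prod_nonneg fun k _ => (inv_pos.2 (hb0 k)).le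
  have hri0 : 0 < rinv w R r m := rinv_pos hmN (by omega)
  have hri : rinv w R r m ≤ Wc * A / (m : ℝ) ^ R := by
    have := rinv_le_first (w := w) (R := R) (r := r) hmN hR (by omega) (by omega)
    rw [hch, ← hWc] at this
    refine this.trans (le_of_eq ?_)
    rw [hA]
    ring
  rw [← hP, ← hE, hs']
  obtain ⟨ρ, hρ⟩ : ∃ ρ : ℝ, ρ = rinv w R r m := ⟨_, rfl⟩
  rw [← hρ] at hri0 hri
  rw [← hρ]
  obtain ⟨N, hN⟩ : ∃ N : ℝ, N = (m : ℝ) ^ R := ⟨_, rfl⟩
  have hN0 : 0 < N := by rw [hN]; positivity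
  rw [← hN] at hri hE1
  have hri' : N / (Wc * A) ≤ ρ⁻¹ := by
    rw [le_inv_comm₀ (by positivity) hri0, inv_div]
    exact hri
  have hkey : (1 - R / W * (s / m)) / A ≤ ρ⁻¹ * E := by
    refine le_trans ?_ (mul_le_mul_of_nonneg_right hri' hE0)
    refine le_trans (le_of_eq ?_) (mul_le_mul_of_nonneg_left hE1 (by positivity))
    obtain ⟨v, hv⟩ : ∃ v : ℝ, v = 1 - R / W * (s / m) := ⟨_, rfl⟩
    rw [← hv]
    field_simp
  obtain ⟨q, hq⟩ : ∃ q : ℝ, q = R / W * (s - r) := ⟨_, rfl⟩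
  have hqQ : |q| ≤ Q := by
    rw [hq, abs_mul, abs_of_nonneg hRW0]
    have h1 : |s - r| ≤ W * C + r := by
      refine (abs_sub _ _).trans ?_
      rw [abs_of_nonneg hr0]
      linarith
    refine (mul_le_mul_of_nonneg_left h1 hRW0).trans ?_
    rw [mul_add, ← mul_assoc, div_mul_cancel₀ _ hWp.ne', hQ]
    have := mul_le_mul_of_nonneg_right hRW hr0
    linarith
  have h1 : 1 - ρ⁻¹ * E ≤ (q / m + R ^ 2 / m ^ 2) / A := by
    have h2 : 1 - (1 - R / W * (s / m)) / A = (q / m + R ^ 2 / m ^ 2) / A := by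
      rw [eq_div_iff hA0.ne', sub_mul, div_mul_cancel₀ _ hA0.ne', hq, hA]
      ring
    linarith
  have h2 : P * (1 - ρ⁻¹ * E) ≤ (P / A) * (q / m + R ^ 2 / m ^ 2) := by
    refine (mul_le_mul_of_nonneg_left h1 hP0.le).trans (le_of_eq ?_)
    ring
  have hmw : (m : ℝ) ^ w = m * (m : ℝ) ^ (w - 1) := by
    rw [← pow_succ']
    congr 1
    omega
  have hPA := Fst_PA (M := (m : ℝ) ^ w) (P := P) (A := A) (m := m) (r := r) (K := (R : ℝ) ^ 2)
    (a := W * C) (c := 2 ^ (R + u) * C) (D := D) hmp (by positivity) hP0 hr0 hm2 (by positivity)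
    (by positivity) (by positivity) hA1 hA2
    (by rw [mul_div_assoc, ← hwr]; exact hPl)
    (by rw [mul_div_assoc, ← hw]; exact hPu) hD.ge
  rw [hmw] at hPA
  have hfin := Fst_fin (M := (m : ℝ) ^ (w - 1)) (X := P / A) (m := m) (q := q)
    (K := (R : ℝ) ^ 2) (D := D) (Q := Q) hm3 (by positivity) (by positivity) hDp.le hPA.1 hPA.2 hqQ
  rw [← hW, ← hq]
  exact h2.trans hfin

/-- exact version: `H57LC.rinv_le_of_sum` with `g k = b k - m` -/
theorem fst_zero (u R r m : ℕ) (hm : 1 ≤ m) (hR : 1 ≤ R) (hr : r < R) (w : ℕ) (hw : w = R + u)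
    (b : Fin w → ℕ) (hb : ∀ k, m ≤ b k) (hs : ∑ k, b k = w * m + r) :
    (∏ k, (b k : ℝ)) * (1 - (rinv w R r m)⁻¹ *
      ∑ T ∈ powersetCard R (univ : Finset (Fin w)), ∏ k ∈ T, ((b k : ℝ))⁻¹) ≤ 0 := by
  have hp : 0 < rinv w R r m := rinv_pos hm (by omega)
  have h1 : rinv w R r m ≤ ∑ T ∈ powersetCard R (univ : Finset (Fin w)),
      ∏ t ∈ T, ((m : ℝ) + ((b t - m : ℕ) : ℝ))⁻¹ := by
    refine rinv_le_of_sum (K := (univ : Finset (Fin w))) (g := fun k => b k - m) (by simp) hm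
      (by omega) ?_
    have h2 : ∑ k, b k = ∑ k : Fin w, (b k - m) + ∑ _k : Fin w, m := by
      rw [← sum_add_distrib]
      exact sum_congr rfl fun k _ => (Nat.sub_add_cancel (hb k)).symm
    rw [sum_const, card_univ, Fintype.card_fin, smul_eq_mul, hs] at h2
    omega
  have h2 : ∀ t, (m : ℝ) + ((b t - m : ℕ) : ℝ) = b t := by
    intro t
    rw [Nat.cast_sub (hb t)]
    ring
  simp only [h2] at h1
  refine mul_nonpos_of_nonneg_of_nonpos (prod_nonneg fun k _ => Nat.cast_nonneg _) ?_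
  rw [sub_nonpos, inv_mul_eq_div, one_le_div hp]
  exact h1

/-- `ρ ≥ m^R / C(w,u)` (`H57LC.rinv_le_crude`) -/
theorem rho_ge {u R r m : ℕ} (hm : 1 ≤ m) :
    (m : ℝ) ^ R / ((R + u).choose u : ℝ) ≤ (rinv (R + u) R r m)⁻¹ := by
  have hp : 0 < rinv (R + u) R r m := rinv_pos hm (by omega)
  have h1 := rinv_le_crude (w := R + u) (R := R) (r := r) hm
  rw [Nat.choose_symm_add] at h1
  have h2 : (0 : ℝ) < ((R + u).choose u : ℝ) := by
    exact_mod_cast Nat.choose_pos (by omega)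
  have hmp : (0 : ℝ) < m := by exact_mod_cast hm
  rw [le_inv_comm₀ (by positivity) hp, inv_div]
  exact h1

/-- `ρ ≤ (m^R / C(w,u)) (1 + C'/m)` -/
theorem rho_le (u R r : ℕ) (hR : 1 ≤ R) :
    ∃ C' : ℝ, 0 < C' ∧ ∀ m : ℕ, 1 ≤ m →
      (rinv (R + u) R r m)⁻¹ ≤ (m : ℝ) ^ R / ((R + u).choose u : ℝ) * (1 + C' / m) := by
  refine ⟨2 ^ R, by positivity, fun m hm => ?_⟩
  have hmp : (0 : ℝ) < m := by exact_mod_cast hm
  have hm1 : (1 : ℝ) ≤ m := by exact_mod_cast hm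
  have hp : 0 < rinv (R + u) R r m := rinv_pos hm (by omega)
  have h2 : (0 : ℝ) < ((R + u).choose u : ℝ) := by
    exact_mod_cast Nat.choose_pos (by omega)
  have h3 : ((R + u).choose u : ℝ) / ((m : ℝ) + 1) ^ R ≤ rinv (R + u) R r m := by
    unfold rinv
    have h4 : ∀ T ∈ powersetCard R (univ : Finset (Fin (R + u))), 1 / ((m : ℝ) + 1) ^ R ≤
        ∏ i ∈ T, ((m : ℝ) + (if i.val < r then 1 else 0))⁻¹ := by
      intro T hT
      have h5 : 1 / ((m : ℝ) + 1) ^ R = ∏ i ∈ T, ((m : ℝ) + 1)⁻¹ := by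
        rw [prod_const, (mem_powersetCard.1 hT).2, one_div, inv_pow]
      rw [h5]
      refine prod_le_prod (fun _ _ => by positivity) fun i _ => ?_
      refine inv_anti₀ ?_ ?_
      · split_ifs <;> positivity
      · split_ifs <;> linarith
    refine le_trans (le_of_eq ?_) (sum_le_sum h4)
    rw [sum_const, card_powersetCard, card_univ, Fintype.card_fin, nsmul_eq_mul,
      Nat.choose_symm_add, mul_one_div]
  have h5 : (rinv (R + u) R r m)⁻¹ ≤ ((m : ℝ) + 1) ^ R / ((R + u).choose u : ℝ) := by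
    rw [inv_le_comm₀ hp (by positivity), inv_div]
    exact h3
  refine h5.trans ?_
  rw [div_mul_eq_mul_div]
  refine div_le_div_of_nonneg_right ?_ h2.le
  have h6 : (m : ℝ) + 1 = m * (1 + 1 / m) := by field_simp
  rw [h6, mul_pow]
  refine mul_le_mul_of_nonneg_left ?_ (by positivity)
  have h7 := Fst_one_add_pow' (t := 1 / (m : ℝ)) (by positivity)
    (by rw [div_le_one hmp]; exact hm1) R
  rwa [mul_one_div] at h7

end H23CL
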