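import Pool.Agent.H23.CL.Defs

/-! Steps 6, 7 of note 3669: averages of the validity. -/

set_option autoImplicit false

namespace H23CL

open Finset H57LC

set_option linter.unusedSectionVars false

/-- pointwise validity: the outside vertices adjacent to a clique transversal of `u` parts -/
theorem val_point {V : Type} [Fintype V] [DecidableEq V] {G : SimpleGraph V} [DecidableRel G.Adj]
    {𝒰 : Finset (Finset V)} {w u R r m : ℕ} {B : Fin w → Finset V} {ty : V → Fin w} {C η : ℝ}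
    (h : Stp G 𝒰 B ty u R r m C η) {P : Finset (Fin w)} (hP : P.card = u) {f : Fin w → V}
    (hf : ∀ k ∈ P, f k ∈ B k) (hcl : ∀ k ∈ P, ∀ l ∈ P, k ≠ l → G.Adj (f k) (f l)) :
    ((((outs B).filter fun z => ∀ l ∈ P, G.Adj (f l) z).card : ℕ) : ℝ) ≤
      (R * m + r : ℝ) - ∑ k ∈ univ \ P, ((B k).card : ℝ) + (rw G B univ f P : ℝ) := by
  -- the clique
  have hinj : Set.InjOn f (P : Set (Fin w)) := by
    intro k hk l hl hkl
    by_contra hne
    have := hcl k hk l hl hne
    rw [hkl] at this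
    exact G.loopless.irrefl _ this
  have hU : P.image f ∈ clq G univ u := by
    rw [mem_clq]
    refine ⟨⟨subset_univ _, ?_⟩, ?_⟩
    · rw [card_image_of_injOn hinj, hP]
    · intro a ha b hb hab
      obtain ⟨k, hk, rfl⟩ := mem_image.1 ha
      obtain ⟨l, hl, rfl⟩ := mem_image.1 hb
      exact hcl k hk l hl fun h' => hab (by rw [h'])
  have hval := h.val _ hU
  -- the adjacent vertices of the parts
  set A : Fin w → Finset V := fun k => (B k).filter fun y => ∀ l ∈ P, G.Adj (f l) y with hA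
  set O : Finset V := (outs B).filter fun z => ∀ l ∈ P, G.Adj (f l) z with hO
  have hAdisj : ∀ k ∈ univ \ P, ∀ l ∈ univ \ P, k ≠ l → Disjoint (A k) (A l) := by
    intro k _ l _ hkl
    exact disjoint_filter_filter (h.bs.disj k l hkl)
  have hOA : Disjoint O ((univ \ P).biUnion A) := by
    rw [Finset.disjoint_left]
    intro z hz hz'
    obtain ⟨k, _, hk⟩ := mem_biUnion.1 hz'
    have h1 : z ∈ outs B := (mem_filter.1 hz).1
    have h2 : z ∈ B k := (mem_filter.1 hk).1
    exact (mem_sdiff.1 h1).2 (mem_un.2 ⟨k, h2⟩)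
  have hsub : O ∪ (univ \ P).biUnion A ⊆ cn G (P.image f) := by
    intro z hz
    rw [mem_cn]
    have hz' : ∀ l ∈ P, G.Adj (f l) z := by
      rcases mem_union.1 hz with hz | hz
      · exact (mem_filter.1 hz).2
      · obtain ⟨k, _, hk⟩ := mem_biUnion.1 hz
        exact (mem_filter.1 hk).2
    intro a ha
    obtain ⟨l, hl, rfl⟩ := mem_image.1 ha
    exact hz' l hl
  have hcard : O.card + ∑ k ∈ univ \ P, (A k).card ≤ R * m + r := by
    rw [← card_biUnion hAdisj, ← card_union_of_disjoint hOA]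
    exact (card_le_card hsub).trans hval
  have hsplit : ∀ k, (A k).card + ((B k).filter fun y => ∃ l ∈ P, ¬ G.Adj (f l) y).card =
      (B k).card := by
    intro k
    rw [← card_filter_add_card_filter_not (s := B k) (fun y => ∀ l ∈ P, G.Adj (f l) y)]
    congr 2
    refine filter_congr fun y _ => ?_
    push Not
    rfl
  have hrw : ∑ k ∈ univ \ P, (A k).card + rw G B univ f P = ∑ k ∈ univ \ P, (B k).card := by
    unfold rw
    rw [← sum_add_distrib]
    refine sum_congr rfl fun k _ => ?_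
    convert hsplit k
  have hc : ((O.card : ℕ) : ℝ) + ∑ k ∈ univ \ P, ((A k).card : ℝ) ≤ R * m + r := by
    exact_mod_cast hcard
  have hr : ∑ k ∈ univ \ P, ((A k).card : ℝ) + (rw G B univ f P : ℝ) =
      ∑ k ∈ univ \ P, ((B k).card : ℝ) := by
    exact_mod_cast hrw
  linarith

/-- missing pairs are symmetric -/
private theorem Val_symm {V : Type} [DecidableEq V] {G : SimpleGraph V} [DecidableRel G.Adj]
    (A B : Finset V) :
    ∑ z ∈ A, ((hs G B z).card : ℝ) = ∑ z ∈ B, ((hs G A z).card : ℝ) := by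
  have h1 : ∑ z ∈ A, ((hs G B z).card : ℝ) = ∑ z ∈ A, ∑ y ∈ B, na G z y :=
    sum_congr rfl fun z _ => (sum_na B z).symm
  have h2 : ∑ z ∈ B, ((hs G A z).card : ℝ) = ∑ z ∈ B, ∑ y ∈ A, na G z y :=
    sum_congr rfl fun z _ => (sum_na A z).symm
  rw [h1, h2, sum_comm]
  exact sum_congr rfl fun z _ => sum_congr rfl fun y _ => na_comm _ _

/-- the missing pairs between `P` and its complement -/
private theorem Val_cross {w : ℕ} (E : Fin w → Fin w → ℝ) (hE : ∀ i j, 0 ≤ E i j)
    (hs : ∀ i j, E i j = E j i) (P : Finset (Fin w)) :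
    ∑ k ∈ univ \ P, ∑ l ∈ P, E l k ≤ (∑ i, ∑ j ∈ univ.erase i, E i j) / 2 := by
  have h1 : ∑ i, ∑ j ∈ univ.erase i, E i j =
      ∑ i ∈ P, ∑ j ∈ univ.erase i, E i j + ∑ i ∈ univ \ P, ∑ j ∈ univ.erase i, E i j := by
    rw [← sum_sdiff (subset_univ P), add_comm]
  have h2 : ∑ k ∈ univ \ P, ∑ l ∈ P, E l k ≤ ∑ i ∈ P, ∑ j ∈ univ.erase i, E i j := by
    rw [sum_comm]
    refine sum_le_sum fun i hi => ?_
    refine sum_le_sum_of_subset_of_nonneg ?_ fun j _ _ => hE _ _
    intro j hj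
    refine mem_erase.2 ⟨?_, mem_univ _⟩
    rintro rfl
    exact (mem_sdiff.1 hj).2 hi
  have h3 : ∑ k ∈ univ \ P, ∑ l ∈ P, E l k ≤ ∑ i ∈ univ \ P, ∑ j ∈ univ.erase i, E i j := by
    refine sum_le_sum fun i hi => ?_
    calc ∑ l ∈ P, E l i = ∑ l ∈ P, E i l := sum_congr rfl fun l _ => hs _ _
      _ ≤ ∑ j ∈ univ.erase i, E i j := by
        refine sum_le_sum_of_subset_of_nonneg ?_ fun j _ _ => hE _ _
        intro j hj
        refine mem_erase.2 ⟨?_, mem_univ _⟩
        rintro rfl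
        exact (mem_sdiff.1 hi).2 hj
  linarith

/-- the mean of `rw` (`H57LC.one_sum`; every missing pair between `P` and its complement is counted
twice in `2 ee`) -/
theorem sum_rw_le {V : Type} [DecidableEq V] {G : SimpleGraph V} [DecidableRel G.Adj]
    {w : ℕ} {B : Fin w → Finset V} {b₀ : ℝ} (hb₀ : 0 < b₀) (hb : ∀ k, b₀ ≤ ((B k).card : ℝ))
    (P : Finset (Fin w)) :
    ∑ f ∈ Fintype.piFinset B, (rw G B univ f P : ℝ) ≤
      (∏ k, ((B k).card : ℝ)) * (ee G B univ / b₀) := by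
  set Q : ℝ := ∏ k, ((B k).card : ℝ) with hQ
  have hQ0 : 0 ≤ Q := prod_nonneg fun _ _ => Nat.cast_nonneg _
  have hpt : ∀ f : Fin w → V, (rw G B univ f P : ℝ) ≤
      ∑ k ∈ univ \ P, ∑ l ∈ P, ((hs G (B k) (f l)).card : ℝ) := by
    intro f
    unfold rw
    push_cast
    refine sum_le_sum fun k _ => ?_
    have h1 : ((B k).filter fun y => ∃ l ∈ P, ¬ G.Adj (f l) y) ⊆
        P.biUnion fun l => hs G (B k) (f l) := by
      intro y hy
      obtain ⟨hy1, l, hl, hy2⟩ := mem_filter.1 hy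
      exact mem_biUnion.2 ⟨l, hl, mem_hs.2 ⟨hy1, hy2⟩⟩
    have h2 := (card_le_card h1).trans card_biUnion_le
    have h3 : ((((B k).filter fun y => ∃ l ∈ P, ¬ G.Adj (f l) y).card : ℕ) : ℝ) ≤
        ∑ l ∈ P, ((hs G (B k) (f l)).card : ℝ) := by
      exact_mod_cast h2
    refine le_trans (le_of_eq ?_) h3
    congr!
  have hone : ∀ (k l : Fin w), ∑ f ∈ Fintype.piFinset B, ((hs G (B k) (f l)).card : ℝ) ≤
      Q / b₀ * ∑ y ∈ B l, ((hs G (B k) y).card : ℝ) := by
    intro k l
    have h1 := one_sum B l fun y => ((hs G (B k) y).card : ℝ)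
    have hb' := hb l
    have hbl : (0 : ℝ) < (B l).card := lt_of_lt_of_le hb₀ hb'
    have hS : 0 ≤ ∑ f ∈ Fintype.piFinset B, ((hs G (B k) (f l)).card : ℝ) :=
      sum_nonneg fun _ _ => Nat.cast_nonneg _
    have h2 : b₀ * ∑ f ∈ Fintype.piFinset B, ((hs G (B k) (f l)).card : ℝ) ≤
        Q * ∑ y ∈ B l, ((hs G (B k) y).card : ℝ) := by
      rw [← h1]
      exact mul_le_mul_of_nonneg_right hb' hS
    rw [div_mul_eq_mul_div, le_div_iff₀ hb₀, mul_comm]
    exact h2
  have hcross := Val_cross (fun l k => ∑ y ∈ B l, ((hs G (B k) y).card : ℝ))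
    (fun _ _ => sum_nonneg fun _ _ => Nat.cast_nonneg _) (fun i j => Val_symm (B i) (B j)) P
  calc ∑ f ∈ Fintype.piFinset B, (rw G B univ f P : ℝ)
      ≤ ∑ f ∈ Fintype.piFinset B, ∑ k ∈ univ \ P, ∑ l ∈ P, ((hs G (B k) (f l)).card : ℝ) :=
        sum_le_sum fun f _ => hpt f
    _ = ∑ k ∈ univ \ P, ∑ l ∈ P, ∑ f ∈ Fintype.piFinset B, ((hs G (B k) (f l)).card : ℝ) := by
        rw [sum_comm]
        exact sum_congr rfl fun k _ => sum_comm
    _ ≤ ∑ k ∈ univ \ P, ∑ l ∈ P, Q / b₀ * ∑ y ∈ B l, ((hs G (B k) y).card : ℝ) :=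
        sum_le_sum fun k _ => sum_le_sum fun l _ => hone k l
    _ = Q / b₀ * ∑ k ∈ univ \ P, ∑ l ∈ P, ∑ y ∈ B l, ((hs G (B k) y).card : ℝ) := by
        rw [mul_sum]
        exact sum_congr rfl fun k _ => by rw [mul_sum]
    _ ≤ Q / b₀ * ee G B univ :=
        mul_le_mul_of_nonneg_left hcross (div_nonneg hQ0 hb₀.le)
    _ = Q * (ee G B univ / b₀) := by ring

/-- the number of missing pairs is at most `C' m` -/
theorem ee_le {V : Type} [Fintype V] [DecidableEq V] {G : SimpleGraph V} [DecidableRel G.Adj]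
    {𝒰 : Finset (Finset V)} {w u R r m : ℕ} {B : Fin w → Finset V} {ty : V → Fin w} {C η : ℝ}
    (h : Stp G 𝒰 B ty u R r m C η) : ee G B univ ≤ w ^ 2 * C * m ∧ 0 ≤ ee G B univ := by
  have h0 : 0 ≤ ∑ i, ∑ j ∈ univ.erase i, ∑ z ∈ B i, ((hs G (B j) z).card : ℝ) :=
    sum_nonneg fun _ _ => sum_nonneg fun _ _ => sum_nonneg fun _ _ => Nat.cast_nonneg _
  refine ⟨?_, ?_⟩
  · rcases Nat.eq_zero_or_pos w with hw | hw
    · subst hw
      unfold ee
      simp
    · have hC : 0 ≤ C := (abs_nonneg _).trans (h.bs.size ⟨0, hw⟩)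
      have hCm : 0 ≤ C * m := mul_nonneg hC (Nat.cast_nonneg _)
      have h1 : ∀ i : Fin w, ∑ j ∈ univ.erase i, ∑ z ∈ B i, ((hs G (B j) z).card : ℝ) ≤
          w * (C * m) := by
        intro i
        calc ∑ j ∈ univ.erase i, ∑ z ∈ B i, ((hs G (B j) z).card : ℝ)
            ≤ ∑ _j ∈ univ.erase i, C * m :=
              sum_le_sum fun j hj => h.bs.tot i j (mem_erase.1 hj).1.symm
          _ = ((univ.erase i).card : ℝ) * (C * m) := by rw [sum_const, nsmul_eq_mul]
          _ ≤ (w : ℝ) * (C * m) := by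
              refine mul_le_mul_of_nonneg_right ?_ hCm
              have h2 : (univ.erase i).card ≤ w := by
                refine (card_le_card (erase_subset _ _)).trans ?_
                rw [card_univ, Fintype.card_fin]
              exact_mod_cast h2
      have h2 : ∑ i, ∑ j ∈ univ.erase i, ∑ z ∈ B i, ((hs G (B j) z).card : ℝ) ≤
          w * (w * (C * m)) := by
        calc _ ≤ ∑ _i : Fin w, (w : ℝ) * (C * m) := sum_le_sum fun i _ => h1 i
          _ = _ := by rw [sum_const, card_univ, Fintype.card_fin, nsmul_eq_mul]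
      unfold ee
      have h3 : (w : ℝ) * (w * (C * m)) = w ^ 2 * C * m := by ring
      rw [h3] at h2
      linarith
  · unfold ee
    linarith

/-- elementary facts on the shares -/
theorem al_nonneg {V : Type*} [DecidableEq V] {G : SimpleGraph V} [DecidableRel G.Adj]
    {ι : Type*} (B : ι → Finset V) (z : V) (k : ι) : 0 ≤ al G B z k := by
  unfold al; positivity

theorem al_le_one {V : Type*} [DecidableEq V] {G : SimpleGraph V} [DecidableRel G.Adj]
    {ι : Type*} (B : ι → Finset V) (z : V) (k : ι) : al G B z k ≤ 1 := by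
  unfold al
  refine div_le_one_of_le₀ ?_ (Nat.cast_nonneg _)
  exact_mod_cast card_filter_le _ _

/-- for `z` of a type: `σ_z` is the sum over the other parts -/
theorem sgm_eq {V : Type*} [DecidableEq V] {G : SimpleGraph V} [DecidableRel G.Adj] {w : ℕ}
    {B : Fin w → Finset V} {ty : V → Fin w} {ε : ℝ} {z : V} (h : Typ G B ε z (ty z)) :
    sgm G B z = sgE G B univ ty z := by
  have h0 : al G B z (ty z) = 0 := by
    unfold al
    rw [filter_eq_empty_iff.2 fun y hy => h.1 y hy]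
    simp
  unfold sgm sgE
  rw [← add_sum_erase univ (fun k => 1 - al G B z k) (mem_univ (ty z)), h0]
  ring

/-- `σ_z ≤ -log π_z` -/
theorem sgE_le {V : Type*} [DecidableEq V] {G : SimpleGraph V} [DecidableRel G.Adj] {w : ℕ}
    {B : Fin w → Finset V} {I : Finset (Fin w)} {ty : V → Fin w} {z : V}
    (h : 0 < pz G B I ty z) : sgE G B I ty z ≤ -Real.log (pz G B I ty z) := by
  have hne : ∀ k ∈ I.erase (ty z), al G B z k ≠ 0 := by
    intro k hk h0
    have : pz G B I ty z = 0 := prod_eq_zero hk h0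
    rw [this] at h
    exact lt_irrefl _ h
  unfold sgE pz
  rw [Real.log_prod hne, ← sum_neg_distrib]
  refine sum_le_sum fun k hk => ?_
  have hpos : 0 < al G B z k := lt_of_le_of_ne (al_nonneg B z k) (hne k hk).symm
  have := Real.log_le_sub_one_of_pos hpos
  linarith

/-- `1 - σ_z ≤ π_z` -/
theorem one_sub_le_pz {V : Type*} [DecidableEq V] {G : SimpleGraph V} [DecidableRel G.Adj] {w : ℕ}
    (B : Fin w → Finset V) (I : Finset (Fin w)) (ty : V → Fin w) (z : V) :
    1 - sgE G B I ty z ≤ pz G B I ty z := by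
  unfold sgE pz
  generalize I.erase (ty z) = K
  induction K using Finset.induction_on with
  | empty => simp
  | insert a K ha ih =>
    rw [sum_insert ha, prod_insert ha]
    have h1 := al_le_one (G := G) B z a
    have h2 := al_nonneg (G := G) B z a
    have h3 : 0 ≤ ∑ k ∈ K, (1 - al G B z k) :=
      sum_nonneg fun k _ => sub_nonneg.2 (al_le_one B z k)
    have h4 : al G B z a * (1 - ∑ k ∈ K, (1 - al G B z k)) ≤
        al G B z a * ∏ k ∈ K, al G B z k := mul_le_mul_of_nonneg_left ih h2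
    nlinarith

theorem eta0_pos {u R : ℕ} (hp : Par u R) : 0 < eta0 u R ∧ eta0 u R ≤ 1 := by
  have hu : (1 : ℝ) ≤ u := by exact_mod_cast hp.hu
  have hR : (0 : ℝ) ≤ R := Nat.cast_nonneg _
  have hd : (0 : ℝ) < 3 * ((R : ℝ) + u) := by linarith
  have h1 : 0 < (u : ℝ) / (3 * ((R : ℝ) + u)) := div_pos (by linarith) hd
  have h2 : (u : ℝ) / (3 * ((R : ℝ) + u)) ≤ 1 := by
    rw [div_le_one hd]
    linarith
  unfold eta0
  exact ⟨by positivity, pow_le_one₀ h1.le h2⟩

theorem Z1_subset_Zin {V : Type} [Fintype V] [DecidableEq V] {G : SimpleGraph V}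
    [DecidableRel G.Adj] {u R : ℕ} (hp : Par u R) {w : ℕ} (B : Fin w → Finset V)
    (ty : V → Fin w) (ε : ℝ) : Z1 G B ty ε (eta0 u R) ⊆ Zin G B R := by
  intro z hz
  classical
  unfold Z1 at hz
  rw [mem_filter] at hz
  obtain ⟨hz1, hz2, hz3⟩ := hz
  unfold Zin
  rw [mem_filter]
  refine ⟨hz1, ?_⟩
  have he := (eta0_pos hp).1
  have hpos : 0 < pz G B univ ty z := lt_of_lt_of_le he hz3
  have h1 := sgE_le hpos
  have h2 := Real.log_le_log he hz3
  have h3 := hp.p2'
  rw [sgm_eq hz2]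
  linarith

end H23CL
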