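import Pool.Agent.H23.CL.IndB
import Pool.Agent.H23.CL.Val
import Pool.Agent.H23.CL.Fst
import Pool.Agent.H57.LC.TSums

/-! Step 8 of note 3669: destroyed cliques. -/

set_option autoImplicit false

namespace H23CL

open Finset H57LC

set_option linter.unusedSectionVars false

section tools

variable {V : Type} [Fintype V] [DecidableEq V] {w : ℕ}

/-- indicator: `f(P)` is a clique which is not in `𝒰` -/
private def Des_bad (G : SimpleGraph V) [DecidableRel G.Adj] (𝒰 : Finset (Finset V))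
    (P : Finset (Fin w)) (f : Fin w → V) : ℝ :=
  if IsCl G (P.image f) ∧ P.image f ∉ 𝒰 then 1 else 0

/-- indicator: `f` is not a clique transversal -/
private def Des_mis (G : SimpleGraph V) [DecidableRel G.Adj] (f : Fin w → V) : ℝ :=
  if (∀ i j, i ≠ j → G.Adj (f i) (f j)) then 0 else 1

variable {G : SimpleGraph V} [DecidableRel G.Adj]

private lemma Des_bad_nonneg (𝒰 : Finset (Finset V)) (P : Finset (Fin w)) (f : Fin w → V) :
    0 ≤ Des_bad G 𝒰 P f := by
  unfold Des_bad; split_ifs <;> norm_num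

private lemma Des_bad_le (𝒰 : Finset (Finset V)) (P : Finset (Fin w)) (f : Fin w → V) :
    Des_bad G 𝒰 P f ≤ 1 := by
  unfold Des_bad; split_ifs <;> norm_num

private lemma Des_bad_congr (𝒰 : Finset (Finset V)) (P : Finset (Fin w)) {f g : Fin w → V}
    (h : ∀ k ∈ P, f k = g k) : Des_bad G 𝒰 P f = Des_bad G 𝒰 P g := by
  have h1 : P.image f = P.image g := image_congr fun k hk => h k hk
  unfold Des_bad
  rw [h1]

/-- independence -/
private theorem Des_indep (B : Fin w → Finset V) (P P' : Finset (Fin w)) (hPP : Disjoint P P')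
    (F F' : (Fin w → V) → ℝ) (hF : ∀ f g : Fin w → V, (∀ k ∈ P, f k = g k) → F f = F g)
    (hF' : ∀ f g : Fin w → V, (∀ k ∈ P', f k = g k) → F' f = F' g) :
    (∏ k, ((B k).card : ℝ)) * ∑ f ∈ Fintype.piFinset B, F f * F' f =
      (∑ f ∈ Fintype.piFinset B, F f) * ∑ f ∈ Fintype.piFinset B, F' f := by
  have hcard : (∏ k, ((B k).card : ℝ)) = ((Fintype.piFinset B).card : ℝ) := by
    rw [Fintype.card_piFinset]; push_cast; rfl
  have h1 : ((Fintype.piFinset B).card : ℝ) * ∑ f ∈ Fintype.piFinset B, F f * F' f =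
      ∑ p ∈ Fintype.piFinset B ×ˢ Fintype.piFinset B, F p.1 * F' p.1 := by
    rw [sum_product]
    simp only [sum_const, nsmul_eq_mul]
    rw [mul_sum]
  have h2 : (∑ f ∈ Fintype.piFinset B, F f) * ∑ f ∈ Fintype.piFinset B, F' f =
      ∑ p ∈ Fintype.piFinset B ×ˢ Fintype.piFinset B, F p.1 * F' p.2 := by
    rw [sum_product, sum_mul_sum]
  rw [hcard, h1, h2]
  have hmem : ∀ p ∈ Fintype.piFinset B ×ˢ Fintype.piFinset B,
      (P.piecewise p.1 p.2, P.piecewise p.2 p.1) ∈
        Fintype.piFinset B ×ˢ Fintype.piFinset B := by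
    intro p hp
    rw [mem_product, Fintype.mem_piFinset, Fintype.mem_piFinset] at hp ⊢
    constructor <;> intro k
    · by_cases hk : k ∈ P
      · simp only [piecewise_eq_of_mem _ _ _ hk]; exact hp.1 k
      · simp only [piecewise_eq_of_notMem _ _ _ hk]; exact hp.2 k
    · by_cases hk : k ∈ P
      · simp only [piecewise_eq_of_mem _ _ _ hk]; exact hp.2 k
      · simp only [piecewise_eq_of_notMem _ _ _ hk]; exact hp.1 k
  have hinv : ∀ p : (Fin w → V) × (Fin w → V),
      (P.piecewise (P.piecewise p.1 p.2) (P.piecewise p.2 p.1),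
        P.piecewise (P.piecewise p.2 p.1) (P.piecewise p.1 p.2)) = p := by
    intro p
    ext1
    · funext k
      by_cases hk : k ∈ P
      · simp only [piecewise_eq_of_mem _ _ _ hk]
      · simp only [piecewise_eq_of_notMem _ _ _ hk]
    · funext k
      by_cases hk : k ∈ P
      · simp only [piecewise_eq_of_mem _ _ _ hk]
      · simp only [piecewise_eq_of_notMem _ _ _ hk]
  refine sum_bij' (fun p _ => (P.piecewise p.1 p.2, P.piecewise p.2 p.1))
    (fun p _ => (P.piecewise p.1 p.2, P.piecewise p.2 p.1)) (fun p hp => hmem p hp)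
    (fun p hp => hmem p hp) (fun p _ => hinv p) (fun p _ => hinv p) ?_
  intro p _
  have e1 : F p.1 = F (P.piecewise p.1 p.2) := by
    refine hF _ _ fun k hk => ?_
    rw [piecewise_eq_of_mem _ _ _ hk]
  have e2 : F' p.1 = F' (P.piecewise p.2 p.1) := by
    refine hF' _ _ fun k hk => ?_
    rw [piecewise_eq_of_notMem _ _ _ (fun h => (disjoint_left.1 hPP h) hk)]
  simp only
  rw [e1, e2]

/-- tuples are injective -/
private lemma Des_inj {B : Fin w → Finset V} (hdisj : ∀ i j, i ≠ j → Disjoint (B i) (B j))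
    {f : Fin w → V} (hf : f ∈ Fintype.piFinset B) : Function.Injective f := by
  intro i j hij
  by_contra hne
  rw [Fintype.mem_piFinset] at hf
  exact disjoint_left.1 (hdisj i j hne) (hf i) (hij ▸ hf j)

/-- the sum of `DD` -/
private theorem Des_sumDD {B : Fin w → Finset V} (hne : ∀ k, (0 : ℝ) < (B k).card) :
    ∑ f ∈ Fintype.piFinset B, DD G f = ∑ i, ∑ j ∈ univ.erase i,
      (∏ l, ((B l).card : ℝ)) / (((B i).card : ℝ) * (B j).card) *
        ∑ z ∈ B i, ((hs G (B j) z).card : ℝ) := by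
  unfold DD
  rw [sum_comm]
  refine sum_congr rfl fun i _ => ?_
  rw [sum_comm]
  refine sum_congr rfl fun j hj => ?_
  have hij : i ≠ j := (mem_erase.1 hj).1.symm
  have h1 := pair_sum B hij (na G)
  have h2 : ∑ y ∈ B i, ∑ z ∈ B j, na G y z = ∑ z ∈ B i, ((hs G (B j) z).card : ℝ) :=
    sum_congr rfl fun y _ => sum_na _ _
  rw [h2] at h1
  have hi := hne i
  have hj' := hne j
  rw [div_mul_eq_mul_div, eq_div_iff (by positivity), ← h1]
  ring

/-- not a clique: the number of sets `P` -/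
private lemma Des_notcl (f : Fin w → V) (P : Finset (Fin w)) :
    (if ¬ IsCl G (P.image f) then (1 : ℝ) else 0) ≤
      1 / 2 * ∑ i ∈ P, ∑ j ∈ P.erase i, na G (f i) (f j) := by
  have hnn : ∀ i ∈ P, 0 ≤ ∑ j ∈ P.erase i, na G (f i) (f j) := fun i _ =>
    sum_nonneg fun j _ => na_nonneg _ _
  by_cases h : IsCl G (P.image f)
  · rw [if_neg (not_not.2 h)]
    have := sum_nonneg hnn
    linarith
  · rw [if_pos h]
    unfold IsCl at h
    push Not at h
    obtain ⟨a, ha, b, hb, hab, hadj⟩ := h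
    obtain ⟨i, hi, rfl⟩ := mem_image.1 ha
    obtain ⟨j, hj, rfl⟩ := mem_image.1 hb
    have hij : i ≠ j := fun h => hab (by rw [h])
    have hrow : ∀ a b : Fin w, a ∈ P → b ∈ P → a ≠ b → ¬ G.Adj (f a) (f b) →
        (1 : ℝ) ≤ ∑ l ∈ P.erase a, na G (f a) (f l) := by
      intro a b _ hb hab hadj
      have h1 : na G (f a) (f b) = 1 := by
        unfold na; rw [if_neg hadj]
      rw [← h1]
      exact single_le_sum (f := fun l => na G (f a) (f l)) (fun l _ => na_nonneg _ _)
        (mem_erase.2 ⟨hab.symm, hb⟩)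
    have h2 : (2 : ℝ) ≤ ∑ i ∈ P, ∑ j ∈ P.erase i, na G (f i) (f j) := by
      have hsub : ({i, j} : Finset (Fin w)) ⊆ P := by
        intro k hk
        rcases mem_insert.1 hk with rfl | hk
        · exact hi
        · rw [mem_singleton.1 hk]; exact hj
      calc (2 : ℝ) ≤ ∑ k ∈ ({i, j} : Finset (Fin w)), ∑ l ∈ P.erase k, na G (f k) (f l) := by
            rw [sum_pair hij]
            have := hrow i j hi hj hij hadj
            have := hrow j i hj hi hij.symm (fun h => hadj h.symm)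
            linarith
        _ ≤ _ := sum_le_sum_of_subset_of_nonneg hsub fun k hk _ => hnn k hk
    linarith

/-- the number of `u`-sets which contain two given indices -/
private lemma Des_c2 {u : ℕ} (hu : 1 ≤ u) (hw : 2 ≤ w) {i j : Fin w} (hij : i ≠ j) :
    (((powersetCard u (univ : Finset (Fin w))).filter fun P => i ∈ P ∧ j ∈ P).card : ℝ) =
      (w.choose u : ℝ) * (u * (u - 1) / (w * (w - 1))) := by
  rcases Nat.lt_or_ge u 2 with h2 | h2
  · have hu1 : u = 1 := by omega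
    subst hu1
    have : ((powersetCard 1 (univ : Finset (Fin w))).filter fun P => i ∈ P ∧ j ∈ P) = ∅ := by
      rw [filter_eq_empty_iff]
      intro P hP hcon
      have hc := (mem_powersetCard.1 hP).2
      obtain ⟨a, rfl⟩ := card_eq_one.1 hc
      have h1 := mem_singleton.1 hcon.1
      have h2 := mem_singleton.1 hcon.2
      exact hij (h1.trans h2.symm)
    rw [this]
    simp
  · obtain ⟨t, rfl⟩ : ∃ t, u = t + 2 := ⟨u - 2, by omega⟩
    obtain ⟨n, hn⟩ : ∃ n, w = n + 2 := ⟨w - 2, by omega⟩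
    have hcard : ((powersetCard (t + 2) (univ : Finset (Fin w))).filter
        fun P => i ∈ P ∧ j ∈ P).card = n.choose t := by
      have hpair : ({i, j} : Finset (Fin w)).card = 2 := card_pair hij
      have hc : (univ \ ({i, j} : Finset (Fin w))).card = n := by
        rw [card_sdiff_of_subset (subset_univ _), card_univ, Fintype.card_fin, hpair, hn]
        omega
      rw [← hc, ← card_powersetCard]
      refine card_bij' (fun P _ => P \ {i, j}) (fun T _ => T ∪ {i, j}) ?_ ?_ ?_ ?_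
      · intro P hP
        obtain ⟨hP1, hP2⟩ := mem_filter.1 hP
        have hsub : ({i, j} : Finset (Fin w)) ⊆ P := by
          intro k hk
          rcases mem_insert.1 hk with rfl | hk
          · exact hP2.1
          · rw [mem_singleton.1 hk]; exact hP2.2
        rw [mem_powersetCard]
        refine ⟨sdiff_subset_sdiff (subset_univ _) (subset_refl _), ?_⟩
        rw [card_sdiff_of_subset hsub, hpair, (mem_powersetCard.1 hP1).2]
        omega
      · intro T hT
        obtain ⟨hT1, hT2⟩ := mem_powersetCard.1 hT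
        have hd : Disjoint T {i, j} := by
          rw [disjoint_left]
          intro k hk hk'
          exact (mem_sdiff.1 (hT1 hk)).2 hk'
        rw [mem_filter, mem_powersetCard]
        refine ⟨⟨subset_univ _, ?_⟩, ?_, ?_⟩
        · rw [card_union_of_disjoint hd, hT2, hpair]
        · exact mem_union_right _ (mem_insert_self _ _)
        · exact mem_union_right _ (mem_insert_of_mem (mem_singleton_self _))
      · intro P hP
        obtain ⟨hP1, hP2⟩ := mem_filter.1 hP
        have hsub : ({i, j} : Finset (Fin w)) ⊆ P := by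
          intro k hk
          rcases mem_insert.1 hk with rfl | hk
          · exact hP2.1
          · rw [mem_singleton.1 hk]; exact hP2.2
        exact sdiff_union_of_subset hsub
      · intro T hT
        obtain ⟨hT1, hT2⟩ := mem_powersetCard.1 hT
        have hd : Disjoint T {i, j} := by
          rw [disjoint_left]
          intro k hk hk'
          exact (mem_sdiff.1 (hT1 hk)).2 hk'
        exact union_sdiff_cancel_right hd
    rw [hcard, hn]
    have e1 := Nat.add_one_mul_choose_eq (n + 1) (t + 1)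
    have e2 := Nat.add_one_mul_choose_eq n t
    have e1' : ((n : ℝ) + 2) * ((n + 1).choose (t + 1) : ℝ) =
        ((n + 2).choose (t + 2) : ℝ) * ((t : ℝ) + 2) := by
      have : (((n + 1 + 1) * (n + 1).choose (t + 1) : ℕ) : ℝ) =
        (((n + 1 + 1).choose (t + 1 + 1) * (t + 1 + 1) : ℕ) : ℝ) := by rw [e1]
      push_cast at this
      linarith
    have e2' : ((n : ℝ) + 1) * (n.choose t : ℝ) =
        ((n + 1).choose (t + 1) : ℝ) * ((t : ℝ) + 1) := by
      have : (((n + 1) * n.choose t : ℕ) : ℝ) =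
        (((n + 1).choose (t + 1) * (t + 1) : ℕ) : ℝ) := by rw [e2]
      push_cast at this
      linarith
    push_cast
    have hn1 : (n : ℝ) + 2 ≠ 0 := by positivity
    have hn2 : (n : ℝ) + 2 - 1 ≠ 0 := by
      have : (0 : ℝ) ≤ n := Nat.cast_nonneg _
      linarith
    field_simp
    have e3 : (n : ℝ) + 2 - 1 = n + 1 := by ring
    have e4 : (t : ℝ) + 2 - 1 = t + 1 := by ring
    rw [e3, e4]
    calc (n.choose t : ℝ) * (n + 2) * (n + 1) = (n + 2) * (((n : ℝ) + 1) * (n.choose t : ℝ)) := by ring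
      _ = (n + 2) * (((n + 1).choose (t + 1) : ℝ) * ((t : ℝ) + 1)) := by rw [e2']
      _ = (((n : ℝ) + 2) * ((n + 1).choose (t + 1) : ℝ)) * ((t : ℝ) + 1) := by ring
      _ = ((n + 2).choose (t + 2) : ℝ) * ((t : ℝ) + 2) * (t + 1) := by rw [e1']

/-- not cliques, sum over the sets `P` -/
private lemma Des_q {u : ℕ} (hu : 1 ≤ u) (hw : 2 ≤ w) (f : Fin w → V) :
    ∑ P ∈ powersetCard u (univ : Finset (Fin w)),
      (if ¬ IsCl G (P.image f) then (1 : ℝ) else 0) ≤
      (w.choose u : ℝ) * (u * (u - 1) / (w * (w - 1))) * (DD G f / 2) := by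
  set c : ℝ := (w.choose u : ℝ) * (u * (u - 1) / (w * (w - 1))) with hc
  have h1 : ∀ P : Finset (Fin w), ∑ i ∈ P, ∑ j ∈ P.erase i, na G (f i) (f j) =
      ∑ i, ∑ j ∈ univ.erase i, (if i ∈ P ∧ j ∈ P then na G (f i) (f j) else 0) := by
    intro P
    have a1 : ∀ i ∈ P, ∑ j ∈ P.erase i, na G (f i) (f j) =
        ∑ j ∈ univ.erase i, (if i ∈ P ∧ j ∈ P then na G (f i) (f j) else 0) := by
      intro i hi
      rw [← sum_filter]
      refine sum_congr ?_ fun _ _ => rfl
      ext j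
      simp only [mem_erase, mem_filter, mem_univ, and_true, hi, true_and]
    rw [sum_congr rfl a1]
    refine sum_subset (subset_univ P) fun i _ hi => ?_
    refine sum_eq_zero fun j _ => ?_
    rw [if_neg (fun h => hi h.1)]
  calc ∑ P ∈ powersetCard u (univ : Finset (Fin w)),
      (if ¬ IsCl G (P.image f) then (1 : ℝ) else 0)
      ≤ ∑ P ∈ powersetCard u (univ : Finset (Fin w)),
        1 / 2 * ∑ i, ∑ j ∈ univ.erase i, (if i ∈ P ∧ j ∈ P then na G (f i) (f j) else 0) := by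
        refine sum_le_sum fun P _ => ?_
        rw [← h1]
        exact Des_notcl f P
    _ = 1 / 2 * ∑ i, ∑ j ∈ univ.erase i, ∑ P ∈ powersetCard u (univ : Finset (Fin w)),
        (if i ∈ P ∧ j ∈ P then na G (f i) (f j) else 0) := by
        rw [← mul_sum, sum_comm]
        congr 1
        exact sum_congr rfl fun i _ => sum_comm
    _ = 1 / 2 * ∑ i, ∑ j ∈ univ.erase i, c * na G (f i) (f j) := by
        congr 1
        refine sum_congr rfl fun i _ => sum_congr rfl fun j hj => ?_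
        rw [← sum_filter, sum_const, nsmul_eq_mul,
          Des_c2 hu hw (mem_erase.1 hj).1.symm, hc]
    _ = c * (DD G f / 2) := by
        unfold DD
        simp only [← mul_sum]
        ring

/-- the pointwise inequality -/
private lemma Des_point {u R : ℕ} (hw : w = R + u)
    (hhalf : ((R + u).choose u : ℝ) ≤ 2 * (R.choose u : ℝ))
    {B : Fin w → Finset V} (hdisj : ∀ i j, i ≠ j → Disjoint (B i) (B j))
    (𝒰 : Finset (Finset V)) {f : Fin w → V} (hf : f ∈ Fintype.piFinset B) :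
    Des_mis G f + 2 / (w.choose u : ℝ) *
      (∑ P ∈ powersetCard u (univ : Finset (Fin w)), Des_bad G 𝒰 P f -
        Des_mis G f * ∑ P ∈ powersetCard u (univ : Finset (Fin w)), Des_bad G 𝒰 P f -
        ∑ P ∈ powersetCard u (univ : Finset (Fin w)),
          ∑ P' ∈ powersetCard u (univ \ P), Des_bad G 𝒰 P f * Des_bad G 𝒰 P' f) ≤
      (if univ.image f ∈ KK G 𝒰 u w then (0 : ℝ) else 1) := by
  have hinj := Des_inj hdisj hf
  have hcpos : (0 : ℝ) < (w.choose u : ℝ) := by
    have : 0 < w.choose u := Nat.choose_pos (by omega)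
    exact_mod_cast this
  have hQ2 : 0 ≤ ∑ P ∈ powersetCard u (univ : Finset (Fin w)),
      ∑ P' ∈ powersetCard u (univ \ P), Des_bad G 𝒰 P f * Des_bad G 𝒰 P' f :=
    sum_nonneg fun P _ => sum_nonneg fun P' _ =>
      mul_nonneg (Des_bad_nonneg _ _ _) (Des_bad_nonneg _ _ _)
  by_cases hcl : ∀ i j, i ≠ j → G.Adj (f i) (f j)
  · have hm0 : Des_mis G f = 0 := by unfold Des_mis; rw [if_pos hcl]
    rw [hm0, zero_add, zero_mul, sub_zero]
    by_cases hex : ∃ P₀ ∈ powersetCard u (univ : Finset (Fin w)),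
        IsCl G (P₀.image f) ∧ P₀.image f ∉ 𝒰
    · obtain ⟨P₀, hP₀, hb⟩ := hex
      have hKK : univ.image f ∉ KK G 𝒰 u w := by
        intro hcon
        have h1 := (mem_filter.1 hcon).2
        refine hb.2 (h1 ?_)
        rw [mem_powersetCard]
        refine ⟨image_subset_image (subset_univ _), ?_⟩
        rw [card_image_of_injective _ hinj, (mem_powersetCard.1 hP₀).2]
      rw [if_neg hKK]
      have hbad0 : Des_bad G 𝒰 P₀ f = 1 := by unfold Des_bad; rw [if_pos hb]
      -- the sets disjoint from `P₀`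
      have h1 : ∑ P ∈ powersetCard u (univ \ P₀), Des_bad G 𝒰 P f ≤
          ∑ P ∈ powersetCard u (univ : Finset (Fin w)),
            ∑ P' ∈ powersetCard u (univ \ P), Des_bad G 𝒰 P f * Des_bad G 𝒰 P' f := by
        have h2 := single_le_sum (s := powersetCard u (univ : Finset (Fin w)))
          (f := fun P => ∑ P' ∈ powersetCard u (univ \ P), Des_bad G 𝒰 P f * Des_bad G 𝒰 P' f)
          (fun P _ => sum_nonneg fun P' _ =>
            mul_nonneg (Des_bad_nonneg _ _ _) (Des_bad_nonneg _ _ _)) hP₀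
        refine le_trans (le_of_eq ?_) h2
        simp only [hbad0, one_mul]
      have hsubs : powersetCard u (univ \ P₀) ⊆ powersetCard u (univ : Finset (Fin w)) :=
        powersetCard_mono (subset_univ _)
      have h3 : ∑ P ∈ powersetCard u (univ : Finset (Fin w)), Des_bad G 𝒰 P f ≤
          ((w.choose u : ℝ) - (R.choose u : ℝ)) +
            ∑ P ∈ powersetCard u (univ \ P₀), Des_bad G 𝒰 P f := by
        rw [← sum_sdiff hsubs]
        refine add_le_add ?_ le_rfl
        calc ∑ P ∈ powersetCard u (univ : Finset (Fin w)) \ powersetCard u (univ \ P₀),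
              Des_bad G 𝒰 P f
            ≤ ∑ _P ∈ powersetCard u (univ : Finset (Fin w)) \ powersetCard u (univ \ P₀),
              (1 : ℝ) := sum_le_sum fun P _ => Des_bad_le _ _ _
          _ = (w.choose u : ℝ) - (R.choose u : ℝ) := by
              rw [sum_const, nsmul_eq_mul, mul_one, cast_card_sdiff hsubs, card_powersetCard,
                card_powersetCard, card_univ, Fintype.card_fin,
                card_sdiff_of_subset (subset_univ _), card_univ, Fintype.card_fin,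
                (mem_powersetCard.1 hP₀).2]
              have : w - u = R := by omega
              rw [this]
      have h4 : (w.choose u : ℝ) - (R.choose u : ℝ) ≤ (w.choose u : ℝ) / 2 := by
        rw [← hw] at hhalf
        linarith
      rw [div_mul_eq_mul_div, div_le_one hcpos]
      linarith
    · push Not at hex
      have hz : ∀ P ∈ powersetCard u (univ : Finset (Fin w)), Des_bad G 𝒰 P f = 0 := by
        intro P hP
        unfold Des_bad
        rw [if_neg]
        intro hcon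
        exact hcon.2 (hex P hP hcon.1)
      rw [sum_congr rfl hz]
      have : 0 ≤ (if univ.image f ∈ KK G 𝒰 u w then (0 : ℝ) else 1) := by
        split_ifs <;> norm_num
      rw [sum_const_zero, zero_sub]
      have h5 : 2 / (w.choose u : ℝ) * -∑ P ∈ powersetCard u (univ : Finset (Fin w)),
          ∑ P' ∈ powersetCard u (univ \ P), Des_bad G 𝒰 P f * Des_bad G 𝒰 P' f ≤ 0 := by
        have : 0 ≤ 2 / (w.choose u : ℝ) := by positivity
        nlinarith
      linarith
  · have hm1 : Des_mis G f = 1 := by unfold Des_mis; rw [if_neg hcl]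
    have hKK : univ.image f ∉ KK G 𝒰 u w := by
      intro hcon
      have h1 := (mem_clq.1 (mem_filter.1 hcon).1).2
      refine hcl fun i j hij => h1 _ (mem_image_of_mem f (mem_univ i)) _
        (mem_image_of_mem f (mem_univ j)) fun h => hij (hinj h)
    rw [if_neg hKK, hm1, one_mul, sub_self, zero_sub]
    have h5 : 2 / (w.choose u : ℝ) * -∑ P ∈ powersetCard u (univ : Finset (Fin w)),
        ∑ P' ∈ powersetCard u (univ \ P), Des_bad G 𝒰 P f * Des_bad G 𝒰 P' f ≤ 0 := by
      have : 0 ≤ 2 / (w.choose u : ℝ) := by positivity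
      nlinarith
    linarith

/-- a missing pair outside `P` -/
private lemma Des_res {m : ℕ} {η : ℝ} {B : Fin w → Finset V} (hη : 0 ≤ η)
    (hm : ∀ k, (m : ℝ) / 2 ≤ (B k).card) (hm0 : (0 : ℝ) < m)
    (hrow : ∀ i j, i ≠ j → ∀ z ∈ B i, ((hs G (B j) z).card : ℝ) ≤ 2 * η * m)
    (𝒰 : Finset (Finset V)) (P : Finset (Fin w)) {i j : Fin w} (hij : i ≠ j) (hj : j ∉ P) :
    ∑ f ∈ Fintype.piFinset B, na G (f i) (f j) * Des_bad G 𝒰 P f ≤
      4 * η * ∑ f ∈ Fintype.piFinset B, Des_bad G 𝒰 P f := by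
  have hbj := hm j
  have hbj0 : (0 : ℝ) < (B j).card := by linarith
  have h1 := resample B j (fun f => na G (f i) (f j) * Des_bad G 𝒰 P f)
  have h2 : ∀ f ∈ Fintype.piFinset B,
      ∑ y ∈ B j, na G ((Function.update f j y) i) ((Function.update f j y) j) *
        Des_bad G 𝒰 P (Function.update f j y) ≤ 2 * η * m * Des_bad G 𝒰 P f := by
    intro f hf
    have e1 : ∀ y, Des_bad G 𝒰 P (Function.update f j y) = Des_bad G 𝒰 P f := by
      intro y
      refine Des_bad_congr 𝒰 P fun k hk => ?_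
      rw [Function.update_of_ne]
      rintro rfl
      exact hj hk
    simp only [e1, Function.update_self, Function.update_of_ne hij]
    rw [← sum_mul, sum_na]
    refine mul_le_mul_of_nonneg_right ?_ (Des_bad_nonneg _ _ _)
    exact hrow i j hij _ (Fintype.mem_piFinset.1 hf i)
  have h3 : ((B j).card : ℝ) * ∑ f ∈ Fintype.piFinset B, na G (f i) (f j) * Des_bad G 𝒰 P f ≤
      2 * η * m * ∑ f ∈ Fintype.piFinset B, Des_bad G 𝒰 P f := by
    rw [h1, mul_sum]
    exact sum_le_sum h2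
  have hS : 0 ≤ ∑ f ∈ Fintype.piFinset B, Des_bad G 𝒰 P f :=
    sum_nonneg fun _ _ => Des_bad_nonneg _ _ _
  have h4 : 2 * η * m * ∑ f ∈ Fintype.piFinset B, Des_bad G 𝒰 P f ≤
      ((B j).card : ℝ) * (4 * η * ∑ f ∈ Fintype.piFinset B, Des_bad G 𝒰 P f) := by
    have : 0 ≤ 4 * η * ∑ f ∈ Fintype.piFinset B, Des_bad G 𝒰 P f := by positivity
    have h5 := mul_le_mul_of_nonneg_right hbj this
    linarith
  exact le_of_mul_le_mul_left (h3.trans h4) hbj0

/-- a bad `P` and a missing pair -/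
private lemma Des_misbad {m : ℕ} {η : ℝ} {B : Fin w → Finset V} (hη : 0 ≤ η)
    (hm : ∀ k, (m : ℝ) / 2 ≤ (B k).card) (hm0 : (0 : ℝ) < m)
    (hdisj : ∀ i j, i ≠ j → Disjoint (B i) (B j))
    (hrow : ∀ i j, i ≠ j → ∀ z ∈ B i, ((hs G (B j) z).card : ℝ) ≤ 2 * η * m)
    (𝒰 : Finset (Finset V)) (P : Finset (Fin w)) :
    ∑ f ∈ Fintype.piFinset B, Des_mis G f * Des_bad G 𝒰 P f ≤
      4 * η * w ^ 2 * ∑ f ∈ Fintype.piFinset B, Des_bad G 𝒰 P f := by
  set S : ℝ := ∑ f ∈ Fintype.piFinset B, Des_bad G 𝒰 P f with hS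
  have hS0 : 0 ≤ S := sum_nonneg fun _ _ => Des_bad_nonneg _ _ _
  have hpt : ∀ f ∈ Fintype.piFinset B, Des_mis G f * Des_bad G 𝒰 P f ≤
      ∑ i : Fin w, ∑ j : Fin w, (if i ≠ j ∧ ¬ (i ∈ P ∧ j ∈ P) then
        na G (f i) (f j) * Des_bad G 𝒰 P f else 0) := by
    intro f hf
    have hinj := Des_inj hdisj hf
    have hnn : ∀ i j : Fin w, 0 ≤ (if i ≠ j ∧ ¬ (i ∈ P ∧ j ∈ P) then
        na G (f i) (f j) * Des_bad G 𝒰 P f else 0) := by
      intro i j
      split_ifs
      · exact mul_nonneg (na_nonneg _ _) (Des_bad_nonneg _ _ _)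
      · exact le_rfl
    by_cases hcl : ∀ i j, i ≠ j → G.Adj (f i) (f j)
    · have : Des_mis G f = 0 := by unfold Des_mis; rw [if_pos hcl]
      rw [this, zero_mul]
      exact sum_nonneg fun i _ => sum_nonneg fun j _ => hnn i j
    · have hm1 : Des_mis G f = 1 := by unfold Des_mis; rw [if_neg hcl]
      rw [hm1, one_mul]
      by_cases hb : IsCl G (P.image f) ∧ P.image f ∉ 𝒰
      · push Not at hcl
        obtain ⟨i, j, hij, hadj⟩ := hcl
        have hnot : ¬ (i ∈ P ∧ j ∈ P) := by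
          rintro ⟨hi, hj⟩
          exact hadj (hb.1 _ (mem_image_of_mem f hi) _ (mem_image_of_mem f hj)
            fun h => hij (hinj h))
        have h1 : na G (f i) (f j) = 1 := by unfold na; rw [if_neg hadj]
        calc Des_bad G 𝒰 P f = (if i ≠ j ∧ ¬ (i ∈ P ∧ j ∈ P) then
              na G (f i) (f j) * Des_bad G 𝒰 P f else 0) := by
              rw [if_pos ⟨hij, hnot⟩, h1, one_mul]
          _ ≤ ∑ j : Fin w, (if i ≠ j ∧ ¬ (i ∈ P ∧ j ∈ P) then
              na G (f i) (f j) * Des_bad G 𝒰 P f else 0) :=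
              single_le_sum (f := fun j => (if i ≠ j ∧ ¬ (i ∈ P ∧ j ∈ P) then
                na G (f i) (f j) * Des_bad G 𝒰 P f else 0)) (fun j _ => hnn i j) (mem_univ j)
          _ ≤ _ := single_le_sum (f := fun i => ∑ j : Fin w,
                (if i ≠ j ∧ ¬ (i ∈ P ∧ j ∈ P) then
                na G (f i) (f j) * Des_bad G 𝒰 P f else 0))
                (fun i _ => sum_nonneg fun j _ => hnn i j) (mem_univ i)
      · have : Des_bad G 𝒰 P f = 0 := by unfold Des_bad; rw [if_neg hb]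
        rw [this]
        simp
  have hpair : ∀ i j : Fin w, ∑ f ∈ Fintype.piFinset B,
      (if i ≠ j ∧ ¬ (i ∈ P ∧ j ∈ P) then na G (f i) (f j) * Des_bad G 𝒰 P f else 0) ≤
        4 * η * S := by
    intro i j
    by_cases h : i ≠ j ∧ ¬ (i ∈ P ∧ j ∈ P)
    · simp only [if_pos h]
      by_cases hj : j ∈ P
      · have hi : i ∉ P := fun hi => h.2 ⟨hi, hj⟩
        have := Des_res hη hm hm0 hrow 𝒰 P h.1.symm hi
        refine le_trans (le_of_eq ?_) this
        exact sum_congr rfl fun f _ => by rw [na_comm]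
      · exact Des_res hη hm hm0 hrow 𝒰 P h.1 hj
    · simp only [if_neg h, sum_const_zero]
      positivity
  calc ∑ f ∈ Fintype.piFinset B, Des_mis G f * Des_bad G 𝒰 P f
      ≤ ∑ f ∈ Fintype.piFinset B, ∑ i : Fin w, ∑ j : Fin w,
        (if i ≠ j ∧ ¬ (i ∈ P ∧ j ∈ P) then
        na G (f i) (f j) * Des_bad G 𝒰 P f else 0) := sum_le_sum hpt
    _ = ∑ i : Fin w, ∑ j : Fin w, ∑ f ∈ Fintype.piFinset B,
        (if i ≠ j ∧ ¬ (i ∈ P ∧ j ∈ P) then
        na G (f i) (f j) * Des_bad G 𝒰 P f else 0) := by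
        rw [sum_comm]
        exact sum_congr rfl fun i _ => sum_comm
    _ ≤ ∑ i : Fin w, ∑ j : Fin w, 4 * η * S :=
        sum_le_sum fun i _ => sum_le_sum fun j _ => hpair i j
    _ = 4 * η * w ^ 2 * S := by
        simp only [sum_const, card_univ, Fintype.card_fin, nsmul_eq_mul]
        ring

/-- the share of the bad `P` -/
private lemma Des_badshare {u m : ℕ} {C : ℝ} (hC : 0 < C) {B : Fin w → Finset V}
    (hm : ∀ k, (m : ℝ) / 2 ≤ (B k).card) (hm0 : (0 : ℝ) < m)
    (hdisj : ∀ i j, i ≠ j → Disjoint (B i) (B j))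
    (hind : ∀ i, ∀ a ∈ B i, ∀ b ∈ B i, ¬ G.Adj a b)
    (𝒰 : Finset (Finset V))
    (hbad : (((clq G (un B) u).filter fun U => U ∉ 𝒰).card : ℝ) * m ≤ C * (m : ℝ) ^ u)
    {P : Finset (Fin w)} (hP : P ∈ powersetCard u (univ : Finset (Fin w))) :
    ∑ f ∈ Fintype.piFinset B, Des_bad G 𝒰 P f ≤
      (∏ k, ((B k).card : ℝ)) * (2 ^ u * C / m) := by
  set W := (clq G (un B) u).filter fun U => U ∉ 𝒰 with hW
  have hne : ∀ k, (B k).Nonempty := by
    intro k
    have := hm k
    have h1 : (0 : ℝ) < (B k).card := by linarith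
    exact card_pos.1 (by exact_mod_cast h1)
  have hpos : ∀ k, (0 : ℝ) < (B k).card := by
    intro k
    have := hm k
    linarith
  have hcf := card_fam hdisj hind hne W (s := u) (G := G) (by
    intro X hX
    obtain ⟨⟨h1, h2⟩, h3⟩ := mem_clq.1 (mem_filter.1 hX).1
    exact ⟨h1, h2, h3⟩)
  have hle : (((Fintype.piFinset B).filter fun f => P.image f ∈ W).card : ℝ) /
      ∏ k ∈ univ \ P, ((B k).card : ℝ) ≤ W.card := by
    rw [hcf]
    exact single_le_sum (f := fun P : Finset (Fin w) =>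
      (((Fintype.piFinset B).filter fun f => P.image f ∈ W).card : ℝ) /
      ∏ k ∈ univ \ P, ((B k).card : ℝ)) (fun P _ => by positivity) hP
  have hsum : ∑ f ∈ Fintype.piFinset B, Des_bad G 𝒰 P f ≤
      (((Fintype.piFinset B).filter fun f => P.image f ∈ W).card : ℝ) := by
    rw [card_filter]
    push_cast
    refine sum_le_sum fun f hf => ?_
    unfold Des_bad
    by_cases hb : IsCl G (P.image f) ∧ P.image f ∉ 𝒰
    · rw [if_pos hb, if_pos]
      rw [hW, mem_filter, mem_clq]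
      refine ⟨⟨⟨?_, ?_⟩, hb.1⟩, hb.2⟩
      · intro a ha
        obtain ⟨k, _, rfl⟩ := mem_image.1 ha
        exact mem_un.2 ⟨k, Fintype.mem_piFinset.1 hf k⟩
      · rw [card_image_of_injective _ (Des_inj hdisj hf), (mem_powersetCard.1 hP).2]
    · rw [if_neg hb]
      split_ifs <;> norm_num
  have hQpos : 0 < ∏ k ∈ univ \ P, ((B k).card : ℝ) := prod_pos fun k _ => hpos k
  have hsplit : (∏ k ∈ univ \ P, ((B k).card : ℝ)) * ∏ k ∈ P, ((B k).card : ℝ) =
      ∏ k, ((B k).card : ℝ) := prod_sdiff (subset_univ P)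
  have hPge : ((m : ℝ) / 2) ^ u ≤ ∏ k ∈ P, ((B k).card : ℝ) := by
    rw [← (mem_powersetCard.1 hP).2, ← prod_const]
    exact prod_le_prod (fun _ _ => by positivity) fun k _ => hm k
  rw [div_le_iff₀ hQpos] at hle
  have hWc : (W.card : ℝ) ≤ C * (m : ℝ) ^ u / m := by
    rw [le_div_iff₀ hm0]
    exact hbad
  calc ∑ f ∈ Fintype.piFinset B, Des_bad G 𝒰 P f
      ≤ (W.card : ℝ) * ∏ k ∈ univ \ P, ((B k).card : ℝ) := hsum.trans hle
    _ ≤ (C * (m : ℝ) ^ u / m) * ∏ k ∈ univ \ P, ((B k).card : ℝ) :=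
        mul_le_mul_of_nonneg_right hWc hQpos.le
    _ = (∏ k ∈ univ \ P, ((B k).card : ℝ)) * ((m : ℝ) / 2) ^ u * (2 ^ u * C / m) := by
        rw [div_pow]
        field_simp
    _ ≤ (∏ k ∈ univ \ P, ((B k).card : ℝ)) * (∏ k ∈ P, ((B k).card : ℝ)) *
        (2 ^ u * C / m) := by
        refine mul_le_mul_of_nonneg_right ?_ (by positivity)
        exact mul_le_mul_of_nonneg_left hPge hQpos.le
    _ = _ := by rw [hsplit]

/-- two disjoint bad sets -/
private lemma Des_badbad {u m : ℕ} {C : ℝ} (hC : 0 < C) {B : Fin w → Finset V}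
    (hm : ∀ k, (m : ℝ) / 2 ≤ (B k).card) (hm0 : (0 : ℝ) < m)
    (hdisj : ∀ i j, i ≠ j → Disjoint (B i) (B j))
    (hind : ∀ i, ∀ a ∈ B i, ∀ b ∈ B i, ¬ G.Adj a b)
    (𝒰 : Finset (Finset V))
    (hbad : (((clq G (un B) u).filter fun U => U ∉ 𝒰).card : ℝ) * m ≤ C * (m : ℝ) ^ u)
    {P P' : Finset (Fin w)} (hP' : P' ∈ powersetCard u (univ : Finset (Fin w)))
    (hPP : Disjoint P P') :
    ∑ f ∈ Fintype.piFinset B, Des_bad G 𝒰 P f * Des_bad G 𝒰 P' f ≤
      (2 ^ u * C / m) * ∑ f ∈ Fintype.piFinset B, Des_bad G 𝒰 P f := by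
  have hpos : ∀ k, (0 : ℝ) < (B k).card := by
    intro k
    have := hm k
    linarith
  have hQ : 0 < ∏ k, ((B k).card : ℝ) := prod_pos fun k _ => hpos k
  have h1 := Des_indep B P P' hPP (fun f => Des_bad G 𝒰 P f) (fun f => Des_bad G 𝒰 P' f)
    (fun f g h => Des_bad_congr 𝒰 P h) (fun f g h => Des_bad_congr 𝒰 P' h)
  have h2 := Des_badshare hC hm hm0 hdisj hind 𝒰 hbad hP'
  have hS : 0 ≤ ∑ f ∈ Fintype.piFinset B, Des_bad G 𝒰 P f :=
    sum_nonneg fun _ _ => Des_bad_nonneg _ _ _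
  have h3 := mul_le_mul_of_nonneg_left h2 hS
  rw [← h1] at h3
  refine le_of_mul_le_mul_left (h3.trans (le_of_eq ?_)) hQ
  ring

/-- products of sizes -/
private lemma Des_prod {m : ℕ} {C : ℝ} (hC : 0 < C) (hm0 : (0 : ℝ) < m) (hCm : C ≤ m)
    {b : Fin w → ℝ} (hb : ∀ k, |b k - m| ≤ C) (S : Finset (Fin w)) :
    (1 - w * C / m) * (m : ℝ) ^ S.card ≤ ∏ k ∈ S, b k ∧
      ∏ k ∈ S, b k ≤ (1 + 2 ^ w * C / m) * (m : ℝ) ^ S.card := by
  have hlo : ∀ k, (m : ℝ) - C ≤ b k := fun k => by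
    have := (abs_le.1 (hb k)).1
    linarith
  have hhi : ∀ k, b k ≤ (m : ℝ) + C := fun k => by
    have := (abs_le.1 (hb k)).2
    linarith
  have hS : S.card ≤ w := by
    have := card_le_univ S
    rwa [Fintype.card_fin] at this
  set x : ℝ := C / m with hx
  have hx0 : 0 < x := by positivity
  have hx1 : x ≤ 1 := by rw [hx, div_le_one hm0]; exact hCm
  constructor
  · have h1 : ((m : ℝ) - C) ^ S.card ≤ ∏ k ∈ S, b k := by
      rw [← prod_const]
      exact prod_le_prod (fun _ _ => by linarith) fun k _ => hlo k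
    have h2 : (m : ℝ) - C = (1 + -x) * m := by
      rw [hx]; field_simp; ring
    have h3 := one_add_mul_le_pow (show (-2 : ℝ) ≤ -x by linarith) S.card
    have h4 : (1 - w * C / m) ≤ (1 + -x) ^ S.card := by
      refine le_trans ?_ h3
      have h5 : (S.card : ℝ) * x ≤ w * x :=
        mul_le_mul_of_nonneg_right (by exact_mod_cast hS) hx0.le
      have h6 : (w : ℝ) * C / m = w * x := by rw [hx]; ring
      rw [h6]
      linarith
    calc (1 - w * C / m) * (m : ℝ) ^ S.card ≤ (1 + -x) ^ S.card * (m : ℝ) ^ S.card :=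
          mul_le_mul_of_nonneg_right h4 (by positivity)
      _ = ((m : ℝ) - C) ^ S.card := by rw [h2, mul_pow]
      _ ≤ _ := h1
  · have h1 : ∏ k ∈ S, b k ≤ ((m : ℝ) + C) ^ S.card := by
      rw [← prod_const]
      exact prod_le_prod (fun k _ => by have := hlo k; linarith) fun k _ => hhi k
    have h2 : (m : ℝ) + C = (1 + x) * m := by
      rw [hx]; field_simp
    have h3 : ∀ n : ℕ, (1 + x) ^ n ≤ 1 + (2 ^ n - 1) * x := by
      intro n
      induction n with
      | zero => simp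
      | succ n ih =>
        have h4 : (1 : ℝ) ≤ 2 ^ n := one_le_pow₀ (by norm_num)
        calc (1 + x) ^ (n + 1) = (1 + x) ^ n * (1 + x) := pow_succ _ _
          _ ≤ (1 + (2 ^ n - 1) * x) * (1 + x) := mul_le_mul_of_nonneg_right ih (by positivity)
          _ ≤ 1 + (2 ^ (n + 1) - 1) * x := by
              rw [pow_succ]
              have : (2 ^ n - 1) * x * x ≤ (2 ^ n - 1) * x := by
                have h5 : 0 ≤ (2 ^ n - 1) * x := mul_nonneg (by linarith) hx0.le
                nlinarith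
              nlinarith
    have h4 : (1 + x) ^ S.card ≤ 1 + 2 ^ w * C / m := by
      have h5 : (1 + x) ^ S.card ≤ (1 + x) ^ w := pow_le_pow_right₀ (by linarith) hS
      have h6 := h3 w
      have h7 : (2 : ℝ) ^ w * C / m = 2 ^ w * x := by rw [hx]; ring
      rw [h7]
      nlinarith
    calc ∏ k ∈ S, b k ≤ ((m : ℝ) + C) ^ S.card := h1
      _ = (1 + x) ^ S.card * (m : ℝ) ^ S.card := by rw [h2, mul_pow]
      _ ≤ _ := mul_le_mul_of_nonneg_right h4 (by positivity)

/-- the mean number of missing pairs -/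
private lemma Des_DD {m : ℕ} {C η : ℝ} (hC : 0 < C) (hm0 : (0 : ℝ) < m) (hCm : C < m)
    {B : Fin w → Finset V} (h : BS G m C η B) :
    (1 - w * C / m) * ((m : ℝ) ^ (w - 2) * ee G B univ) ≤
      ∑ f ∈ Fintype.piFinset B, DD G f / 2 ∧
    ∑ f ∈ Fintype.piFinset B, DD G f / 2 ≤
      (1 + 2 ^ w * C / m) * ((m : ℝ) ^ (w - 2) * ee G B univ) := by
  have hpos : ∀ k, (0 : ℝ) < (B k).card := by
    intro k
    have := (abs_le.1 (h.size k)).1
    linarith
  have hA : ∀ i, ∀ j ∈ univ.erase i, (∏ l, ((B l).card : ℝ)) / (((B i).card : ℝ) * (B j).card) =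
      ∏ l ∈ univ \ {i, j}, ((B l).card : ℝ) := by
    intro i j hj
    have hij : i ≠ j := (mem_erase.1 hj).1.symm
    have := hpos i
    have := hpos j
    rw [div_eq_iff (by positivity), ← prod_pair (f := fun l => ((B l).card : ℝ)) hij,
      prod_sdiff (subset_univ _)]
  have hc : ∀ i, ∀ j ∈ univ.erase i, (univ \ ({i, j} : Finset (Fin w))).card = w - 2 := by
    intro i j hj
    have hij : i ≠ j := (mem_erase.1 hj).1.symm
    rw [card_sdiff_of_subset (subset_univ _), card_univ, Fintype.card_fin, card_pair hij]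
  have h1 := Des_sumDD (G := G) hpos
  have hE : ∀ i j, 0 ≤ ∑ z ∈ B i, ((hs G (B j) z).card : ℝ) := fun i j =>
    sum_nonneg fun _ _ => Nat.cast_nonneg _
  rw [← sum_div, h1]
  unfold ee
  constructor
  · have : ∑ i, ∑ j ∈ univ.erase i, (1 - w * C / m) * (m : ℝ) ^ (w - 2) *
        ∑ z ∈ B i, ((hs G (B j) z).card : ℝ) ≤
        ∑ i, ∑ j ∈ univ.erase i, (∏ l, ((B l).card : ℝ)) / (((B i).card : ℝ) * (B j).card) *
        ∑ z ∈ B i, ((hs G (B j) z).card : ℝ) := by
      refine sum_le_sum fun i _ => sum_le_sum fun j hj => ?_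
      refine mul_le_mul_of_nonneg_right ?_ (hE i j)
      rw [hA i j hj, ← hc i j hj]
      exact (Des_prod hC hm0 hCm.le h.size _).1
    simp only [← mul_sum] at this
    linarith
  · have : ∑ i, ∑ j ∈ univ.erase i, (∏ l, ((B l).card : ℝ)) /
        (((B i).card : ℝ) * (B j).card) * ∑ z ∈ B i, ((hs G (B j) z).card : ℝ) ≤
        ∑ i, ∑ j ∈ univ.erase i, (1 + 2 ^ w * C / m) * (m : ℝ) ^ (w - 2) *
        ∑ z ∈ B i, ((hs G (B j) z).card : ℝ) := by
      refine sum_le_sum fun i _ => sum_le_sum fun j hj => ?_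
      refine mul_le_mul_of_nonneg_right ?_ (hE i j)
      rw [hA i j hj, ← hc i j hj]
      exact (Des_prod hC hm0 hCm.le h.size _).2
    simp only [← mul_sum] at this
    linarith

/-- the number of tuples with a missing pair -/
private lemma Des_mis_ge {m : ℕ} {C η : ℝ} (hC : 0 < C) (hη : 0 ≤ η) (hm : 0 < m)
    (hCm : 2 * C ≤ m) {B : Fin w → Finset V} (h : BS G m C η B) :
    (1 - 2 * w ^ 2 * η) * ∑ f ∈ Fintype.piFinset B, DD G f / 2 ≤
      ∑ f ∈ Fintype.piFinset B, Des_mis G f := by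
  have hm0 : (0 : ℝ) < m := by exact_mod_cast hm
  have hLS : LS G (un B) w m C η (1 / 2) B :=
    { sub := fun i => subset_un B i
      disj := h.disj
      ind := h.ind
      hX := by rw [sdiff_self]; simpa using hC.le
      size_lo := fun i => by
        have := (abs_le.1 (h.size i)).1
        linarith
      size_hi := fun i => by
        have := (abs_le.1 (h.size i)).2
        linarith
      row := h.row
      tot := h.tot
      heavy := fun z hz => by
        rw [sdiff_self] at hz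
        exact absurd hz (notMem_empty _) }
  have h1 := card_tcl_le hLS hη (by norm_num) hm
  have h2 : ∑ f ∈ Fintype.piFinset B, Des_mis G f =
      (∏ l, ((B l).card : ℝ)) - ((tcl G B).card : ℝ) := by
    have hcard : (∏ k, ((B k).card : ℝ)) = ((Fintype.piFinset B).card : ℝ) := by
      rw [Fintype.card_piFinset]; push_cast; rfl
    have hcard2 : ((tcl G B).card : ℝ) = ∑ f ∈ Fintype.piFinset B,
        (if (∀ i j, i ≠ j → G.Adj (f i) (f j)) then (1 : ℝ) else 0) := by
      unfold tcl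
      rw [Finset.card_filter]
      push_cast
      rfl
    rw [hcard, hcard2, card_eq_sum_ones]
    push_cast
    rw [← sum_sub_distrib]
    refine sum_congr rfl fun f _ => ?_
    unfold Des_mis
    split_ifs <;> norm_num
  rw [h2, ← sum_div]
  linarith

private lemma Des_key {a y : ℝ} (ha : 0 ≤ a) (hy0 : 0 ≤ y) (hy : 2 * y ≤ 1) :
    1 + a ≤ (1 + (2 * a + 2 * y)) * (1 - y) := by
  have h1 : 0 ≤ (a + y) * (1 - 2 * y) := mul_nonneg (add_nonneg ha hy0) (by linarith)
  have h2 : (1 + (2 * a + 2 * y)) * (1 - y) = 1 + a + (a + y) * (1 - 2 * y) := by ring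
  linarith

/-- the assembly -/
private lemma Des_asm {SD SQ SM NK X N a t κ c3 c5 : ℝ} (hN : 0 < N) (hSD : 0 ≤ SD)
    (hSQ : 0 ≤ SQ) (hX : 0 ≤ X) (hκ0 : 0 ≤ κ) (hκ1 : κ ≤ 1) (ha0 : 0 ≤ a) (hc30 : 0 ≤ c3)
    (ha : 8 * a ≤ 1 / 4) (ht : 2 * t ≤ 1 / 4) (hc3 : c3 ≤ 1 / 4) (hc5 : 0 ≤ c5)
    (h1 : (1 - 2 * a) * SD ≤ SM)
    (h4 : SM + 2 / N * (SQ - 4 * a * SQ - t * SQ) ≤ NK)
    (h6 : (1 - c5) * X ≤ SD) (h7 : SD ≤ 2 * X) :
    (1 - κ - 4 * a - (c5 + 2 * c3)) * X ≤ NK - 1 / N * (1 + c3) * (N * κ * SD + SQ) := by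
  have hA : (1 - 2 * a) * SD - (1 + c3) * (κ * SD) ≤
      NK - 1 / N * (1 + c3) * (N * κ * SD + SQ) := by
    have e1 : 1 / N * (1 + c3) * (N * κ * SD + SQ) =
        (1 + c3) * (κ * SD) + 1 / N * ((1 + c3) * SQ) := by
      field_simp
    have e2 : 0 ≤ 1 / N * (2 * (SQ - 4 * a * SQ - t * SQ) - (1 + c3) * SQ) := by
      refine mul_nonneg (by positivity) ?_
      have e6 : 2 * (SQ - 4 * a * SQ - t * SQ) - (1 + c3) * SQ =
          SQ * (1 - 8 * a - 2 * t - c3) := by ring
      rw [e6]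
      exact mul_nonneg hSQ (by linarith)
    have e7 : 2 / N * (SQ - 4 * a * SQ - t * SQ) - 1 / N * ((1 + c3) * SQ) =
        1 / N * (2 * (SQ - 4 * a * SQ - t * SQ) - (1 + c3) * SQ) := by ring
    rw [e1]
    linarith
  refine le_trans ?_ hA
  have e1 : (1 - 2 * a) * SD - (1 + c3) * (κ * SD) =
      (1 - κ) * SD - (2 * a + κ * c3) * SD := by ring
  have e2 : (1 - κ) * ((1 - c5) * X) ≤ (1 - κ) * SD :=
    mul_le_mul_of_nonneg_left h6 (by linarith)
  have e3 : (2 * a + κ * c3) * SD ≤ (2 * a + c3) * (2 * X) := by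
    refine mul_le_mul ?_ h7 hSD (by positivity)
    have : κ * c3 ≤ 1 * c3 := mul_le_mul_of_nonneg_right hκ1 hc30
    linarith
  have e4 : (1 - κ) * ((1 - c5) * X) = (1 - κ) * X - (1 - κ) * (c5 * X) := by ring
  have e5 : (1 - κ) * (c5 * X) ≤ 1 * (c5 * X) :=
    mul_le_mul_of_nonneg_right (by linarith) (mul_nonneg hc5 hX)
  have e6 : (1 - κ - 4 * a - (c5 + 2 * c3)) * X =
      (1 - κ) * X - c5 * X - (2 * a + c3) * (2 * X) := by ring
  rw [e1, e6]
  linarith

/-- complements -/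
private lemma Des_compl {u R : ℕ} (hw : w = R + u) (b : Fin w → ℝ) :
    ∑ T ∈ powersetCard R (univ : Finset (Fin w)), ∏ k ∈ T, (b k)⁻¹ =
      ∑ P ∈ powersetCard u (univ : Finset (Fin w)), (∏ k ∈ univ \ P, b k)⁻¹ := by
  refine sum_bij' (fun T _ => univ \ T) (fun P _ => univ \ P) ?_ ?_ ?_ ?_ ?_
  · intro T hT
    rw [mem_powersetCard] at hT ⊢
    refine ⟨subset_univ _, ?_⟩
    rw [card_sdiff_of_subset (subset_univ _), card_univ, Fintype.card_fin, hT.2]
    omega
  · intro P hP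
    rw [mem_powersetCard] at hP ⊢
    refine ⟨subset_univ _, ?_⟩
    rw [card_sdiff_of_subset (subset_univ _), card_univ, Fintype.card_fin, hP.2]
    omega
  · intro T _
    exact Finset.sdiff_sdiff_eq_self (subset_univ _)
  · intro P _
    exact Finset.sdiff_sdiff_eq_self (subset_univ _)
  · intro T _
    rw [Finset.sdiff_sdiff_eq_self (subset_univ _), prod_inv_distrib]

/-- the lower bound of `ρ |UC|` -/
private lemma Des_UC {u R : ℕ} (hw : w = R + u) (hu : 1 ≤ u) (hw2 : 2 ≤ w)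
    {B : Fin w → Finset V} (hdisj : ∀ i j, i ≠ j → Disjoint (B i) (B j))
    (hind : ∀ i, ∀ a ∈ B i, ∀ b ∈ B i, ¬ G.Adj a b) (hpos : ∀ k, (0 : ℝ) < (B k).card)
    {𝒰 : Finset (Finset V)} (hsub : 𝒰 ⊆ clq G univ u) {ρ c : ℝ} (hc : 0 ≤ c)
    (hρc : ∀ P ∈ powersetCard u (univ : Finset (Fin w)),
      ρ / ∏ k ∈ univ \ P, ((B k).card : ℝ) ≤ c) :
    (∏ k, ((B k).card : ℝ)) * (ρ * ∑ T ∈ powersetCard R (univ : Finset (Fin w)),
        ∏ k ∈ T, (((B k).card : ℝ))⁻¹) -
      c * ((w.choose u : ℝ) * (u * (u - 1) / (w * (w - 1))) *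
          ∑ f ∈ Fintype.piFinset B, DD G f / 2 +
        ∑ f ∈ Fintype.piFinset B, ∑ P ∈ powersetCard u (univ : Finset (Fin w)),
          Des_bad G 𝒰 P f) ≤
      ρ * ((UC 𝒰 B).card : ℝ) := by
  have hne : ∀ k, (B k).Nonempty := by
    intro k
    have h1 := hpos k
    exact card_pos.1 (by exact_mod_cast h1)
  have hcard : (∏ k, ((B k).card : ℝ)) = ((Fintype.piFinset B).card : ℝ) := by
    rw [Fintype.card_piFinset]; push_cast; rfl
  set Q : ℝ := ∏ k, ((B k).card : ℝ) with hQ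
  rw [UC_card hdisj hind hne hsub, Des_compl hw]
  set n : Finset (Fin w) → ℝ := fun P => ∑ f ∈ Fintype.piFinset B,
    (if P.image f ∈ 𝒰 then (0 : ℝ) else 1) with hn
  have h1 : ∀ P : Finset (Fin w),
      (((Fintype.piFinset B).filter fun f => P.image f ∈ 𝒰).card : ℝ) = Q - n P := by
    intro P
    rw [hn, hcard, card_filter, card_eq_sum_ones]
    push_cast
    rw [← sum_sub_distrib]
    refine sum_congr rfl fun f _ => ?_
    split_ifs <;> norm_num
  have h2 : ∑ P ∈ powersetCard u (univ : Finset (Fin w)), n P ≤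
      (w.choose u : ℝ) * (u * (u - 1) / (w * (w - 1))) *
          ∑ f ∈ Fintype.piFinset B, DD G f / 2 +
        ∑ f ∈ Fintype.piFinset B, ∑ P ∈ powersetCard u (univ : Finset (Fin w)),
          Des_bad G 𝒰 P f := by
    rw [hn, sum_comm, mul_sum, ← sum_add_distrib]
    refine sum_le_sum fun f _ => ?_
    refine le_trans ?_ (add_le_add (Des_q hu hw2 f) le_rfl)
    rw [← sum_add_distrib]
    refine sum_le_sum fun P _ => ?_
    unfold Des_bad
    by_cases h3 : P.image f ∈ 𝒰
    · rw [if_pos h3]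
      split_ifs <;> norm_num
    · rw [if_neg h3]
      by_cases h4 : IsCl G (P.image f)
      · rw [if_neg (not_not.2 h4), if_pos ⟨h4, h3⟩]
        norm_num
      · rw [if_pos h4]
        split_ifs <;> norm_num
  have hn0 : ∀ P, 0 ≤ n P := fun P => sum_nonneg fun f _ => by split_ifs <;> norm_num
  have h3 : ∑ P ∈ powersetCard u (univ : Finset (Fin w)),
      ρ / (∏ k ∈ univ \ P, ((B k).card : ℝ)) * n P ≤
      c * ∑ P ∈ powersetCard u (univ : Finset (Fin w)), n P := by
    rw [mul_sum]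
    exact sum_le_sum fun P hP => mul_le_mul_of_nonneg_right (hρc P hP) (hn0 P)
  have h4 : ρ * ∑ P ∈ powersetCard u (univ : Finset (Fin w)),
      (((Fintype.piFinset B).filter fun f => P.image f ∈ 𝒰).card : ℝ) /
        ∏ k ∈ univ \ P, ((B k).card : ℝ) =
      Q * (ρ * ∑ P ∈ powersetCard u (univ : Finset (Fin w)),
        (∏ k ∈ univ \ P, ((B k).card : ℝ))⁻¹) -
      ∑ P ∈ powersetCard u (univ : Finset (Fin w)),
        ρ / (∏ k ∈ univ \ P, ((B k).card : ℝ)) * n P := by
    rw [mul_sum, mul_sum, mul_sum, ← sum_sub_distrib]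
    refine sum_congr rfl fun P _ => ?_
    rw [h1]
    ring
  rw [h4]
  have h5 := mul_le_mul_of_nonneg_left h2 hc
  linarith

end tools

/-- Proof: `K0_card`, `UC_card`.  With `Ω = piFinset B`:
`|K0| - ρ|UC| = ∑_{f ∈ Ω} (1[f ∈ KK] - ρ ∑_P 1[f(P) ∈ 𝒰] / ∏_{P^c} b)`
`= |Ω| (1 - ρ ∑_T ∏_T b⁻¹) - #{f : f ∉ KK} + ρ ∑_P #{f : f(P) ∉ 𝒰} / ∏_{P^c} b`.
`D f := DD G f / 2` (`H57LC.DD`); `∑_f D f ≥ (1 - C/m) m^(w-2) ee` and `≤ (1 + C/m) ..`
(`H57LC.pair_sum`).  `f(P)` not a clique for at most `C(w-2,u-2) D f` sets `P`, and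
`C(w-2,u-2)/C(w,u) = u(u-1)/(w(w-1))`.  `Q' f := #{P : f(P) clique, ∉ 𝒰}`, `Q2 f := #` of ordered
pairs of disjoint such `P`: `∑_f Q2 ≤ (C/m) ∑_f Q'` by `bad` (independence).  Pointwise
`1[f ∉ KK] ≥ 1[D ≥ 1] + 1[D = 0] (2/C(w,u)) (Q' - Q2)` because `C(w,u) - C(w-u,u) ≤ C(w,u)/2`
(`Par.half`).  `#{D ≥ 1} = ∏ b - |tcl B| ≥ (1/2)(1 - 2 w² η) ∑ DD` (`H57LC.card_tcl_le` with
`R := w`, `S := un B`), `∑_f 1[D ≥ 1] Q' ≤ (Cw η + C/m) ∑_f Q'` by `row`, `tot`.
`R/(R+u) + ck u R = 1 - u(u-1)/(w(w-1))`. -/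
theorem des (u R r : ℕ) (hp : Par u R) (hr : r < R) :
    ∃ η₁ Cw : ℝ, 0 < η₁ ∧ 0 < Cw ∧ ∀ η : ℝ, 0 < η → η ≤ η₁ → ∀ C : ℝ, 0 < C →
      ∃ C' : ℝ, 0 < C' ∧ ∃ m₀ : ℕ, ∀ m : ℕ, m₀ ≤ m →
      ∀ (V : Type) [Fintype V] [DecidableEq V] (G : SimpleGraph V) [DecidableRel G.Adj]
        (𝒰 : Finset (Finset V)) (w : ℕ) (B : Fin w → Finset V) (ty : V → Fin w),
        Stp G 𝒰 B ty u R r m C η →
        ((K0 G 𝒰 B u).card : ℝ) - (rinv w R r m)⁻¹ * ((UC 𝒰 B).card : ℝ) ≤
          (∏ k, ((B k).card : ℝ)) * (1 - (rinv w R r m)⁻¹ *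
            ∑ T ∈ powersetCard R (univ : Finset (Fin w)), ∏ k ∈ T, (((B k).card : ℝ))⁻¹) -
          ((R : ℝ) / (R + u) + ck u R - Cw * η - C' / m) * (ee G B univ / m) *
            (m : ℝ) ^ (w - 1) := by
  have hu := hp.hu
  have hR := hp.hR
  obtain ⟨C₁, hC₁, hrho⟩ := rho_le u R r (by omega)
  have hRr : (10 : ℝ) ≤ R := by exact_mod_cast hR
  have hur : (1 : ℝ) ≤ u := by exact_mod_cast hu
  set W : ℝ := (R : ℝ) + u with hW
  have hW0 : 0 < W := by linarith
  set N : ℝ := ((R + u).choose u : ℝ) with hN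
  have hN1 : 1 ≤ N := by
    rw [hN]
    have : 0 < (R + u).choose u := Nat.choose_pos (by omega)
    exact_mod_cast this
  refine ⟨1 / (32 * W ^ 2), 4 * W ^ 2, by positivity, by positivity, ?_⟩
  intro η hη hη₁ C hC
  set C₃ : ℝ := 2 * C₁ + 2 * R * C with hC₃
  have hC₃0 : 0 < C₃ := by positivity
  set C₅ : ℝ := 2 ^ (R + u) * C + W * C with hC₅
  have hC₅0 : 0 < C₅ := by positivity
  refine ⟨C₅ + 2 * C₃, by positivity, ?_⟩
  obtain ⟨m₀, hm₀⟩ := exists_nat_ge (2 * C + 4 * C₃ + C₅ + 8 * (N * (2 ^ u * C)) +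
    2 * R * C + 1)
  refine ⟨m₀, ?_⟩
  intro m hm V _ _ G _ 𝒰 w B ty h
  obtain rfl := h.hw
  have hmr : 2 * C + 4 * C₃ + C₅ + 8 * (N * (2 ^ u * C)) + 2 * R * C + 1 ≤ (m : ℝ) :=
    hm₀.trans (by exact_mod_cast hm)
  have hT : 0 < N * (2 ^ u * C) := by positivity
  have hRC : 0 < R * C := by positivity
  have hm0 : (0 : ℝ) < m := by linarith
  have hmn : 0 < m := by exact_mod_cast hm0
  have hWc : ((R + u : ℕ) : ℝ) = W := by push_cast; rw [hW]
  have hpos : ∀ k, (0 : ℝ) < (B k).card := by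
    intro k
    have := (abs_le.1 (h.bs.size k)).1
    linarith
  have hhalf : ∀ k, (m : ℝ) / 2 ≤ (B k).card := by
    intro k
    have := (abs_le.1 (h.bs.size k)).1
    linarith
  have hw2 : 2 ≤ R + u := by omega
  -- the sums
  set SD : ℝ := ∑ f ∈ Fintype.piFinset B, DD G f / 2 with hSD
  set SQ : ℝ := ∑ f ∈ Fintype.piFinset B, ∑ P ∈ powersetCard u (univ : Finset (Fin (R + u))),
    Des_bad G 𝒰 P f with hSQ
  set SM : ℝ := ∑ f ∈ Fintype.piFinset B, Des_mis G f with hSM
  set κ : ℝ := (u : ℝ) * (u - 1) / (W * (W - 1)) with hκ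
  set X : ℝ := (m : ℝ) ^ (R + u - 2) * ee G B univ with hX
  have hX0 : 0 ≤ X := mul_nonneg (by positivity) (ee_le h).2
  have hSD0 : 0 ≤ SD := sum_nonneg fun f _ => by
    have := DD_nonneg (G := G) f
    linarith
  have hSQ0 : 0 ≤ SQ := sum_nonneg fun f _ => sum_nonneg fun P _ => Des_bad_nonneg _ _ _
  have hκ0 : 0 ≤ κ := by
    rw [hκ]
    refine div_nonneg (mul_nonneg (by linarith) (by linarith)) (mul_nonneg hW0.le ?_)
    rw [hW]; linarith
  have hκ1 : κ ≤ 1 := by
    rw [hκ]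
    refine div_le_one_of_le₀ ?_ (mul_nonneg hW0.le ?_)
    · rw [hW]; nlinarith
    · rw [hW]; linarith
  -- destroyed tuples
  have h1 : (1 - 2 * W ^ 2 * η) * SD ≤ SM := by
    have := Des_mis_ge hC hη.le hmn (by linarith) h.bs
    rw [hWc] at this
    exact this
  have h2 : ∑ f ∈ Fintype.piFinset B, Des_mis G f *
      ∑ P ∈ powersetCard u (univ : Finset (Fin (R + u))), Des_bad G 𝒰 P f ≤
      4 * η * W ^ 2 * SQ := by
    rw [hSQ]
    simp only [mul_sum]
    rw [sum_comm, sum_comm (s := Fintype.piFinset B)]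
    refine sum_le_sum fun P _ => ?_
    have := Des_misbad hη.le hhalf hm0 h.bs.disj h.bs.row 𝒰 P
    rw [hWc, mul_sum] at this
    exact this
  have h3 : ∑ f ∈ Fintype.piFinset B,
      ∑ P ∈ powersetCard u (univ : Finset (Fin (R + u))),
        ∑ P' ∈ powersetCard u (univ \ P), Des_bad G 𝒰 P f * Des_bad G 𝒰 P' f ≤
      N * (2 ^ u * C / m) * SQ := by
    rw [hSQ, sum_comm, sum_comm (s := Fintype.piFinset B), mul_sum]
    refine sum_le_sum fun P _ => ?_
    rw [sum_comm]
    have hS : 0 ≤ ∑ f ∈ Fintype.piFinset B, Des_bad G 𝒰 P f :=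
      sum_nonneg fun _ _ => Des_bad_nonneg _ _ _
    calc ∑ P' ∈ powersetCard u (univ \ P), ∑ f ∈ Fintype.piFinset B,
          Des_bad G 𝒰 P f * Des_bad G 𝒰 P' f
        ≤ ∑ P' ∈ powersetCard u (univ \ P), (2 ^ u * C / m) *
          ∑ f ∈ Fintype.piFinset B, Des_bad G 𝒰 P f := by
          refine sum_le_sum fun P' hP' => ?_
          refine Des_badbad hC hhalf hm0 h.bs.disj h.bs.ind 𝒰 h.bad
            (powersetCard_mono (subset_univ _) hP') ?_
          rw [disjoint_left]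
          intro k hk hk'
          exact (mem_sdiff.1 ((mem_powersetCard.1 hP').1 hk')).2 hk
      _ = ((powersetCard u (univ \ P)).card : ℝ) * ((2 ^ u * C / m) *
          ∑ f ∈ Fintype.piFinset B, Des_bad G 𝒰 P f) := by
          rw [sum_const, nsmul_eq_mul]
      _ ≤ N * ((2 ^ u * C / m) * ∑ f ∈ Fintype.piFinset B, Des_bad G 𝒰 P f) := by
          refine mul_le_mul_of_nonneg_right ?_ (by positivity)
          have hle : (powersetCard u (univ \ P)).card ≤ (R + u).choose u := by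
            refine (card_le_card (powersetCard_mono (subset_univ _))).trans ?_
            rw [card_powersetCard, card_univ, Fintype.card_fin]
          rw [hN]
          exact_mod_cast hle
      _ = N * (2 ^ u * C / m) * ∑ f ∈ Fintype.piFinset B, Des_bad G 𝒰 P f := by ring
  -- the cliques inside
  set NK : ℝ := ∑ f ∈ Fintype.piFinset B,
    (if univ.image f ∈ KK G 𝒰 u (R + u) then (0 : ℝ) else 1) with hNK
  have h4 : SM + 2 / N * (SQ - 4 * η * W ^ 2 * SQ - N * (2 ^ u * C / m) * SQ) ≤ NK := by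
    have h5 : SM + 2 / N * (SQ - ∑ f ∈ Fintype.piFinset B, Des_mis G f *
        ∑ P ∈ powersetCard u (univ : Finset (Fin (R + u))), Des_bad G 𝒰 P f -
        ∑ f ∈ Fintype.piFinset B,
        ∑ P ∈ powersetCard u (univ : Finset (Fin (R + u))),
          ∑ P' ∈ powersetCard u (univ \ P), Des_bad G 𝒰 P f * Des_bad G 𝒰 P' f) ≤ NK := by
      rw [hSM, hSQ, ← sum_sub_distrib, ← sum_sub_distrib, mul_sum, ← sum_add_distrib]
      exact sum_le_sum fun f hf => Des_point rfl hp.half h.bs.disj 𝒰 hf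
    have h6 : 0 ≤ 2 / N := by positivity
    have h7 := mul_le_mul_of_nonneg_left (add_le_add h2 h3) h6
    have e1 : ∀ a b c : ℝ, 2 / N * (a - b - c) = 2 / N * a - 2 / N * (b + c) := by
      intro a b c; ring
    rw [e1] at h5 ⊢
    linarith
  have hK0 : ((K0 G 𝒰 B u).card : ℝ) = (∏ k, ((B k).card : ℝ)) - NK := by
    have hne : ∀ k, (B k).Nonempty := by
      intro k
      have h1 := hpos k
      exact card_pos.1 (by exact_mod_cast h1)
    have hcard : (∏ k, ((B k).card : ℝ)) = ((Fintype.piFinset B).card : ℝ) := by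
      rw [Fintype.card_piFinset]; push_cast; rfl
    rw [K0_card h.bs.disj h.bs.ind hne 𝒰, hcard, hNK, card_filter, card_eq_sum_ones]
    push_cast
    rw [← sum_sub_distrib]
    refine sum_congr rfl fun f _ => ?_
    split_ifs <;> norm_num
  -- `ρ`
  set ρ : ℝ := (rinv (R + u) R r m)⁻¹ with hρ
  have hρ1 := hrho m hmn
  have hρ0 : 0 ≤ ρ := by
    have := rho_ge (u := u) (R := R) (r := r) hmn
    refine le_trans ?_ this
    positivity
  have hρc : ∀ P ∈ powersetCard u (univ : Finset (Fin (R + u))),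
      ρ / ∏ k ∈ univ \ P, ((B k).card : ℝ) ≤ 1 / N * (1 + C₃ / m) := by
    intro P hP
    have hPos : 0 < ∏ k ∈ univ \ P, ((B k).card : ℝ) := prod_pos fun k _ => hpos k
    rw [div_le_iff₀ hPos]
    have hc : (univ \ P).card = R := by
      rw [card_sdiff_of_subset (subset_univ _), card_univ, Fintype.card_fin,
        (mem_powersetCard.1 hP).2]
      omega
    have hlow : ((m : ℝ) ^ R) * (1 - R * C / m) ≤ ∏ k ∈ univ \ P, ((B k).card : ℝ) := by
      have h1 : ((m : ℝ) - C) ^ (univ \ P).card ≤ ∏ k ∈ univ \ P, ((B k).card : ℝ) := by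
        rw [← prod_const]
        refine prod_le_prod (fun _ _ => by linarith) fun k _ => ?_
        have := (abs_le.1 (h.bs.size k)).1
        linarith
      rw [hc] at h1
      have h2 : (m : ℝ) - C = (1 + -(C / m)) * m := by
        field_simp; ring
      have hx : C / m ≤ 1 := by rw [div_le_one hm0]; linarith
      have h3 := one_add_mul_le_pow (show (-2 : ℝ) ≤ -(C / m) by linarith) R
      calc ((m : ℝ) ^ R) * (1 - R * C / m) = (1 + (R : ℝ) * -(C / m)) * (m : ℝ) ^ R := by ring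
        _ ≤ (1 + -(C / m)) ^ R * (m : ℝ) ^ R := mul_le_mul_of_nonneg_right h3 (by positivity)
        _ = ((m : ℝ) - C) ^ R := by rw [h2, mul_pow]
        _ ≤ _ := h1
    have hkey : (1 + C₁ / m) ≤ (1 + C₃ / m) * (1 - R * C / m) := by
      have hy : 2 * (R * C / m) ≤ 1 := by
        rw [← mul_div_assoc, div_le_one hm0]
        linarith
      have hy0 : 0 ≤ R * C / m := by positivity
      have hz : C₃ / m = 2 * (C₁ / m) + 2 * (R * C / m) := by rw [hC₃]; ring
      have hz0 : 0 ≤ C₁ / m := by positivity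
      rw [hz]
      exact Des_key hz0 hy0 hy
    calc ρ ≤ (m : ℝ) ^ R / N * (1 + C₁ / m) := hρ1
      _ ≤ (m : ℝ) ^ R / N * ((1 + C₃ / m) * (1 - R * C / m)) :=
          mul_le_mul_of_nonneg_left hkey (by positivity)
      _ = 1 / N * (1 + C₃ / m) * (((m : ℝ) ^ R) * (1 - R * C / m)) := by ring
      _ ≤ 1 / N * (1 + C₃ / m) * ∏ k ∈ univ \ P, ((B k).card : ℝ) :=
          mul_le_mul_of_nonneg_left hlow (by positivity)
  have h5 := Des_UC (R := R) rfl hu hw2 h.bs.disj h.bs.ind hpos h.sub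
    (by positivity : (0 : ℝ) ≤ 1 / N * (1 + C₃ / m)) hρc
  rw [← hSD, ← hSQ, hWc, ← hN, ← hκ] at h5
  -- the mean number of missing pairs
  obtain ⟨h6, h7⟩ := Des_DD hC hm0 (by linarith) h.bs
  rw [← hX, ← hSD, hWc] at h6
  rw [← hX, ← hSD] at h7
  -- assembly
  have hee : (ee G B univ / m) * (m : ℝ) ^ (R + u - 1) = X := by
    have : R + u - 1 = (R + u - 2) + 1 := by omega
    rw [this, pow_succ, hX]
    field_simp
  have hce : (R : ℝ) / (R + u) + ck u R = 1 - κ := by
    have hW1 : W - 1 ≠ 0 := by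
      rw [hW]; intro h0; linarith
    unfold ck
    rw [hκ, ← hW]
    have : (R : ℝ) = W - u := by rw [hW]; ring
    rw [this]
    field_simp
    ring
  rw [mul_assoc, hee, hce, hK0]
  have hA : (1 - κ - 4 * (W ^ 2 * η) - (C₅ / m + 2 * (C₃ / m))) * X ≤
      NK - 1 / N * (1 + C₃ / m) * (N * κ * SD + SQ) := by
    refine Des_asm (SM := SM) (t := N * (2 ^ u * C / m)) (by linarith) hSD0 hSQ0 hX0 hκ0 hκ1
      (by positivity) (by positivity) ?_ ?_ ?_ ?_ ?_ ?_ ?_ ?_
    · rw [le_div_iff₀ (by positivity)] at hη₁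
      linarith only [hη₁]
    · rw [← mul_div_assoc, ← mul_div_assoc, div_le_iff₀ hm0]
      linarith only [hmr, hC, hC₃0, hC₅0, hRC, hT]
    · rw [div_le_iff₀ hm0]
      linarith only [hmr, hC, hC₃0, hC₅0, hRC, hT]
    · positivity
    · linarith only [h1]
    · refine le_trans (le_of_eq ?_) h4
      ring
    · refine le_trans ?_ h6
      refine mul_le_mul_of_nonneg_right ?_ hX0
      have : W * C / m ≤ C₅ / m := by
        refine div_le_div_of_nonneg_right ?_ hm0.le
        rw [hC₅]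
        have : 0 < 2 ^ (R + u) * C := by positivity
        linarith only [this]
      linarith only [this]
    · refine h7.trans ?_
      refine mul_le_mul_of_nonneg_right ?_ hX0
      have : 2 ^ (R + u) * C / m ≤ 1 := by
        rw [div_le_one hm0]
        have : 0 < W * C := by positivity
        linarith only [hmr, hC, hC₃0, hC₅, hRC, hT, this]
      linarith only [this]
  have hB : (1 - κ - 4 * W ^ 2 * η - (C₅ + 2 * C₃) / m) * X =
      (1 - κ - 4 * (W ^ 2 * η) - (C₅ / m + 2 * (C₃ / m))) * X := by ring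
  rw [hB]
  have e8 : (∏ k, ((B k).card : ℝ)) * (1 - ρ *
      ∑ T ∈ powersetCard R (univ : Finset (Fin (R + u))), ∏ k ∈ T, (((B k).card : ℝ))⁻¹) =
      (∏ k, ((B k).card : ℝ)) - (∏ k, ((B k).card : ℝ)) * (ρ *
      ∑ T ∈ powersetCard R (univ : Finset (Fin (R + u))), ∏ k ∈ T, (((B k).card : ℝ))⁻¹) := by
    ring
  rw [e8]
  linarith only [hA, h5]

/-- most `u`-cliques in the parts are in `𝒰` -/
theorem UC_nonempty (u R r : ℕ) (hp : Par u R) (η C : ℝ) (hC : 0 < C) :
    ∃ m₀ : ℕ, ∀ m : ℕ, m₀ ≤ m →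
      ∀ (V : Type) [Fintype V] [DecidableEq V] (G : SimpleGraph V) [DecidableRel G.Adj]
        (𝒰 : Finset (Finset V)) (w : ℕ) (B : Fin w → Finset V) (ty : V → Fin w),
        Stp G 𝒰 B ty u R r m C η → (UC 𝒰 B).Nonempty := by
  have hR := hp.hR
  set n : ℕ := R + u with hn
  obtain ⟨m₀, hm₀⟩ := exists_nat_ge (2 * C + 2 ^ n * C + 4 * (n : ℝ) ^ 2 * C * 2 ^ n +
    2 * (2 ^ u * C) + 1)
  refine ⟨m₀, ?_⟩
  intro m hm V _ _ G _ 𝒰 w B ty h
  obtain rfl : w = n := h.hw
  have hmr : 2 * C + 2 ^ n * C + 4 * (n : ℝ) ^ 2 * C * 2 ^ n + 2 * (2 ^ u * C) + 1 ≤ (m : ℝ) :=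
    hm₀.trans (by exact_mod_cast hm)
  have hp1 : 0 < 2 ^ n * C := by positivity
  have hp2 : 0 ≤ 4 * (n : ℝ) ^ 2 * C * 2 ^ n := by positivity
  have hp3 : 0 < 2 ^ u * C := by positivity
  have hm0 : (0 : ℝ) < m := by linarith
  have hpos : ∀ k, (0 : ℝ) < (B k).card := by
    intro k
    have := (abs_le.1 (h.bs.size k)).1
    linarith
  have hhalf : ∀ k, (m : ℝ) / 2 ≤ (B k).card := by
    intro k
    have := (abs_le.1 (h.bs.size k)).1
    linarith
  set Q : ℝ := ∏ k, ((B k).card : ℝ) with hQ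
  have hQ0 : 0 < Q := prod_pos fun k _ => hpos k
  have hQge : ((m : ℝ) / 2) ^ n ≤ Q := by
    have h1 : ((m : ℝ) / 2) ^ (univ : Finset (Fin n)).card ≤ Q := by
      rw [← prod_const]
      exact prod_le_prod (fun _ _ => by positivity) fun k _ => hhalf k
    rwa [card_univ, Fintype.card_fin] at h1
  -- most tuples are clique transversals
  have h1 := card_tcl_ge (G := G) B
  obtain ⟨-, h2⟩ := Des_DD hC hm0 (by linarith) h.bs
  obtain ⟨h3, h3'⟩ := ee_le h
  have h4 : ∑ f ∈ Fintype.piFinset B, DD G f / 2 ≤ Q / 2 := by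
    have e1 : 2 ^ n * C / m ≤ 1 := by
      rw [div_le_one hm0]
      linarith
    have hn2 : 2 ≤ n := by omega
    calc ∑ f ∈ Fintype.piFinset B, DD G f / 2
        ≤ (1 + 2 ^ n * C / m) * ((m : ℝ) ^ (n - 2) * ee G B univ) := h2
      _ ≤ 2 * ((m : ℝ) ^ (n - 2) * ((n : ℝ) ^ 2 * C * m)) := by
          refine mul_le_mul (by linarith) ?_ (by positivity) (by norm_num)
          exact mul_le_mul_of_nonneg_left h3 (by positivity)
      _ = 2 * (n : ℝ) ^ 2 * C * (m : ℝ) ^ (n - 1) := by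
          have : n - 1 = (n - 2) + 1 := by omega
          rw [this, pow_succ]
          ring
      _ ≤ ((m : ℝ) / 2) ^ n / 2 := by
          have : n = (n - 1) + 1 := by omega
          have e2 : ((m : ℝ) / 2) ^ n = (m : ℝ) ^ (n - 1) * m / 2 ^ n := by
            rw [div_pow, ← pow_succ, ← this]
          rw [e2, div_div, le_div_iff₀ (by positivity)]
          have e3 : 4 * (n : ℝ) ^ 2 * C * 2 ^ n ≤ m := by linarith
          have e4 : 0 ≤ (m : ℝ) ^ (n - 1) := by positivity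
          calc 2 * (n : ℝ) ^ 2 * C * (m : ℝ) ^ (n - 1) * (2 ^ n * 2)
              = (m : ℝ) ^ (n - 1) * (4 * (n : ℝ) ^ 2 * C * 2 ^ n) := by ring
            _ ≤ (m : ℝ) ^ (n - 1) * m := mul_le_mul_of_nonneg_left e3 e4
      _ ≤ Q / 2 := by linarith
  rw [← sum_div] at h4
  have h5 : Q / 2 ≤ ((tcl G B).card : ℝ) := by linarith
  by_contra hcon
  rw [not_nonempty_iff_eq_empty] at hcon
  obtain ⟨P, hPsub, hPc⟩ := exists_subset_card_eq
    (show u ≤ (univ : Finset (Fin n)).card by rw [card_univ, Fintype.card_fin]; omega)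
  have hP : P ∈ powersetCard u (univ : Finset (Fin n)) := mem_powersetCard.2 ⟨hPsub, hPc⟩
  have h6 := Des_badshare hC hhalf hm0 h.bs.disj h.bs.ind 𝒰 h.bad hP
  have h7 : ((tcl G B).card : ℝ) ≤ ∑ f ∈ Fintype.piFinset B, Des_bad G 𝒰 P f := by
    have e1 : tcl G B ⊆ Fintype.piFinset B := filter_subset _ _
    calc ((tcl G B).card : ℝ) = ∑ f ∈ tcl G B, Des_bad G 𝒰 P f := by
          rw [card_eq_sum_ones]
          push_cast
          refine sum_congr rfl fun f hf => ?_
          unfold Des_bad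
          rw [if_pos]
          refine ⟨(im_isCl hf).subset (image_subset_image (subset_univ _)), fun hU => ?_⟩
          have : P.image f ∈ UC 𝒰 B := by
            refine mem_filter.2 ⟨hU, ?_⟩
            exact (image_subset_image (subset_univ _)).trans (im_subset hf)
          rw [hcon] at this
          exact absurd this (notMem_empty _)
      _ ≤ _ := sum_le_sum_of_subset_of_nonneg e1 fun f _ _ => Des_bad_nonneg _ _ _
  have h8 : Q * (2 ^ u * C / m) < Q / 2 := by
    have : 2 ^ u * C / m < 1 / 2 := by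
      rw [div_lt_iff₀ hm0]
      linarith
    calc Q * (2 ^ u * C / m) < Q * (1 / 2) := mul_lt_mul_of_pos_left this hQ0
      _ = Q / 2 := by ring
  linarith

end H23CL
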