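import Pool.Agent.H23.CL.LemE
import Pool.Agent.H23.CL.AvM

/-! Step 11 of note 3669: Lemma E for the cluster. -/

set_option autoImplicit false

namespace H23CL

open Finset H57LC

theorem EApp_card {α : Type*} (s : Finset α) (p q : α → Prop) (i₁ : DecidablePred p)
    (i₂ : DecidablePred q) (h : ∀ a, p a ↔ q a) :
    (@Finset.filter α p i₁ s).card = (@Finset.filter α q i₂ s).card := by
  refine congrArg Finset.card ?_
  ext a
  rw [mem_filter, mem_filter, h a]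

theorem EApp_mem {α : Type*} (s : Finset α) (p : α → Prop) (i₁ : DecidablePred p) (a : α)
    (h : a ∈ @Finset.filter α p i₁ s) : a ∈ s ∧ p a := mem_filter.1 h

/-- the validity of the cluster -/
theorem EApp_valid {V : Type} [Fintype V] [DecidableEq V] {G : SimpleGraph V} [DecidableRel G.Adj]
    {𝒰 : Finset (Finset V)} {w u R r m : ℕ} {B : Fin w → Finset V} {ty : V → Fin w} {C η : ℝ}
    (h : Stp G 𝒰 B ty u R r m C η) {Z : Finset V} (hZ : Z ⊆ outs B) :
    Valid G B Z ty univ u (R * m + r) := by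
  classical
  intro P _ hP f hf hcl
  have h1 := val_point h hP hf hcl
  have h2 : ∑ k ∈ univ \ P, (B k).card =
      ∑ k ∈ univ \ P, ((B k).filter fun y => ∀ l ∈ P, G.Adj (f l) y).card +
        rw G B univ f P := by
    unfold rw
    rw [← sum_add_distrib]
    refine sum_congr rfl fun k _ => ?_
    refine (card_filter_add_card_filter_not (s := B k)
      (fun y => ∀ l ∈ P, G.Adj (f l) y)).symm.trans ?_
    refine congrArg₂ (fun a b : ℕ => a + b) rfl (EApp_card _ _ _ _ _ fun y => ?_)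
    push Not
    rfl
  have h3 : (Z.filter fun z => ty z ∉ P ∧ ∀ l ∈ P, G.Adj (f l) z).card ≤
      ((outs B).filter fun z => ∀ l ∈ P, G.Adj (f l) z).card := by
    refine card_le_card fun z hz => ?_
    rw [mem_filter] at hz ⊢
    exact ⟨hZ hz.1, hz.2.2⟩
  have h4 : (∑ k ∈ univ \ P, ((B k).card : ℝ)) =
      ((∑ k ∈ univ \ P, ((B k).filter fun y => ∀ l ∈ P, G.Adj (f l) y).card : ℕ) : ℝ) +
        (rw G B univ f P : ℝ) := by
    exact_mod_cast h2
  have h5 : ((Z.filter fun z => ty z ∉ P ∧ ∀ l ∈ P, G.Adj (f l) z).card : ℝ) ≤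
      (((outs B).filter fun z => ∀ l ∈ P, G.Adj (f l) z).card : ℝ) := by
    exact_mod_cast h3
  have h6 : ((∑ k ∈ univ \ P, ((B k).filter fun y => ∀ l ∈ P, G.Adj (f l) y).card : ℕ) : ℝ) +
      ((Z.filter fun z => ty z ∉ P ∧ ∀ l ∈ P, G.Adj (f l) z).card : ℝ) ≤ R * m + r := by
    linarith
  have h7 : ∑ k ∈ univ \ P, ((B k).filter fun y => ∀ l ∈ P, G.Adj (f l) y).card +
      (Z.filter fun z => ty z ∉ P ∧ ∀ l ∈ P, G.Adj (f l) z).card ≤ R * m + r := by
    exact_mod_cast h6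
  refine le_trans (le_of_eq ?_) h7
  exact congrArg₂ (fun a b : ℕ => a + b)
    (sum_congr rfl fun k _ => EApp_card _ _ _ _ _ fun y => Iff.rfl)
    (EApp_card _ _ _ _ _ fun y => Iff.rfl)

/-- Lemma E for `I = univ`, `Z = Z₁` (`Z1_card`, `Par.p5`; `Valid` from `Stp.val`) -/
theorem lemE_app (u R r : ℕ) (hp : Par u R) (hr : r < R) :
    ∀ η : ℝ, 0 < η → ∀ C : ℝ, 0 < C → ∃ C' : ℝ, 0 < C' ∧ ∃ m₀ : ℕ, ∀ m : ℕ, m₀ ≤ m →
      ∀ (V : Type) [Fintype V] [DecidableEq V] (G : SimpleGraph V) [DecidableRel G.Adj]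
        (𝒰 : Finset (Finset V)) (w : ℕ) (B : Fin w → Finset V) (ty : V → Fin w),
        Stp G 𝒰 B ty u R r m C η →
        m * (∑ k, (((B k).card : ℝ) - m) - r +
            ∑ z ∈ Z1 G B ty (4 * w * η) (eta0 u R), pz G B univ ty z) ≤
          (1 + C' / m) * ee G B univ := by
  intro η hη C hC
  obtain ⟨C₁, hC₁, m₁, h₁⟩ := Z1_card u R r hp hr η hη C hC
  obtain ⟨Lp, hLp, hLog, hw⟩ := hp.p5
  obtain ⟨C', hC', m₂, h₂⟩ := lemE (R + u) R r hr u (max C C₁) (eta0 u R) Lp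
    (lt_max_of_lt_left hC) (eta0_pos hp).1 hLp hLog hw
  refine ⟨C', hC', max m₁ m₂, fun m hm V _ _ G _ 𝒰 w B ty h => ?_⟩
  obtain rfl := h.hw
  have hsub : Z1 G B ty (4 * ((R + u : ℕ) : ℝ) * η) (eta0 u R) ⊆ outs B := by
    intro z hz
    unfold Z1 at hz
    exact (EApp_mem _ _ _ _ hz).1
  refine h₂ m (le_trans (le_max_right _ _) hm) V G univ B
    (Z1 G B ty (4 * ((R + u : ℕ) : ℝ) * η) (eta0 u R)) ty ?_
    (fun k => (h.bs.size k).trans (le_max_left _ _))
    ((h₁ m (le_trans (le_max_left _ _) hm) V G 𝒰 (R + u) B ty h).trans (le_max_right _ _)) ?_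
    (EApp_valid h hsub)
  · rw [card_univ, Fintype.card_fin]
  · intro z hz
    unfold Z1 at hz
    exact ⟨mem_univ _, (EApp_mem _ _ _ _ hz).2.2⟩

end H23CL
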