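import Mathlib

/-! Steps 12, 13 of note 3669: integer sequences. -/

set_option autoImplicit false

namespace H23CL

open Finset

/-- sum after exchanging `a ∈ P` for `b ∉ P` -/
private lemma sum_exch {w : ℕ} (x : Fin w → ℤ) (P : Finset (Fin w)) (a b : Fin w) (ha : a ∈ P)
    (hb : b ∉ P) : ∑ k ∈ insert b (P.erase a), x k = x b + (∑ k ∈ P, x k - x a) := by
  have hb' : b ∉ P.erase a := fun h => hb (Finset.mem_of_mem_erase h)
  rw [Finset.sum_insert hb', ← Finset.sum_erase_add P x ha]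
  ring

private lemma card_exch {w : ℕ} (P : Finset (Fin w)) (a b : Fin w) (ha : a ∈ P)
    (hb : b ∉ P) : (insert b (P.erase a)).card = P.card := by
  have hb' : b ∉ P.erase a := fun h => hb (Finset.mem_of_mem_erase h)
  rw [Finset.card_insert_of_notMem hb', Finset.card_erase_of_mem ha]
  have : 0 < P.card := Finset.card_pos.mpr ⟨a, ha⟩
  omega

/-- an element of maximal value -/
private lemma exists_max_elt {w : ℕ} (x : Fin w → ℤ) (P : Finset (Fin w)) (hP : 0 < P.card) :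
    ∃ a ∈ P, ∀ b ∈ P, x b ≤ x a :=
  Finset.exists_max_image P x (Finset.card_pos.mp hP)

private lemma sum_le_card_mul {w : ℕ} (x : Fin w → ℤ) (P : Finset (Fin w)) (t : ℤ)
    (h : ∀ b ∈ P, x b ≤ t) : ∑ k ∈ P, x k ≤ (P.card : ℤ) * t := by
  have := Finset.sum_le_card_nsmul P x t h
  simpa using this

private lemma card_mul_le_sum {w : ℕ} (x : Fin w → ℤ) (P : Finset (Fin w)) (t : ℤ)
    (h : ∀ b ∈ P, t ≤ x b) : (P.card : ℤ) * t ≤ ∑ k ∈ P, x k := by
  have := Finset.card_nsmul_le_sum P x t h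
  simpa using this

/-- minimal `u`-sets avoiding a given index -/
theorem exists_minP {w u : ℕ} (hw : u + 1 ≤ w) (x : Fin w → ℤ) :
    ∃ P : Fin w → Finset (Fin w), (∀ i, i ∉ P i ∧ (P i).card = u) ∧
      ∀ i Q, i ∉ Q → Q.card = u → ∑ k ∈ P i, x k ≤ ∑ k ∈ Q, x k := by
  have h : ∀ i : Fin w, ∃ P : Finset (Fin w), (i ∉ P ∧ P.card = u) ∧
      ∀ Q : Finset (Fin w), i ∉ Q → Q.card = u → ∑ k ∈ P, x k ≤ ∑ k ∈ Q, x k := by
    intro i
    have hne : ((Finset.univ.erase i).powersetCard u).Nonempty := by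
      rw [Finset.powersetCard_nonempty]
      rw [Finset.card_erase_of_mem (Finset.mem_univ i), Finset.card_univ, Fintype.card_fin]
      omega
    obtain ⟨P, hP, hmin⟩ := Finset.exists_min_image _ (fun P => ∑ k ∈ P, x k) hne
    rw [Finset.mem_powersetCard] at hP
    refine ⟨P, ⟨fun hi => ?_, hP.2⟩, fun Q hi hQ => ?_⟩
    · exact absurd (hP.1 hi) (Finset.notMem_erase i _)
    · apply hmin
      rw [Finset.mem_powersetCard]
      refine ⟨fun k hk => ?_, hQ⟩
      rw [Finset.mem_erase]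
      exact ⟨fun h => hi (h ▸ hk), Finset.mem_univ _⟩
  choose P h1 h2 using h
  exact ⟨P, h1, h2⟩

/-- the common part: `P` minimal among the `u`-sets without `i`, `a ∈ P` maximal -/
private lemma core {w u R : ℕ} (hw : w = R + u) (hR : 1 ≤ R) (x : Fin w → ℤ)
    (P : Finset (Fin w)) (i : Fin w) (hi : i ∉ P) (hP : P.card = u)
    (hmin : ∀ Q : Finset (Fin w), i ∉ Q → Q.card = u → ∑ k ∈ P, x k ≤ ∑ k ∈ Q, x k)
    (a : Fin w) (ha : a ∈ P) :
    ∑ k ∈ P, x k + x i + ((R : ℤ) - 1) * x a ≤ ∑ k, x k := by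
  have hb : ∀ b ∈ (Finset.univ \ P).erase i, x a ≤ x b := by
    intro b hb
    rw [Finset.mem_erase, Finset.mem_sdiff] at hb
    have hbP : b ∉ P := hb.2.2
    have h1 := hmin (insert b (P.erase a)) (by
      rw [Finset.mem_insert, Finset.mem_erase]
      rintro (h | h)
      · exact hb.1 h.symm
      · exact hi h.2) (by rw [card_exch P a b ha hbP, hP])
    rw [sum_exch x P a b ha hbP] at h1
    linarith
  have hiu : i ∈ Finset.univ \ P := by simp [hi]
  have hc : (((Finset.univ \ P).erase i).card : ℤ) = (R : ℤ) - 1 := by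
    rw [Finset.card_erase_of_mem hiu, Finset.card_sdiff_of_subset (Finset.subset_univ P),
      Finset.card_univ, Fintype.card_fin, hP, hw]
    have : R + u - u - 1 = R - 1 := by omega
    rw [this, Nat.cast_sub hR]
    simp
  have h2 := card_mul_le_sum x ((Finset.univ \ P).erase i) (x a) hb
  rw [hc] at h2
  have h3 : ∑ k ∈ (Finset.univ \ P), x k = ∑ k ∈ (Finset.univ \ P).erase i, x k + x i :=
    (Finset.sum_erase_add _ _ hiu).symm
  have h4 : ∑ k, x k = ∑ k ∈ (Finset.univ \ P), x k + ∑ k ∈ P, x k :=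
    (Finset.sum_sdiff (Finset.subset_univ P)).symm
  linarith

/-- the bound of `T_i` (averages over the `u`-sets without `i` and over those with `i`) -/
theorem T_bound {w u R r : ℕ} (hu : 1 ≤ u) (huR : 2 * u ≤ R) (hw : w = R + u) (hr : r < R)
    (x : Fin w → ℤ) (y c : ℝ) (hc : 0 ≤ c) (hc' : c ≤ 1 / 3) (hy : 0 ≤ y)
    (hav : ∀ P : Finset (Fin w), P.card = u →
      ((∑ k, x k - r : ℤ) : ℝ) - ((∑ k ∈ P, x k : ℤ) : ℝ) - c ≤ y)
    (P : Fin w → Finset (Fin w)) (hP : ∀ i, i ∉ P i ∧ (P i).card = u)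
    (hmin : ∀ i Q, i ∉ Q → Q.card = u → ∑ k ∈ P i, x k ≤ ∑ k ∈ Q, x k) (i : Fin w) :
    max 0 (((∑ k ∈ P i, x k : ℤ) : ℝ) - ((∑ k, x k - r : ℤ) : ℝ)) ≤
      2 * u + 1 + y + max 0 (-((∑ k, x k - r : ℤ) : ℝ)) := by
  have hu0 : (0 : ℝ) ≤ u := Nat.cast_nonneg u
  have hR : 1 ≤ R := by omega
  obtain ⟨a, ha, hmax⟩ := exists_max_elt x (P i) (by rw [(hP i).2]; omega)
  have h1 := core hw hR x (P i) i (hP i).1 (hP i).2 (hmin i) a ha
  have h2 := sum_le_card_mul x (P i) (x a) hmax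
  rw [(hP i).2] at h2
  have h3 := hav (insert i ((P i).erase a)) (by rw [card_exch (P i) a i ha (hP i).1, (hP i).2])
  rw [sum_exch x (P i) a i ha (hP i).1] at h3
  have h1' : ((∑ k ∈ P i, x k : ℤ) : ℝ) + (x i : ℝ) + ((R : ℝ) - 1) * (x a : ℝ) ≤
      ((∑ k, x k : ℤ) : ℝ) := by exact_mod_cast h1
  have h2' : ((∑ k ∈ P i, x k : ℤ) : ℝ) ≤ (u : ℝ) * (x a : ℝ) := by exact_mod_cast h2
  have h3' : ((∑ k, x k : ℤ) : ℝ) - (r : ℝ) -
      ((x i : ℝ) + (((∑ k ∈ P i, x k : ℤ) : ℝ) - (x a : ℝ))) - c ≤ y := by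
    exact_mod_cast h3
  have hN : ((∑ k, x k - r : ℤ) : ℝ) = ((∑ k, x k : ℤ) : ℝ) - (r : ℝ) := by
    rw [Int.cast_sub, Int.cast_natCast]
  rw [hN]
  set A : ℝ := ((∑ k, x k : ℤ) : ℝ) with hA
  set B : ℝ := ((∑ k ∈ P i, x k : ℤ) : ℝ) with hB
  have hRr : (r : ℝ) + 1 ≤ R := by exact_mod_cast hr
  have huR' : 2 * (u : ℝ) ≤ R := by exact_mod_cast huR
  have hR0 : (1 : ℝ) ≤ R := by exact_mod_cast hR
  -- R x_a ≤ y + r + c
  have h4 : (R : ℝ) * (x a : ℝ) ≤ y + r + c := by nlinarith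
  have hu1 : (1 : ℝ) ≤ u := by exact_mod_cast hu
  -- u x_a ≤ y / 2 + u + 1/6
  have h5 : (u : ℝ) * (x a : ℝ) ≤ y + u + 1 := by
    have h6 : (R : ℝ) * ((u : ℝ) * (x a : ℝ)) ≤ (R : ℝ) * (y + u + 1) := by
      have h7 : (u : ℝ) * ((R : ℝ) * (x a : ℝ)) ≤ (u : ℝ) * (y + r + c) :=
        mul_le_mul_of_nonneg_left h4 hu0
      have h8 : (u : ℝ) * y ≤ R * y := mul_le_mul_of_nonneg_right (by linarith) hy
      have h9 : (u : ℝ) * (r : ℝ) ≤ u * R := mul_le_mul_of_nonneg_left (by linarith) hu0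
      have h10 : (u : ℝ) * c ≤ u * 1 := mul_le_mul_of_nonneg_left (by linarith) hu0
      nlinarith
    exact le_of_mul_le_mul_left h6 (by linarith)
  have hmx : -(A - (r : ℝ)) ≤ max 0 (-(A - (r : ℝ))) := le_max_right _ _
  have hmx0 : 0 ≤ max 0 (-(A - (r : ℝ))) := le_max_left _ _
  apply max_le
  · linarith
  · linarith

/-- if `∑ x = r < R` and the minimal `u`-set without `i` has a positive sum, some `u`-set has a
negative sum.  Proof: otherwise let `a ∈ P` be maximal (`P` the minimal `u`-set without `i`),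
`x_a ≥ 1`, by minimality `x_b ≥ x_a ≥ 1` for `b ∉ P`, `b ≠ i`; then with `Q = P.erase a + i`:
`∑ x = x(Q) + x_a + (R - 1 others) ≥ 0 + 1 + (R-1)`. -/
theorem swap {w u R r : ℕ} (hu : 1 ≤ u) (hw : w = R + u) (hr : r < R) (x : Fin w → ℤ)
    (hx : ∑ k, x k = r) (P : Finset (Fin w)) (i : Fin w) (hi : i ∉ P) (hP : P.card = u)
    (hmin : ∀ Q : Finset (Fin w), i ∉ Q → Q.card = u → ∑ k ∈ P, x k ≤ ∑ k ∈ Q, x k)
    (hpos : 1 ≤ ∑ k ∈ P, x k) : ∃ Q : Finset (Fin w), Q.card = u ∧ ∑ k ∈ Q, x k ≤ -1 := by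
  have hR : 1 ≤ R := by omega
  obtain ⟨a, ha, hmax⟩ := exists_max_elt x P (by rw [hP]; omega)
  have h1 := core hw hR x P i hi hP hmin a ha
  have h2 := sum_le_card_mul x P (x a) hmax
  rw [hP] at h2
  have hxa : 1 ≤ x a := by
    by_contra hcon
    have hxa0 : x a ≤ 0 := by omega
    have : (u : ℤ) * x a ≤ 0 := mul_nonpos_of_nonneg_of_nonpos (Int.natCast_nonneg u) hxa0
    omega
  refine ⟨insert i (P.erase a), by rw [card_exch P a i ha hi, hP], ?_⟩
  rw [sum_exch x P a i ha hi]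
  rw [hx] at h1
  have hR' : (r : ℤ) + 1 ≤ R := by exact_mod_cast hr
  have hR0 : (1 : ℤ) ≤ R := by exact_mod_cast hR
  nlinarith

/-- if all `u`-sets have nonnegative sums and `∑ x < R`, all `x_k` are nonnegative.  Proof: if
`x_i ≤ -1` take a minimal `u`-set `P ∋ i` and a maximal `a ∈ P`, `a ≠ i`: `x_a ≥ 1`, swapping gives
`x_b ≥ x_a ≥ 1` for all `b ∉ P`, so `∑ x ≥ 0 + R`. -/
theorem swap2 {w u R r : ℕ} (hu : 1 ≤ u) (hw : w = R + u) (hr : r < R) (x : Fin w → ℤ)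
    (hx : ∑ k, x k = r) (hall : ∀ P : Finset (Fin w), P.card = u → 0 ≤ ∑ k ∈ P, x k) :
    ∀ k, 0 ≤ x k := by
  intro i
  by_contra hcon
  have hxi : x i ≤ -1 := by omega
  -- the family of u-sets containing i
  have hne : (((Finset.univ : Finset (Fin w)).powersetCard u).filter (fun P => i ∈ P)).Nonempty := by
    obtain ⟨P, hP1, hP2, hP3⟩ := Finset.exists_subsuperset_card_eq (s := {i})
      (t := (Finset.univ : Finset (Fin w))) (n := u) (Finset.subset_univ _)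
      (by rw [Finset.card_singleton]; exact hu)
      (by rw [Finset.card_univ, Fintype.card_fin]; omega)
    refine ⟨P, ?_⟩
    rw [Finset.mem_filter, Finset.mem_powersetCard]
    exact ⟨⟨hP2, hP3⟩, hP1 (Finset.mem_singleton_self i)⟩
  obtain ⟨P, hP, hmin⟩ := Finset.exists_min_image _ (fun P => ∑ k ∈ P, x k) hne
  rw [Finset.mem_filter, Finset.mem_powersetCard] at hP
  obtain ⟨⟨-, hPc⟩, hiP⟩ := hP
  have hP0 := hall P hPc
  -- an element a ≠ i with x a ≥ 1
  have hex : ∃ a ∈ P.erase i, 1 ≤ x a := by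
    by_contra hno
    push Not at hno
    have h1 : ∑ k ∈ P.erase i, x k ≤ 0 :=
      Finset.sum_nonpos (fun k hk => by have := hno k hk; omega)
    have h2 := Finset.sum_erase_add P x hiP
    omega
  obtain ⟨a, ha, hxa⟩ := hex
  rw [Finset.mem_erase] at ha
  have hb : ∀ b ∈ Finset.univ \ P, 1 ≤ x b := by
    intro b hb
    rw [Finset.mem_sdiff] at hb
    have hbP := hb.2
    have h1 := hmin (insert b (P.erase a)) (by
      rw [Finset.mem_filter, Finset.mem_powersetCard]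
      refine ⟨⟨Finset.subset_univ _, by rw [card_exch P a b ha.2 hbP, hPc]⟩, ?_⟩
      rw [Finset.mem_insert, Finset.mem_erase]
      exact Or.inr ⟨fun h => ha.1 h.symm, hiP⟩)
    rw [sum_exch x P a b ha.2 hbP] at h1
    linarith
  have h2 := card_mul_le_sum x (Finset.univ \ P) 1 hb
  have hc : ((Finset.univ \ P).card : ℤ) = R := by
    rw [Finset.card_sdiff_of_subset (Finset.subset_univ P),
      Finset.card_univ, Fintype.card_fin, hPc, hw]
    have : R + u - u = R := by omega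
    rw [this]
  rw [hc] at h2
  have h4 : ∑ k, x k = ∑ k ∈ (Finset.univ \ P), x k + ∑ k ∈ P, x k :=
    (Finset.sum_sdiff (Finset.subset_univ P)).symm
  have hR' : (r : ℤ) + 1 ≤ R := by exact_mod_cast hr
  rw [hx] at h4
  linarith

/-- Proof: minimal `u`-set `P ⊆ Q`, maximal `a ∈ P`: `x_a ≥ 1`, the `|Q| - u` others are
`≥ x_a ≥ 1`: `x(Q) ≥ j + (w - j - u) = R`. -/
theorem swap3 {w u R j : ℕ} (hu : 1 ≤ u) (hw : w = R + u) (x : Fin w → ℤ)
    (hx : ∀ k, 0 ≤ x k) (Q : Finset (Fin w)) (hQ : Q.card + j = w) (hQu : u ≤ Q.card)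
    (hj : 1 ≤ j) (hall : ∀ P ⊆ Q, P.card = u → (j : ℤ) ≤ ∑ k ∈ P, x k) :
    (R : ℤ) ≤ ∑ k, x k := by
  have hne : (Q.powersetCard u).Nonempty := by
    rw [Finset.powersetCard_nonempty]
    exact hQu
  obtain ⟨P, hP, hmin⟩ := Finset.exists_min_image _ (fun P => ∑ k ∈ P, x k) hne
  rw [Finset.mem_powersetCard] at hP
  have hPj := hall P hP.1 hP.2
  have hj' : (1 : ℤ) ≤ j := by exact_mod_cast hj
  obtain ⟨a, ha, hxa⟩ : ∃ a ∈ P, 1 ≤ x a := by
    by_contra hno
    push Not at hno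
    have h1 : ∑ k ∈ P, x k ≤ 0 := Finset.sum_nonpos (fun k hk => by have := hno k hk; omega)
    omega
  have hb : ∀ b ∈ Q \ P, 1 ≤ x b := by
    intro b hb
    rw [Finset.mem_sdiff] at hb
    have h1 := hmin (insert b (P.erase a)) (by
      rw [Finset.mem_powersetCard]
      refine ⟨?_, by rw [card_exch P a b ha hb.2, hP.2]⟩
      intro k hk
      rw [Finset.mem_insert, Finset.mem_erase] at hk
      rcases hk with h | h
      · exact h ▸ hb.1
      · exact hP.1 h.2)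
    rw [sum_exch x P a b ha hb.2] at h1
    linarith
  have h2 := card_mul_le_sum x (Q \ P) 1 hb
  have hc : ((Q \ P).card : ℤ) = (Q.card : ℤ) - u := by
    rw [Finset.card_sdiff_of_subset hP.1, hP.2, Nat.cast_sub hQu]
  rw [hc] at h2
  have h4 : ∑ k ∈ Q, x k = ∑ k ∈ (Q \ P), x k + ∑ k ∈ P, x k :=
    (Finset.sum_sdiff hP.1).symm
  have h5 : ∑ k ∈ Q, x k ≤ ∑ k, x k :=
    Finset.sum_le_sum_of_subset_of_nonneg (Finset.subset_univ Q) (fun k _ _ => hx k)
  have h6 : (Q.card : ℤ) + j = R + u := by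
    have : (Q.card : ℤ) + j = w := by exact_mod_cast hQ
    rw [this, hw]; push_cast; ring
  linarith

end H23CL
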