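import Pool.Agent.H23.CL.LemEa

/-! Step 11 of note 3669: Lemma E. -/

set_option autoImplicit false

namespace H23CL

open Finset H57LC

section LemEaux

variable {V : Type*} [DecidableEq V] (G : SimpleGraph V) [DecidableRel G.Adj]
variable {ι : Type*} [DecidableEq ι]

/-- the parts seen from `v` -/
def LemE_B (B : ι → Finset V) (I : Finset ι) (k : ι) (v : V) (j : ι) : Finset V :=
  if j ∈ I.erase k then (B j).filter (fun y => G.Adj v y) else B j

/-- the outside vertices seen from `v` -/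
def LemE_Z (Z : Finset V) (ty : V → ι) (k : ι) (v : V) : Finset V :=
  Z.filter fun z => ty z ≠ k ∧ G.Adj v z

/-- the number of missing pairs at `v` -/
noncomputable def LemE_rows (B : ι → Finset V) (I : Finset ι) (k : ι) (v : V) : ℝ :=
  ∑ j ∈ I.erase k, ((hs G (B j) v).card : ℝ)

/-- the product of the shares outside `k` and `ty z` -/
noncomputable def LemE_q (B : ι → Finset V) (I : Finset ι) (ty : V → ι) (k : ι) (z : V) : ℝ :=
  ∏ j ∈ (I.erase k).erase (ty z), al G B z j

variable {G}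

theorem LemE_valid {B : ι → Finset V} {Z : Finset V} {ty : V → ι} {I : Finset ι} {u N : ℕ}
    (h : Valid G B Z ty I (u + 1) N) {k : ι} (hk : k ∈ I) {v : V} (hv : v ∈ B k) :
    Valid G (LemE_B G B I k v) (LemE_Z G Z ty k v) ty (I.erase k) u N := by
  intro P hP hPc f hf hadj
  have hkP : k ∉ P := fun h1 => (mem_erase.1 (hP h1)).1 rfl
  have hfB : ∀ l ∈ P, f l ∈ B l ∧ G.Adj v (f l) := by
    intro l hl
    have h1 := hf l hl
    unfold LemE_B at h1
    rw [if_pos (hP hl), mem_filter] at h1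
    exact h1
  have hne : ∀ l ∈ P, l ≠ k := fun l hl h1 => hkP (h1 ▸ hl)
  have hup : ∀ l ∈ P, Function.update f k v l = f l := fun l hl => Function.update_of_ne (hne l hl) _ _
  have hupk : Function.update f k v k = v := Function.update_self _ _ _
  have key : ∀ y : V, (∀ l ∈ insert k P, G.Adj (Function.update f k v l) y) ↔
      (G.Adj v y ∧ ∀ l ∈ P, G.Adj (f l) y) := by
    intro y
    rw [forall_mem_insert, hupk]
    constructor
    · rintro ⟨h1, h2⟩
      exact ⟨h1, fun l hl => by rw [← hup l hl]; exact h2 l hl⟩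
    · rintro ⟨h1, h2⟩
      exact ⟨h1, fun l hl => by rw [hup l hl]; exact h2 l hl⟩
  have h1 := h (insert k P) (insert_subset hk (hP.trans (erase_subset _ _)))
    (by rw [card_insert_of_notMem hkP, hPc]) (Function.update f k v) ?_ ?_
  · refine le_trans (le_of_eq ?_) h1
    congr 1
    · have h2 : I \ insert k P = (I.erase k) \ P := by
        ext j
        simp only [mem_sdiff, mem_insert, mem_erase]
        tauto
      rw [h2]
      refine sum_congr rfl fun j hj => ?_
      have hj' : j ∈ I.erase k := (mem_sdiff.1 hj).1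
      congr 1
      unfold LemE_B
      rw [if_pos hj', filter_filter]
      refine filter_congr fun y _ => ?_
      rw [key]
    · congr 1
      unfold LemE_Z
      rw [filter_filter]
      refine filter_congr fun z _ => ?_
      rw [key, mem_insert]
      tauto
  · intro l hl
    rcases mem_insert.1 hl with rfl | hl
    · rw [hupk]; exact hv
    · rw [hup l hl]; exact (hfB l hl).1
  · intro l hl l' hl' hll
    rcases mem_insert.1 hl with h1 | h1
    · rcases mem_insert.1 hl' with h2 | h2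
      · exact absurd (h1.trans h2.symm) hll
      · rw [h1, hupk, hup l' h2]; exact (hfB l' h2).2
    · rcases mem_insert.1 hl' with h2 | h2
      · rw [h2, hupk, hup l h1]; exact (hfB l h1).2.symm
      · rw [hup l h1, hup l' h2]; exact hadj l h1 l' h2 hll

theorem LemE_ee_nonneg (B : ι → Finset V) (I : Finset ι) : 0 ≤ ee G B I := by
  unfold ee
  positivity

theorem LemE_rows_nonneg (B : ι → Finset V) (I : Finset ι) (k : ι) (v : V) :
    0 ≤ LemE_rows G B I k v := by
  unfold LemE_rows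
  positivity

theorem LemE_ee_mono (B : ι → Finset V) (I : Finset ι) (k : ι) (v : V) :
    ee G (LemE_B G B I k v) (I.erase k) ≤ ee G B (I.erase k) := by
  have hsub : ∀ j, LemE_B G B I k v j ⊆ B j := by
    intro j
    unfold LemE_B
    split_ifs
    · exact filter_subset _ _
    · exact Subset.refl _
  unfold ee
  refine div_le_div_of_nonneg_right ?_ (by norm_num)
  refine sum_le_sum fun i _ => sum_le_sum fun j _ => ?_
  calc ∑ z ∈ LemE_B G B I k v i, ((hs G (LemE_B G B I k v j) z).card : ℝ)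
      ≤ ∑ z ∈ LemE_B G B I k v i, ((hs G (B j) z).card : ℝ) :=
        sum_le_sum fun z _ => by exact_mod_cast card_le_card (hs_mono (hsub j) z)
    _ ≤ ∑ z ∈ B i, ((hs G (B j) z).card : ℝ) :=
        sum_le_sum_of_subset_of_nonneg (hsub i) fun z _ _ => Nat.cast_nonneg _

theorem LemE_symm (S T : Finset V) :
    ∑ z ∈ S, ((hs G T z).card : ℝ) = ∑ z ∈ T, ((hs G S z).card : ℝ) := by
  have h1 : ∀ (S T : Finset V), ∑ z ∈ S, ((hs G T z).card : ℝ) = ∑ z ∈ S, ∑ y ∈ T, na G z y :=
    fun S T => sum_congr rfl fun z _ => (sum_na T z).symm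
  rw [h1, h1, sum_comm]
  exact sum_congr rfl fun y _ => sum_congr rfl fun z _ => na_comm z y

theorem LemE_ee_split (B : ι → Finset V) {I : Finset ι} {k : ι} (hk : k ∈ I) :
    ee G B I = ee G B (I.erase k) + ∑ v ∈ B k, LemE_rows G B I k v := by
  set a : ι → ι → ℝ := fun i j => ∑ z ∈ B i, ((hs G (B j) z).card : ℝ) with ha
  have hsym : ∀ i j, a i j = a j i := fun i j => LemE_symm (B i) (B j)
  have hrows : ∑ v ∈ B k, LemE_rows G B I k v = ∑ j ∈ I.erase k, a k j := by
    unfold LemE_rows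
    rw [sum_comm]
  have h1 : ∑ i ∈ I, ∑ j ∈ I.erase i, a i j =
      ∑ j ∈ I.erase k, a k j + ∑ i ∈ I.erase k, ∑ j ∈ I.erase i, a i j := by
    rw [← add_sum_erase I _ hk]
  have h2 : ∀ i ∈ I.erase k, ∑ j ∈ I.erase i, a i j = a k i + ∑ j ∈ (I.erase k).erase i, a i j := by
    intro i hi
    obtain ⟨hik, hiI⟩ := mem_erase.1 hi
    have h3 : k ∈ I.erase i := mem_erase.2 ⟨fun h => hik h.symm, hk⟩
    rw [← add_sum_erase (I.erase i) _ h3, erase_right_comm, hsym i k]
  rw [sum_congr rfl h2, sum_add_distrib] at h1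
  unfold ee
  rw [hrows]
  change (∑ i ∈ I, ∑ j ∈ I.erase i, a i j) / 2 = (∑ i ∈ I.erase k, ∑ j ∈ (I.erase k).erase i, a i j) / 2 + _
  rw [h1]
  ring

theorem LemE_prod (s : Finset ι) (a c d : ι → ℝ) (ha0 : ∀ i ∈ s, 0 ≤ a i)
    (ha1 : ∀ i ∈ s, a i ≤ 1) (hc0 : ∀ i ∈ s, 0 ≤ c i) (hc1 : ∀ i ∈ s, c i ≤ 1)
    (hd : ∀ i ∈ s, 0 ≤ d i) (h : ∀ i ∈ s, a i - d i ≤ c i) :
    ∏ i ∈ s, a i - ∑ i ∈ s, d i ≤ ∏ i ∈ s, c i := by
  induction s using Finset.induction_on with
  | empty => simp
  | insert i s hi ih =>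
    rw [prod_insert hi, prod_insert hi, sum_insert hi]
    have h1 := ih (fun j hj => ha0 j (mem_insert_of_mem hj)) (fun j hj => ha1 j (mem_insert_of_mem hj))
      (fun j hj => hc0 j (mem_insert_of_mem hj)) (fun j hj => hc1 j (mem_insert_of_mem hj))
      (fun j hj => hd j (mem_insert_of_mem hj)) (fun j hj => h j (mem_insert_of_mem hj))
    have hA0 : 0 ≤ ∏ j ∈ s, a j := prod_nonneg fun j hj => ha0 j (mem_insert_of_mem hj)
    have hA1 : ∏ j ∈ s, a j ≤ 1 := prod_le_one (fun j hj => ha0 j (mem_insert_of_mem hj))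
      (fun j hj => ha1 j (mem_insert_of_mem hj))
    have hD : 0 ≤ ∑ j ∈ s, d j := sum_nonneg fun j hj => hd j (mem_insert_of_mem hj)
    have hi' := mem_insert_self i s
    have h2 := h i hi'
    have h3 := hc0 i hi'
    have h4 := hc1 i hi'
    have h5 := hd i hi'
    set A := ∏ j ∈ s, a j
    set D := ∑ j ∈ s, d j
    set E := ∏ j ∈ s, c j
    have h6 : a i * A ≤ (c i + d i) * A := mul_le_mul_of_nonneg_right (by linarith) hA0
    have h7 : d i * A ≤ d i := mul_le_of_le_one_right h5 hA1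
    have h8 : c i * A ≤ c i * (E + D) := mul_le_mul_of_nonneg_left (by linarith) h3
    have h9 : c i * D ≤ D := mul_le_of_le_one_left hD h4
    nlinarith

theorem LemE_al (B : ι → Finset V) {I : Finset ι} {k j : ι} (hj : j ∈ I.erase k) (v z : V) :
    al G B z j - ((hs G (B j) v).card : ℝ) / (B j).card ≤ al G (LemE_B G B I k v) z j := by
  unfold al LemE_B
  rw [if_pos hj]
  set b : ℝ := ((B j).card : ℝ) with hb
  set b' : ℝ := (((B j).filter fun y => G.Adj v y).card : ℝ) with hb'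
  set n : ℝ := (((B j).filter fun y => G.Adj z y).card : ℝ) with hn
  set n' : ℝ := ((((B j).filter fun y => G.Adj v y).filter fun y => G.Adj z y).card : ℝ) with hn'
  have h1 : n - ((hs G (B j) v).card : ℝ) ≤ n' := by
    have h2 : ((B j).filter fun y => G.Adj z y) ⊆
        (((B j).filter fun y => G.Adj v y).filter fun y => G.Adj z y) ∪ hs G (B j) v := by
      intro y hy
      rw [mem_filter] at hy
      rw [mem_union, mem_filter, mem_filter, mem_hs]
      by_cases h : G.Adj v y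
      · exact Or.inl ⟨⟨hy.1, h⟩, hy.2⟩
      · exact Or.inr ⟨hy.1, h⟩
    have h3 := (card_le_card h2).trans (card_union_le _ _)
    have h4 : n ≤ n' + ((hs G (B j) v).card : ℝ) := by
      rw [hn, hn']
      exact_mod_cast h3
    linarith
  have hn0 : 0 ≤ n' := Nat.cast_nonneg _
  have hb0 : 0 ≤ b := Nat.cast_nonneg _
  have hb'0 : 0 ≤ b' := Nat.cast_nonneg _
  have hbb : b' ≤ b := by
    rw [hb, hb']
    exact_mod_cast card_le_card (filter_subset _ _)
  have hnb : n' ≤ b' := by
    rw [hn', hb']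
    exact_mod_cast card_le_card (filter_subset _ _)
  rw [← sub_div]
  refine (div_le_div_of_nonneg_right h1 hb0).trans ?_
  rcases hb'0.eq_or_lt with h0 | h0
  · have h5 : n' = 0 := le_antisymm (by linarith) hn0
    rw [h5, zero_div, zero_div]
  · exact div_le_div_of_nonneg_left hn0 h0 hbb

theorem LemE_q_nonneg (B : ι → Finset V) (I : Finset ι) (ty : V → ι) (k : ι) (z : V) :
    0 ≤ LemE_q G B I ty k z := prod_nonneg fun _ _ => al_nonneg B z _

theorem LemE_q_le_one (B : ι → Finset V) (I : Finset ι) (ty : V → ι) (k : ι) (z : V) :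
    LemE_q G B I ty k z ≤ 1 :=
  prod_le_one (fun _ _ => al_nonneg B z _) fun _ _ => al_le_one B z _

theorem LemE_pz_nonneg (B : ι → Finset V) (I : Finset ι) (ty : V → ι) (z : V) :
    0 ≤ pz G B I ty z := prod_nonneg fun _ _ => al_nonneg B z _

theorem LemE_pz_le_one (B : ι → Finset V) (I : Finset ι) (ty : V → ι) (z : V) :
    pz G B I ty z ≤ 1 :=
  prod_le_one (fun _ _ => al_nonneg B z _) fun _ _ => al_le_one B z _

theorem LemE_pz_eq (B : ι → Finset V) {I : Finset ι} {ty : V → ι} {k : ι} {z : V} (hk : k ∈ I)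
    (hz : ty z ≠ k) : pz G B I ty z = al G B z k * LemE_q G B I ty k z := by
  unfold pz LemE_q
  rw [← mul_prod_erase (I.erase (ty z)) _ (mem_erase.2 ⟨fun h => hz h.symm, hk⟩), erase_right_comm]

theorem LemE_pz_ge (B : ι → Finset V) {I : Finset ι} {ty : V → ι} {k : ι} (v z : V) {b₀ : ℝ}
    (hb₀ : 0 < b₀) (hb : ∀ j ∈ I.erase k, b₀ ≤ ((B j).card : ℝ)) :
    LemE_q G B I ty k z - LemE_rows G B I k v / b₀ ≤
      pz G (LemE_B G B I k v) (I.erase k) ty z := by
  have h1 := LemE_prod ((I.erase k).erase (ty z)) (fun j => al G B z j)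
    (fun j => al G (LemE_B G B I k v) z j) (fun j => ((hs G (B j) v).card : ℝ) / (B j).card)
    (fun _ _ => al_nonneg B z _) (fun _ _ => al_le_one B z _)
    (fun _ _ => al_nonneg _ z _) (fun _ _ => al_le_one _ z _)
    (fun _ _ => by positivity) (fun j hj => LemE_al B (erase_subset _ _ hj) v z)
  refine le_trans ?_ h1
  unfold LemE_q
  refine sub_le_sub_left ?_ _
  calc ∑ j ∈ (I.erase k).erase (ty z), ((hs G (B j) v).card : ℝ) / (B j).card
      ≤ ∑ j ∈ I.erase k, ((hs G (B j) v).card : ℝ) / (B j).card :=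
        sum_le_sum_of_subset_of_nonneg (erase_subset _ _) fun _ _ _ => by positivity
    _ ≤ ∑ j ∈ I.erase k, ((hs G (B j) v).card : ℝ) / b₀ :=
        sum_le_sum fun j hj => div_le_div_of_nonneg_left (Nat.cast_nonneg _) hb₀ (hb j hj)
    _ = LemE_rows G B I k v / b₀ := by
        unfold LemE_rows
        rw [sum_div]

/-- the sum over `v` of the outside vertices seen from `v` -/
theorem LemE_sum_Z (B : ι → Finset V) {I : Finset ι} (Z : Finset V) (ty : V → ι) {k : ι}
    (hk : k ∈ I) :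
    ∑ v ∈ B k, ∑ z ∈ LemE_Z G Z ty k v, LemE_q G B I ty k z =
      (B k).card * ∑ z ∈ Z.filter (fun z => ty z ≠ k), pz G B I ty z := by
  have h1 : ∀ v ∈ B k, ∑ z ∈ LemE_Z G Z ty k v, LemE_q G B I ty k z =
      ∑ z ∈ Z.filter (fun z => ty z ≠ k), if G.Adj v z then LemE_q G B I ty k z else 0 := by
    intro v _
    unfold LemE_Z
    rw [← filter_filter, sum_filter]
  rw [sum_congr rfl h1, sum_comm, mul_sum]
  refine sum_congr rfl fun z hz => ?_
  rw [LemE_pz_eq B hk (mem_filter.1 hz).2, ← sum_filter, sum_const, nsmul_eq_mul]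
  have h2 : ((B k).filter fun v => G.Adj v z) = (B k).filter fun y => G.Adj z y :=
    filter_congr fun y _ => G.adj_comm y z
  rw [h2]
  unfold al
  rcases (B k).card.eq_zero_or_pos with h0 | h0
  · have h3 : ((B k).filter fun y => G.Adj z y).card = 0 := by
      have := card_le_card (filter_subset (fun y => G.Adj z y) (B k))
      omega
    rw [h3, h0]
    simp
  · have h3 : ((B k).card : ℝ) ≠ 0 := by exact_mod_cast h0.ne'
    field_simp

end LemEaux

/-- the crude upper bound -/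
theorem LemE_crude {w R r u m : ℕ} {C : ℝ} {V : Type*} [DecidableEq V] {G : SimpleGraph V}
    [DecidableRel G.Adj] {I : Finset (Fin w)} {B : Fin w → Finset V} {Z : Finset V} {q : V → ℝ}
    (hI : I.card ≤ R + u) (hC : 0 < C) (hB : ∀ k, |((B k).card : ℝ) - m| ≤ C) (hZ : (Z.card : ℝ) ≤ C)
    (hq : ∀ z ∈ Z, q z ≤ 1) :
    m * (∑ k ∈ I, (((B k).card : ℝ) - m) - r + ∑ z ∈ Z, q z) ≤ m * (C * (R + u + 1)) := by
  have h1 : ∑ k ∈ I, (((B k).card : ℝ) - m) ≤ (R + u) * C := by
    calc ∑ k ∈ I, (((B k).card : ℝ) - m) ≤ ∑ _k ∈ I, C := sum_le_sum fun k _ => (abs_le.1 (hB k)).2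
      _ = I.card * C := by rw [sum_const, nsmul_eq_mul]
      _ ≤ _ := mul_le_mul_of_nonneg_right (by exact_mod_cast hI) hC.le
  have h2 : ∑ z ∈ Z, q z ≤ C := by
    calc ∑ z ∈ Z, q z ≤ ∑ _z ∈ Z, (1 : ℝ) := sum_le_sum hq
      _ = Z.card := by rw [sum_const, nsmul_eq_mul, mul_one]
      _ ≤ C := hZ
  refine mul_le_mul_of_nonneg_left ?_ (Nat.cast_nonneg m)
  have h3 : (0 : ℝ) ≤ r := Nat.cast_nonneg r
  nlinarith

theorem LemE_zero (w R r : ℕ) (hr : r < R) (C η₀ : ℝ) (hC : 0 < C) :
    ∃ C' : ℝ, 0 < C' ∧ ∃ m₀ : ℕ, ∀ m : ℕ, m₀ ≤ m →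
      ∀ (V : Type) [DecidableEq V] (G : SimpleGraph V) [DecidableRel G.Adj]
        (I : Finset (Fin w)) (B : Fin w → Finset V) (Z : Finset V) (ty : V → Fin w),
        I.card = R + 0 → (∀ k, |((B k).card : ℝ) - m| ≤ C) → (Z.card : ℝ) ≤ C →
        (∀ z ∈ Z, ty z ∈ I ∧ η₀ ≤ pz G B I ty z) → Valid G B Z ty I 0 (R * m + r) →
        m * (∑ k ∈ I, (((B k).card : ℝ) - m) - r + ∑ z ∈ Z, pz G B I ty z) ≤
          (1 + C' / m) * ee G B I := by
  refine ⟨1, one_pos, ⌈C⌉₊ + 1, fun m hm V _ G _ I B Z ty hI hB hZ hpz hval => ?_⟩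
  have hmC : C < m := by
    have h1 := Nat.le_ceil C
    have h2 : ((⌈C⌉₊ + 1 : ℕ) : ℝ) ≤ m := by exact_mod_cast hm
    push_cast at h2
    linarith
  have hne : ∀ k, (B k).Nonempty := by
    intro k
    rw [← card_pos]
    have h1 := (abs_le.1 (hB k)).1
    have h2 : (0 : ℝ) < ((B k).card : ℝ) := by linarith
    exact_mod_cast h2
  choose f hf using hne
  have h1 := hval ∅ (empty_subset _) card_empty f (by simp) (by simp)
  simp only [sdiff_empty, notMem_empty, false_imp_iff, implies_true, not_false_eq_true, and_self,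
    filter_true] at h1
  have hfin : ∑ k ∈ I, (((B k).card : ℝ) - m) - r + ∑ z ∈ Z, pz G B I ty z ≤ 0 := by
    have h2 : ∑ z ∈ Z, pz G B I ty z ≤ Z.card := by
      calc ∑ z ∈ Z, pz G B I ty z ≤ ∑ _z ∈ Z, (1 : ℝ) := sum_le_sum fun z _ => LemE_pz_le_one B I ty z
        _ = Z.card := by rw [sum_const, nsmul_eq_mul, mul_one]
    have h3 : ((∑ k ∈ I, (B k).card + Z.card : ℕ) : ℝ) ≤ ((R * m + r : ℕ) : ℝ) := by exact_mod_cast h1
    push_cast at h3
    rw [sum_sub_distrib, sum_const, hI, nsmul_eq_mul]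
    push_cast
    linarith
  have h4 : m * (∑ k ∈ I, (((B k).card : ℝ) - m) - r + ∑ z ∈ Z, pz G B I ty z) ≤ 0 :=
    mul_nonpos_of_nonneg_of_nonpos (Nat.cast_nonneg m) hfin
  refine h4.trans ?_
  have := LemE_ee_nonneg (G := G) B I
  positivity

/-- the inequality for one vertex `v` -/
theorem LemE_point {w R r u m : ℕ} {C G₀ C₁ η₀ : ℝ} {V : Type} [DecidableEq V] {G : SimpleGraph V}
    [DecidableRel G.Adj] {I : Finset (Fin w)} {B : Fin w → Finset V} {Z : Finset V} {ty : V → Fin w}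
    {k : Fin w} {v : V} (hk : k ∈ I) (hv : v ∈ B k) (hI : I.card = R + (u + 1)) (hC : 0 < C)
    (hC₁ : 0 < C₁) (hη : 0 < η₀)
    (hG₀ : G₀ = C * (R + (u + 1) + 1)) (hB : ∀ k, |((B k).card : ℝ) - m| ≤ C) (hZ : (Z.card : ℝ) ≤ C)
    (hpz : ∀ z ∈ Z, ty z ∈ I ∧ η₀ ≤ pz G B I ty z) (hval : Valid G B Z ty I (u + 1) (R * m + r))
    (hm : C < m) (hm' : G₀ / (m - C) ≤ η₀ / 2)
    (ih : ∀ (I : Finset (Fin w)) (B : Fin w → Finset V) (Z : Finset V) (ty : V → Fin w),
        I.card = R + u → (∀ k, |((B k).card : ℝ) - m| ≤ C + G₀) → (Z.card : ℝ) ≤ C + G₀ →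
        (∀ z ∈ Z, ty z ∈ I ∧ η₀ / 2 ≤ pz G B I ty z) → Valid G B Z ty I u (R * m + r) →
        m * (∑ k ∈ I, (((B k).card : ℝ) - m) - r + ∑ z ∈ Z, pz G B I ty z) ≤
          (1 + C₁ / m) * ee G B I) :
    m * (∑ j ∈ I.erase k, (((B j).card : ℝ) - m) - r + ∑ z ∈ LemE_Z G Z ty k v, LemE_q G B I ty k z) ≤
      (1 + C₁ / m) * ee G B (I.erase k) + m * LemE_rows G B I k v * (m / (m - C)) := by
  have hm0 : (0 : ℝ) < m := hC.trans hm
  have hmC : (0 : ℝ) < m - C := by linarith
  have hR : 0 ≤ LemE_rows G B I k v := LemE_rows_nonneg B I k v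
  have hE := LemE_ee_nonneg (G := G) B (I.erase k)
  have hIk : (I.erase k).card = R + u := by
    rw [card_erase_of_mem hk, hI]
    omega
  have hG₀0 : 0 < G₀ := by
    rw [hG₀]
    positivity
  have hfrac : 1 ≤ m / (m - C) := by
    rw [le_div_iff₀ hmC]
    linarith
  have hZs : LemE_Z G Z ty k v ⊆ Z := filter_subset _ _
  have hZ' : ((LemE_Z G Z ty k v).card : ℝ) ≤ C :=
    le_trans (by exact_mod_cast card_le_card hZs) hZ
  rcases le_or_gt (LemE_rows G B I k v) G₀ with hG | hG
  · -- the induction hypothesis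
    have hb : ∀ j ∈ I.erase k, (m : ℝ) - C ≤ ((B j).card : ℝ) := fun j _ => by
      have := (abs_le.1 (hB j)).1
      linarith
    have hsize : ∀ j ∈ I.erase k, ((LemE_B G B I k v j).card : ℝ) =
        ((B j).card : ℝ) - ((hs G (B j) v).card : ℝ) := by
      intro j hj
      unfold LemE_B hs
      rw [if_pos hj, eq_sub_iff_add_eq]
      exact_mod_cast card_filter_add_card_filter_not (s := B j) (fun y => G.Adj v y)
    have hrow1 : ∀ j ∈ I.erase k, ((hs G (B j) v).card : ℝ) ≤ LemE_rows G B I k v := fun j hj =>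
      single_le_sum (f := fun j => ((hs G (B j) v).card : ℝ)) (fun _ _ => Nat.cast_nonneg _) hj
    have hpz' : ∀ z ∈ LemE_Z G Z ty k v, LemE_q G B I ty k z - LemE_rows G B I k v / (m - C) ≤
        pz G (LemE_B G B I k v) (I.erase k) ty z := fun z _ => LemE_pz_ge B v z hmC hb
    have h1 := ih (I.erase k) (LemE_B G B I k v) (LemE_Z G Z ty k v) ty hIk ?_ ?_ ?_
      (LemE_valid hval hk hv)
    · have h2 : ∑ j ∈ I.erase k, (((LemE_B G B I k v j).card : ℝ) - m) =
          ∑ j ∈ I.erase k, (((B j).card : ℝ) - m) - LemE_rows G B I k v := by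
        unfold LemE_rows
        rw [← sum_sub_distrib]
        refine sum_congr rfl fun j hj => ?_
        rw [hsize j hj]
        ring
      have h3 : ∑ z ∈ LemE_Z G Z ty k v, LemE_q G B I ty k z -
          C * (LemE_rows G B I k v / (m - C)) ≤
          ∑ z ∈ LemE_Z G Z ty k v, pz G (LemE_B G B I k v) (I.erase k) ty z := by
        have h4 := sum_le_sum hpz'
        rw [sum_sub_distrib, sum_const, nsmul_eq_mul] at h4
        have h5 : ((LemE_Z G Z ty k v).card : ℝ) * (LemE_rows G B I k v / (m - C)) ≤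
            C * (LemE_rows G B I k v / (m - C)) :=
          mul_le_mul_of_nonneg_right hZ' (by positivity)
        linarith
      have h6 := LemE_ee_mono (G := G) B I k v
      have h7 : (1 + C₁ / m) * ee G (LemE_B G B I k v) (I.erase k) ≤
          (1 + C₁ / m) * ee G B (I.erase k) := mul_le_mul_of_nonneg_left h6 (by positivity)
      rw [h2] at h1
      have h8 : m * LemE_rows G B I k v * (m / (m - C)) =
          m * (LemE_rows G B I k v + C * (LemE_rows G B I k v / (m - C))) := by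
        field_simp
        ring
      have h9 : m * (∑ j ∈ I.erase k, (((B j).card : ℝ) - m) - r +
          ∑ z ∈ LemE_Z G Z ty k v, LemE_q G B I ty k z) ≤
          m * ((∑ j ∈ I.erase k, (((B j).card : ℝ) - m) - LemE_rows G B I k v) - r +
            ∑ z ∈ LemE_Z G Z ty k v, pz G (LemE_B G B I k v) (I.erase k) ty z) +
          m * (LemE_rows G B I k v + C * (LemE_rows G B I k v / (m - C))) := by
        rw [← mul_add]
        refine mul_le_mul_of_nonneg_left ?_ hm0.le
        linarith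
      rw [h8]
      linarith
    · intro j
      rcases em (j ∈ I.erase k) with hj | hj
      · rw [hsize j hj]
        have h2 := abs_le.1 (hB j)
        have h3 := hrow1 j hj
        have h4 : (0 : ℝ) ≤ ((hs G (B j) v).card : ℝ) := Nat.cast_nonneg _
        rw [abs_le]
        constructor <;> linarith
      · unfold LemE_B
        rw [if_neg hj]
        exact (hB j).trans (by linarith)
    · linarith
    · intro z hz
      have hz' := hz
      unfold LemE_Z at hz'
      rw [mem_filter] at hz'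
      obtain ⟨hzZ, hzk, -⟩ := hz'
      refine ⟨mem_erase.2 ⟨hzk, (hpz z hzZ).1⟩, ?_⟩
      have h2 := hpz' z hz
      have h3 := (hpz z hzZ).2
      rw [LemE_pz_eq B hk hzk] at h3
      have h4 : al G B z k * LemE_q G B I ty k z ≤ LemE_q G B I ty k z :=
        mul_le_of_le_one_left (LemE_q_nonneg B I ty k z) (al_le_one B z k)
      have h5 : LemE_rows G B I k v / (m - C) ≤ G₀ / (m - C) :=
        div_le_div_of_nonneg_right hG hmC.le
      linarith
  · -- trivial case
    have h1 := LemE_crude (G := G) (R := R) (r := r) (u := u + 1) (m := m) (q := LemE_q G B I ty k)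
      (Z := LemE_Z G Z ty k v) (I := I.erase k) (B := B) (by rw [hIk]; omega) hC hB hZ'
      (fun z _ => LemE_q_le_one B I ty k z)
    push_cast at h1
    rw [← hG₀] at h1
    have h2 : m * G₀ ≤ m * LemE_rows G B I k v := mul_le_mul_of_nonneg_left hG.le hm0.le
    have h3 : m * LemE_rows G B I k v ≤ m * LemE_rows G B I k v * (m / (m - C)) :=
      le_mul_of_one_le_right (by positivity) hfrac
    have h4 : 0 ≤ (1 + C₁ / m) * ee G B (I.erase k) := by positivity
    linarith

/-- Lemma E.  Proof by induction on `u`; `u = 0`: validity for `P = ∅`.  The claim is trivial if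
`ee > C₀ m`.  If some `x̂_k ≤ 0` (else `lemE_avg`): for `v ∈ B k` let
`B' j = (B j).filter (Adj v)` for `j ∈ I.erase k` (`B' j = B j` else),
`Z' = {z ∈ Z : ty z ≠ k, z ~ v}`, `rows v = ∑_{j ∈ I.erase k} |hs (B j) v|`.  If
`rows v > G₀` the claimed inequality for `v` is trivial, otherwise use the induction hypothesis
with `u - 1`, `η₀/2`, `C + G₀`.  `π'_z ≥ π_z / al_k - rows v/(m - C)`,
`ee I = ee (I.erase k) + ∑_{v ∈ B k} rows v ≥ ee' (B') + ..`; average over `v ∈ B k`. -/
theorem lemE (w R r : ℕ) (hr : r < R) (u : ℕ) (C η₀ Lp : ℝ) (hC : 0 < C) (hη : 0 < η₀)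
    (hLp : 2 ≤ Lp) (hLog : ∀ x : ℝ, η₀ / 2 ^ u ≤ x → x ≤ 1 → -Real.log x ≤ Lp * (1 - x))
    (hw : u * (u + 1) * Lp ≤ (R : ℝ) + u - 1) :
    ∃ C' : ℝ, 0 < C' ∧ ∃ m₀ : ℕ, ∀ m : ℕ, m₀ ≤ m →
      ∀ (V : Type) [DecidableEq V] (G : SimpleGraph V) [DecidableRel G.Adj]
        (I : Finset (Fin w)) (B : Fin w → Finset V) (Z : Finset V) (ty : V → Fin w),
        I.card = R + u → (∀ k, |((B k).card : ℝ) - m| ≤ C) → (Z.card : ℝ) ≤ C →
        (∀ z ∈ Z, ty z ∈ I ∧ η₀ ≤ pz G B I ty z) → Valid G B Z ty I u (R * m + r) →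
        m * (∑ k ∈ I, (((B k).card : ℝ) - m) - r + ∑ z ∈ Z, pz G B I ty z) ≤
          (1 + C' / m) * ee G B I := by
  induction u generalizing C η₀ with
  | zero => exact LemE_zero w R r hr C η₀ hC
  | succ u ih =>
    obtain ⟨G₀, hG₀⟩ : ∃ G₀ : ℝ, G₀ = C * (R + (u + 1) + 1) := ⟨_, rfl⟩
    have hG₀0 : 0 < G₀ := by
      rw [hG₀]
      positivity
    have hCG : C ≤ G₀ := by
      rw [hG₀]
      have : (0 : ℝ) ≤ R + (u + 1) := by positivity
      nlinarith
    have hw' : (u : ℝ) * (u + 1) * Lp ≤ (R : ℝ) + u - 1 := by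
      push_cast at hw
      have hu0 : (0 : ℝ) ≤ u := Nat.cast_nonneg u
      nlinarith [mul_nonneg hu0 (by linarith : (0 : ℝ) ≤ Lp)]
    obtain ⟨C₁, hC₁, m₁, h₁⟩ := ih (C + G₀) (η₀ / 2) (by positivity) (by positivity)
      (fun x hx hx1 => hLog x (by rw [pow_succ']; rw [div_div] at hx; exact hx) hx1) hw'
    obtain ⟨C₂, hC₂, m₂, h₂⟩ := lemE_avg w R r (u + 1) hr (by omega) G₀ η₀ Lp hG₀0 hη hLp hLog hw
    refine ⟨C₁ + C₂ + (4 * C + 4 * C ^ 2), by positivity,
      max (max m₁ m₂) (⌈2 * C + 2 * G₀ / η₀ + 1⌉₊), fun m hm V _ G _ I B Z ty hI hB hZ hpz hval => ?_⟩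
    have hm1 : m₁ ≤ m := (le_max_left _ _).trans ((le_max_left _ _).trans hm)
    have hm2 : m₂ ≤ m := (le_max_right _ _).trans ((le_max_left _ _).trans hm)
    have hm3 : 2 * C + 2 * G₀ / η₀ + 1 ≤ m := by
      refine (Nat.le_ceil _).trans ?_
      exact_mod_cast (le_max_right _ _).trans hm
    have hq0 : 0 < 2 * G₀ / η₀ := by positivity
    have hmC2 : 2 * C ≤ m := by linarith
    have hmC : C < m := by linarith
    have hm0 : (0 : ℝ) < m := hC.trans hmC
    have hm1' : (1 : ℝ) ≤ m := by linarith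
    have hmC' : (0 : ℝ) < m - C := by linarith
    have hm' : G₀ / (m - C) ≤ η₀ / 2 := by
      rw [div_le_iff₀ hmC']
      have h1 : 2 * G₀ / η₀ ≤ m - C := by linarith
      rw [div_le_iff₀ hη] at h1
      linarith
    have hE := LemE_ee_nonneg (G := G) B I
    rcases le_or_gt (ee G B I) (G₀ * m) with hEm | hEm
    · by_cases hpos : ∀ k ∈ I, 0 < ((B k).card : ℝ) - m +
          ∑ z ∈ Z.filter (fun z => ty z = k), pz G B I ty z
      · have h3 := h₂ m hm2 V G I B Z ty hI (fun k => (hB k).trans hCG) (hZ.trans hCG) hpz hval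
          hEm hpos
        refine h3.trans (mul_le_mul_of_nonneg_right ?_ hE)
        have h4 : C₂ / m ≤ (C₁ + C₂ + (4 * C + 4 * C ^ 2)) / m := by
          refine div_le_div_of_nonneg_right ?_ hm0.le
          have : 0 ≤ 4 * C + 4 * C ^ 2 := by positivity
          linarith
        linarith
      · push Not at hpos
        obtain ⟨k, hk, hxk⟩ := hpos
        have hbk : (m : ℝ) - C ≤ ((B k).card : ℝ) := by
          have := (abs_le.1 (hB k)).1
          linarith
        have hbk0 : (0 : ℝ) < ((B k).card : ℝ) := by linarith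
        -- sum over `v`
        have h3 := sum_le_sum fun v (hv : v ∈ B k) => LemE_point (G := G) (r := r) (u := u) hk hv hI hC
          hC₁ hη hG₀ hB hZ hpz hval hmC hm'
          (fun I' B' Z' ty' a b c d e => h₁ m hm1 V G I' B' Z' ty' a b c d e)
        rw [← mul_sum, sum_add_distrib, sum_const, LemE_sum_Z B Z ty hk, sum_add_distrib, sum_const,
          nsmul_eq_mul, nsmul_eq_mul, ← sum_mul, ← mul_sum] at h3
        obtain ⟨A, hA⟩ : ∃ A : ℝ, A = ∑ j ∈ I.erase k, (((B j).card : ℝ) - m) - r := ⟨_, rfl⟩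
        obtain ⟨Q, hQ⟩ : ∃ Q : ℝ, Q = ∑ z ∈ Z.filter (fun z => ty z ≠ k), pz G B I ty z := ⟨_, rfl⟩
        obtain ⟨E', hE'⟩ : ∃ E' : ℝ, E' = ee G B (I.erase k) := ⟨_, rfl⟩
        obtain ⟨ρ, hρ⟩ : ∃ ρ : ℝ, ρ = ∑ v ∈ B k, LemE_rows G B I k v := ⟨_, rfl⟩
        obtain ⟨b, hb⟩ : ∃ b : ℝ, b = ((B k).card : ℝ) := ⟨_, rfl⟩
        rw [← hA, ← hQ, ← hE', ← hρ, ← hb] at h3
        rw [← hb] at hbk hbk0
        have hρ0 : 0 ≤ ρ := by
          rw [hρ]
          exact sum_nonneg fun v _ => LemE_rows_nonneg B I k v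
        have hE'0 : 0 ≤ E' := by
          rw [hE']
          exact LemE_ee_nonneg B _
        have h4 : ee G B I = E' + ρ := by rw [hE', hρ, LemE_ee_split B hk]
        have h5 : ∑ k ∈ I, (((B k).card : ℝ) - m) - r + ∑ z ∈ Z, pz G B I ty z =
            (b - m + ∑ z ∈ Z.filter (fun z => ty z = k), pz G B I ty z) + (A + Q) := by
          rw [← add_sum_erase I _ hk, hA, hQ, ← sum_filter_add_sum_filter_not Z (fun z => ty z = k), hb]
          ring
        have h6 : m * (A + Q) ≤ (1 + C₁ / m) * E' + m * ρ * (m / (m - C)) / b := by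
          rw [← sub_le_iff_le_add', le_div_iff₀ hbk0]
          nlinarith
        have h7 : m * ρ * (m / (m - C)) / b ≤ (m / (m - C)) ^ 2 * ρ := by
          rw [div_le_iff₀ hbk0]
          have h8 : (m / (m - C)) ^ 2 * ρ * (m - C) ≤ (m / (m - C)) ^ 2 * ρ * b :=
            mul_le_mul_of_nonneg_left hbk (by positivity)
          have h9 : (m / (m - C)) ^ 2 * ρ * (m - C) = m * ρ * (m / (m - C)) := by
            field_simp
          linarith
        have h8 : (m / (m - C)) ^ 2 ≤ 1 + (4 * C + 4 * C ^ 2) / m := by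
          have h9 : m / (m - C) ≤ 1 + 2 * C / m := by
            rw [div_le_iff₀ hmC']
            have h10 : (1 + 2 * C / m) * (m - C) = m + C - 2 * C ^ 2 / m := by
              field_simp
              ring
            rw [h10]
            have h11 : 2 * C ^ 2 / m ≤ C := by
              rw [div_le_iff₀ hm0]
              nlinarith
            linarith
          have h10 : 0 ≤ m / (m - C) := by positivity
          calc (m / (m - C)) ^ 2 ≤ (1 + 2 * C / m) ^ 2 := by gcongr
            _ = 1 + 4 * C / m + 4 * C ^ 2 / m / m := by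
              field_simp
              ring
            _ ≤ 1 + 4 * C / m + 4 * C ^ 2 / m := by
              have : 4 * C ^ 2 / m / m ≤ 4 * C ^ 2 / m := div_le_self (by positivity) hm1'
              linarith
            _ = _ := by ring
        rw [h5, mul_add, h4]
        have h9 : m * (b - m + ∑ z ∈ Z.filter (fun z => ty z = k), pz G B I ty z) ≤ 0 := by
          rw [← hb] at hxk
          exact mul_nonpos_of_nonneg_of_nonpos hm0.le hxk
        have h10 : (m / (m - C)) ^ 2 * ρ ≤ (1 + (4 * C + 4 * C ^ 2) / m) * ρ :=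
          mul_le_mul_of_nonneg_right h8 hρ0
        have h11 : (1 + C₁ / m) * E' ≤ (1 + (C₁ + C₂ + (4 * C + 4 * C ^ 2)) / m) * E' := by
          refine mul_le_mul_of_nonneg_right ?_ hE'0
          have : C₁ / m ≤ (C₁ + C₂ + (4 * C + 4 * C ^ 2)) / m := by
            refine div_le_div_of_nonneg_right ?_ hm0.le
            have : 0 ≤ 4 * C + 4 * C ^ 2 := by positivity
            linarith
          linarith
        have h12 : (1 + (4 * C + 4 * C ^ 2) / m) * ρ ≤
            (1 + (C₁ + C₂ + (4 * C + 4 * C ^ 2)) / m) * ρ := by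
          refine mul_le_mul_of_nonneg_right ?_ hρ0
          have : (4 * C + 4 * C ^ 2) / m ≤ (C₁ + C₂ + (4 * C + 4 * C ^ 2)) / m :=
            div_le_div_of_nonneg_right (by linarith) hm0.le
          linarith
        rw [mul_add]
        linarith
    · have h1 := LemE_crude (G := G) (R := R) (r := r) (u := u + 1) (m := m) (q := pz G B I ty)
        (Z := Z) (I := I) (B := B) hI.le hC hB hZ (fun z _ => LemE_pz_le_one B I ty z)
      push_cast at h1
      rw [← hG₀] at h1
      have h2 : ee G B I ≤ (1 + (C₁ + C₂ + (4 * C + 4 * C ^ 2)) / m) * ee G B I := by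
        refine le_mul_of_one_le_left hE ?_
        have : 0 ≤ (C₁ + C₂ + (4 * C + 4 * C ^ 2)) / m := by positivity
        linarith
      linarith

end H23CL
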