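import Pool.Agent.H23.CL.Val

/-! Step 11 of note 3669: Lemma E, case (2). -/

set_option autoImplicit false

namespace H23CL

open Finset H57LC

section LemEaAux

/-- the number of `u`-subsets which avoid `k` -/
private theorem LemEa_cnt1 {ι : Type*} [DecidableEq ι] {I : Finset ι} {k : ι} (hk : k ∈ I) (u : ℕ) :
    ((I.powersetCard u).filter fun P => k ∉ P).card = (I.card - 1).choose u := by
  have h1 : ((I.powersetCard u).filter fun P => k ∉ P) = (I.erase k).powersetCard u := by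
    ext P
    simp only [mem_filter, mem_powersetCard, subset_erase]
    tauto
  rw [h1, card_powersetCard, card_erase_of_mem hk]

/-- the number of `u`-subsets which avoid `k` and contain `l` -/
private theorem LemEa_cnt2 {ι : Type*} [DecidableEq ι] {I : Finset ι} {k l : ι} (hk : k ∈ I)
    (hl : l ∈ I) (hkl : l ≠ k) {u : ℕ} (hu : 1 ≤ u) :
    ((I.powersetCard u).filter fun P => k ∉ P ∧ l ∈ P).card = (I.card - 2).choose (u - 1) := by
  have h1 : ((I.powersetCard u).filter fun P => k ∉ P ∧ l ∈ P) =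
      (((I.erase k).powersetCard u).filter fun P => l ∈ P) := by
    ext P
    simp only [mem_filter, mem_powersetCard, subset_erase]
    tauto
  have hl' : l ∈ I.erase k := mem_erase.2 ⟨hkl, hl⟩
  have h2 := card_filter_add_card_filter_not (s := (I.erase k).powersetCard u) (fun P => l ∈ P)
  have h3 : (((I.erase k).powersetCard u).filter fun P => ¬ l ∈ P).card =
      ((I.erase k).card - 1).choose u := LemEa_cnt1 hl' u
  have h4 : 2 ≤ I.card := by
    have := card_le_card (insert_subset hk (singleton_subset_iff.2 hl))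
    rwa [card_pair hkl.symm] at this
  rw [h1]
  rw [h3, card_powersetCard, card_erase_of_mem hk] at h2
  obtain ⟨n, hn⟩ : ∃ n, I.card = n + 2 := ⟨I.card - 2, by omega⟩
  obtain ⟨v, rfl⟩ : ∃ v, u = v + 1 := ⟨u - 1, by omega⟩
  rw [hn] at h2 ⊢
  have h5 : n + 2 - 1 - 1 = n := by omega
  have h6 : n + 2 - 1 = n + 1 := by omega
  have h7 : n + 2 - 2 = n := by omega
  have h8 : v + 1 - 1 = v := by omega
  rw [h5, h6, Nat.choose_succ_succ] at h2
  rw [h7, h8]
  simp only [Nat.succ_eq_add_one] at h2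
  omega

private theorem LemEa_sum1 {ι : Type*} [DecidableEq ι] {I : Finset ι} (u : ℕ) (g : ι → ℝ) :
    ∑ P ∈ I.powersetCard u, ∑ k ∈ I \ P, g k = ((I.card - 1).choose u : ℝ) * ∑ k ∈ I, g k := by
  have h1 : ∀ P ∈ I.powersetCard u, ∑ k ∈ I \ P, g k = ∑ k ∈ I, if k ∉ P then g k else 0 := by
    intro P _
    rw [← sum_filter]
    refine sum_congr ?_ fun _ _ => rfl
    ext k
    simp [mem_sdiff]
  rw [sum_congr rfl h1, sum_comm, mul_sum]
  refine sum_congr rfl fun k hk => ?_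
  rw [← sum_filter, sum_const, LemEa_cnt1 hk, nsmul_eq_mul]

private theorem LemEa_sum2 {ι : Type*} [DecidableEq ι] {I : Finset ι} {u : ℕ} (hu : 1 ≤ u)
    (g : ι → ι → ℝ) :
    ∑ P ∈ I.powersetCard u, ∑ k ∈ I \ P, ∑ l ∈ P, g k l =
      ((I.card - 2).choose (u - 1) : ℝ) * ∑ k ∈ I, ∑ l ∈ I.erase k, g k l := by
  have h1 : ∀ P ∈ I.powersetCard u, ∑ k ∈ I \ P, ∑ l ∈ P, g k l =
      ∑ k ∈ I, ∑ l ∈ I.erase k, if k ∉ P ∧ l ∈ P then g k l else 0 := by
    intro P hP
    have hPI := (mem_powersetCard.1 hP).1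
    have h2 : ∑ k ∈ I \ P, ∑ l ∈ P, g k l = ∑ k ∈ I, if k ∉ P then ∑ l ∈ P, g k l else 0 := by
      rw [← sum_filter]
      refine sum_congr ?_ fun _ _ => rfl
      ext k
      simp [mem_sdiff]
    rw [h2]
    refine sum_congr rfl fun k hk => ?_
    by_cases hkP : k ∈ P
    swap
    · rw [if_pos hkP, ← sum_filter]
      refine sum_congr ?_ fun _ _ => rfl
      ext l
      simp only [mem_filter, mem_erase]
      constructor
      · intro hl
        exact ⟨⟨fun h => hkP (h ▸ hl), hPI hl⟩, hkP, hl⟩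
      · rintro ⟨_, _, hl⟩
        exact hl
    · rw [if_neg (not_not.2 hkP)]
      exact (sum_eq_zero fun l _ => if_neg fun h => h.1 hkP).symm
  rw [sum_congr rfl h1, sum_comm, mul_sum]
  refine sum_congr rfl fun k hk => ?_
  rw [sum_comm, mul_sum]
  refine sum_congr rfl fun l hl => ?_
  rw [← sum_filter, sum_const, LemEa_cnt2 hk (mem_erase.1 hl).2 (mem_erase.1 hl).1 hu, nsmul_eq_mul]

private theorem LemEa_sum3 {V ι : Type*} [DecidableEq ι] {I : Finset ι} (u : ℕ) (Z : Finset V)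
    (ty : V → ι) (hty : ∀ z ∈ Z, ty z ∈ I) (g : V → ℝ) :
    ∑ P ∈ I.powersetCard u, ∑ z ∈ Z.filter (fun z => ty z ∉ P), g z =
      ((I.card - 1).choose u : ℝ) * ∑ z ∈ Z, g z := by
  have h1 : ∀ P ∈ I.powersetCard u, ∑ z ∈ Z.filter (fun z => ty z ∉ P), g z =
      ∑ z ∈ Z, if ty z ∉ P then g z else 0 := fun P _ => sum_filter _ _
  rw [sum_congr rfl h1, sum_comm, mul_sum]
  refine sum_congr rfl fun z hz => ?_
  rw [← sum_filter, sum_const, LemEa_cnt1 (hty z hz), nsmul_eq_mul]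

private theorem LemEa_sum4 {V ι : Type*} [DecidableEq ι] {I : Finset ι} {u : ℕ} (hu : 1 ≤ u)
    (Z : Finset V) (ty : V → ι) (hty : ∀ z ∈ Z, ty z ∈ I) (g : V → ι → ℝ) :
    ∑ P ∈ I.powersetCard u, ∑ z ∈ Z.filter (fun z => ty z ∉ P), ∑ l ∈ P, g z l =
      ((I.card - 2).choose (u - 1) : ℝ) * ∑ z ∈ Z, ∑ l ∈ I.erase (ty z), g z l := by
  have h1 : ∀ P ∈ I.powersetCard u, ∑ z ∈ Z.filter (fun z => ty z ∉ P), ∑ l ∈ P, g z l =
      ∑ z ∈ Z, ∑ l ∈ I.erase (ty z), if ty z ∉ P ∧ l ∈ P then g z l else 0 := by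
    intro P hP
    have hPI := (mem_powersetCard.1 hP).1
    rw [sum_filter]
    refine sum_congr rfl fun z hz => ?_
    by_cases hkP : ty z ∈ P
    swap
    · rw [if_pos hkP, ← sum_filter]
      refine sum_congr ?_ fun _ _ => rfl
      ext l
      simp only [mem_filter, mem_erase]
      constructor
      · intro hl
        exact ⟨⟨fun h => hkP (h ▸ hl), hPI hl⟩, hkP, hl⟩
      · rintro ⟨_, _, hl⟩
        exact hl
    · rw [if_neg (not_not.2 hkP)]
      exact (sum_eq_zero fun l _ => if_neg fun h => h.1 hkP).symm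
  rw [sum_congr rfl h1, sum_comm, mul_sum]
  refine sum_congr rfl fun z hz => ?_
  rw [sum_comm, mul_sum]
  refine sum_congr rfl fun l hl => ?_
  rw [← sum_filter, sum_const, LemEa_cnt2 (hty z hz) (mem_erase.1 hl).2 (mem_erase.1 hl).1 hu,
    nsmul_eq_mul]

variable {V : Type*} [DecidableEq V] {G : SimpleGraph V} [DecidableRel G.Adj] {w : ℕ}

/-- the pointwise inequality -/
private theorem LemEa_point {R r u m : ℕ} {C : ℝ} (hC : 0 < C) {I : Finset (Fin w)}
    {B : Fin w → Finset V} {Z : Finset V} {ty : V → Fin w} (hI : I.card = R + u)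
    (hB : ∀ k, |((B k).card : ℝ) - m| ≤ C) (hZ : (Z.card : ℝ) ≤ C)
    (hval : Valid G B Z ty I u (R * m + r)) {P : Finset (Fin w)} (hPI : P ⊆ I) (hP : P.card = u)
    {f : Fin w → V} (hf : ∀ k, f k ∈ B k) :
    ∑ k ∈ I \ P, ((B k).card : ℝ) - ∑ k ∈ I \ P, ∑ l ∈ P, ((hs G (B k) (f l)).card : ℝ) +
        ∑ z ∈ Z.filter (fun z => ty z ∉ P), (1 - ∑ l ∈ P, na G (f l) z) ≤
      R * m + r + (R + 1) * C * ∑ k ∈ P, ∑ l ∈ P.erase k, na G (f k) (f l) := by
  have hcIP : (I \ P).card = R := by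
    rw [card_sdiff_of_subset hPI, hI, hP]
    omega
  have hDD0 : 0 ≤ ∑ k ∈ P, ∑ l ∈ P.erase k, na G (f k) (f l) :=
    sum_nonneg fun _ _ => sum_nonneg fun _ _ => na_nonneg _ _
  by_cases hcl : ∀ k ∈ P, ∀ l ∈ P, k ≠ l → G.Adj (f k) (f l)
  · have h1 := hval P hPI hP f (fun k _ => hf k) hcl
    have h1' : ∑ k ∈ I \ P, ((B k).filter fun y => ∀ l ∈ P, G.Adj (f l) y).card +
        (Z.filter fun z => ty z ∉ P ∧ ∀ l ∈ P, G.Adj (f l) z).card ≤ R * m + r := by
      convert h1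
    have h2 : ((∑ k ∈ I \ P, ((B k).filter fun y => ∀ l ∈ P, G.Adj (f l) y).card : ℕ) : ℝ) +
        ((Z.filter fun z => ty z ∉ P ∧ ∀ l ∈ P, G.Adj (f l) z).card : ℝ) ≤ R * m + r := by
      exact_mod_cast h1'
    have h3 : ∑ k ∈ I \ P, ((B k).card : ℝ) - ∑ k ∈ I \ P, ∑ l ∈ P, ((hs G (B k) (f l)).card : ℝ) ≤
        ((∑ k ∈ I \ P, ((B k).filter fun y => ∀ l ∈ P, G.Adj (f l) y).card : ℕ) : ℝ) := by
      push_cast
      rw [← sum_sub_distrib]
      refine sum_le_sum fun k _ => ?_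
      have h4 : (B k) ⊆ ((B k).filter fun y => ∀ l ∈ P, G.Adj (f l) y) ∪
          P.biUnion fun l => hs G (B k) (f l) := by
        intro y hy
        rw [mem_union, mem_filter, mem_biUnion]
        by_cases h : ∀ l ∈ P, G.Adj (f l) y
        · exact Or.inl ⟨hy, h⟩
        · push Not at h
          obtain ⟨l, hl, hl'⟩ := h
          exact Or.inr ⟨l, hl, mem_hs.2 ⟨hy, hl'⟩⟩
      have h5 := (card_le_card h4).trans ((card_union_le _ _).trans
        (Nat.add_le_add_left card_biUnion_le _))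
      have h6 : ((B k).card : ℝ) ≤ (((B k).filter fun y => ∀ l ∈ P, G.Adj (f l) y).card : ℝ) +
          ∑ l ∈ P, ((hs G (B k) (f l)).card : ℝ) := by
        exact_mod_cast h5
      linarith
    have h4 : ∑ z ∈ Z.filter (fun z => ty z ∉ P), (1 - ∑ l ∈ P, na G (f l) z) ≤
        ((Z.filter fun z => ty z ∉ P ∧ ∀ l ∈ P, G.Adj (f l) z).card : ℝ) := by
      rw [← filter_filter, card_filter]
      push_cast
      refine sum_le_sum fun z _ => ?_
      split_ifs with h
      · have : 0 ≤ ∑ l ∈ P, na G (f l) z := sum_nonneg fun _ _ => na_nonneg _ _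
        linarith
      · push Not at h
        obtain ⟨l, hl, hl'⟩ := h
        have h5 : na G (f l) z = 1 := by
          unfold na
          rw [if_neg hl']
        have h6 : na G (f l) z ≤ ∑ l ∈ P, na G (f l) z :=
          single_le_sum (f := fun l => na G (f l) z) (fun _ _ => na_nonneg _ _) hl
        linarith
    have h5 : 0 ≤ (R + 1) * C * ∑ k ∈ P, ∑ l ∈ P.erase k, na G (f k) (f l) := by positivity
    linarith
  · push Not at hcl
    obtain ⟨k, hk, l, hl, hkl, hadj⟩ := hcl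
    have h1 : 1 ≤ ∑ k ∈ P, ∑ l ∈ P.erase k, na G (f k) (f l) := by
      have h2 : na G (f k) (f l) = 1 := by
        unfold na
        rw [if_neg hadj]
      have h3 : na G (f k) (f l) ≤ ∑ l ∈ P.erase k, na G (f k) (f l) :=
        single_le_sum (f := fun l => na G (f k) (f l)) (fun _ _ => na_nonneg _ _)
          (mem_erase.2 ⟨hkl.symm, hl⟩)
      have h4 : ∑ l ∈ P.erase k, na G (f k) (f l) ≤ ∑ k ∈ P, ∑ l ∈ P.erase k, na G (f k) (f l) :=
        single_le_sum (f := fun k => ∑ l ∈ P.erase k, na G (f k) (f l))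
          (fun _ _ => sum_nonneg fun _ _ => na_nonneg _ _) hk
      linarith
    have h2 : ∑ k ∈ I \ P, ((B k).card : ℝ) ≤ R * (m + C) := by
      calc ∑ k ∈ I \ P, ((B k).card : ℝ) ≤ ∑ _k ∈ I \ P, ((m : ℝ) + C) :=
            sum_le_sum fun k _ => by
              have := (abs_le.1 (hB k)).2
              linarith
        _ = R * (m + C) := by rw [sum_const, hcIP, nsmul_eq_mul]
    have h3 : 0 ≤ ∑ k ∈ I \ P, ∑ l ∈ P, ((hs G (B k) (f l)).card : ℝ) :=
      sum_nonneg fun _ _ => sum_nonneg fun _ _ => Nat.cast_nonneg _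
    have h4 : ∑ z ∈ Z.filter (fun z => ty z ∉ P), (1 - ∑ l ∈ P, na G (f l) z) ≤ C := by
      calc ∑ z ∈ Z.filter (fun z => ty z ∉ P), (1 - ∑ l ∈ P, na G (f l) z)
          ≤ ∑ _z ∈ Z.filter (fun z => ty z ∉ P), (1 : ℝ) := sum_le_sum fun z _ => by
            have : 0 ≤ ∑ l ∈ P, na G (f l) z := sum_nonneg fun _ _ => na_nonneg _ _
            linarith
        _ = ((Z.filter (fun z => ty z ∉ P)).card : ℝ) := by rw [sum_const, nsmul_eq_mul, mul_one]
        _ ≤ (Z.card : ℝ) := by exact_mod_cast card_filter_le _ _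
        _ ≤ C := hZ
    have h5 : (R + 1) * C * 1 ≤ (R + 1) * C * ∑ k ∈ P, ∑ l ∈ P.erase k, na G (f k) (f l) :=
      mul_le_mul_of_nonneg_left h1 (by positivity)
    have h6 : (0 : ℝ) ≤ r := Nat.cast_nonneg r
    linear_combination h2 + h3 + h4 + h5 + h6

/-- the averaged inequality for one set `P` -/
private theorem LemEa_avgP {R r u m : ℕ} {C : ℝ} (hC : 0 < C) {I : Finset (Fin w)}
    {B : Fin w → Finset V} {Z : Finset V} {ty : V → Fin w} (hI : I.card = R + u)
    (hB : ∀ k, |((B k).card : ℝ) - m| ≤ C) (hZ : (Z.card : ℝ) ≤ C) (hm : C < m)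
    (hval : Valid G B Z ty I u (R * m + r)) {P : Finset (Fin w)} (hPI : P ⊆ I) (hP : P.card = u) :
    ∑ k ∈ I \ P, ((B k).card : ℝ) -
        (∑ k ∈ I \ P, ∑ l ∈ P, ∑ y ∈ B l, ((hs G (B k) y).card : ℝ)) / (m - C) +
        ∑ z ∈ Z.filter (fun z => ty z ∉ P), (1 - ∑ l ∈ P, (1 - al G B z l)) ≤
      R * m + r + (R + 1) * C * (2 * ee G B I / (m - C) ^ 2) := by
  have hmC : (0 : ℝ) < m - C := by linarith
  have hb : ∀ k, (m : ℝ) - C ≤ ((B k).card : ℝ) := fun k => by
    have := (abs_le.1 (hB k)).1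
    linarith
  have hb0 : ∀ k, (0 : ℝ) < ((B k).card : ℝ) := fun k => lt_of_lt_of_le hmC (hb k)
  obtain ⟨Q, hQ⟩ : ∃ Q : ℝ, Q = ∏ l, ((B l).card : ℝ) := ⟨_, rfl⟩
  have hQ0 : 0 < Q := by
    rw [hQ]
    exact prod_pos fun k _ => hb0 k
  have hcard : ((Fintype.piFinset B).card : ℝ) = Q := by
    rw [hQ, Fintype.card_piFinset]
    push_cast
    rfl
  have hone : ∀ (i : Fin w) (g : V → ℝ), ∑ f ∈ Fintype.piFinset B, g (f i) =
      Q * ((∑ y ∈ B i, g y) / (B i).card) := by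
    intro i g
    have h1 := one_sum B i g
    rw [← hQ] at h1
    have h2 := (hb0 i).ne'
    field_simp
    linarith
  have hpair : ∀ (i j : Fin w), i ≠ j → ∀ g : V → V → ℝ, ∑ f ∈ Fintype.piFinset B, g (f i) (f j) =
      Q * ((∑ y ∈ B i, ∑ z ∈ B j, g y z) / ((B i).card * (B j).card)) := by
    intro i j hij g
    have h1 := pair_sum B hij g
    rw [← hQ] at h1
    have h2 := (hb0 i).ne'
    have h3 := (hb0 j).ne'
    field_simp
    linarith
  -- sum over f
  have hsum := sum_le_sum fun f (hf : f ∈ Fintype.piFinset B) =>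
    LemEa_point (G := G) (r := r) hC hI hB hZ hval hPI hP (Fintype.mem_piFinset.1 hf)
  rw [sum_add_distrib, sum_sub_distrib, sum_const, nsmul_eq_mul, hcard, sum_add_distrib, sum_const,
    nsmul_eq_mul, hcard] at hsum
  -- the first term
  have hA : ∑ f ∈ Fintype.piFinset B, ∑ k ∈ I \ P, ∑ l ∈ P, ((hs G (B k) (f l)).card : ℝ) ≤
      Q * ((∑ k ∈ I \ P, ∑ l ∈ P, ∑ y ∈ B l, ((hs G (B k) y).card : ℝ)) / (m - C)) := by
    rw [sum_comm, sum_div, mul_sum]
    refine sum_le_sum fun k _ => ?_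
    rw [sum_comm, sum_div, mul_sum]
    refine sum_le_sum fun l _ => ?_
    rw [hone l fun y => ((hs G (B k) y).card : ℝ)]
    refine mul_le_mul_of_nonneg_left ?_ hQ0.le
    exact div_le_div_of_nonneg_left (sum_nonneg fun _ _ => Nat.cast_nonneg _) hmC (hb l)
  -- the second term
  have hZt : ∑ f ∈ Fintype.piFinset B, ∑ z ∈ Z.filter (fun z => ty z ∉ P),
      (1 - ∑ l ∈ P, na G (f l) z) =
      Q * ∑ z ∈ Z.filter (fun z => ty z ∉ P), (1 - ∑ l ∈ P, (1 - al G B z l)) := by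
    rw [sum_comm, mul_sum]
    refine sum_congr rfl fun z _ => ?_
    rw [sum_sub_distrib, sum_const, nsmul_eq_mul, hcard, sum_comm, mul_sub, mul_sum]
    congr 1
    refine sum_congr rfl fun l _ => ?_
    rw [hone l fun y => na G y z]
    congr 1
    have h1 : ∑ y ∈ B l, na G y z = ((hs G (B l) z).card : ℝ) := by
      rw [← sum_na]
      exact sum_congr rfl fun y _ => na_comm _ _
    have h2 : (((B l).filter fun y => G.Adj z y).card : ℝ) + ((hs G (B l) z).card : ℝ) =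
        ((B l).card : ℝ) := by
      unfold hs
      exact_mod_cast card_filter_add_card_filter_not (s := B l) (fun y => G.Adj z y)
    unfold al
    rw [h1]
    have h3 := (hb0 l).ne'
    field_simp
    linarith
  -- the last term
  have hD : ∑ f ∈ Fintype.piFinset B, (R + 1) * C * ∑ k ∈ P, ∑ l ∈ P.erase k, na G (f k) (f l) ≤
      Q * ((R + 1) * C * (2 * ee G B I / (m - C) ^ 2)) := by
    rw [← mul_sum, mul_left_comm]
    refine mul_le_mul_of_nonneg_left ?_ (by positivity)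
    rw [sum_comm]
    have h1 : 2 * ee G B I = ∑ i ∈ I, ∑ j ∈ I.erase i, ∑ z ∈ B i, ((hs G (B j) z).card : ℝ) := by
      unfold ee
      ring
    have h2 : ∑ i ∈ P, ∑ j ∈ P.erase i, ∑ z ∈ B i, ((hs G (B j) z).card : ℝ) ≤ 2 * ee G B I := by
      rw [h1]
      refine (sum_le_sum fun i _ => ?_).trans (sum_le_sum_of_subset_of_nonneg hPI fun i _ _ =>
        sum_nonneg fun _ _ => sum_nonneg fun _ _ => Nat.cast_nonneg _)
      exact sum_le_sum_of_subset_of_nonneg (erase_subset_erase _ hPI) fun _ _ _ =>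
        sum_nonneg fun _ _ => Nat.cast_nonneg _
    refine le_trans ?_ (mul_le_mul_of_nonneg_left (div_le_div_of_nonneg_right h2
      (by positivity : (0 : ℝ) ≤ (m - C) ^ 2)) hQ0.le)
    rw [sum_div, mul_sum]
    refine sum_le_sum fun k _ => ?_
    rw [sum_comm, sum_div, mul_sum]
    refine sum_le_sum fun l hl => ?_
    rw [hpair k l (mem_erase.1 hl).1.symm fun y z => na G y z]
    refine mul_le_mul_of_nonneg_left ?_ hQ0.le
    have h3 : ∑ y ∈ B k, ∑ z ∈ B l, na G y z = ∑ z ∈ B k, ((hs G (B l) z).card : ℝ) :=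
      sum_congr rfl fun y _ => sum_na _ _
    rw [h3]
    refine div_le_div_of_nonneg_left (sum_nonneg fun _ _ => Nat.cast_nonneg _) (by positivity) ?_
    rw [sq]
    exact mul_le_mul (hb k) (hb l) hmC.le (hb0 k).le
  rw [hZt] at hsum
  refine le_of_mul_le_mul_left ?_ hQ0
  rw [mul_add, mul_sub, mul_add]
  linarith

end LemEaAux

/-- Case (2): all `x̂_k > 0`.  Proof: `x_k + #{ty z = k} ≥ 1` for all `k ∈ I`, so
`n⁺ := ∑_{k ∈ I} x_k - r + |Z| ≥ u + 1`.  For `P ⊆ I`, `|P| = u`, and all `f ∈ Ω = piFinset B`: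
`∑_{k ∈ I \ P} b_k - rw f P + #{z : ty z ∉ P, z ~ f(P)} ≤ R m + r + C · (missing pairs in f(P))`
(validity, or trivially).  Sum over `f` and `P`, divide by `|Ω|`:
`C(w'-1,u) (∑ x_k + |Z|) - C(w',u) r - C(w'-2,u-1) ∑_z σ_z ≤ C(w'-2,u-1) 2 ee/(m-C) + C/m`,
`w' = R + u`.  Divide by `C(w'-2,u-1) = C(w'-1,u) u/(w'-1)`, use `σ_z ≤ -log π_z ≤ Lp (1 - π_z)`:
`2 ee/m (1 + C/m) ≥ ((w'-1)/u) (n⁺ - u + u/R) - Lp ∑ (1 - π_z) - C/m`, and
`((w'-1)/u) (n⁺ - u) ≥ Lp n⁺`, `(w'-1)/R ≥ 1/2`. -/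
theorem lemE_avg (w R r u : ℕ) (hr : r < R) (hu : 1 ≤ u) (C η₀ Lp : ℝ) (hC : 0 < C) (hη : 0 < η₀)
    (hLp : 2 ≤ Lp) (hLog : ∀ x : ℝ, η₀ / 2 ^ u ≤ x → x ≤ 1 → -Real.log x ≤ Lp * (1 - x))
    (hw : u * (u + 1) * Lp ≤ (R : ℝ) + u - 1) :
    ∃ C' : ℝ, 0 < C' ∧ ∃ m₀ : ℕ, ∀ m : ℕ, m₀ ≤ m →
      ∀ (V : Type) [DecidableEq V] (G : SimpleGraph V) [DecidableRel G.Adj]
        (I : Finset (Fin w)) (B : Fin w → Finset V) (Z : Finset V) (ty : V → Fin w),
        I.card = R + u → (∀ k, |((B k).card : ℝ) - m| ≤ C) → (Z.card : ℝ) ≤ C →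
        (∀ z ∈ Z, ty z ∈ I ∧ η₀ ≤ pz G B I ty z) → Valid G B Z ty I u (R * m + r) →
        ee G B I ≤ C * m →
        (∀ k ∈ I, 0 < ((B k).card : ℝ) - m + ∑ z ∈ Z.filter (fun z => ty z = k), pz G B I ty z) →
        m * (∑ k ∈ I, (((B k).card : ℝ) - m) - r + ∑ z ∈ Z, pz G B I ty z) ≤
          (1 + C' / m) * ee G B I := by
  have hR0 : (0 : ℝ) < R := by
    have : 0 < R := by omega
    exact_mod_cast this
  have hu0 : (1 : ℝ) ≤ u := by exact_mod_cast hu
  -- the constants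
  obtain ⟨K, hK⟩ : ∃ K : ℝ, K = ((R : ℝ) + u) * (R + u - 1) / (u * R) := ⟨_, rfl⟩
  have hw'1 : (R : ℝ) ≤ R + u - 1 := by linarith
  have hw'0 : (0 : ℝ) < R + u - 1 := by linarith
  have hK0 : 0 < K := by
    rw [hK]
    have : (0 : ℝ) < R + u := by linarith
    positivity
  obtain ⟨M, hM⟩ : ∃ M : ℝ, M = 8 * K * ((R + 1) * C) * C := ⟨_, rfl⟩
  have hM0 : 0 < M := by
    rw [hM]
    positivity
  refine ⟨2 * C, by positivity, ⌈2 * C + M + 1⌉₊, fun m hm V _ G _ I B Z ty hI hB hZ hpz hval hE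
    hpos => ?_⟩
  have hm3 : 2 * C + M + 1 ≤ m := by
    refine (Nat.le_ceil _).trans ?_
    exact_mod_cast hm
  have hmC : C < m := by linarith
  have hm2C : 2 * C ≤ m := by linarith
  have hm0 : (0 : ℝ) < m := hC.trans hmC
  have hmC' : (0 : ℝ) < m - C := by linarith
  obtain ⟨E, hEE⟩ : ∃ E : ℝ, E = ee G B I := ⟨_, rfl⟩
  have hE0 : 0 ≤ E := by
    rw [hEE]
    unfold ee
    positivity
  have hpz1 : ∀ z, pz G B I ty z ≤ 1 := fun z =>
    prod_le_one (fun _ _ => al_nonneg B z _) fun _ _ => al_le_one B z _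
  obtain ⟨X, hX⟩ : ∃ X : ℝ, X = ∑ k ∈ I, (((B k).card : ℝ) - m) := ⟨_, rfl⟩
  obtain ⟨S, hS⟩ : ∃ S : ℝ, S = ∑ z ∈ Z, pz G B I ty z := ⟨_, rfl⟩
  obtain ⟨σ, hσ⟩ : ∃ σ : ℝ, σ = ∑ z ∈ Z, sgE G B I ty z := ⟨_, rfl⟩
  obtain ⟨ζ, hζ⟩ : ∃ ζ : ℝ, ζ = (Z.card : ℝ) := ⟨_, rfl⟩
  -- `n⁺ ≥ u + 1`
  have hn : (R : ℝ) + u ≤ X + ζ := by
    have h1 : ∀ k ∈ I, (1 : ℝ) ≤ ((B k).card : ℝ) - m + ((Z.filter fun z => ty z = k).card : ℝ) := by
      intro k hk
      have h2 := hpos k hk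
      have h3 : ∑ z ∈ Z.filter (fun z => ty z = k), pz G B I ty z ≤
          ((Z.filter fun z => ty z = k).card : ℝ) := by
        calc ∑ z ∈ Z.filter (fun z => ty z = k), pz G B I ty z
            ≤ ∑ _z ∈ Z.filter (fun z => ty z = k), (1 : ℝ) := sum_le_sum fun z _ => hpz1 z
          _ = _ := by rw [sum_const, nsmul_eq_mul, mul_one]
      have h4 : (m : ℝ) < ((B k).card : ℝ) + ((Z.filter fun z => ty z = k).card : ℝ) := by linarith
      have h5 : m < (B k).card + (Z.filter fun z => ty z = k).card := by exact_mod_cast h4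
      have h6 : m + 1 ≤ (B k).card + (Z.filter fun z => ty z = k).card := h5
      have h7 : (m : ℝ) + 1 ≤ ((B k).card : ℝ) + ((Z.filter fun z => ty z = k).card : ℝ) := by
        exact_mod_cast h6
      linarith
    have h2 := sum_le_sum h1
    rw [sum_const, hI, nsmul_eq_mul, mul_one, sum_add_distrib, ← hX] at h2
    have h3 : ∑ k ∈ I, ((Z.filter fun z => ty z = k).card : ℝ) = ζ := by
      rw [hζ, card_eq_sum_card_fiberwise (f := ty) (s := Z) (t := I) fun z hz => (hpz z hz).1]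
      push_cast
      rfl
    rw [h3] at h2
    push_cast at h2
    exact h2
  -- `σ ≤ Lp (ζ - S)`
  have hσ' : σ ≤ Lp * (ζ - S) := by
    rw [hσ, hζ, hS]
    have h1 : (Z.card : ℝ) - ∑ z ∈ Z, pz G B I ty z = ∑ z ∈ Z, (1 - pz G B I ty z) := by
      rw [sum_sub_distrib, sum_const, nsmul_eq_mul, mul_one]
    rw [h1, mul_sum]
    refine sum_le_sum fun z hz => ?_
    have h2 : η₀ / 2 ^ u ≤ pz G B I ty z := by
      refine le_trans ?_ (hpz z hz).2
      exact div_le_self hη.le (one_le_pow₀ (by norm_num))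
    exact (sgE_le (hη.trans_le (hpz z hz).2)).trans (hLog _ h2 (hpz1 z))
  -- the average over `P`
  have hav := sum_le_sum fun P (hP : P ∈ I.powersetCard u) =>
    LemEa_avgP (G := G) (r := r) hC hI hB hZ hmC hval (mem_powersetCard.1 hP).1
      (mem_powersetCard.1 hP).2
  rw [sum_const, card_powersetCard, nsmul_eq_mul, sum_add_distrib, sum_sub_distrib, ← sum_div,
    LemEa_sum1, LemEa_sum2 hu fun k l => ∑ y ∈ B l, ((hs G (B k) y).card : ℝ)] at hav
  have hZs : ∑ P ∈ I.powersetCard u, ∑ z ∈ Z.filter (fun z => ty z ∉ P),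
      (1 - ∑ l ∈ P, (1 - al G B z l)) =
      ((I.card - 1).choose u : ℝ) * ζ - ((I.card - 2).choose (u - 1) : ℝ) * σ := by
    have h1 : ∀ P ∈ I.powersetCard u, ∑ z ∈ Z.filter (fun z => ty z ∉ P),
        (1 - ∑ l ∈ P, (1 - al G B z l)) = ∑ z ∈ Z.filter (fun z => ty z ∉ P), (1 : ℝ) -
          ∑ z ∈ Z.filter (fun z => ty z ∉ P), ∑ l ∈ P, (1 - al G B z l) :=
      fun P _ => sum_sub_distrib _ _
    rw [sum_congr rfl h1, sum_sub_distrib, LemEa_sum3 u Z ty (fun z hz => (hpz z hz).1),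
      LemEa_sum4 hu Z ty (fun z hz => (hpz z hz).1), sum_const, nsmul_eq_mul, mul_one, ← hζ, hσ]
    rfl
  have hEs : ∑ k ∈ I, ∑ l ∈ I.erase k, ∑ y ∈ B l, ((hs G (B k) y).card : ℝ) = 2 * E := by
    rw [hEE]
    unfold ee
    have h1 : ∀ k l : Fin w, ∑ y ∈ B l, ((hs G (B k) y).card : ℝ) =
        ∑ y ∈ B k, ((hs G (B l) y).card : ℝ) := by
      intro k l
      have h2 : ∀ (S T : Finset V), ∑ z ∈ S, ((hs G T z).card : ℝ) = ∑ z ∈ S, ∑ y ∈ T, na G z y :=
        fun S T => sum_congr rfl fun z _ => (sum_na T z).symm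
      rw [h2, h2, sum_comm]
      exact sum_congr rfl fun y _ => sum_congr rfl fun z _ => na_comm z y
    rw [sum_congr rfl fun k _ => sum_congr rfl fun l _ => h1 k l]
    ring
  rw [hZs, hEs, ← hEE] at hav
  -- the binomial coefficients
  obtain ⟨c₀, hc₀⟩ : ∃ c : ℝ, c = (I.card.choose u : ℝ) := ⟨_, rfl⟩
  obtain ⟨c₁, hc₁⟩ : ∃ c : ℝ, c = ((I.card - 1).choose u : ℝ) := ⟨_, rfl⟩
  obtain ⟨c₂, hc₂⟩ : ∃ c : ℝ, c = ((I.card - 2).choose (u - 1) : ℝ) := ⟨_, rfl⟩
  rw [← hc₀, ← hc₁, ← hc₂] at hav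
  have hc₂0 : 0 < c₂ := by
    rw [hc₂]
    have : 0 < (I.card - 2).choose (u - 1) := Nat.choose_pos (by omega)
    exact_mod_cast this
  have hc12 : ((R : ℝ) + u - 1) * c₂ = u * c₁ := by
    obtain ⟨v, rfl⟩ : ∃ v, u = v + 1 := ⟨u - 1, by omega⟩
    have h1 : I.card - 1 = (R + v - 1) + 1 := by omega
    have h2 : I.card - 2 = R + v - 1 := by omega
    have h3 := Nat.add_one_mul_choose_eq (R + v - 1) v
    rw [hc₁, hc₂, h1, h2, Nat.add_sub_cancel]
    have h4 : ((R + v - 1 + 1 : ℕ) : ℝ) * ((R + v - 1).choose v : ℝ) =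
        ((R + v - 1 + 1).choose (v + 1) : ℝ) * ((v + 1 : ℕ) : ℝ) := by exact_mod_cast h3
    have h5 : R + v - 1 + 1 = R + v := by omega
    rw [h5] at h4 ⊢
    push_cast at h4 ⊢
    have h6 : (R : ℝ) + (v + 1) - 1 = R + v := by ring
    rw [h6, h4]
    ring
  have hc01 : ((R : ℝ) + u) * c₁ = R * c₀ := by
    have h1 : I.card = (R + u - 1) + 1 := by omega
    have h3 := Nat.choose_mul_succ_eq (R + u - 1) u
    have h4 : ((R + u - 1).choose u : ℝ) * ((R + u - 1 + 1 : ℕ) : ℝ) =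
        ((R + u - 1 + 1).choose u : ℝ) * ((R + u - 1 + 1 - u : ℕ) : ℝ) := by exact_mod_cast h3
    have h5 : R + u - 1 + 1 = R + u := by omega
    have h6 : R + u - u = R := by omega
    rw [h5, h6] at h4
    rw [hc₀, hc₁, hI]
    push_cast at h4
    rw [mul_comm, h4]
    ring
  have hXb : ∑ k ∈ I, ((B k).card : ℝ) = X + (R + u) * m := by
    rw [hX, sum_sub_distrib, sum_const, hI, nsmul_eq_mul]
    push_cast
    ring
  rw [hXb] at hav
  -- `c₁ (R + u) m = c₀ R m`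
  have h1 : c₁ * (X + ζ) - c₀ * r - c₂ * σ ≤ c₂ * (2 * E) / (m - C) +
      c₀ * ((R + 1) * C * (2 * E / (m - C) ^ 2)) := by
    have h2 : c₁ * ((R + u) * m) = c₀ * (R * m) := by
      calc c₁ * ((R + u) * m) = ((R + u) * c₁) * m := by ring
        _ = _ := by rw [hc01]; ring
    linear_combination hav - h2
  have hc₁' : c₁ = ((R : ℝ) + u - 1) / u * c₂ := by
    rw [div_mul_eq_mul_div, hc12]
    field_simp
  have hc₀' : c₀ = K * c₂ := by
    have h2 : c₀ = (R + u) * c₁ / R := by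
      rw [hc01]
      field_simp
    rw [h2, hc₁', hK]
    field_simp
  rw [hc₀', hc₁'] at h1
  have h2 : ((R : ℝ) + u - 1) / u * (X + ζ) - K * r - σ ≤ 2 * E / (m - C) +
      K * ((R + 1) * C * (2 * E / (m - C) ^ 2)) := by
    refine le_of_mul_le_mul_left ?_ hc₂0
    calc c₂ * (((R : ℝ) + u - 1) / u * (X + ζ) - K * r - σ)
        = ((R : ℝ) + u - 1) / u * c₂ * (X + ζ) - K * c₂ * r - c₂ * σ := by ring
      _ ≤ _ := h1
      _ = _ := by ring
  -- the error term
  have h3 : K * ((R + 1) * C * (2 * E / (m - C) ^ 2)) ≤ 1 := by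
    have h4 : 2 * E / (m - C) ^ 2 ≤ 8 * C / m := by
      rw [div_le_div_iff₀ (by positivity) hm0]
      have h5 : (m : ℝ) ^ 2 ≤ 4 * (m - C) ^ 2 := by
        have h7 := pow_le_pow_left₀ hm0.le (by linarith : (m : ℝ) ≤ 2 * (m - C)) 2
        linear_combination h7
      have h6 : E ≤ C * m := by rw [hEE]; exact hE
      have h7 := mul_le_mul_of_nonneg_right h6 hm0.le
      have h8 := mul_le_mul_of_nonneg_left h5 hC.le
      linear_combination 2 * h7 + 2 * h8
    calc K * ((R + 1) * C * (2 * E / (m - C) ^ 2)) ≤ K * ((R + 1) * C * (8 * C / m)) := by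
          gcongr
      _ = M / m := by
          rw [hM]
          ring
      _ ≤ 1 := by
          rw [div_le_one hm0]
          linarith
  -- the main term
  have h4 : Lp * (X - r + ζ) + 1 ≤ ((R : ℝ) + u - 1) / u * (X + ζ) - K * r := by
    obtain ⟨n, hn'⟩ : ∃ n : ℝ, n = X - r + ζ := ⟨_, rfl⟩
    have hrR : (r : ℝ) ≤ R - 1 := by
      have : r + 1 ≤ R := hr
      have h5 : (r : ℝ) + 1 ≤ R := by exact_mod_cast this
      linarith
    have hr0 : (0 : ℝ) ≤ r := Nat.cast_nonneg r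
    have hn1 : (u : ℝ) + 1 ≤ n := by
      rw [hn']
      linarith
    obtain ⟨A, hA⟩ : ∃ A : ℝ, A = ((R : ℝ) + u - 1) / u := ⟨_, rfl⟩
    have hA1 : (u + 1) * Lp ≤ A := by
      rw [hA, le_div_iff₀ (by linarith)]
      linarith
    have hA0 : 0 < A := by
      rw [hA]
      positivity
    have hKA : K = A * ((R + u) / R) := by
      rw [hK, hA]
      field_simp
    have h5 : ((R : ℝ) + u) / R * r ≤ r + u - u / R := by
      have h6 : r + u - u / R = ((R : ℝ) * r + u * (R - 1)) / R := by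
        field_simp
        ring
      rw [h6, div_mul_eq_mul_div]
      refine div_le_div_of_nonneg_right ?_ hR0.le
      have h7 := mul_le_mul_of_nonneg_left hrR (by linarith : (0 : ℝ) ≤ u)
      linear_combination h7
    have h6 : A * (u / R) = ((R : ℝ) + u - 1) / R := by
      rw [hA]
      field_simp
    have h7 : 1 ≤ A * (u / R) := by
      rw [h6, le_div_iff₀ hR0]
      linarith
    have h8 : A * (n + r) - K * r ≥ A * (n - u) + A * (u / R) := by
      rw [hKA]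
      have h9 : A * (((R : ℝ) + u) / R * r) ≤ A * (r + u - u / R) :=
        mul_le_mul_of_nonneg_left h5 hA0.le
      linear_combination h9
    have h9 : Lp * n ≤ A * (n - u) := by
      have h10 : (u + 1) * Lp * (n - u) ≤ A * (n - u) :=
        mul_le_mul_of_nonneg_right hA1 (by linarith)
      have h11 : Lp * n ≤ (u + 1) * Lp * (n - u) := by
        have h12 : n ≤ (u + 1) * (n - u) := by
          have h13 := mul_nonneg (by linarith : (0 : ℝ) ≤ u) (by linarith : (0 : ℝ) ≤ n - u - 1)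
          linear_combination h13
        calc Lp * n ≤ Lp * ((u + 1) * (n - u)) := mul_le_mul_of_nonneg_left h12 (by linarith)
          _ = _ := by ring
      linarith
    have h10 : X + ζ = n + r := by
      rw [hn']
      ring
    rw [← hA, ← hn', h10]
    linarith
  have h5 : Lp * (X - r + S) ≤ 2 * E / (m - C) := by
    have h6 : Lp * (X - r + S) = Lp * (X - r + ζ) - Lp * (ζ - S) := by ring
    linarith
  rw [← hX, ← hS, ← hEE]
  have hEm : 0 ≤ (1 + 2 * C / m) * E := by positivity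
  rcases le_or_gt (X - r + S) 0 with hg | hg
  · exact (mul_nonpos_of_nonneg_of_nonpos hm0.le hg).trans hEm
  · have h6 : 2 * (X - r + S) ≤ 2 * E / (m - C) :=
      (mul_le_mul_of_nonneg_right hLp hg.le).trans h5
    rw [le_div_iff₀ hmC'] at h6
    have h7 : (X - r + S) * (m - C) ≤ E := by linarith
    have h8 : m * (X - r + S) ≤ E * (m / (m - C)) := by
      rw [← mul_div_assoc, le_div_iff₀ hmC']
      have h9 := mul_le_mul_of_nonneg_left h7 hm0.le
      linear_combination h9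
    have h9 : m / (m - C) ≤ 1 + 2 * C / m := by
      rw [div_le_iff₀ hmC']
      have h10 : (1 + 2 * C / m) * (m - C) = m + C - 2 * C ^ 2 / m := by
        field_simp
        ring
      rw [h10]
      have h11 : 2 * C ^ 2 / m ≤ C := by
        rw [div_le_iff₀ hm0]
        have h12 := mul_le_mul_of_nonneg_left hm2C hC.le
        linear_combination h12
      linarith
    calc m * (X - r + S) ≤ E * (m / (m - C)) := h8
      _ ≤ E * (1 + 2 * C / m) := mul_le_mul_of_nonneg_left h9 hE0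
      _ = _ := by ring

end H23CL
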