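import Pool.Agent.H23.CL.UpperA
import Pool.Agent.H57.LC.Lim

/-! The limit, all residues. -/

set_option autoImplicit false

namespace H23CL

open Finset Filter Topology H57E32 H57LC

/-- translation of the upper bound -/
theorem upper_kcA (u R r : ℕ) (hp : Par u R) (hr : r < R) :
    ∃ m₀ : ℕ, ∀ m : ℕ, m₀ ≤ m → ∀ (n : ℕ) (G : SimpleGraph (Fin n)),
      Allowed u (R * m + r) (R + u) G →
        (kc (R + u) G : ℝ) * rinv (R + u) R r m ≤ (kc u G : ℝ) := by
  classical
  obtain ⟨m₀, hm₀⟩ := upper_par u R r hp hr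
  refine ⟨m₀, fun m hm n G hG => ?_⟩
  rw [allowed_iff] at hG
  rw [kc_eq_clq, kc_eq_clq]
  refine hm₀ m hm (Fin n) G ?_ ?_
  · intro U hU
    rw [mem_clq] at hU
    have h1 : G.IsNClique u U := by
      rw [SimpleGraph.isNClique_iff]
      exact ⟨fun a ha b hb hab => hU.2 a ha b hb hab, hU.1.2⟩
    have h2 := hG.1 U h1
    have h3 : (cns G U).ncard = (H57LC.cn G U).card := by
      rw [← Set.ncard_coe_finset]
      congr 1
      ext v
      simp [cns, H57LC.mem_cn]
    rw [← h3]
    exact h2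
  · rw [eq_empty_iff_forall_notMem]
    intro A hA
    rw [mem_clq] at hA
    refine hG.2 A ?_
    rw [SimpleGraph.isNClique_iff]
    exact ⟨fun a ha b hb hab => hA.2 a ha b hb hab, hA.1.2⟩

/-- the extremal function and its limit, all residues -/
theorem main_limA (u R r : ℕ) (hp : Par u R) (hr : r < R) : ∃ m₀ : ℕ, ∀ m : ℕ, m₀ ≤ m →
      (∀ p : ℕ, exK u (R + u) (R * m + r) (R + u) p * kc u (TG (R + u) m r) ≤
        p * kc (R + u) (TG (R + u) m r)) ∧
      (∀ q : ℕ, exK u (R + u) (R * m + r) (R + u) (q * kc u (TG (R + u) m r)) =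
        q * kc (R + u) (TG (R + u) m r)) ∧
      Tendsto (fun p : ℕ => (exK u (R + u) (R * m + r) (R + u) p : ℝ) / p) atTop
        (𝓝 ((kc (R + u) (TG (R + u) m r) : ℝ) / kc u (TG (R + u) m r))) := by
  have hu := hp.hu
  obtain ⟨m₀, hm₀⟩ := upper_kcA u R r hp hr
  refine ⟨max m₀ 1, fun m hm => ?_⟩
  have hm1 : 1 ≤ m := le_trans (le_max_right _ _) hm
  have hr3 : r < R + u := by omega
  have hw : 1 ≤ R + u := by omega
  have hω : u ≤ R + u := by omega
  have htu : u < R + u := by omega
  obtain ⟨ha, hb⟩ := kc_TG_pos (u := u) (R := R) (m := m) (r := r) hm1 hw hr3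
  have hratio := kc_TG_ratio (u := u) (R := R) (m := m) (r := r) hm1 hw hr3
  have hal := TG_allowed (u := u) (R := R) (m := m) (r := r) hu hr3
  have hup : ∀ (n : ℕ) (G : SimpleGraph (Fin n)), Allowed u (R * m + r) (R + u) G →
      kc (R + u) G * kc u (TG (R + u) m r) ≤ kc u G * kc (R + u) (TG (R + u) m r) := by
    intro n G hG
    have h := hm₀ m (le_trans (le_max_left _ _) hm) n G hG
    have h1 : ((kc (R + u) G * kc u (TG (R + u) m r) : ℕ) : ℝ) ≤
        ((kc u G * kc (R + u) (TG (R + u) m r) : ℕ) : ℝ) := by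
      push_cast
      rw [← hratio]
      calc (kc (R + u) G : ℝ) * ((kc (R + u) (TG (R + u) m r) : ℝ) * rinv (R + u) R r m)
          = ((kc (R + u) G : ℝ) * rinv (R + u) R r m) * (kc (R + u) (TG (R + u) m r) : ℝ) := by
            ring
        _ ≤ (kc u G : ℝ) * (kc (R + u) (TG (R + u) m r) : ℝ) :=
            mul_le_mul_of_nonneg_right h (Nat.cast_nonneg _)
    exact_mod_cast h1
  have hle : ∀ p : ℕ, exK u (R + u) (R * m + r) (R + u) p * kc u (TG (R + u) m r) ≤
      p * kc (R + u) (TG (R + u) m r) := by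
    intro p
    obtain ⟨n, G, hG, hp, hN⟩ := exK_mem_of hu hω htu ha hup p
    have h := hup n G hG
    rw [hp, hN] at h
    exact h
  have hach := ach_of (u := u) (t := R + u) (Δ := R * m + r) (ω := R + u) _ hal
  refine ⟨hle, fun q => ?_, ?_⟩
  · apply le_antisymm
    · have h := hle (q * kc u (TG (R + u) m r))
      have h1 : exK u (R + u) (R * m + r) (R + u) (q * kc u (TG (R + u) m r)) *
          kc u (TG (R + u) m r) ≤ (q * kc (R + u) (TG (R + u) m r)) * kc u (TG (R + u) m r) := by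
        calc _ ≤ _ := h
          _ = _ := by ring
      exact Nat.le_of_mul_le_mul_right h1 ha
    · exact le_exK_of ha hup (hach.mul hu (by omega) q)
  · refine tendsto_of_bounds ha _ hle (fun p => ?_)
    exact le_exK_of ha hup (Ach.div hu hω htu hach p)

end H23CL
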