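import Pool.Agent.H23.CL.MainB

/-! Step 12 of note 3669: the case analysis. -/

set_option autoImplicit false

namespace H23CL

open Finset H57LC

set_option linter.unusedSectionVars false

/-- the sizes `x⁺` and the number of vertices of `Z₁` -/
private lemma sum_xP {V : Type} [Fintype V] [DecidableEq V] (G : SimpleGraph V)
    [DecidableRel G.Adj] {w : ℕ} (B : Fin w → Finset V) (ty : V → Fin w) (m : ℕ) (ε η₀ : ℝ) :
    ((∑ k, xP G B ty m ε η₀ k : ℤ) : ℝ) =
      ∑ k, (((B k).card : ℝ) - m) + ((Z1 G B ty ε η₀).card : ℝ) := by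
  have h1 : ∑ k, ((Z1 G B ty ε η₀).filter fun z => ty z = k).card = (Z1 G B ty ε η₀).card :=
    (card_eq_sum_card_fiberwise fun _ _ => mem_univ _).symm
  unfold xP
  push_cast
  rw [sum_add_distrib]
  congr 1
  exact_mod_cast h1

/-- case `y ≥ 1/3`, `n⁺ ≥ 0` -/
private lemma real_A {Rw nP' E S ck e0 δ τ W y T u A : ℝ}
    (hX : 0 < Rw * nP' - (Rw + ck - ck / 16) * E - ck / 2 * (e0 * S) + δ + 2 * τ * (W * y + T))
    (hEE : nP' ≤ E + δ) (hy : y = E + S) (hE : 0 ≤ E) (hS : 0 ≤ S) (hRw : 0 ≤ Rw) (hRw1 : Rw ≤ 1)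
    (hck : 0 < ck) (he0 : 0 < e0) (he1 : e0 ≤ 1) (hδ : 0 ≤ δ) (hδc : 16 * δ ≤ ck * e0 / 8)
    (hτ : 0 ≤ τ) (hW : 0 ≤ W) (hu : 1 ≤ u) (hτw : 2 * τ * W * (6 * u + 4) ≤ 1 / 8 * ck * e0)
    (hy3 : 1 / 3 ≤ y) (hT : T ≤ W * (2 * u + 1 + y + max 0 (-A))) (hA : 0 ≤ A) : False := by
  have hmax : max 0 (-A) = 0 := max_eq_left (by linarith)
  rw [hmax, add_zero] at hT
  set c : ℝ := ck * e0 / 8 with hc
  have hc0 : 0 < c := by positivity
  have h1 : Rw * nP' ≤ Rw * E + δ := by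
    calc Rw * nP' ≤ Rw * (E + δ) := mul_le_mul_of_nonneg_left hEE hRw
      _ = Rw * E + Rw * δ := by ring
      _ ≤ Rw * E + δ := by nlinarith
  have hck1 : ck * e0 ≤ ck := mul_le_of_le_one_right hck.le he1
  have h2 : 4 * c * E ≤ (ck - ck / 16) * E := by
    refine mul_le_mul_of_nonneg_right ?_ hE
    rw [hc]
    linarith
  have h3 : ck / 2 * (e0 * S) = 4 * c * S := by rw [hc]; ring
  have h4 : W * y + T ≤ W * ((6 * u + 5) * y) := by
    have h5 : (2 * u + 1) ≤ (6 * u + 3) * y := by nlinarith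
    have h6 : W * (2 * u + 1) ≤ W * ((6 * u + 3) * y) := mul_le_mul_of_nonneg_left h5 hW
    nlinarith
  have h5 : 2 * τ * (W * y + T) ≤ 2 * c * y := by
    have h6 : 2 * τ * (W * y + T) ≤ 2 * τ * (W * ((6 * u + 5) * y)) :=
      mul_le_mul_of_nonneg_left h4 (by positivity)
    have h7 : 2 * τ * (W * ((6 * u + 5) * y)) ≤ 2 * τ * (W * ((2 * (6 * u + 4)) * y)) := by
      refine mul_le_mul_of_nonneg_left ?_ (by positivity)
      refine mul_le_mul_of_nonneg_left ?_ hW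
      refine mul_le_mul_of_nonneg_right (by linarith) (by linarith)
    have h8 : 2 * τ * (W * ((2 * (6 * u + 4)) * y)) = 2 * (2 * τ * W * (6 * u + 4)) * y := by ring
    have h9 : 2 * (2 * τ * W * (6 * u + 4)) * y ≤ 2 * c * y := by
      refine mul_le_mul_of_nonneg_right ?_ (by linarith)
      rw [hc]
      linarith
    linarith
  have h10 : (Rw + ck - ck / 16) * E = Rw * E + (ck - ck / 16) * E := by ring
  rw [h10, h3] at hX
  have h11 : 4 * c * E + 4 * c * S = 4 * c * y := by rw [hy]; ring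
  have h12 : c * (1 / 3) ≤ c * y := mul_le_mul_of_nonneg_left hy3 hc0.le
  linarith

/-- case `n⁺ ≤ -1` -/
private lemma real_B {Rw nP' E S ck e0 δ τ W y T u A : ℝ}
    (hX : 0 < Rw * nP' - (Rw + ck - ck / 16) * E - ck / 2 * (e0 * S) + δ + 2 * τ * (W * y + T))
    (hnA : nP' ≤ A) (hy : y = E + S) (hE : 0 ≤ E) (hS : 0 ≤ S) (hRw2 : 1 / 2 ≤ Rw)
    (hck : 0 < ck) (he0 : 0 < e0) (he1 : e0 ≤ 1) (hckR : ck ≤ Rw) (hδ4 : 12 * δ ≤ 1)
    (hτ : 0 ≤ τ) (hW : 0 ≤ W) (hu : 1 ≤ u) (hτw : 2 * τ * W * (6 * u + 4) ≤ 1 / 8 * ck * e0)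
    (hT : T ≤ W * (2 * u + 1 + y + max 0 (-A))) (hA : A ≤ -1) : False := by
  have hmax : max 0 (-A) = -A := max_eq_right (by linarith)
  rw [hmax] at hT
  set c : ℝ := ck * e0 / 8 with hc
  have hc0 : 0 < c := by positivity
  have hy0 : 0 ≤ y := by rw [hy]; linarith
  have h1 : Rw * nP' ≤ Rw * A := mul_le_mul_of_nonneg_left hnA (by linarith)
  have hck1 : ck * e0 ≤ ck := mul_le_of_le_one_right hck.le he1
  have h2 : 4 * c * E ≤ (Rw + ck - ck / 16) * E := by
    refine mul_le_mul_of_nonneg_right ?_ hE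
    rw [hc]
    linarith
  have h3 : ck / 2 * (e0 * S) = 4 * c * S := by rw [hc]; ring
  have h4 : W * y + T ≤ W * ((6 * u + 4) * y) + W * ((6 * u + 4) * (-A)) := by
    have h5 : W * (2 * u + 1 + y + -A) + W * y ≤
        W * ((6 * u + 4) * y) + W * ((6 * u + 4) * (-A)) := by
      have h6 : (2 * u + 1 + y + -A) + y ≤ (6 * u + 4) * y + (6 * u + 4) * (-A) := by nlinarith
      have := mul_le_mul_of_nonneg_left h6 hW
      nlinarith
    linarith
  have h5 : 2 * τ * (W * y + T) ≤ c * y + c * (-A) := by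
    have h6 : 2 * τ * (W * y + T) ≤
        2 * τ * (W * ((6 * u + 4) * y) + W * ((6 * u + 4) * (-A))) :=
      mul_le_mul_of_nonneg_left h4 (by positivity)
    have h7 : 2 * τ * (W * ((6 * u + 4) * y) + W * ((6 * u + 4) * (-A))) =
        (2 * τ * W * (6 * u + 4)) * (y + -A) := by ring
    have h8 : (2 * τ * W * (6 * u + 4)) * (y + -A) ≤ c * (y + -A) := by
      refine mul_le_mul_of_nonneg_right ?_ (by linarith)
      rw [hc]
      linarith
    linarith
  rw [h3] at hX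
  have h11 : 4 * c * E + 4 * c * S = 4 * c * y := by rw [hy]; ring
  have h12 : c ≤ Rw / 8 := by rw [hc]; linarith
  have h13 : c * (-A) ≤ Rw / 8 * (-A) := mul_le_mul_of_nonneg_right h12 (by linarith)
  have h14 : 0 ≤ c * y := by positivity
  nlinarith

/-- case `n⁺ = 0`, all `T = 0` -/
private lemma real_D {Rw nP' E S ck e0 δ τ W y u : ℝ}
    (hX : 0 < Rw * nP' - (Rw + ck - ck / 16) * E - ck / 2 * (e0 * S) + δ + 2 * τ * (W * y + 0))
    (hnA : nP' ≤ 0) (hy : y = E + S) (hE : 0 ≤ E) (hS : 0 ≤ S) (hRw : 0 ≤ Rw)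
    (hck : 0 < ck) (he0 : 0 < e0) (he1 : e0 ≤ 1)
    (hτ : 0 ≤ τ) (hW : 0 ≤ W) (hu : 1 ≤ u) (hτw : 2 * τ * W * (6 * u + 4) ≤ 1 / 8 * ck * e0) :
    3 * (ck * e0 / 8) * y < δ := by
  set c : ℝ := ck * e0 / 8 with hc
  have hc0 : 0 < c := by positivity
  have hy0 : 0 ≤ y := by rw [hy]; linarith
  have h1 : Rw * nP' ≤ 0 := mul_nonpos_of_nonneg_of_nonpos hRw hnA
  have hck1 : ck * e0 ≤ ck := mul_le_of_le_one_right hck.le he1
  have h2 : 4 * c * E ≤ (Rw + ck - ck / 16) * E := by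
    refine mul_le_mul_of_nonneg_right ?_ hE
    rw [hc]
    linarith
  have h3 : ck / 2 * (e0 * S) = 4 * c * S := by rw [hc]; ring
  have h5 : 2 * τ * (W * y + 0) ≤ c * y := by
    have h6 : 2 * τ * (W * y + 0) ≤ 2 * τ * W * (6 * u + 4) * y := by
      have h7 : 0 ≤ 2 * τ * W * y := by positivity
      nlinarith
    have h8 : 2 * τ * W * (6 * u + 4) * y ≤ c * y := by
      refine mul_le_mul_of_nonneg_right ?_ hy0
      rw [hc]
      linarith
    linarith
  rw [h3] at hX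
  have h11 : 4 * c * E + 4 * c * S = 4 * c * y := by rw [hy]; ring
  linarith

theorem no_stp (u R r : ℕ) (hp : Par u R) (hr : r < R) :
    ∃ η₁ : ℝ, 0 < η₁ ∧ ∀ η : ℝ, 0 < η → η ≤ η₁ → ∀ C : ℝ, 0 < C → ∃ m₀ : ℕ, ∀ m : ℕ, m₀ ≤ m →
      ∀ (V : Type) [Fintype V] [DecidableEq V] (G : SimpleGraph V) [DecidableRel G.Adj]
        (𝒰 : Finset (Finset V)) (w : ℕ) (B : Fin w → Finset V) (ty : V → Fin w),
        Stp G 𝒰 B ty u R r m C η →
        (∀ 𝒮 ⊆ 𝒰, 𝒮.Nonempty →
          (rinv w R r m)⁻¹ * (𝒮.card : ℝ) < ((NN G 𝒰 𝒮 u w).card : ℝ)) → False := by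
  obtain ⟨ηa, hηa, hI1⟩ := ineq1 u R r hp hr
  obtain ⟨ηb, hηb, hI2⟩ := ineq2 u R r hp hr
  have hu1 : (1 : ℝ) ≤ u := by exact_mod_cast hp.hu
  have hR10 : (10 : ℝ) ≤ R := by exact_mod_cast hp.hR
  have huR : 2 * (u : ℝ) ≤ R := by exact_mod_cast hp.huR
  have hRu0 : (0 : ℝ) < (R : ℝ) + u := by linarith
  have hck : 0 < ck u R := by
    unfold ck
    have : (0 : ℝ) < (R : ℝ) + u - 1 := by linarith
    positivity
  have hckR : ck u R ≤ (R : ℝ) / (R + u) := by
    have h1 : (0 : ℝ) < (R : ℝ) + u - 1 := by linarith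
    have h2 : ck u R = (R : ℝ) / (R + u) * (u / ((R : ℝ) + u - 1)) := by
      unfold ck
      field_simp
    rw [h2]
    refine mul_le_of_le_one_right (by positivity) ?_
    rw [div_le_one h1]
    linarith
  have hRw1 : (R : ℝ) / (R + u) ≤ 1 := by
    rw [div_le_one hRu0]
    linarith
  have hRw2 : 1 / 2 ≤ (R : ℝ) / (R + u) := by
    rw [div_le_div_iff₀ (by norm_num) hRu0]
    linarith
  obtain ⟨he0, he1⟩ := eta0_pos hp
  have hτ : 0 < tau u R := Real.exp_pos _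
  refine ⟨min ηa ηb, lt_min hηa hηb, fun η hη hηle C hC => ?_⟩
  obtain ⟨D, hD, ma, hI1⟩ := hI1 η hη (hηle.trans (min_le_left _ _)) C hC
  obtain ⟨C8, hC8, m8, hE⟩ := lemE_app u R r hp hr η hη C hC
  obtain ⟨C9, hC9, m9, hA⟩ := av u R r hp hr η hη C hC
  set K : ℝ := ((R : ℝ) + u) ^ 2 * C with hK
  have hK0 : 0 < K := by positivity
  set D' : ℝ := D + C8 * K + C9 with hD'
  have hD'0 : 0 < D' := by positivity
  set c : ℝ := ck u R * eta0 u R / 8 with hcdef
  have hc0 : 0 < c := by positivity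
  obtain ⟨mb, hI2⟩ := hI2 η hη (hηle.trans (min_le_right _ _)) C hC (D' / c) (by positivity)
  refine ⟨max (max (max ma mb) (max m8 m9))
    (⌈16 * D' / c + 16 * D' / (c * η) + 12 * D'⌉₊ + 1), fun m hm V _ _ G _ 𝒰 w B ty h hmin => ?_⟩
  simp only [max_le_iff] at hm
  obtain ⟨⟨⟨hma, hmb⟩, hm8, hm9⟩, hm13⟩ := hm
  have hmN : 1 ≤ m := by omega
  have hm0 : (0 : ℝ) < m := by exact_mod_cast hmN
  have hmbig : 16 * D' / c + 16 * D' / (c * η) + 12 * D' ≤ m := by
    refine (Nat.le_ceil _).trans ?_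
    exact_mod_cast (by omega : ⌈16 * D' / c + 16 * D' / (c * η) + 12 * D'⌉₊ ≤ m)
  have hp1 : 0 ≤ 16 * D' / c := by positivity
  have hp2 : 0 ≤ 16 * D' / (c * η) := by positivity
  have hp4 : 0 ≤ 12 * D' := by positivity
  set δ : ℝ := D' / m with hδ
  have hδ0 : 0 < δ := by positivity
  have hδ1 : 16 * δ ≤ c := by
    have h1 : 16 * D' / c ≤ m := by linarith
    rw [div_le_iff₀ hc0] at h1
    rw [hδ, ← mul_div_assoc, div_le_iff₀ hm0]
    linarith
  have hδ2 : 16 * δ ≤ c * η := by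
    have h1 : 16 * D' / (c * η) ≤ m := by linarith
    rw [div_le_iff₀ (by positivity)] at h1
    rw [hδ, ← mul_div_assoc, div_le_iff₀ hm0]
    linarith
  have hδ4 : 12 * δ ≤ 1 := by
    rw [hδ, ← mul_div_assoc, div_le_iff₀ hm0]
    linarith
  obtain ⟨hE1, hE0⟩ := ee_le h
  have hwc : (w : ℝ) = (R : ℝ) + u := by rw [h.hw]; push_cast; ring
  have hEK : ee G B univ / m ≤ K := by
    rw [div_le_iff₀ hm0, hK, ← hwc]
    exact hE1
  have hEnn : 0 ≤ ee G B univ / m := by positivity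
  have hwu : u + 1 ≤ w := by
    have := hp.hR
    have := h.hw
    omega
  obtain ⟨P, hP, hPmin⟩ := exists_minP hwu (xP G B ty m (4 * w * η) (eta0 u R))
  have hX := hI1 m hma V G 𝒰 w B ty h hmin P hP
  -- facts on `Z₁`
  have hsg0 : ∀ z ∈ Z1 G B ty (4 * w * η) (eta0 u R), η / 4 ≤ sgm G B z := by
    intro z hz
    exact h.sgl z (mem_sdiff.1 (mem_Z1.1 hz).1).2
  have hS0 : 0 ≤ ∑ z ∈ Z1 G B ty (4 * w * η) (eta0 u R), sgm G B z :=
    sum_nonneg fun z hz => le_trans (by positivity) (hsg0 z hz)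
  have hAn : (nP G B ty m r (4 * w * η) (eta0 u R) : ℝ) = ∑ k, (((B k).card : ℝ) - m) - r +
      ((Z1 G B ty (4 * w * η) (eta0 u R)).card : ℝ) := by
    have h1 := sum_xP G B ty m (4 * w * η) (eta0 u R)
    unfold nP
    rw [Int.cast_sub, h1]
    push_cast
    ring
  have hnPi1 : ∑ k, (((B k).card : ℝ) - m) - r +
      ∑ z ∈ Z1 G B ty (4 * w * η) (eta0 u R), pz G B univ ty z ≤
      (nP G B ty m r (4 * w * η) (eta0 u R) : ℝ) := by
    rw [hAn]
    have h1 : ∑ z ∈ Z1 G B ty (4 * w * η) (eta0 u R), pz G B univ ty z ≤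
        ∑ z ∈ Z1 G B ty (4 * w * η) (eta0 u R), (1 : ℝ) := by
      refine sum_le_sum fun z _ => ?_
      unfold pz
      exact prod_le_one (fun k _ => al_nonneg B z k) (fun k _ => al_le_one B z k)
    rw [sum_const, nsmul_eq_mul, mul_one] at h1
    linarith
  have hnPi2 : (nP G B ty m r (4 * w * η) (eta0 u R) : ℝ) -
      ∑ z ∈ Z1 G B ty (4 * w * η) (eta0 u R), sgm G B z ≤
      ∑ k, (((B k).card : ℝ) - m) - r +
      ∑ z ∈ Z1 G B ty (4 * w * η) (eta0 u R), pz G B univ ty z := by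
    rw [hAn]
    have h1 : ∑ z ∈ Z1 G B ty (4 * w * η) (eta0 u R), ((1 : ℝ) - sgm G B z) ≤
        ∑ z ∈ Z1 G B ty (4 * w * η) (eta0 u R), pz G B univ ty z := by
      refine sum_le_sum fun z hz => ?_
      rw [sgm_eq (mem_Z1.1 hz).2.1]
      exact one_sub_le_pz B univ ty z
    rw [sum_sub_distrib, sum_const, nsmul_eq_mul, mul_one] at h1
    linarith
  -- Lemma E
  have hEE : ∑ k, (((B k).card : ℝ) - m) - r +
      ∑ z ∈ Z1 G B ty (4 * w * η) (eta0 u R), pz G B univ ty z ≤ ee G B univ / m + δ := by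
    have h1 := hE m hm8 V G 𝒰 w B ty h
    have h2 : ∑ k, (((B k).card : ℝ) - m) - r +
        ∑ z ∈ Z1 G B ty (4 * w * η) (eta0 u R), pz G B univ ty z ≤
        (1 + C8 / m) * (ee G B univ / m) := by
      rw [← mul_div_assoc, le_div_iff₀ hm0]
      linarith
    have h3 : C8 / m * (ee G B univ / m) ≤ δ := by
      calc C8 / m * (ee G B univ / m) ≤ C8 / m * K :=
            mul_le_mul_of_nonneg_left hEK (by positivity)
        _ = (C8 * K) / m := by ring
        _ ≤ δ := by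
            rw [hδ]
            refine div_le_div_of_nonneg_right ?_ hm0.le
            rw [hD']
            linarith
    linarith
  have hyES : yy G B ty m (4 * w * η) (eta0 u R) = ee G B univ / m +
      ∑ z ∈ Z1 G B ty (4 * w * η) (eta0 u R), sgm G B z := rfl
  have hy0 : 0 ≤ yy G B ty m (4 * w * η) (eta0 u R) := by rw [hyES]; positivity
  have hav : ∀ Q : Finset (Fin w), Q.card = u →
      ((∑ k, xP G B ty m (4 * w * η) (eta0 u R) k - r : ℤ) : ℝ) -
      ((∑ k ∈ Q, xP G B ty m (4 * w * η) (eta0 u R) k : ℤ) : ℝ) - δ ≤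
        yy G B ty m (4 * w * η) (eta0 u R) := by
    intro Q hQ
    have h1 := hA m hm9 V G 𝒰 w B ty h Q hQ
    have h2 : C9 / m ≤ δ := by
      rw [hδ]
      refine div_le_div_of_nonneg_right ?_ hm0.le
      rw [hD']
      have : 0 ≤ C8 * K := by positivity
      linarith
    unfold nP at h1
    linarith
  have hTb : ∀ i, max 0 (((∑ k ∈ P i, xP G B ty m (4 * w * η) (eta0 u R) k : ℤ) : ℝ) -
      (nP G B ty m r (4 * w * η) (eta0 u R) : ℝ)) ≤
      2 * u + 1 + yy G B ty m (4 * w * η) (eta0 u R) +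
        max 0 (-(nP G B ty m r (4 * w * η) (eta0 u R) : ℝ)) := fun i =>
    T_bound hp.hu hp.huR h.hw hr (xP G B ty m (4 * w * η) (eta0 u R)) _ δ hδ0.le (by linarith)
      hy0 hav P hP hPmin i
  have hsumT : ∑ i, (yy G B ty m (4 * w * η) (eta0 u R) +
      max 0 (((∑ k ∈ P i, xP G B ty m (4 * w * η) (eta0 u R) k : ℤ) : ℝ) -
        (nP G B ty m r (4 * w * η) (eta0 u R) : ℝ))) =
      ((R : ℝ) + u) * yy G B ty m (4 * w * η) (eta0 u R) +
      ∑ i, max 0 (((∑ k ∈ P i, xP G B ty m (4 * w * η) (eta0 u R) k : ℤ) : ℝ) -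
        (nP G B ty m r (4 * w * η) (eta0 u R) : ℝ)) := by
    rw [sum_add_distrib, sum_const, card_univ, Fintype.card_fin, nsmul_eq_mul, hwc]
  have hsumTb : ∑ i, max 0 (((∑ k ∈ P i, xP G B ty m (4 * w * η) (eta0 u R) k : ℤ) : ℝ) -
        (nP G B ty m r (4 * w * η) (eta0 u R) : ℝ)) ≤
      ((R : ℝ) + u) * (2 * u + 1 + yy G B ty m (4 * w * η) (eta0 u R) +
        max 0 (-(nP G B ty m r (4 * w * η) (eta0 u R) : ℝ))) := by
    refine (sum_le_sum fun i _ => hTb i).trans (le_of_eq ?_)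
    rw [sum_const, card_univ, Fintype.card_fin, nsmul_eq_mul, hwc]
  rw [hsumT] at hX
  have hDδ : D / m ≤ δ := by
    rw [hδ]
    refine div_le_div_of_nonneg_right ?_ hm0.le
    rw [hD']
    have : 0 ≤ C8 * K + C9 := by positivity
    linarith
  have hX' : 0 < (R : ℝ) / (R + u) * (∑ k, (((B k).card : ℝ) - m) - r +
              ∑ z ∈ Z1 G B ty (4 * w * η) (eta0 u R), pz G B univ ty z) -
            ((R : ℝ) / (R + u) + ck u R - ck u R / 16) * (ee G B univ / m) -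
            ck u R / 2 * (eta0 u R * ∑ z ∈ Z1 G B ty (4 * w * η) (eta0 u R), sgm G B z) + δ +
            2 * tau u R * (((R : ℝ) + u) * yy G B ty m (4 * w * η) (eta0 u R) +
      ∑ i, max 0 (((∑ k ∈ P i, xP G B ty m (4 * w * η) (eta0 u R) k : ℤ) : ℝ) -
        (nP G B ty m r (4 * w * η) (eta0 u R) : ℝ))) := by linarith
  clear hX
  rcases lt_trichotomy (nP G B ty m r (4 * w * η) (eta0 u R)) 0 with hA0 | hA0 | hA0
  · have hA1 : (nP G B ty m r (4 * w * η) (eta0 u R) : ℝ) ≤ -1 := by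
      exact_mod_cast (by omega : nP G B ty m r (4 * w * η) (eta0 u R) ≤ -1)
    exact real_B hX' hnPi1 hyES hEnn hS0 hRw2 hck he0 he1 hckR hδ4 hτ.le hRu0.le hu1 hp.p4 hsumTb
      hA1
  · have hA1 : (nP G B ty m r (4 * w * η) (eta0 u R) : ℝ) = 0 := by exact_mod_cast hA0
    have hxr : ∑ k, xP G B ty m (4 * w * η) (eta0 u R) k = r := by
      unfold nP at hA0
      linarith
    by_cases hex : ∃ i, 1 ≤ ∑ k ∈ P i, xP G B ty m (4 * w * η) (eta0 u R) k
    · obtain ⟨i, hi⟩ := hex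
      obtain ⟨Q, hQ1, hQ2⟩ := swap hp.hu h.hw hr (xP G B ty m (4 * w * η) (eta0 u R)) hxr (P i) i
        (hP i).1 (hP i).2 (fun Q hQ hQc => hPmin i Q hQ hQc) hi
      have h1 := hav Q hQ1
      have h2 : ((∑ k ∈ Q, xP G B ty m (4 * w * η) (eta0 u R) k : ℤ) : ℝ) ≤ -1 := by
        exact_mod_cast hQ2
      have h3 : ((∑ k, xP G B ty m (4 * w * η) (eta0 u R) k - r : ℤ) : ℝ) = 0 := by
        rw [hxr]
        simp
      have hy3 : 1 / 3 ≤ yy G B ty m (4 * w * η) (eta0 u R) := by linarith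
      exact real_A hX' hEE hyES hEnn hS0 (by linarith) hRw1 hck he0 he1 hδ0.le hδ1 hτ.le hRu0.le
        hu1 hp.p4 hy3 hsumTb (by rw [hA1])
    · push Not at hex
      have hT0 : ∑ i, max 0 (((∑ k ∈ P i, xP G B ty m (4 * w * η) (eta0 u R) k : ℤ) : ℝ) -
          (nP G B ty m r (4 * w * η) (eta0 u R) : ℝ)) = 0 := by
        refine sum_eq_zero fun i _ => max_eq_left ?_
        have h1 : ((∑ k ∈ P i, xP G B ty m (4 * w * η) (eta0 u R) k : ℤ) : ℝ) ≤ 0 := by
          exact_mod_cast (by have := hex i; omega :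
            ∑ k ∈ P i, xP G B ty m (4 * w * η) (eta0 u R) k ≤ 0)
        linarith
      rw [hT0] at hX'
      have hD1 := real_D hX' (by linarith) hyES hEnn hS0 (by linarith) hck he0 he1 hτ.le hRu0.le
        hu1 hp.p4
      rcases (Z1 G B ty (4 * w * η) (eta0 u R)).eq_empty_or_nonempty with hZ | hZ
      · refine hI2 m hmb V G 𝒰 w B ty h hmin P hP hZ ?_ ?_ ?_
        · have h1 : yy G B ty m (4 * w * η) (eta0 u R) = ee G B univ / m := by
            rw [hyES, hZ, sum_empty, add_zero]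
          rw [h1] at hD1
          have h2 : c * (ee G B univ / m) ≤ D' / m := by
            have : 0 ≤ c * (ee G B univ / m) := by positivity
            rw [← hcdef] at hD1
            linarith
          rw [le_div_iff₀ hc0]
          rw [← mul_div_assoc, div_le_div_iff_of_pos_right hm0] at h2
          linarith
        · rw [hA1, hZ] at hAn
          rw [card_empty] at hAn
          rw [sum_sub_distrib, sum_const, card_univ, Fintype.card_fin, nsmul_eq_mul] at hAn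
          have h1 : ((∑ k, (B k).card : ℕ) : ℝ) = ((w * m + r : ℕ) : ℝ) := by
            push_cast at hAn ⊢
            linarith
          exact_mod_cast h1
        · intro i
          rw [hA0]
          have := hex i
          omega
      · obtain ⟨z, hz⟩ := hZ
        have h1 : η / 4 ≤ ∑ z ∈ Z1 G B ty (4 * w * η) (eta0 u R), sgm G B z :=
          (hsg0 z hz).trans (single_le_sum (f := fun z => sgm G B z)
            (fun z hz => le_trans (by positivity) (hsg0 z hz)) hz)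
        have h2 : η / 4 ≤ yy G B ty m (4 * w * η) (eta0 u R) := by
          rw [hyES]
          linarith
        rw [← hcdef] at hD1
        have h3 : 3 * c * (η / 4) ≤ 3 * c * yy G B ty m (4 * w * η) (eta0 u R) :=
          mul_le_mul_of_nonneg_left h2 (by positivity)
        have h4 : 0 < c * η := by positivity
        linarith
  · have hA1 : (1 : ℝ) ≤ (nP G B ty m r (4 * w * η) (eta0 u R) : ℝ) := by
      exact_mod_cast (by omega : 1 ≤ nP G B ty m r (4 * w * η) (eta0 u R))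
    have hy3 : 1 / 3 ≤ yy G B ty m (4 * w * η) (eta0 u R) := by
      rw [hyES]
      linarith
    exact real_A hX' hEE hyES hEnn hS0 (by linarith) hRw1 hck he0 he1 hδ0.le hδ1 hτ.le hRu0.le
      hu1 hp.p4 hy3 hsumTb (by linarith)

end H23CL
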