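import Pool.Agent.H23.CL.NTieB

/-! Steps 10, 13 of note 3669: the cliques with at least two outside vertices. -/

set_option autoImplicit false

namespace H23CL

open Finset H57LC

private theorem NTie_card_zero {V : Type*} (p : V → Prop) (inst : DecidablePred p) (s : Finset V) (h : ∀ y ∈ s, ¬ p y) :
    (@Finset.filter V p inst s).card = 0 := by
  rw [card_eq_zero, filter_eq_empty_iff]
  exact h

/-- few missing pairs: every part has a vertex without missing pairs -/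
private theorem NTie_clean {V : Type} [Fintype V] [DecidableEq V] {G : SimpleGraph V} [DecidableRel G.Adj] {w : ℕ} {B : Fin w → Finset V}
    (i : Fin w) (h : 2 * ee G B univ < ((B i).card : ℝ)) : ∃ z ∈ B i, ∀ j, j ≠ i → hs G (B j) z = ∅ := by
  by_contra hcon
  push Not at hcon
  have h1 : ((B i).card : ℝ) ≤ ∑ z ∈ B i, ∑ j ∈ univ.erase i, ((hs G (B j) z).card : ℝ) := by
    have h2 : ∀ z ∈ B i, (1 : ℝ) ≤ ∑ j ∈ univ.erase i, ((hs G (B j) z).card : ℝ) := by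
      intro z hz
      obtain ⟨j, hj, hne⟩ := hcon z hz
      have h3 : (1 : ℝ) ≤ ((hs G (B j) z).card : ℝ) := by
        exact_mod_cast Finset.card_pos.2 hne
      refine h3.trans ?_
      exact single_le_sum (f := fun j => ((hs G (B j) z).card : ℝ)) (fun j _ => Nat.cast_nonneg _) (mem_erase.2 ⟨hj, mem_univ j⟩)
    calc ((B i).card : ℝ) = ∑ z ∈ B i, (1 : ℝ) := by simp
      _ ≤ _ := sum_le_sum h2
  have h2 : ∑ z ∈ B i, ∑ j ∈ univ.erase i, ((hs G (B j) z).card : ℝ) ≤ 2 * ee G B univ := by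
    rw [sum_comm]
    unfold ee
    rw [mul_div_cancel₀ _ (two_ne_zero)]
    exact single_le_sum (f := fun i => ∑ j ∈ univ.erase i, ∑ z ∈ B i, ((hs G (B j) z).card : ℝ))
      (fun i _ => sum_nonneg fun _ _ => sum_nonneg fun _ _ => Nat.cast_nonneg _) (mem_univ i)
  linarith

/-- few missing pairs and `n = 0`: `x(P) ≥ 0` for all `u`-sets `P`.  Proof: as `ee ≤ E₀` there is a
clique transversal `f` of `P` with `rw f P = 0`, use `val_point`. -/
theorem tie_nonneg (u R r : ℕ) (hp : Par u R) (hr : r < R) (η C E₀ : ℝ) (hC : 0 < C)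
    (hE : 0 < E₀) :
    ∃ m₀ : ℕ, ∀ m : ℕ, m₀ ≤ m →
      ∀ (V : Type) [Fintype V] [DecidableEq V] (G : SimpleGraph V) [DecidableRel G.Adj]
        (𝒰 : Finset (Finset V)) (w : ℕ) (B : Fin w → Finset V) (ty : V → Fin w),
        Stp G 𝒰 B ty u R r m C η → ee G B univ ≤ E₀ → ∑ k, (B k).card = w * m + r →
        ∀ P : Finset (Fin w), P.card = u → 0 ≤ ∑ k ∈ P, (((B k).card : ℤ) - m) := by
  obtain ⟨m₀, hm₀⟩ := exists_nat_gt (C + 2 * E₀)
  refine ⟨m₀, fun m hm V _ _ G _ 𝒰 w B ty h hee hsum P hP => ?_⟩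
  have hmm : (C + 2 * E₀ : ℝ) < m := hm₀.trans_le (by exact_mod_cast hm)
  have hcl : ∀ i : Fin w, ∃ z ∈ B i, ∀ j, j ≠ i → hs G (B j) z = ∅ := by
    intro i
    refine NTie_clean i ?_
    have h1 := (abs_le.1 (h.bs.size i)).1
    linarith
  choose f hf hfe using hcl
  have hadj : ∀ k l : Fin w, k ≠ l → ∀ y ∈ B l, G.Adj (f k) y := by
    intro k l hkl y hy
    by_contra hn
    have h1 : y ∈ hs G (B l) (f k) := mem_hs.2 ⟨hy, hn⟩
    rw [hfe k l (Ne.symm hkl)] at h1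
    exact absurd h1 (notMem_empty _)
  have h1 := val_point h hP (f := f) (fun k _ => hf k) (fun k _ l _ hkl => hadj k l hkl _ (hf l))
  have hrw : rw G B univ f P = 0 := by
    unfold rw
    refine sum_eq_zero fun k hk => ?_
    refine NTie_card_zero _ _ _ ?_
    rintro y hy ⟨l, hl, hn⟩
    refine hn (hadj l k ?_ y hy)
    rintro rfl
    exact (mem_sdiff.1 hk).2 hl
  rw [hrw, Nat.cast_zero, add_zero] at h1
  have h2 : (0 : ℝ) ≤ (R * m + r : ℝ) - ∑ k ∈ univ \ P, ((B k).card : ℝ) := le_trans (Nat.cast_nonneg _) h1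
  have h3 : ∑ k ∈ univ \ P, ((B k).card : ℝ) + ∑ k ∈ P, ((B k).card : ℝ) = w * m + r := by
    rw [sum_sdiff (subset_univ P)]
    exact_mod_cast hsum
  have h4 : ((∑ k ∈ P, (((B k).card : ℤ) - m) : ℤ) : ℝ) = ∑ k ∈ P, ((B k).card : ℝ) - u * m := by
    push_cast
    rw [sum_sub_distrib, sum_const, hP, nsmul_eq_mul]
  have h5 : (w : ℝ) = R + u := by exact_mod_cast h.hw
  have h6 : (0 : ℝ) ≤ ((∑ k ∈ P, (((B k).card : ℤ) - m) : ℤ) : ℝ) := by
    rw [h4]
    rw [h5] at h3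
    linarith
  exact_mod_cast h6

/-- Proof: every member `K` of `N2` has an endpoint of a missing pair in `K ∩ un B`: otherwise
`j ≤ |X_U| ≤ x(P)` (`val_point`, `rw = 0`) for all `u`-subsets `P` of the set of parts of
`K ∩ un B`, `j = |K \ un B|`, which contradicts `H23CL.swap3` (`H23CL.swap2`, `tie_nonneg`).  There
are at most `2 ee` such endpoints `v`, and the members of `N2` with a given `v` are at most
`∑_{U ∋ v} |X_U|^2 (R m + r)^(R-2) ≤ C m^(u-1) m^(R-2)` (`rw ≤ ee ≤ E₀`). -/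
theorem N2_tie (u R r : ℕ) (hp : Par u R) (hr : r < R) (η C E₀ : ℝ) (hη : 0 < η) (hC : 0 < C)
    (hE : 0 < E₀) :
    ∃ C' : ℝ, 0 < C' ∧ ∃ m₀ : ℕ, ∀ m : ℕ, m₀ ≤ m →
      ∀ (V : Type) [Fintype V] [DecidableEq V] (G : SimpleGraph V) [DecidableRel G.Adj]
        (𝒰 : Finset (Finset V)) (w : ℕ) (B : Fin w → Finset V) (ty : V → Fin w),
        Stp G 𝒰 B ty u R r m C η → ee G B univ ≤ E₀ → ∑ k, (B k).card = w * m + r →
        ((N2 G 𝒰 B u).card : ℝ) ≤ (m : ℝ) ^ (w - 1) * (C' / m) * (ee G B univ / m) := by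
  obtain ⟨m₁, hm₁⟩ := tie_nonneg u R r hp hr η C E₀ hC hE
  have hu := hp.hu
  have hR := hp.hR
  have hu0 : (0 : ℝ) < u := by exact_mod_cast hu
  have hR0 : (0 : ℝ) < R := by
    have : 0 < R := by omega
    exact_mod_cast this
  set c : ℝ := r + R * C + 2 * E₀ with hc
  have hc0 : 0 < c := by positivity
  set N : ℕ := ⌈c⌉₊ with hN
  set D : ℝ := 2 * (2 * ((R : ℝ) + u)) ^ (u - 1) * ((N : ℝ) ^ 2 * (2 * (R : ℝ)) ^ (R - 2)) with hD
  have hN0 : (0 : ℝ) < N := lt_of_lt_of_le hc0 (Nat.le_ceil c)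
  have hD0 : 0 < D := by positivity
  refine ⟨D, hD0, max m₁ 1, ?_⟩
  intro m hm V _ _ G _ 𝒰 w B ty h he hsz
  have hm1 : m₁ ≤ m := (le_max_left _ _).trans hm
  have hm2 : 1 ≤ m := (le_max_right _ _).trans hm
  have hm0 : (0 : ℝ) < m := by exact_mod_cast hm2
  have hnn := hm₁ m hm1 V G 𝒰 w B ty h he hsz
  have hee := (ee_le h).2
  have hX : ∀ U ∈ UC 𝒰 B, (cn G U \ un B).card ≤ N := by
    intro U hU
    have h1 := NTie_X h hu hU
    have h2 : ((cn G U \ un B).card : ℝ) ≤ c := by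
      rw [hc]
      linarith
    exact_mod_cast h2.trans (Nat.le_ceil c)
  have h1 := NTie_card h hu hr hsz hnn N hX
  have h2 : ((N2 G 𝒰 B u).card : ℝ) ≤ ((badv G B).card : ℝ) *
      (((w : ℝ) * m + r) ^ (u - 1) * ((N : ℝ) ^ 2 * ((R : ℝ) * m + r) ^ (R - 2))) := by
    exact_mod_cast h1
  have hrR : (r : ℝ) ≤ R := by exact_mod_cast hr.le
  have hm1' : (1 : ℝ) ≤ m := by exact_mod_cast hm2
  have hw' : (w : ℝ) = R + u := by
    rw [h.hw]
    push_cast
    ring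
  have h3 : ((w : ℝ) * m + r) ^ (u - 1) ≤ (2 * ((R : ℝ) + u) * m) ^ (u - 1) := by
    refine pow_le_pow_left₀ (by positivity) ?_ _
    rw [hw']
    nlinarith
  have h4 : ((R : ℝ) * m + r) ^ (R - 2) ≤ (2 * (R : ℝ) * m) ^ (R - 2) := by
    refine pow_le_pow_left₀ (by positivity) ?_ _
    nlinarith
  have h5 := NTie_badv (G := G) B
  have h6 : ((N2 G 𝒰 B u).card : ℝ) ≤ (2 * ee G B univ) *
      ((2 * ((R : ℝ) + u) * m) ^ (u - 1) * ((N : ℝ) ^ 2 * (2 * (R : ℝ) * m) ^ (R - 2))) := by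
    refine h2.trans (mul_le_mul h5 ?_ (by positivity) (by positivity))
    exact mul_le_mul h3 (mul_le_mul_of_nonneg_left h4 (by positivity)) (by positivity)
      (by positivity)
  refine h6.trans (le_of_eq ?_)
  have hexp : w - 1 = (u - 1) + (R - 2) + 2 := by
    rw [h.hw]
    omega
  rw [hexp, hD, mul_pow (2 * ((R : ℝ) + u)) (m : ℝ), mul_pow (2 * (R : ℝ)) (m : ℝ), pow_add, pow_add]
  field_simp

end H23CL
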