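import Pool.Agent.H23.CL.Val
import Pool.Agent.H23.CL.IndB

/-! Steps 10, 13 of note 3669: the cliques with at least two outside vertices. -/

set_option autoImplicit false

namespace H23CL

open Finset H57LC

set_option linter.unusedSectionVars false

/-- sums over a family of cliques inside the parts by tuples -/
private lemma NTwo_sum_fam {V : Type*} [DecidableEq V] {G : SimpleGraph V} [DecidableRel G.Adj]
    {w s : ℕ} {B : Fin w → Finset V} (hdisj : ∀ i j, i ≠ j → Disjoint (B i) (B j))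
    (hind : ∀ i, ∀ a ∈ B i, ∀ b ∈ B i, ¬ G.Adj a b) (hne : ∀ k, (B k).Nonempty)
    (W : Finset (Finset V)) (hW : ∀ X ∈ W, X ⊆ un B ∧ X.card = s ∧ IsCl G X)
    (g : Finset V → ℝ) :
    ∑ X ∈ W, g X = ∑ P ∈ powersetCard s (univ : Finset (Fin w)),
      (∑ f ∈ (Fintype.piFinset B).filter fun f => P.image f ∈ W, g (P.image f)) /
        ∏ k ∈ univ \ P, ((B k).card : ℝ) := by
  classical
  have h1 : ∀ X ∈ W, g X = ∑ P ∈ powersetCard s (univ : Finset (Fin w)),
      (∑ f ∈ (Fintype.piFinset B).filter fun f => P.image f = X, g (P.image f)) /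
        ∏ k ∈ univ \ P, ((B k).card : ℝ) := by
    intro X hX
    have h2 := card_fam (G := G) (s := s) hdisj hind hne {X} (fun Y hY => by
      rw [mem_singleton] at hY
      rw [hY]
      exact hW X hX)
    rw [card_singleton] at h2
    have h3 : g X = g X * ((1 : ℕ) : ℝ) := by simp
    rw [h3, h2, mul_sum]
    refine sum_congr rfl fun P _ => ?_
    rw [mul_div_assoc']
    congr 1
    have h4 : (Fintype.piFinset B).filter (fun f => P.image f ∈ ({X} : Finset (Finset V))) =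
        (Fintype.piFinset B).filter (fun f => P.image f = X) :=
      filter_congr fun f _ => mem_singleton
    rw [h4]
    have h5 : ∑ f ∈ (Fintype.piFinset B).filter (fun f => P.image f = X), g (P.image f) =
        ∑ _f ∈ (Fintype.piFinset B).filter (fun f => P.image f = X), g X :=
      sum_congr rfl fun f hf => by rw [(mem_filter.1 hf).2]
    rw [h5, sum_const, nsmul_eq_mul, mul_comm]
  rw [sum_congr rfl h1, sum_comm]
  refine sum_congr rfl fun P _ => ?_
  rw [← sum_div]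
  congr 1
  rw [← sum_fiberwise_of_maps_to (s := (Fintype.piFinset B).filter fun f => P.image f ∈ W)
    (t := W) (g := fun f => P.image f) (fun f hf => (mem_filter.1 hf).2)]
  refine sum_congr rfl fun X hX => ?_
  refine sum_congr ?_ fun _ _ => rfl
  ext f
  simp only [mem_filter]
  constructor
  · rintro ⟨h1, h2⟩; exact ⟨⟨h1, h2 ▸ hX⟩, h2⟩
  · rintro ⟨⟨h1, -⟩, h2⟩; exact ⟨h1, h2⟩

/-- the number of `R`-subsets with at least two elements in `X` -/
private lemma NTwo_sub {V : Type*} [DecidableEq V] (S X : Finset V) {R N : ℕ}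
    (hN : S.card ≤ N) :
    ((S.powersetCard R).filter fun T => 2 ≤ (T ∩ X).card).card ≤ X.card ^ 2 * N ^ (R - 2) := by
  classical
  have h1 : ((S.powersetCard R).filter fun T => 2 ≤ (T ∩ X).card) ⊆
      ((X.powersetCard 2) ×ˢ (S.powersetCard (R - 2))).image fun p => p.1 ∪ p.2 := by
    intro T hT
    obtain ⟨h1, h2⟩ := mem_filter.1 hT
    obtain ⟨h3, h4⟩ := mem_powersetCard.1 h1
    obtain ⟨A, hA, hA2⟩ := exists_subset_card_eq h2
    have hAT : A ⊆ T := hA.trans inter_subset_left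
    refine mem_image.2 ⟨(A, T \ A), mem_product.2 ⟨?_, ?_⟩, ?_⟩
    · exact mem_powersetCard.2 ⟨hA.trans inter_subset_right, hA2⟩
    · refine mem_powersetCard.2 ⟨sdiff_subset.trans h3, ?_⟩
      show (T \ A).card = R - 2
      rw [card_sdiff_of_subset hAT, h4, hA2]
    · show A ∪ T \ A = T
      exact union_sdiff_of_subset hAT
  calc _ ≤ (((X.powersetCard 2) ×ˢ (S.powersetCard (R - 2))).image fun p => p.1 ∪ p.2).card :=
        card_le_card h1
    _ ≤ ((X.powersetCard 2) ×ˢ (S.powersetCard (R - 2))).card := card_image_le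
    _ = X.card.choose 2 * S.card.choose (R - 2) := by
        rw [card_product, card_powersetCard, card_powersetCard]
    _ ≤ X.card ^ 2 * N ^ (R - 2) := by
        refine Nat.mul_le_mul (Nat.choose_le_pow _ _) ?_
        exact (Nat.choose_le_pow _ _).trans (Nat.pow_le_pow_left hN _)

/-- the number of members of `N2` -/
private lemma NTwo_card {V : Type} [Fintype V] [DecidableEq V] {G : SimpleGraph V}
    [DecidableRel G.Adj] {𝒰 : Finset (Finset V)} {w u R r m : ℕ} {B : Fin w → Finset V}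
    {ty : V → Fin w} {C η : ℝ} (h : Stp G 𝒰 B ty u R r m C η) :
    (N2 G 𝒰 B u).card ≤
      ∑ U ∈ UC 𝒰 B, (cn G U \ un B).card ^ 2 * (R * m + r) ^ (R - 2) := by
  classical
  have hsub : N2 G 𝒰 B u ⊆ (UC 𝒰 B).biUnion fun U =>
      (((cn G U).powersetCard R).filter fun T => 2 ≤ (T ∩ (cn G U \ un B)).card).image
        fun T => U ∪ T := by
    intro K hK
    obtain ⟨h1, h2, h3⟩ := mem_filter.1 hK
    obtain ⟨h4, h5⟩ := mem_filter.1 h1
    obtain ⟨⟨-, hKc⟩, hKcl⟩ := mem_clq.1 h4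
    obtain ⟨U, hU, hUc⟩ := exists_subset_card_eq h3
    have hUK : U ⊆ K := hU.trans inter_subset_left
    have hUB : U ⊆ un B := hU.trans inter_subset_right
    refine mem_biUnion.2 ⟨U, mem_filter.2 ⟨h5 (mem_powersetCard.2 ⟨hUK, hUc⟩), hUB⟩, ?_⟩
    refine mem_image.2 ⟨K \ U, mem_filter.2 ⟨mem_powersetCard.2 ⟨?_, ?_⟩, ?_⟩,
      union_sdiff_of_subset hUK⟩
    · intro z hz
      obtain ⟨hz1, hz2⟩ := mem_sdiff.1 hz
      exact mem_cn.2 fun a ha => hKcl a (hUK ha) z hz1 fun e => hz2 (e ▸ ha)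
    · rw [card_sdiff_of_subset hUK, hKc, hUc, h.hw]
      omega
    · refine h2.trans (card_le_card ?_)
      intro z hz
      obtain ⟨hz1, hz2⟩ := mem_sdiff.1 hz
      have hzU : z ∉ U := fun e => hz2 (hUB e)
      refine mem_inter.2 ⟨mem_sdiff.2 ⟨hz1, hzU⟩, mem_sdiff.2 ⟨?_, hz2⟩⟩
      exact mem_cn.2 fun a ha => hKcl a (hUK ha) z hz1 fun e => hzU (e ▸ ha)
  refine (card_le_card hsub).trans (card_biUnion_le.trans (sum_le_sum fun U hU => ?_))
  refine card_image_le.trans (NTwo_sub _ _ ?_)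
  exact h.val U (h.sub (mem_filter.1 hU).1)

/-- the bound for one set of parts -/
private lemma NTwo_part {V : Type} [Fintype V] [DecidableEq V] {G : SimpleGraph V}
    [DecidableRel G.Adj] {𝒰 : Finset (Finset V)} {w u R r m : ℕ} {B : Fin w → Finset V}
    {ty : V → Fin w} {C η : ℝ} (h : Stp G 𝒰 B ty u R r m C η) (hη : 0 < η) (hC : 0 < C)
    (hm : 1 ≤ m) (hmC : 2 * C ≤ m) {P : Finset (Fin w)}
    (hP : P.card = u) :
    (∑ f ∈ (Fintype.piFinset B).filter fun f => P.image f ∈ UC 𝒰 B,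
      ((cn G (P.image f) \ un B).card : ℝ) ^ 2) / ∏ k ∈ univ \ P, ((B k).card : ℝ) ≤
      (2 * m : ℝ) ^ u * (2 * ((r : ℝ) + R * C) ^ 2 + 8 * u * R * η * ee G B univ) := by
  classical
  have hm0 : (0 : ℝ) < m := by exact_mod_cast hm
  have hlo : ∀ k, (m : ℝ) - C ≤ ((B k).card : ℝ) := fun k => by
    have := abs_le.1 (h.bs.size k)
    linarith [this.1]
  have hhi : ∀ k, ((B k).card : ℝ) ≤ 2 * m := fun k => by
    have := abs_le.1 (h.bs.size k)
    linarith [this.2]
  have hb₀ : (0 : ℝ) < (m : ℝ) / 2 := by linarith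
  have hb : ∀ k, (m : ℝ) / 2 ≤ ((B k).card : ℝ) := fun k => by linarith [hlo k]
  have hbpos : ∀ k, (0 : ℝ) < ((B k).card : ℝ) := fun k => lt_of_lt_of_le hb₀ (hb k)
  have hPc : (univ \ P).card = R := by
    rw [card_sdiff_of_subset (subset_univ P), card_univ, Fintype.card_fin, hP, h.hw]
    omega
  -- the bound for one tuple
  have hpt : ∀ f ∈ (Fintype.piFinset B).filter (fun f => P.image f ∈ UC 𝒰 B),
      ((cn G (P.image f) \ un B).card : ℝ) ^ 2 ≤
        2 * ((r : ℝ) + R * C) ^ 2 + 4 * u * R * η * m * (rw G B univ f P : ℝ) := by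
    intro f hf
    obtain ⟨hf1, hf2⟩ := mem_filter.1 hf
    have hfB := Fintype.mem_piFinset.1 hf1
    have hUcl := mem_clq.1 (h.sub (mem_filter.1 hf2).1)
    have hcl : ∀ k ∈ P, ∀ l ∈ P, k ≠ l → G.Adj (f k) (f l) := by
      intro k hk l hl hkl
      refine hUcl.2 _ (mem_image_of_mem f hk) _ (mem_image_of_mem f hl) ?_
      intro e
      have h1 := hfB k
      rw [e] at h1
      exact disjoint_left.1 (h.bs.disj k l hkl) h1 (hfB l)
    have hX : cn G (P.image f) \ un B = (outs B).filter fun z => ∀ l ∈ P, G.Adj (f l) z := by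
      ext z
      rw [mem_sdiff, mem_cn, mem_filter, outs, mem_sdiff]
      constructor
      · rintro ⟨h1, h2⟩
        exact ⟨⟨mem_univ _, h2⟩, fun l hl => h1 _ (mem_image_of_mem f hl)⟩
      · rintro ⟨⟨-, h2⟩, h1⟩
        refine ⟨fun a ha => ?_, h2⟩
        obtain ⟨l, hl, rfl⟩ := mem_image.1 ha
        exact h1 l hl
    have hv := val_point h hP (fun k _ => hfB k) hcl
    rw [← hX] at hv
    have hsum : (R : ℝ) * (m - C) ≤ ∑ k ∈ univ \ P, ((B k).card : ℝ) := by
      calc (R : ℝ) * (m - C) = ∑ _k ∈ univ \ P, ((m : ℝ) - C) := by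
            rw [sum_const, nsmul_eq_mul, hPc]
        _ ≤ _ := sum_le_sum fun k _ => hlo k
    have hX1 : ((cn G (P.image f) \ un B).card : ℝ) ≤
        ((r : ℝ) + R * C) + (rw G B univ f P : ℝ) := by
      have e1 : (R : ℝ) * (m - C) = R * m - R * C := by ring
      linarith
    have hrw : (rw G B univ f P : ℝ) ≤ 2 * u * R * η * m := by
      unfold rw
      push_cast
      have h1 : ∀ k ∈ univ \ P,
          ((((B k).filter fun y => ∃ l ∈ P, ¬ G.Adj (f l) y).card : ℕ) : ℝ) ≤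
            u * (2 * η * m) := by
        intro k hk
        have hkP := (mem_sdiff.1 hk).2
        have h2 : ((B k).filter fun y => ∃ l ∈ P, ¬ G.Adj (f l) y) ⊆
            P.biUnion fun l => hs G (B k) (f l) := by
          intro y hy
          obtain ⟨hy1, l, hl, hy2⟩ := mem_filter.1 hy
          exact mem_biUnion.2 ⟨l, hl, mem_hs.2 ⟨hy1, hy2⟩⟩
        have h3 := (card_le_card h2).trans card_biUnion_le
        have h4 : ((((B k).filter fun y => ∃ l ∈ P, ¬ G.Adj (f l) y).card : ℕ) : ℝ) ≤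
            ∑ l ∈ P, ((hs G (B k) (f l)).card : ℝ) := by
          exact_mod_cast h3
        refine h4.trans ?_
        calc ∑ l ∈ P, ((hs G (B k) (f l)).card : ℝ) ≤ ∑ _l ∈ P, (2 * η * m : ℝ) := by
              refine sum_le_sum fun l hl => h.bs.row l k ?_ _ (hfB l)
              rintro rfl
              exact hkP hl
          _ = u * (2 * η * m) := by rw [sum_const, nsmul_eq_mul, hP]
      calc _ ≤ ∑ _k ∈ univ \ P, ((u : ℝ) * (2 * η * m)) := by
            refine sum_le_sum fun k hk => le_trans (le_of_eq ?_) (h1 k hk)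
            congr!
        _ = 2 * u * R * η * m := by
            rw [sum_const, nsmul_eq_mul, hPc]
            ring
    have hrw0 : (0 : ℝ) ≤ (rw G B univ f P : ℝ) := Nat.cast_nonneg _
    have hX0 : (0 : ℝ) ≤ ((cn G (P.image f) \ un B).card : ℝ) := Nat.cast_nonneg _
    set x : ℝ := ((cn G (P.image f) \ un B).card : ℝ)
    set c : ℝ := (r : ℝ) + R * C
    set y : ℝ := (rw G B univ f P : ℝ)
    have h5 : x ^ 2 ≤ (c + y) ^ 2 := pow_le_pow_left₀ hX0 hX1 2
    have h6 : (c + y) ^ 2 ≤ 2 * c ^ 2 + 2 * y ^ 2 := by nlinarith [sq_nonneg (c - y)]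
    have h7 : y ^ 2 ≤ (2 * u * R * η * m) * y := by
      rw [sq]
      exact mul_le_mul_of_nonneg_right hrw hrw0
    calc x ^ 2 ≤ 2 * c ^ 2 + 2 * y ^ 2 := h5.trans h6
      _ ≤ 2 * c ^ 2 + 2 * ((2 * u * R * η * m) * y) := by linarith
      _ = _ := by ring
  -- the sum over the tuples
  set Q : ℝ := ∏ k, ((B k).card : ℝ) with hQ
  have hcardpi : ((Fintype.piFinset B).card : ℝ) = Q := by
    rw [Fintype.card_piFinset, hQ]
    push_cast
    rfl
  have hee := (ee_le h).2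
  have hsum : ∑ f ∈ (Fintype.piFinset B).filter (fun f => P.image f ∈ UC 𝒰 B),
      ((cn G (P.image f) \ un B).card : ℝ) ^ 2 ≤
      Q * (2 * ((r : ℝ) + R * C) ^ 2 + 8 * u * R * η * ee G B univ) := by
    calc _ ≤ ∑ f ∈ (Fintype.piFinset B).filter (fun f => P.image f ∈ UC 𝒰 B),
          (2 * ((r : ℝ) + R * C) ^ 2 + 4 * u * R * η * m * (rw G B univ f P : ℝ)) :=
          sum_le_sum hpt
      _ ≤ ∑ f ∈ Fintype.piFinset B,
          (2 * ((r : ℝ) + R * C) ^ 2 + 4 * u * R * η * m * (rw G B univ f P : ℝ)) := by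
          refine sum_le_sum_of_subset_of_nonneg (filter_subset _ _) fun f _ _ => ?_
          positivity
      _ = Q * (2 * ((r : ℝ) + R * C) ^ 2) +
          4 * u * R * η * m * ∑ f ∈ Fintype.piFinset B, (rw G B univ f P : ℝ) := by
          rw [sum_add_distrib, sum_const, nsmul_eq_mul, hcardpi, mul_sum]
      _ ≤ Q * (2 * ((r : ℝ) + R * C) ^ 2) +
          4 * u * R * η * m * (Q * (ee G B univ / (m / 2))) := by
          have h1 := sum_rw_le (G := G) hb₀ hb P
          have h2 : (0 : ℝ) ≤ 4 * u * R * η * m := by positivity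
          have := mul_le_mul_of_nonneg_left h1 h2
          linarith
      _ = _ := by
          field_simp
          ring
  have hprod : Q = (∏ k ∈ P, ((B k).card : ℝ)) * ∏ k ∈ univ \ P, ((B k).card : ℝ) := by
    rw [hQ, mul_comm, prod_sdiff (subset_univ P)]
  have hpp : 0 < ∏ k ∈ univ \ P, ((B k).card : ℝ) := prod_pos fun k _ => hbpos k
  rw [div_le_iff₀ hpp]
  have hP2 : ∏ k ∈ P, ((B k).card : ℝ) ≤ (2 * m : ℝ) ^ u := by
    calc ∏ k ∈ P, ((B k).card : ℝ) ≤ ∏ _k ∈ P, (2 * m : ℝ) :=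
          prod_le_prod (fun k _ => (hbpos k).le) fun k _ => hhi k
      _ = (2 * m : ℝ) ^ u := by rw [prod_const, hP]
  have hE : (0 : ℝ) ≤ 2 * ((r : ℝ) + R * C) ^ 2 + 8 * u * R * η * ee G B univ := by positivity
  calc _ ≤ Q * (2 * ((r : ℝ) + R * C) ^ 2 + 8 * u * R * η * ee G B univ) := hsum
    _ = (∏ k ∈ P, ((B k).card : ℝ)) *
        ((2 * ((r : ℝ) + R * C) ^ 2 + 8 * u * R * η * ee G B univ) *
          ∏ k ∈ univ \ P, ((B k).card : ℝ)) := by rw [hprod]; ring
    _ ≤ (2 * m : ℝ) ^ u * ((2 * ((r : ℝ) + R * C) ^ 2 + 8 * u * R * η * ee G B univ) *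
          ∏ k ∈ univ \ P, ((B k).card : ℝ)) :=
        mul_le_mul_of_nonneg_right hP2 (mul_nonneg hE hpp.le)
    _ = _ := by ring

/-- Proof: a member of `N2` contains some `U ∈ UC` (a `u`-subset of `K ∩ un B`) and `K \ U` is an
`R`-clique in `cn U` with at least two vertices in `X_U = cn U \ un B`; so
`|N2| ≤ ∑_{U ∈ UC} |X_U|^2 (R m + r)^(R-2)`; by tuples (`UC_card`-like) and `val_point`
`|X_U| ≤ C + rw f P`, `rw ≤ 2 u w η m`, `sum_rw_le`. -/
theorem N2_le (u R r : ℕ) (hp : Par u R) (hr : r < R) :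
    ∃ Cw : ℝ, 0 < Cw ∧ ∀ η : ℝ, 0 < η → ∀ C : ℝ, 0 < C →
      ∃ C' : ℝ, 0 < C' ∧ ∃ m₀ : ℕ, ∀ m : ℕ, m₀ ≤ m →
      ∀ (V : Type) [Fintype V] [DecidableEq V] (G : SimpleGraph V) [DecidableRel G.Adj]
        (𝒰 : Finset (Finset V)) (w : ℕ) (B : Fin w → Finset V) (ty : V → Fin w),
        Stp G 𝒰 B ty u R r m C η →
        ((N2 G 𝒰 B u).card : ℝ) ≤
          (m : ℝ) ^ (w - 1) * (C' / m + Cw * η * (ee G B univ / m)) := by
  have hu := hp.hu
  have hR := hp.hR
  have hu0 : (0 : ℝ) < u := by exact_mod_cast hu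
  have hR0 : (0 : ℝ) < R := by
    have : 0 < R := by omega
    exact_mod_cast this
  set D : ℝ := (2 * R : ℝ) ^ (R - 2) * ((R + u).choose u : ℝ) * 2 ^ u with hD
  have hch : (0 : ℝ) < ((R + u).choose u : ℝ) := by
    have : 0 < (R + u).choose u := Nat.choose_pos (by omega)
    exact_mod_cast this
  have hD0 : 0 < D := by positivity
  refine ⟨8 * u * R * D, by positivity, fun η hη C hC => ?_⟩
  refine ⟨2 * D * ((r : ℝ) + R * C) ^ 2 + 1, by positivity, ⌈2 * C⌉₊ + 1, ?_⟩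
  intro m hm V _ _ G _ 𝒰 w B ty h
  have hm1 : 1 ≤ m := by omega
  have hmC : 2 * C ≤ m := by
    have h1 := Nat.le_ceil (2 * C)
    have h2 : (⌈2 * C⌉₊ : ℝ) ≤ m := by exact_mod_cast (by omega : ⌈2 * C⌉₊ ≤ m)
    exact h1.trans h2
  have hm0 : (0 : ℝ) < m := by exact_mod_cast hm1
  have hne : ∀ k, (B k).Nonempty := fun k => by
    have h1 := abs_le.1 (h.bs.size k)
    have h2 : (0 : ℝ) < ((B k).card : ℝ) := by linarith [h1.1]
    exact card_pos.1 (by exact_mod_cast h2)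
  have h1 := NTwo_card h
  have h2 : ((N2 G 𝒰 B u).card : ℝ) ≤
      ∑ U ∈ UC 𝒰 B, ((cn G U \ un B).card : ℝ) ^ 2 * ((R : ℝ) * m + r) ^ (R - 2) := by
    have : ((N2 G 𝒰 B u).card : ℝ) ≤
      ((∑ U ∈ UC 𝒰 B, (cn G U \ un B).card ^ 2 * (R * m + r) ^ (R - 2) : ℕ) : ℝ) := by
      exact_mod_cast h1
    push_cast at this
    exact this
  rw [← sum_mul] at h2
  have h3 := NTwo_sum_fam (G := G) (s := u) h.bs.disj h.bs.ind hne (UC 𝒰 B) (fun X hX => by
    obtain ⟨hX1, hX2⟩ := mem_filter.1 hX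
    obtain ⟨⟨-, h4⟩, h5⟩ := mem_clq.1 (h.sub hX1)
    exact ⟨hX2, h4, h5⟩) (fun U => ((cn G U \ un B).card : ℝ) ^ 2)
  have hee := (ee_le h).2
  set E : ℝ := 2 * ((r : ℝ) + R * C) ^ 2 + 8 * u * R * η * ee G B univ with hE
  have hE0 : 0 ≤ E := by positivity
  have h4 : ∑ U ∈ UC 𝒰 B, ((cn G U \ un B).card : ℝ) ^ 2 ≤
      ((R + u).choose u : ℝ) * ((2 * m : ℝ) ^ u * E) := by
    rw [h3]
    calc _ ≤ ∑ _P ∈ powersetCard u (univ : Finset (Fin w)), ((2 * m : ℝ) ^ u * E) := by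
          refine sum_le_sum fun P hP => ?_
          exact NTwo_part h hη hC hm1 hmC (mem_powersetCard.1 hP).2
      _ = _ := by
          rw [sum_const, nsmul_eq_mul, card_powersetCard, card_univ, Fintype.card_fin, h.hw]
  have h5 : ((R : ℝ) * m + r) ^ (R - 2) ≤ (2 * R * m : ℝ) ^ (R - 2) := by
    refine pow_le_pow_left₀ (by positivity) ?_ _
    have h6 : (r : ℝ) ≤ R := by exact_mod_cast hr.le
    have h7 : (1 : ℝ) ≤ m := by exact_mod_cast hm1
    nlinarith
  have h6 : ((N2 G 𝒰 B u).card : ℝ) ≤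
      ((R + u).choose u : ℝ) * ((2 * m : ℝ) ^ u * E) * (2 * R * m : ℝ) ^ (R - 2) := by
    refine h2.trans (mul_le_mul h4 h5 (by positivity) (by positivity))
  obtain rfl := h.hw
  have hexp : R + u - 1 = (R - 2) + u + 1 := by omega
  calc ((N2 G 𝒰 B u).card : ℝ) ≤
      ((R + u).choose u : ℝ) * ((2 * m : ℝ) ^ u * E) * (2 * R * m : ℝ) ^ (R - 2) := h6
    _ = (m : ℝ) ^ (R - 2 + u) * (D * E) := by
        rw [hD, mul_pow, mul_pow (2 * R : ℝ) (m : ℝ), pow_add]
        ring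
    _ ≤ (m : ℝ) ^ (R - 2 + u) * ((2 * D * ((r : ℝ) + R * C) ^ 2 + 1) +
          8 * u * R * D * η * ee G B univ) := by
        refine mul_le_mul_of_nonneg_left ?_ (by positivity)
        rw [hE]
        nlinarith
    _ = _ := by
        rw [hexp]
        field_simp
        ring

end H23CL
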