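import Pool.Agent.H23.CL.Val
import Pool.Agent.H23.CL.IndB

/-! Step 7 of note 3669: the outside vertices with large `σ`. -/

set_option autoImplicit false

namespace H23CL

open Finset H57LC

set_option linter.unusedSectionVars false

/-- the product of the shares of a vertex with large `σ` -/
private lemma Out_prod {V : Type} [DecidableEq V] {G : SimpleGraph V} [DecidableRel G.Adj]
    {w u R : ℕ} {B : Fin w → Finset V} {z : V} (hz : ¬ sgm G B z ≤ R / 2)
    {P : Finset (Fin w)} (hP : P.card = u) {i : Fin w} (hi : i ∉ P) :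
    ∏ k ∈ (univ \ P).erase i, al G B z k ≤ tau u R := by
  have h1 : ∏ k ∈ (univ \ P).erase i, al G B z k ≤
      ∏ k ∈ (univ \ P).erase i, Real.exp (-(1 - al G B z k)) := by
    refine prod_le_prod (fun k _ => al_nonneg B z k) fun k _ => ?_
    have := Real.add_one_le_exp (-(1 - al G B z k))
    linarith
  rw [← Real.exp_sum] at h1
  refine h1.trans ?_
  unfold tau
  refine Real.exp_le_exp.2 ?_
  rw [sum_neg_distrib]
  have h2 : ∑ k, (1 - al G B z k) = ∑ k ∈ (univ \ P).erase i, (1 - al G B z k) +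
      ((1 - al G B z i) + ∑ k ∈ P, (1 - al G B z k)) := by
    rw [← sum_sdiff (subset_univ P), ← add_sum_erase (univ \ P) (fun k => 1 - al G B z k)
      (mem_sdiff.2 ⟨mem_univ i, hi⟩)]
    ring
  have h3 : ∑ k ∈ P, (1 - al G B z k) ≤ u := by
    calc ∑ k ∈ P, (1 - al G B z k) ≤ ∑ _k ∈ P, (1 : ℝ) := by
          refine sum_le_sum fun k _ => ?_
          have := al_nonneg (G := G) B z k
          linarith
      _ = u := by rw [sum_const, hP, nsmul_eq_mul, mul_one]
  have h4 := al_nonneg (G := G) B z i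
  have h5 : (R : ℝ) / 2 < sgm G B z := not_le.1 hz
  unfold sgm at h5
  linarith

private lemma Out_card_sdiff {R u : ℕ} {P : Finset (Fin (R + u))} (hP : P.card = u) :
    (univ \ P).card = R := by
  rw [card_sdiff_of_subset (subset_univ P), card_univ, Fintype.card_fin, hP]
  omega

private lemma Out_mem_Z1 {V : Type} [Fintype V] [DecidableEq V] {G : SimpleGraph V}
    [DecidableRel G.Adj] {w : ℕ} {B : Fin w → Finset V} {ty : V → Fin w} {ε η₀ : ℝ} {z : V}
    (hz : z ∈ Z1 G B ty ε η₀) : Typ G B ε z (ty z) := by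
  classical
  unfold Z1 at hz
  exact (mem_filter.1 hz).2.1

/-- the number of the vertices of `Z₁` with type outside `P` -/
private lemma Out_ty {V : Type} [DecidableEq V] {w : ℕ} (Z : Finset V) (ty : V → Fin w)
    (P : Finset (Fin w)) :
    ∑ k ∈ univ \ P, ((Z.filter fun z => ty z = k).card : ℝ) =
      ((Z.filter fun z => ty z ∉ P).card : ℝ) := by
  have h := card_eq_sum_card_fiberwise (s := Z.filter fun z => ty z ∉ P) (t := univ \ P)
    (f := ty) (fun z hz => mem_coe.2 (mem_sdiff.2 ⟨mem_univ _, (mem_filter.1 (mem_coe.1 hz)).2⟩))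
  rw [h]
  push_cast
  refine sum_congr rfl fun k hk => ?_
  congr 2
  ext z
  simp only [mem_filter]
  constructor
  · rintro ⟨h1, h2⟩
    refine ⟨⟨h1, ?_⟩, h2⟩
    rw [h2]
    exact (mem_sdiff.1 hk).2
  · rintro ⟨⟨h1, -⟩, h2⟩
    exact ⟨h1, h2⟩

/-- the difference `x⁺(P) - n⁺` -/
private lemma Out_diff {V : Type} [Fintype V] [DecidableEq V] {G : SimpleGraph V}
    [DecidableRel G.Adj] {R u r m : ℕ} {B : Fin (R + u) → Finset V} {ty : V → Fin (R + u)}
    {ε η₀ : ℝ} {P : Finset (Fin (R + u))} (hP : P.card = u) :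
    (((∑ k ∈ P, xP G B ty m ε η₀ k : ℤ) : ℝ) - (nP G B ty m r ε η₀ : ℝ)) =
      (R * m + r : ℝ) - ∑ k ∈ univ \ P, ((B k).card : ℝ) -
        (((Z1 G B ty ε η₀).filter fun z => ty z ∉ P).card : ℝ) := by
  have h1 : ∑ k ∈ univ \ P, (xP G B ty m ε η₀ k : ℝ) =
      ∑ k ∈ univ \ P, ((B k).card : ℝ) - R * m +
        (((Z1 G B ty ε η₀).filter fun z => ty z ∉ P).card : ℝ) := by
    rw [← Out_ty (Z1 G B ty ε η₀) ty P]
    unfold xP
    push_cast
    rw [sum_add_distrib, sum_sub_distrib, sum_const, Out_card_sdiff hP, nsmul_eq_mul]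
  have h2 : ((nP G B ty m r ε η₀ : ℤ) : ℝ) = ∑ k ∈ univ \ P, (xP G B ty m ε η₀ k : ℝ) +
      ∑ k ∈ P, (xP G B ty m ε η₀ k : ℝ) - r := by
    unfold nP
    rw [← sum_sdiff (subset_univ P)]
    push_cast
    rfl
  rw [h2, h1]
  push_cast
  ring

/-- the outside vertices with large `σ` adjacent to a clique transversal -/
private lemma Out_point {V : Type} [Fintype V] [DecidableEq V] {G : SimpleGraph V}
    [DecidableRel G.Adj] {𝒰 : Finset (Finset V)} {u R r m : ℕ}
    {B : Fin (R + u) → Finset V} {ty : V → Fin (R + u)} {C η ε : ℝ} (hp : Par u R)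
    (h : Stp G 𝒰 B ty u R r m C η) {P : Finset (Fin (R + u))} (hP : P.card = u)
    {f : Fin (R + u) → V} (hf : ∀ k, f k ∈ B k)
    (hcl : ∀ k ∈ P, ∀ l ∈ P, k ≠ l → G.Adj (f k) (f l)) :
    (((Zou G B R).filter fun z => ∀ l ∈ P, G.Adj z (f l)).card : ℝ) ≤
      (((∑ k ∈ P, xP G B ty m ε (eta0 u R) k : ℤ) : ℝ) - (nP G B ty m r ε (eta0 u R) : ℝ)) +
      (((Z1 G B ty ε (eta0 u R)).filter fun z => ty z ∉ P ∧ ∃ l ∈ P, ¬ G.Adj z (f l)).card : ℝ) +
      (rw G B univ f P : ℝ) := by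
  have hval := val_point h hP (fun k _ => hf k) hcl
  rw [Out_diff hP]
  set Z := Z1 G B ty ε (eta0 u R) with hZ
  have hZin : Z ⊆ Zin G B R := Z1_subset_Zin hp B ty ε
  have hout : ∀ z, z ∈ Zou G B R → z ∈ outs B ∧ ¬ sgm G B z ≤ R / 2 := by
    intro z hz
    unfold Zou at hz
    exact mem_filter.1 hz
  have hin : ∀ z, z ∈ Z → z ∈ outs B ∧ sgm G B z ≤ R / 2 := by
    intro z hz
    have := hZin hz
    unfold Zin at this
    exact mem_filter.1 this
  have h1 : ((Zou G B R).filter fun z => ∀ l ∈ P, G.Adj z (f l)).card +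
      (Z.filter fun z => ∀ l ∈ P, G.Adj z (f l)).card ≤
      ((outs B).filter fun z => ∀ l ∈ P, G.Adj (f l) z).card := by
    rw [← card_union_of_disjoint]
    · refine card_le_card fun z hz => ?_
      rcases mem_union.1 hz with hz | hz
      · obtain ⟨a, b⟩ := mem_filter.1 hz
        exact mem_filter.2 ⟨(hout z a).1, fun l hl => (b l hl).symm⟩
      · obtain ⟨a, b⟩ := mem_filter.1 hz
        exact mem_filter.2 ⟨(hin z a).1, fun l hl => (b l hl).symm⟩
    · rw [disjoint_left]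
      intro z hz hz'
      exact (hout z (mem_filter.1 hz).1).2 (hin z (mem_filter.1 hz').1).2
  have h2 : (Z.filter fun z => ty z ∉ P).card ≤
      (Z.filter fun z => ∀ l ∈ P, G.Adj z (f l)).card +
        (Z.filter fun z => ty z ∉ P ∧ ∃ l ∈ P, ¬ G.Adj z (f l)).card := by
    refine le_trans (card_le_card ?_) (card_union_le _ _)
    intro z hz
    obtain ⟨a, b⟩ := mem_filter.1 hz
    rw [mem_union, mem_filter, mem_filter]
    by_cases hz' : ∀ l ∈ P, G.Adj z (f l)
    · exact Or.inl ⟨a, hz'⟩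
    · push Not at hz'
      exact Or.inr ⟨a, b, hz'⟩
  have h1' : ((((Zou G B R).filter fun z => ∀ l ∈ P, G.Adj z (f l)).card : ℕ) : ℝ) +
      (((Z.filter fun z => ∀ l ∈ P, G.Adj z (f l)).card : ℕ) : ℝ) ≤
      ((((outs B).filter fun z => ∀ l ∈ P, G.Adj (f l) z).card : ℕ) : ℝ) := by
    exact_mod_cast h1
  have h2' : (((Z.filter fun z => ty z ∉ P).card : ℕ) : ℝ) ≤
      (((Z.filter fun z => ∀ l ∈ P, G.Adj z (f l)).card : ℕ) : ℝ) +
        (((Z.filter fun z => ty z ∉ P ∧ ∃ l ∈ P, ¬ G.Adj z (f l)).card : ℕ) : ℝ) := by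
    exact_mod_cast h2
  linarith

/-- the tuples not adjacent to `z` in the part `l` -/
private lemma Out_nonadj {V : Type} [DecidableEq V] {G : SimpleGraph V} [DecidableRel G.Adj]
    {w : ℕ} {B : Fin w → Finset V} (hne : ∀ k, (B k).Nonempty) (z : V) (l : Fin w) :
    (((Fintype.piFinset B).filter fun f => ¬ G.Adj z (f l)).card : ℝ) =
      (∏ k, ((B k).card : ℝ)) * (1 - al G B z l) := by
  have hb : (0 : ℝ) < (B l).card := by exact_mod_cast (hne l).card_pos
  have h1 := one_sum B l (fun y => if ¬ G.Adj z y then (1 : ℝ) else 0)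
  have h2 : ∑ f ∈ Fintype.piFinset B, (if ¬ G.Adj z (f l) then (1 : ℝ) else 0) =
      (((Fintype.piFinset B).filter fun f => ¬ G.Adj z (f l)).card : ℝ) := by
    rw [card_filter]
    push_cast
    rfl
  have h3 : ∑ y ∈ B l, (if ¬ G.Adj z y then (1 : ℝ) else 0) =
      (((B l).filter fun y => ¬ G.Adj z y).card : ℝ) := by
    rw [card_filter]
    push_cast
    rfl
  have h4 : (((B l).filter fun y => G.Adj z y).card : ℝ) +
      (((B l).filter fun y => ¬ G.Adj z y).card : ℝ) = (B l).card := by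
    exact_mod_cast card_filter_add_card_filter_not (s := B l) (fun y => G.Adj z y)
  have h5 : (1 - al G B z l) * (B l).card = (((B l).filter fun y => ¬ G.Adj z y).card : ℝ) := by
    unfold al
    rw [sub_mul, div_mul_cancel₀ _ hb.ne']
    linarith
  rw [← h2]
  have h6 : ((B l).card : ℝ) * ∑ f ∈ Fintype.piFinset B,
      (if ¬ G.Adj z (f l) then (1 : ℝ) else 0) =
      ((B l).card : ℝ) * ((∏ k, ((B k).card : ℝ)) * (1 - al G B z l)) := by
    rw [h1, h3, ← h5]
    ring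
  exact mul_left_cancel₀ hb.ne' h6

/-- the vertices of `Z₁` not adjacent to the tuples -/
private lemma Out_Z1 {V : Type} [Fintype V] [DecidableEq V] {G : SimpleGraph V}
    [DecidableRel G.Adj] {w : ℕ} {B : Fin w → Finset V} (hne : ∀ k, (B k).Nonempty)
    (ty : V → Fin w) (ε η₀ : ℝ) (P : Finset (Fin w)) :
    ∑ f ∈ Fintype.piFinset B,
      (((Z1 G B ty ε η₀).filter fun z => ty z ∉ P ∧ ∃ l ∈ P, ¬ G.Adj z (f l)).card : ℝ) ≤
      (∏ k, ((B k).card : ℝ)) * ∑ z ∈ Z1 G B ty ε η₀, sgm G B z := by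
  set Z := Z1 G B ty ε η₀ with hZ
  have hQ : (0 : ℝ) ≤ ∏ k, ((B k).card : ℝ) := prod_nonneg fun _ _ => Nat.cast_nonneg _
  have hsg : ∀ z ∈ Z, sgm G B z = sgE G B univ ty z := by
    intro z hz
    exact sgm_eq (Out_mem_Z1 hz)
  have h1 : ∀ f : Fin w → V,
      ((Z.filter fun z => ty z ∉ P ∧ ∃ l ∈ P, ¬ G.Adj z (f l)).card : ℝ) ≤
      ∑ z ∈ Z, if ty z ∉ P then ∑ l ∈ P, (if ¬ G.Adj z (f l) then (1 : ℝ) else 0) else 0 := by
    intro f
    rw [card_filter]
    push_cast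
    refine sum_le_sum fun z _ => ?_
    by_cases hz : ty z ∉ P
    · rw [if_pos hz]
      have hnn : ∀ l ∈ P, (0 : ℝ) ≤ (if ¬ G.Adj z (f l) then (1 : ℝ) else 0) := by
        intro l _
        split_ifs <;> norm_num
      split_ifs with hz'
      · obtain ⟨-, l, hl, hl'⟩ := hz'
        have := single_le_sum (f := fun l => (if ¬ G.Adj z (f l) then (1 : ℝ) else 0)) hnn hl
        simp only [if_pos hl'] at this
        exact this
      · exact sum_nonneg hnn
    · rw [if_neg hz, if_neg (fun h => hz h.1)]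
  calc ∑ f ∈ Fintype.piFinset B,
        ((Z.filter fun z => ty z ∉ P ∧ ∃ l ∈ P, ¬ G.Adj z (f l)).card : ℝ)
      ≤ ∑ f ∈ Fintype.piFinset B, ∑ z ∈ Z,
          (if ty z ∉ P then ∑ l ∈ P, (if ¬ G.Adj z (f l) then (1 : ℝ) else 0) else 0) :=
        sum_le_sum fun f _ => h1 f
    _ = ∑ z ∈ Z, ∑ f ∈ Fintype.piFinset B,
          (if ty z ∉ P then ∑ l ∈ P, (if ¬ G.Adj z (f l) then (1 : ℝ) else 0) else 0) := sum_comm
    _ ≤ ∑ z ∈ Z, (∏ k, ((B k).card : ℝ)) * sgm G B z := by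
        refine sum_le_sum fun z hz => ?_
        rw [hsg z hz]
        have hge : ∀ k, (0 : ℝ) ≤ 1 - al G B z k := fun k => sub_nonneg.2 (al_le_one B z k)
        by_cases hz' : ty z ∉ P
        · simp only [if_pos hz']
          rw [sum_comm]
          have h2 : ∀ l ∈ P, ∑ f ∈ Fintype.piFinset B, (if ¬ G.Adj z (f l) then (1 : ℝ) else 0) =
              (∏ k, ((B k).card : ℝ)) * (1 - al G B z l) := by
            intro l _
            rw [← Out_nonadj hne z l, card_filter]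
            push_cast
            rfl
          rw [sum_congr rfl h2, ← mul_sum]
          refine mul_le_mul_of_nonneg_left ?_ hQ
          unfold sgE
          refine sum_le_sum_of_subset_of_nonneg ?_ fun k _ _ => hge k
          intro l hl
          refine mem_erase.2 ⟨?_, mem_univ l⟩
          rintro rfl
          exact hz' hl
        · simp only [if_neg hz', sum_const_zero]
          refine mul_nonneg hQ ?_
          unfold sgE
          exact sum_nonneg fun k _ => hge k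
    _ = _ := by rw [mul_sum]

/-- the sum of `npz` over the outside vertices with large `σ` -/
private lemma Out_npz {V : Type} [Fintype V] [DecidableEq V] {G : SimpleGraph V}
    [DecidableRel G.Adj] {𝒰 : Finset (Finset V)} {u R r m : ℕ}
    {B : Fin (R + u) → Finset V} {ty : V → Fin (R + u)} {C η ε : ℝ} (hp : Par u R)
    (h : Stp G 𝒰 B ty u R r m C η) (hne : ∀ k, (B k).Nonempty) {b₀ : ℝ} (hb₀ : 0 < b₀)
    (hb : ∀ k, b₀ ≤ ((B k).card : ℝ)) {P : Finset (Fin (R + u))} (hP : P.card = u) :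
    ∑ z ∈ Zou G B R, npz G B z P ≤ (∏ k ∈ P, ((B k).card : ℝ)) *
      (max 0 (((∑ k ∈ P, xP G B ty m ε (eta0 u R) k : ℤ) : ℝ) -
        (nP G B ty m r ε (eta0 u R) : ℝ)) + ∑ z ∈ Z1 G B ty ε (eta0 u R), sgm G B z +
        ee G B univ / b₀) := by
  set X : ℝ := ((∑ k ∈ P, xP G B ty m ε (eta0 u R) k : ℤ) : ℝ) -
        (nP G B ty m r ε (eta0 u R) : ℝ) with hX
  set Z := Z1 G B ty ε (eta0 u R) with hZ
  have hpos : ∀ k, 0 < ((B k).card : ℝ) := fun k => lt_of_lt_of_le hb₀ (hb k)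
  have hD : 0 < ∏ k ∈ univ \ P, ((B k).card : ℝ) := prod_pos fun k _ => hpos k
  have hQ : (0 : ℝ) ≤ ∏ k, ((B k).card : ℝ) := prod_nonneg fun _ _ => Nat.cast_nonneg _
  have hsplit : (∏ k ∈ univ \ P, ((B k).card : ℝ)) * ∏ k ∈ P, ((B k).card : ℝ) =
      ∏ k, ((B k).card : ℝ) := prod_sdiff (subset_univ P)
  unfold npz
  rw [← sum_div, div_le_iff₀ hD]
  -- exchange the sums
  have hsw : ∑ z ∈ Zou G B R, (((Fintype.piFinset B).filter fun f =>
      (∀ k ∈ P, ∀ l ∈ P, k ≠ l → G.Adj (f k) (f l)) ∧ ∀ l ∈ P, G.Adj z (f l)).card : ℝ) =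
      ∑ f ∈ (Fintype.piFinset B).filter (fun f => ∀ k ∈ P, ∀ l ∈ P, k ≠ l → G.Adj (f k) (f l)),
        (((Zou G B R).filter fun z => ∀ l ∈ P, G.Adj z (f l)).card : ℝ) := by
    have e1 : ∀ z, (((Fintype.piFinset B).filter fun f =>
        (∀ k ∈ P, ∀ l ∈ P, k ≠ l → G.Adj (f k) (f l)) ∧ ∀ l ∈ P, G.Adj z (f l)).card : ℝ) =
        ∑ f ∈ (Fintype.piFinset B).filter (fun f => ∀ k ∈ P, ∀ l ∈ P, k ≠ l → G.Adj (f k) (f l)),
          if ∀ l ∈ P, G.Adj z (f l) then (1 : ℝ) else 0 := by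
      intro z
      rw [← filter_filter, card_filter]
      push_cast
      rfl
    rw [sum_congr rfl fun z _ => e1 z, sum_comm]
    refine sum_congr rfl fun f _ => ?_
    rw [card_filter]
    push_cast
    rfl
  rw [hsw]
  calc ∑ f ∈ (Fintype.piFinset B).filter (fun f => ∀ k ∈ P, ∀ l ∈ P, k ≠ l → G.Adj (f k) (f l)),
        (((Zou G B R).filter fun z => ∀ l ∈ P, G.Adj z (f l)).card : ℝ)
      ≤ ∑ f ∈ (Fintype.piFinset B).filter (fun f => ∀ k ∈ P, ∀ l ∈ P, k ≠ l → G.Adj (f k) (f l)),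
        (max 0 X + ((Z.filter fun z => ty z ∉ P ∧ ∃ l ∈ P, ¬ G.Adj z (f l)).card : ℝ) +
          (rw G B univ f P : ℝ)) := by
        refine sum_le_sum fun f hf => ?_
        obtain ⟨hf1, hf2⟩ := mem_filter.1 hf
        have h1 := Out_point (ε := ε) hp h hP (Fintype.mem_piFinset.1 hf1) hf2
        have h2 : X ≤ max 0 X := le_max_right _ _
        rw [← hX, ← hZ] at h1
        linarith
    _ ≤ ∑ f ∈ Fintype.piFinset B,
        (max 0 X + ((Z.filter fun z => ty z ∉ P ∧ ∃ l ∈ P, ¬ G.Adj z (f l)).card : ℝ) +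
          (rw G B univ f P : ℝ)) := by
        refine sum_le_sum_of_subset_of_nonneg (filter_subset _ _) fun f _ _ => ?_
        have h2 : 0 ≤ max 0 X := le_max_left _ _
        positivity
    _ = (∏ k, ((B k).card : ℝ)) * max 0 X + ∑ f ∈ Fintype.piFinset B,
          ((Z.filter fun z => ty z ∉ P ∧ ∃ l ∈ P, ¬ G.Adj z (f l)).card : ℝ) +
        ∑ f ∈ Fintype.piFinset B, (rw G B univ f P : ℝ) := by
        rw [sum_add_distrib, sum_add_distrib, sum_const, nsmul_eq_mul, Fintype.card_piFinset]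
        push_cast
        rfl
    _ ≤ (∏ k, ((B k).card : ℝ)) * max 0 X + (∏ k, ((B k).card : ℝ)) * ∑ z ∈ Z, sgm G B z +
        (∏ k, ((B k).card : ℝ)) * (ee G B univ / b₀) := by
        have h1 := Out_Z1 (G := G) hne ty ε (eta0 u R) P
        have h2 := sum_rw_le (G := G) hb₀ hb P
        rw [← hZ] at h1
        linarith
    _ = _ := by
        rw [← hsplit]
        ring

/-- Proof: `Kz_card`, `kz_le_npz` with `P = P i`: `∏_{k ∉ P, k ≠ i} al ≤ exp(-∑ (1 - al)) ≤
exp(-(σ - u)) ≤ tau`; so `|Kz z| ≤ tau (m+C)^(R-1) ∑_i npz z (P i)`.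
`∑_{z ∈ Zou} npz z P ∏_{P^c} b = ∑_{f ∈ Ω, f(P) clique} #{z ∈ Zou : z ~ f(P)}
≤ ∑_{f clique} (x(P) - n + rw f P - #{z ∈ Z₁ : z ~ f(P)})` (`val_point`, `Z₁ ⊆ Zin`), and for
`z ∈ Z₁`, `ty z ∉ P`, at most `|Ω| ∑_{l ∈ P} (1 - al z l)` tuples are not adjacent to `z`.  Hence
`∑_{z ∈ Zou} npz z P ≤ (m+C)^u (yy' + max 0 (x⁺(P) - n⁺))` where `yy' = ee/(m-C) + ∑ σ`. -/
theorem out_le (u R r : ℕ) (hp : Par u R) (hr : r < R) :
    ∀ η : ℝ, 0 < η → ∀ C : ℝ, 0 < C → ∃ m₀ : ℕ, ∀ m : ℕ, m₀ ≤ m →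
      ∀ (V : Type) [Fintype V] [DecidableEq V] (G : SimpleGraph V) [DecidableRel G.Adj]
        (𝒰 : Finset (Finset V)) (w : ℕ) (B : Fin w → Finset V) (ty : V → Fin w),
        Stp G 𝒰 B ty u R r m C η → ∀ P : Fin w → Finset (Fin w),
        (∀ i, i ∉ P i ∧ (P i).card = u) →
        ∑ z ∈ Zou G B R, ((Kz G 𝒰 B u z).card : ℝ) ≤
          2 * tau u R * (m : ℝ) ^ (w - 1) * ∑ i, (yy G B ty m (4 * w * η) (eta0 u R) +
            max 0 (((∑ k ∈ P i, xP G B ty m (4 * w * η) (eta0 u R) k : ℤ) : ℝ) -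
              (nP G B ty m r (4 * w * η) (eta0 u R) : ℝ))) := by
  intro η hη C hC
  have hu : 1 ≤ u := hp.hu
  have hR : 10 ≤ R := hp.hR
  -- the asymptotic inequality
  have hlim : Filter.Tendsto (fun m : ℕ => (1 + C / (m : ℝ)) ^ (R + u - 1)) Filter.atTop
      (nhds ((1 + 0) ^ (R + u - 1))) :=
    ((tendsto_const_div_atTop_nhds_zero_nat C).const_add 1).pow _
  rw [add_zero, one_pow] at hlim
  have hev : ∀ᶠ m : ℕ in Filter.atTop, (1 + C / (m : ℝ)) ^ (R + u - 1) < 3 / 2 :=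
    hlim.eventually_lt_const (by norm_num)
  obtain ⟨m₁, hm₁⟩ := Filter.eventually_atTop.1 hev
  obtain ⟨m₂, hm₂⟩ := exists_nat_ge (4 * C)
  refine ⟨max (max m₁ m₂) 1, ?_⟩
  intro m hm V _ _ G _ 𝒰 w B ty h P hP
  obtain rfl := h.hw
  have hmm₁ : m₁ ≤ m := (le_max_left _ _).trans ((le_max_left _ _).trans hm)
  have hmm₂ : m₂ ≤ m := (le_max_right _ _).trans ((le_max_left _ _).trans hm)
  have hm1 : 1 ≤ m := (le_max_right _ _).trans hm
  have hm0 : (0 : ℝ) < m := by exact_mod_cast hm1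
  have hmC : 4 * C ≤ (m : ℝ) := hm₂.trans (by exact_mod_cast hmm₂)
  have hpow : ((m : ℝ) + C) ^ (R + u - 1) ≤ 3 / 2 * (m : ℝ) ^ (R + u - 1) := by
    have h1 := (hm₁ m hmm₁).le
    have h2 : (m : ℝ) + C = (1 + C / m) * m := by field_simp
    rw [h2, mul_pow]
    exact mul_le_mul_of_nonneg_right h1 (by positivity)
  set ε : ℝ := 4 * ((R + u : ℕ) : ℝ) * η with hε
  have hbs := h.bs.size
  have hblo : ∀ k, (m : ℝ) - C ≤ (B k).card := fun k => by
    have := (abs_le.1 (hbs k)).1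
    linarith
  have hbhi : ∀ k, ((B k).card : ℝ) ≤ m + C := fun k => by
    have := (abs_le.1 (hbs k)).2
    linarith
  have hb₀ : 0 < (m : ℝ) - C := by linarith
  have hne : ∀ k, (B k).Nonempty := by
    intro k
    have : (0 : ℝ) < (B k).card := lt_of_lt_of_le hb₀ (hblo k)
    exact card_pos.1 (by exact_mod_cast this)
  have hτ : 0 < tau u R := by unfold tau; exact Real.exp_pos _
  have hmC0 : 0 ≤ (m : ℝ) + C := by linarith
  set S : ℝ := ∑ z ∈ Z1 G B ty ε (eta0 u R), sgm G B z with hS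
  have hS0 : 0 ≤ S := by
    refine sum_nonneg fun z hz => ?_
    rw [sgm_eq (Out_mem_Z1 (G := G) hz)]
    unfold sgE
    exact sum_nonneg fun k _ => sub_nonneg.2 (al_le_one B z k)
  have he0 := (ee_le h).2
  set M : Fin (R + u) → ℝ := fun i => max 0 (((∑ k ∈ P i, xP G B ty m ε (eta0 u R) k : ℤ) : ℝ) -
    (nP G B ty m r ε (eta0 u R) : ℝ)) with hM
  have hM0 : ∀ i, 0 ≤ M i := fun i => le_max_left _ _
  -- one vertex
  have hone : ∀ z ∈ Zou G B R, ((Kz G 𝒰 B u z).card : ℝ) ≤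
      ∑ i, tau u R * ((m : ℝ) + C) ^ (R - 1) * npz G B z (P i) := by
    intro z hz
    unfold Zou at hz
    obtain ⟨hz1, hz2⟩ := mem_filter.1 hz
    have hzu : z ∉ un B := (mem_sdiff.1 hz1).2
    rw [Kz_card (by omega) h.bs.disj h.bs.ind hne 𝒰 hzu]
    refine sum_le_sum fun i _ => ?_
    have h1 := kz_le_npz (G := G) (u := u) hne 𝒰 hzu h.bs.disj (hP i).1
    refine h1.trans ?_
    have hn : 0 ≤ npz G B z (P i) := by
      unfold npz
      refine div_nonneg (Nat.cast_nonneg _) (prod_nonneg fun _ _ => Nat.cast_nonneg _)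
    rw [mul_comm]
    refine mul_le_mul_of_nonneg_right ?_ hn
    rw [prod_mul_distrib]
    refine mul_le_mul (Out_prod hz2 (hP i).2 (hP i).1) ?_
      (prod_nonneg fun _ _ => Nat.cast_nonneg _) hτ.le
    calc ∏ k ∈ (univ \ P i).erase i, ((B k).card : ℝ)
        ≤ ∏ _k ∈ (univ \ P i).erase i, ((m : ℝ) + C) :=
          prod_le_prod (fun _ _ => Nat.cast_nonneg _) fun k _ => hbhi k
      _ = ((m : ℝ) + C) ^ (R - 1) := by
          rw [prod_const, card_erase_of_mem (mem_sdiff.2 ⟨mem_univ i, (hP i).1⟩),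
            Out_card_sdiff (hP i).2]
  -- the sum over the outside vertices
  have hsum : ∀ i, ∑ z ∈ Zou G B R, npz G B z (P i) ≤
      ((m : ℝ) + C) ^ u * (4 / 3 * (yy G B ty m ε (eta0 u R) + M i)) := by
    intro i
    refine (Out_npz (G := G) (ε := ε) hp h hne hb₀ hblo (hP i).2).trans ?_
    have hprod : ∏ k ∈ P i, ((B k).card : ℝ) ≤ ((m : ℝ) + C) ^ u := by
      calc ∏ k ∈ P i, ((B k).card : ℝ) ≤ ∏ _k ∈ P i, ((m : ℝ) + C) :=
            prod_le_prod (fun _ _ => Nat.cast_nonneg _) fun k _ => hbhi k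
        _ = ((m : ℝ) + C) ^ u := by rw [prod_const, (hP i).2]
    have hdiv : ee G B univ / ((m : ℝ) - C) ≤ 4 / 3 * (ee G B univ / m) := by
      rw [div_le_iff₀ hb₀]
      have h1 : 4 / 3 * (ee G B univ / m) * ((m : ℝ) - C) =
          ee G B univ * (4 / 3 * (((m : ℝ) - C) / m)) := by ring
      rw [h1]
      have h2 : 1 ≤ 4 / 3 * (((m : ℝ) - C) / m) := by
        have h3 : 3 / 4 ≤ ((m : ℝ) - C) / m := by
          rw [le_div_iff₀ hm0]
          linarith
        linarith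
      nlinarith
    refine mul_le_mul hprod ?_ ?_ (by positivity)
    · unfold yy
      rw [← hS]
      have := hM0 i
      show M i + S + ee G B univ / ((m : ℝ) - C) ≤ _
      linarith
    · show 0 ≤ M i + S + ee G B univ / ((m : ℝ) - C)
      have := hM0 i
      positivity
  have hyy : ∀ i, 0 ≤ yy G B ty m ε (eta0 u R) + M i := by
    intro i
    unfold yy
    rw [← hS]
    have := hM0 i
    positivity
  calc ∑ z ∈ Zou G B R, ((Kz G 𝒰 B u z).card : ℝ)
      ≤ ∑ z ∈ Zou G B R, ∑ i, tau u R * ((m : ℝ) + C) ^ (R - 1) * npz G B z (P i) :=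
        sum_le_sum hone
    _ = ∑ i, tau u R * ((m : ℝ) + C) ^ (R - 1) * ∑ z ∈ Zou G B R, npz G B z (P i) := by
        rw [sum_comm]
        exact sum_congr rfl fun i _ => by rw [mul_sum]
    _ ≤ ∑ i, tau u R * ((m : ℝ) + C) ^ (R - 1) *
          (((m : ℝ) + C) ^ u * (4 / 3 * (yy G B ty m ε (eta0 u R) + M i))) :=
        sum_le_sum fun i _ => mul_le_mul_of_nonneg_left (hsum i) (by positivity)
    _ = tau u R * ((m : ℝ) + C) ^ (R + u - 1) *
          (4 / 3 * ∑ i, (yy G B ty m ε (eta0 u R) + M i)) := by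
        rw [mul_sum, mul_sum]
        refine sum_congr rfl fun i _ => ?_
        have h1 : ((m : ℝ) + C) ^ (R + u - 1) = ((m : ℝ) + C) ^ (R - 1) * ((m : ℝ) + C) ^ u := by
          rw [← pow_add]
          congr 1
          omega
        rw [h1]
        ring
    _ ≤ tau u R * (3 / 2 * (m : ℝ) ^ (R + u - 1)) *
          (4 / 3 * ∑ i, (yy G B ty m ε (eta0 u R) + M i)) := by
        refine mul_le_mul_of_nonneg_right (mul_le_mul_of_nonneg_left hpow hτ.le) ?_
        exact mul_nonneg (by norm_num) (sum_nonneg fun i _ => hyy i)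
    _ = _ := by
        ring

end H23CL
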