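import Pool.Agent.H23.CL.Des
import Pool.Agent.H23.CL.Cost
import Pool.Agent.H23.CL.NTwo
import Pool.Agent.H23.CL.NTie
import Pool.Agent.H23.CL.Out
import Pool.Agent.H23.CL.EApp
import Pool.Agent.H23.CL.Dec

/-! Step 12 of note 3669: the total inequality. -/

set_option autoImplicit false

namespace H23CL

open Finset H57LC

set_option linter.unusedSectionVars false

private lemma sum_cost {V : Type} (Z : Finset V) (M a b q : ℝ) (p s : V → ℝ) :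
    ∑ z ∈ Z, M * (p z * (a - b * s z) + q) =
      M * (a * ∑ z ∈ Z, p z - b * ∑ z ∈ Z, p z * s z + Z.card * q) := by
  rw [← mul_sum, sum_add_distrib, sum_const, nsmul_eq_mul]
  congr 2
  rw [mul_sum, mul_sum, ← sum_sub_distrib]
  exact sum_congr rfl fun z _ => by ring

lemma mem_Z1 {V : Type} [Fintype V] [DecidableEq V] {G : SimpleGraph V} [DecidableRel G.Adj]
    {w : ℕ} {B : Fin w → Finset V} {ty : V → Fin w} {ε η₀ : ℝ} {z : V} :
    z ∈ Z1 G B ty ε η₀ ↔ z ∈ outs B ∧ Typ G B ε z (ty z) ∧ η₀ ≤ pz G B univ ty z := by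
  classical
  unfold Z1
  rw [mem_filter]

section total

variable {V : Type} [Fintype V] [DecidableEq V] {G : SimpleGraph V} [DecidableRel G.Adj]
  {𝒰 : Finset (Finset V)} {w u R r m : ℕ} {B : Fin w → Finset V} {ty : V → Fin w} {C η : ℝ}

/-- `NN - ρ |SS|` is at most the sum of the four parts -/
theorem total_le (h : Stp G 𝒰 B ty u R r m C η) (hu : 1 ≤ u) (hR : 2 ≤ R) (hm : 1 ≤ m)
    (hne : (UC 𝒰 B).Nonempty)
    (hmin : ∀ 𝒮 ⊆ 𝒰, 𝒮.Nonempty →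
      (rinv w R r m)⁻¹ * (𝒮.card : ℝ) < ((NN G 𝒰 𝒮 u w).card : ℝ)) :
    0 < (((K0 G 𝒰 B u).card : ℝ) - (rinv w R r m)⁻¹ * ((UC 𝒰 B).card : ℝ)) +
      ((N2 G 𝒰 B u).card : ℝ) +
      ∑ z ∈ Zin G B R, (((Kz G 𝒰 B u z).card : ℝ) + ((Oz G 𝒰 B u z).card : ℝ) -
        (m : ℝ) ^ R / ((R + u).choose u : ℝ) * ((Jz 𝒰 B z).card : ℝ)) +
      ∑ z ∈ Zou G B R, ((Kz G 𝒰 B u z).card : ℝ) := by
  have hw := h.hw
  have hneS : (SS G 𝒰 B R).Nonempty := by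
    obtain ⟨U, hU⟩ := hne
    exact ⟨U, mem_union_left _ hU⟩
  have hlt := hmin (SS G 𝒰 B R) (SS_subset G 𝒰 B) hneS
  have hNN := NN_le G hu hR hw h.sub B
  rw [SS_card G 𝒰 B] at hlt
  have hsplit : ∑ z ∈ outs B, ((Kz G 𝒰 B u z).card : ℝ) =
      ∑ z ∈ Zin G B R, ((Kz G 𝒰 B u z).card : ℝ) + ∑ z ∈ Zou G B R, ((Kz G 𝒰 B u z).card : ℝ) := by
    unfold Zin Zou
    rw [sum_filter_add_sum_filter_not]
  have hρ : (m : ℝ) ^ R / ((R + u).choose u : ℝ) ≤ (rinv w R r m)⁻¹ := by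
    rw [hw]
    exact rho_ge hm
  have hJ0 : (0 : ℝ) ≤ ∑ z ∈ Zin G B R, ((Jz 𝒰 B z).card : ℝ) :=
    sum_nonneg fun _ _ => Nat.cast_nonneg _
  have hρJ := mul_le_mul_of_nonneg_right hρ hJ0
  have hcs2 : ∑ z ∈ Zin G B R, (((Kz G 𝒰 B u z).card : ℝ) + ((Oz G 𝒰 B u z).card : ℝ) -
      (m : ℝ) ^ R / ((R + u).choose u : ℝ) * ((Jz 𝒰 B z).card : ℝ)) =
      ∑ z ∈ Zin G B R, ((Kz G 𝒰 B u z).card : ℝ) + ∑ z ∈ Zin G B R, ((Oz G 𝒰 B u z).card : ℝ) -
      (m : ℝ) ^ R / ((R + u).choose u : ℝ) * ∑ z ∈ Zin G B R, ((Jz 𝒰 B z).card : ℝ) := by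
    rw [sum_sub_distrib, sum_add_distrib, mul_sum]
  rw [hcs2]
  rw [hsplit] at hNN
  rw [mul_add] at hlt
  linarith

end total

/-- the total inequality, general case -/
theorem ineq1 (u R r : ℕ) (hp : Par u R) (hr : r < R) :
    ∃ η₁ : ℝ, 0 < η₁ ∧ ∀ η : ℝ, 0 < η → η ≤ η₁ → ∀ C : ℝ, 0 < C → ∃ D : ℝ, 0 < D ∧
      ∃ m₀ : ℕ, ∀ m : ℕ, m₀ ≤ m →
      ∀ (V : Type) [Fintype V] [DecidableEq V] (G : SimpleGraph V) [DecidableRel G.Adj]
        (𝒰 : Finset (Finset V)) (w : ℕ) (B : Fin w → Finset V) (ty : V → Fin w),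
        Stp G 𝒰 B ty u R r m C η →
        (∀ 𝒮 ⊆ 𝒰, 𝒮.Nonempty →
          (rinv w R r m)⁻¹ * (𝒮.card : ℝ) < ((NN G 𝒰 𝒮 u w).card : ℝ)) →
        ∀ P : Fin w → Finset (Fin w), (∀ i, i ∉ P i ∧ (P i).card = u) →
        0 < (R : ℝ) / (R + u) * (∑ k, (((B k).card : ℝ) - m) - r +
              ∑ z ∈ Z1 G B ty (4 * w * η) (eta0 u R), pz G B univ ty z) -
            ((R : ℝ) / (R + u) + ck u R - ck u R / 16) * (ee G B univ / m) -
            ck u R / 2 * (eta0 u R * ∑ z ∈ Z1 G B ty (4 * w * η) (eta0 u R), sgm G B z) + D / m +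
            2 * tau u R * ∑ i, (yy G B ty m (4 * w * η) (eta0 u R) +
            max 0 (((∑ k ∈ P i, xP G B ty m (4 * w * η) (eta0 u R) k : ℤ) : ℝ) -
              (nP G B ty m r (4 * w * η) (eta0 u R) : ℝ))) := by
  obtain ⟨ηa, Cwa, hηa, hCwa, hdes⟩ := des u R r hp hr
  obtain ⟨ηb, hηb, hcost⟩ := cost_nonpos u R r hp hr
  obtain ⟨ηc, hηc, hcost1⟩ := cost_Z1 u R r hp hr
  obtain ⟨Cwb, hCwb, hN2⟩ := N2_le u R r hp hr
  have hu1 : (1 : ℝ) ≤ u := by exact_mod_cast hp.hu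
  have hR10 : (10 : ℝ) ≤ R := by exact_mod_cast hp.hR
  have hck : 0 < ck u R := by
    unfold ck
    have : (0 : ℝ) < (R : ℝ) + u - 1 := by linarith
    positivity
  refine ⟨min (min ηa (min ηb ηc)) (ck u R / (16 * (Cwa + Cwb))),
    lt_min (lt_min hηa (lt_min hηb hηc)) (by positivity), fun η hη hηle C hC => ?_⟩
  have hη1 : η ≤ ηa := hηle.trans ((min_le_left _ _).trans (min_le_left _ _))
  have hη2 : η ≤ ηb :=
    hηle.trans ((min_le_left _ _).trans ((min_le_right _ _).trans (min_le_left _ _)))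
  have hη3 : η ≤ ηc :=
    hηle.trans ((min_le_left _ _).trans ((min_le_right _ _).trans (min_le_right _ _)))
  have hη4 : (Cwa + Cwb) * η ≤ ck u R / 16 := by
    have h1 := hηle.trans (min_le_right _ _)
    rw [le_div_iff₀ (by positivity)] at h1
    linarith
  obtain ⟨C1, hC1, m1, hF⟩ := fst_le u R r hp.hu (by omega) hr C hC
  obtain ⟨C2, hC2, m2, hD⟩ := hdes η hη hη1 C hC
  obtain ⟨C3, hC3, m3, hN⟩ := hN2 η hη C hC
  obtain ⟨m4, hcn⟩ := hcost η hη hη2 C hC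
  obtain ⟨C5, hC5, m5, hc1⟩ := hcost1 η hη hη3 C hC
  obtain ⟨C6, hC6, m6, hZc⟩ := Z1_card u R r hp hr η hη C hC
  obtain ⟨m7, hO⟩ := out_le u R r hp hr η hη C hC
  obtain ⟨m10, hU⟩ := UC_nonempty u R r hp η C hC
  refine ⟨C1 + C2 * (((R : ℝ) + u) ^ 2 * C) + C3 + C5 * C6, by positivity,
    max (max (max m1 m2) (max m3 m4)) (max (max m5 m6) (max m7 (max m10 1))),
    fun m hm V _ _ G _ 𝒰 w B ty h hmin P hP => ?_⟩
  simp only [max_le_iff] at hm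
  obtain ⟨⟨⟨hm1, hm2⟩, hm3, hm4⟩, ⟨hm5, hm6⟩, hm7, hm10, hmN⟩ := hm
  have hm0 : (0 : ℝ) < m := by exact_mod_cast hmN
  have htot := total_le h hp.hu (by have := hp.hR; omega) hmN (hU m hm10 V G 𝒰 w B ty h) hmin
  have hM : (0 : ℝ) < (m : ℝ) ^ (w - 1) := by positivity
  obtain ⟨hE1, hE0⟩ := ee_le h
  have hwc : (w : ℝ) = (R : ℝ) + u := by rw [h.hw]; push_cast; ring
  have hEK : ee G B univ / m ≤ ((R : ℝ) + u) ^ 2 * C := by
    rw [div_le_iff₀ hm0, ← hwc]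
    exact hE1
  -- first order and destroyed
  have hF1 := hF m hm1 w h.hw (fun k => (B k).card) h.bs.size
  have hD1 := hD m hm2 V G 𝒰 w B ty h
  have hN1 := hN m hm3 V G 𝒰 w B ty h
  have hO1 := hO m hm7 V G 𝒰 w B ty h P hP
  -- costs
  have hsub1 : Z1 G B ty (4 * w * η) (eta0 u R) ⊆ Zin G B R := Z1_subset_Zin hp B ty _
  have hcs : ∑ z ∈ Zin G B R, (((Kz G 𝒰 B u z).card : ℝ) + ((Oz G 𝒰 B u z).card : ℝ) -
      (m : ℝ) ^ R / ((R + u).choose u : ℝ) * ((Jz 𝒰 B z).card : ℝ)) ≤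
      (m : ℝ) ^ (w - 1) *
        ((R : ℝ) / (R + u) * ∑ z ∈ Z1 G B ty (4 * w * η) (eta0 u R), pz G B univ ty z -
        ck u R / 2 * ∑ z ∈ Z1 G B ty (4 * w * η) (eta0 u R), pz G B univ ty z * sgm G B z +
        (Z1 G B ty (4 * w * η) (eta0 u R)).card * (C5 / m)) := by
    rw [← sum_sdiff hsub1, ← sum_cost]
    have h1 : ∑ z ∈ Zin G B R \ Z1 G B ty (4 * w * η) (eta0 u R),
        (((Kz G 𝒰 B u z).card : ℝ) + ((Oz G 𝒰 B u z).card : ℝ) -
        (m : ℝ) ^ R / ((R + u).choose u : ℝ) * ((Jz 𝒰 B z).card : ℝ)) ≤ 0 := by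
      refine sum_nonpos fun z hz => ?_
      rw [mem_sdiff] at hz
      exact hcn m hm4 V G 𝒰 w B ty h z hz.1 hz.2
    have h2 := sum_le_sum fun z hz => hc1 m hm5 V G 𝒰 w B ty h z hz
    linarith
  have hSP : eta0 u R * ∑ z ∈ Z1 G B ty (4 * w * η) (eta0 u R), sgm G B z ≤
      ∑ z ∈ Z1 G B ty (4 * w * η) (eta0 u R), pz G B univ ty z * sgm G B z := by
    rw [mul_sum]
    refine sum_le_sum fun z hz => ?_
    obtain ⟨hz1, hz2⟩ := mem_Z1.1 hz
    refine mul_le_mul_of_nonneg_right hz2.2 ?_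
    exact le_trans (by positivity) (h.sgl z (mem_sdiff.1 hz1).2)
  have hZ5 : ((Z1 G B ty (4 * w * η) (eta0 u R)).card : ℝ) * (C5 / m) ≤ C5 * C6 / m := by
    have h5 := hZc m hm6 V G 𝒰 w B ty h
    calc _ ≤ C6 * (C5 / m) := mul_le_mul_of_nonneg_right h5 (by positivity)
      _ = (C5 * C6) / m := by ring
  have hC2E : C2 / m * (ee G B univ / m) ≤ C2 * (((R : ℝ) + u) ^ 2 * C) / m := by
    calc C2 / m * (ee G B univ / m) ≤ C2 / m * (((R : ℝ) + u) ^ 2 * C) :=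
          mul_le_mul_of_nonneg_left hEK (by positivity)
      _ = _ := by ring
  have hE0' : 0 ≤ ee G B univ / m := by positivity
  have hκ : (Cwa + Cwb) * η * (ee G B univ / m) ≤ ck u R / 16 * (ee G B univ / m) :=
    mul_le_mul_of_nonneg_right hη4 hE0'
  have hck2 : ck u R / 2 * (eta0 u R * ∑ z ∈ Z1 G B ty (4 * w * η) (eta0 u R), sgm G B z) ≤
      ck u R / 2 * ∑ z ∈ Z1 G B ty (4 * w * η) (eta0 u R), pz G B univ ty z * sgm G B z :=
    mul_le_mul_of_nonneg_left hSP (by positivity)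
  have hnn : ∑ k, (((B k).card : ℝ) - m) - r = ∑ k, ((B k).card : ℝ) - w * m - r := by
    rw [sum_sub_distrib, sum_const, card_univ, Fintype.card_fin, nsmul_eq_mul]
  rw [hnn]
  generalize ∑ i, (yy G B ty m (4 * w * η) (eta0 u R) +
            max 0 (((∑ k ∈ P i, xP G B ty m (4 * w * η) (eta0 u R) k : ℤ) : ℝ) -
              (nP G B ty m r (4 * w * η) (eta0 u R) : ℝ))) = TT at hO1 ⊢
  generalize ∑ z ∈ Z1 G B ty (4 * w * η) (eta0 u R), pz G B univ ty z * sgm G B z = SP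
    at hcs hSP hck2
  generalize ∑ z ∈ Z1 G B ty (4 * w * η) (eta0 u R), pz G B univ ty z = Pi at hcs ⊢
  generalize ∑ z ∈ Z1 G B ty (4 * w * η) (eta0 u R), sgm G B z = S at hSP hck2 ⊢
  generalize ((Z1 G B ty (4 * w * η) (eta0 u R)).card : ℝ) * (C5 / m) = q at hcs hZ5
  generalize ee G B univ / m = E at *
  generalize ∑ k, ((B k).card : ℝ) - w * m - r = n at *
  generalize (m : ℝ) ^ (w - 1) = M at *
  have h1 : 0 < M * ((R : ℝ) / (R + u) * n + C1 / m -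
      ((R : ℝ) / (R + u) + ck u R - Cwa * η - C2 / m) * E + (C3 / m + Cwb * η * E) +
      ((R : ℝ) / (R + u) * Pi - ck u R / 2 * SP + q) + 2 * tau u R * TT) := by
    have e1 : 2 * tau u R * M * TT = M * (2 * tau u R * TT) := by ring
    have e2 : ((R : ℝ) / (R + u) + ck u R - Cwa * η - C2 / m) * E * M =
      M * (((R : ℝ) / (R + u) + ck u R - Cwa * η - C2 / m) * E) := by ring
    rw [e1] at hO1
    rw [e2] at hD1
    have e3 : M * ((R : ℝ) / (R + u) * n + C1 / m -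
      ((R : ℝ) / (R + u) + ck u R - Cwa * η - C2 / m) * E + (C3 / m + Cwb * η * E) +
      ((R : ℝ) / (R + u) * Pi - ck u R / 2 * SP + q) + 2 * tau u R * TT) =
      M * ((R : ℝ) / (R + u) * n + C1 / m) -
      M * (((R : ℝ) / (R + u) + ck u R - Cwa * η - C2 / m) * E) + M * (C3 / m + Cwb * η * E) +
      M * ((R : ℝ) / (R + u) * Pi - ck u R / 2 * SP + q) + M * (2 * tau u R * TT) := by ring
    rw [e3]
    linarith
  have h2 := (mul_pos_iff_of_pos_left hM).1 h1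
  have e4 : (C1 + C2 * (((R : ℝ) + u) ^ 2 * C) + C3 + C5 * C6) / m =
      C1 / m + C2 * (((R : ℝ) + u) ^ 2 * C) / m + C3 / m + C5 * C6 / m := by ring
  rw [e4]
  have e5 : ((R : ℝ) / (R + u) + ck u R - Cwa * η - C2 / m) * E =
      (R : ℝ) / (R + u) * E + ck u R * E - Cwa * η * E - C2 / m * E := by ring
  rw [e5] at h2
  have e6 : (Cwa + Cwb) * η * E = Cwa * η * E + Cwb * η * E := by ring
  rw [e6] at hκ
  have e7 : ((R : ℝ) / (R + u) + ck u R - ck u R / 16) * E =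
      (R : ℝ) / (R + u) * E + ck u R * E - ck u R / 16 * E := by ring
  rw [e7, mul_add]
  linarith

end H23CL
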