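import Pool.Agent.H23.CL.MainA

/-! Steps 12, 13 of note 3669: the tie case. -/

set_option autoImplicit false

namespace H23CL

open Finset H57LC

set_option linter.unusedSectionVars false

/-- the total inequality in the tie case is impossible -/
theorem ineq2 (u R r : ℕ) (hp : Par u R) (hr : r < R) :
    ∃ η₁ : ℝ, 0 < η₁ ∧ ∀ η : ℝ, 0 < η → η ≤ η₁ → ∀ C : ℝ, 0 < C → ∀ E₀ : ℝ, 0 < E₀ →
      ∃ m₀ : ℕ, ∀ m : ℕ, m₀ ≤ m →
      ∀ (V : Type) [Fintype V] [DecidableEq V] (G : SimpleGraph V) [DecidableRel G.Adj]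
        (𝒰 : Finset (Finset V)) (w : ℕ) (B : Fin w → Finset V) (ty : V → Fin w),
        Stp G 𝒰 B ty u R r m C η →
        (∀ 𝒮 ⊆ 𝒰, 𝒮.Nonempty →
          (rinv w R r m)⁻¹ * (𝒮.card : ℝ) < ((NN G 𝒰 𝒮 u w).card : ℝ)) →
        ∀ P : Fin w → Finset (Fin w), (∀ i, i ∉ P i ∧ (P i).card = u) →
        Z1 G B ty (4 * w * η) (eta0 u R) = ∅ → ee G B univ ≤ E₀ →
        ∑ k, (B k).card = w * m + r →
        (∀ i, ∑ k ∈ P i, xP G B ty m (4 * w * η) (eta0 u R) k ≤
          nP G B ty m r (4 * w * η) (eta0 u R)) → False := by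
  obtain ⟨ηa, Cwa, hηa, hCwa, hdes⟩ := des u R r hp hr
  obtain ⟨ηb, hηb, hcost⟩ := cost_nonpos u R r hp hr
  have hu1 : (1 : ℝ) ≤ u := by exact_mod_cast hp.hu
  have hR10 : (10 : ℝ) ≤ R := by exact_mod_cast hp.hR
  have hck : 0 < ck u R := by
    unfold ck
    have : (0 : ℝ) < (R : ℝ) + u - 1 := by linarith
    positivity
  obtain ⟨he0, he1⟩ := eta0_pos hp
  have hτ : 0 < tau u R := Real.exp_pos _
  refine ⟨min (min ηa ηb) (ck u R / (16 * Cwa)),
    lt_min (lt_min hηa hηb) (by positivity), fun η hη hηle C hC E₀ hE₀ => ?_⟩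
  have hη1 : η ≤ ηa := hηle.trans ((min_le_left _ _).trans (min_le_left _ _))
  have hη2 : η ≤ ηb := hηle.trans ((min_le_left _ _).trans (min_le_right _ _))
  have hη4 : Cwa * η ≤ ck u R / 16 := by
    have h1 := hηle.trans (min_le_right _ _)
    rw [le_div_iff₀ (by positivity)] at h1
    linarith
  obtain ⟨C2, hC2, m2, hD⟩ := hdes η hη hη1 C hC
  obtain ⟨m4, hcn⟩ := hcost η hη hη2 C hC
  obtain ⟨m7, hO⟩ := out_le u R r hp hr η hη C hC
  obtain ⟨m10, hU⟩ := UC_nonempty u R r hp η C hC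
  obtain ⟨m11, hTn⟩ := tie_nonneg u R r hp hr η C E₀ hC hE₀
  obtain ⟨C12, hC12, m12, hNt⟩ := N2_tie u R r hp hr η C E₀ hη hC hE₀
  refine ⟨max (max (max m2 m4) (max m7 m10)) (max (max m11 m12)
    (⌈16 * (C2 + C12) / ck u R⌉₊ + 1)),
    fun m hm V _ _ G _ 𝒰 w B ty h hmin P hP hZ hE hs hT => ?_⟩
  simp only [max_le_iff] at hm
  obtain ⟨⟨⟨hm2, hm4⟩, hm7, hm10⟩, ⟨hm11, hm12⟩, hm13⟩ := hm
  have hmN : 1 ≤ m := by omega
  have hm0 : (0 : ℝ) < m := by exact_mod_cast hmN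
  have hmb : 16 * (C2 + C12) / ck u R ≤ m := by
    refine (Nat.le_ceil _).trans ?_
    exact_mod_cast (by omega : ⌈16 * (C2 + C12) / ck u R⌉₊ ≤ m)
  have hδ3 : (C2 + C12) / m ≤ ck u R / 16 := by
    rw [div_le_iff₀ hck] at hmb
    rw [div_le_iff₀ hm0]
    linarith
  have htot := total_le h hp.hu (by have := hp.hR; omega) hmN (hU m hm10 V G 𝒰 w B ty h) hmin
  have hM : (0 : ℝ) < (m : ℝ) ^ (w - 1) := by positivity
  obtain ⟨hE1, hE0⟩ := ee_le h
  have hwc : (w : ℝ) = (R : ℝ) + u := by rw [h.hw]; push_cast; ring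
  have hD1 := hD m hm2 V G 𝒰 w B ty h
  have hN1 := hNt m hm12 V G 𝒰 w B ty h hE hs
  have hO1 := hO m hm7 V G 𝒰 w B ty h P hP
  have hge : ∀ k, m ≤ (B k).card := by
    have h1 : ∑ k, (((B k).card : ℤ) - m) = r := by
      rw [sum_sub_distrib, sum_const, card_univ, Fintype.card_fin, nsmul_eq_mul]
      have : ((∑ k, (B k).card : ℕ) : ℤ) = w * m + r := by exact_mod_cast hs
      push_cast at this
      linarith
    have h2 := swap2 hp.hu h.hw hr (fun k => ((B k).card : ℤ) - m) h1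
      (hTn m hm11 V G 𝒰 w B ty h hE hs)
    intro k
    have := h2 k
    omega
  have hF := fst_zero u R r m hmN (by have := hp.hR; omega) hr w h.hw (fun k => (B k).card) hge hs
  have hcs : ∑ z ∈ Zin G B R, (((Kz G 𝒰 B u z).card : ℝ) + ((Oz G 𝒰 B u z).card : ℝ) -
      (m : ℝ) ^ R / ((R + u).choose u : ℝ) * ((Jz 𝒰 B z).card : ℝ)) ≤ 0 := by
    refine sum_nonpos fun z hz => hcn m hm4 V G 𝒰 w B ty h z hz ?_
    rw [hZ]
    exact notMem_empty _
  have hyy : yy G B ty m (4 * w * η) (eta0 u R) = ee G B univ / m := by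
    unfold yy
    rw [hZ, sum_empty, add_zero]
  have hsumT : ∑ i, (yy G B ty m (4 * w * η) (eta0 u R) +
      max 0 (((∑ k ∈ P i, xP G B ty m (4 * w * η) (eta0 u R) k : ℤ) : ℝ) -
        (nP G B ty m r (4 * w * η) (eta0 u R) : ℝ))) = ((R : ℝ) + u) * (ee G B univ / m) := by
    have h1 : ∀ i ∈ (univ : Finset (Fin w)), (yy G B ty m (4 * w * η) (eta0 u R) +
      max 0 (((∑ k ∈ P i, xP G B ty m (4 * w * η) (eta0 u R) k : ℤ) : ℝ) -
        (nP G B ty m r (4 * w * η) (eta0 u R) : ℝ))) = ee G B univ / m := by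
      intro i _
      have h2 : ((∑ k ∈ P i, xP G B ty m (4 * w * η) (eta0 u R) k : ℤ) : ℝ) ≤
        (nP G B ty m r (4 * w * η) (eta0 u R) : ℝ) := by exact_mod_cast hT i
      rw [hyy, max_eq_left (by linarith), add_zero]
    rw [sum_congr rfl h1, sum_const, card_univ, Fintype.card_fin, nsmul_eq_mul, hwc]
  rw [hsumT] at hO1
  have hE0' : 0 ≤ ee G B univ / m := by positivity
  have hτw : 2 * tau u R * ((R : ℝ) + u) ≤ ck u R / 16 := by
    have h1 := hp.p4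
    have h2 : 0 ≤ 2 * tau u R * ((R : ℝ) + u) := by positivity
    have h3 : ck u R * eta0 u R ≤ ck u R := mul_le_of_le_one_right hck.le he1
    have h4 : 2 * tau u R * ((R : ℝ) + u) * 10 ≤ 2 * tau u R * ((R : ℝ) + u) * (6 * u + 4) :=
      mul_le_mul_of_nonneg_left (by linarith) h2
    linarith
  generalize ee G B univ / m = E at *
  generalize (m : ℝ) ^ (w - 1) = M at *
  have hRw : 0 ≤ (R : ℝ) / (R + u) := by positivity
  have h3 : (((R : ℝ) / (R + u) + ck u R - Cwa * η - C2 / m) * E * M) ≤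
      M * (C12 / m) * E + 2 * tau u R * M * (((R : ℝ) + u) * E) := by linarith
  have h4 : 0 < M * (C12 / m) * E + 2 * tau u R * M * (((R : ℝ) + u) * E) -
      (((R : ℝ) / (R + u) + ck u R - Cwa * η - C2 / m) * E * M) := by linarith
  have h5 : M * (C12 / m) * E + 2 * tau u R * M * (((R : ℝ) + u) * E) -
      (((R : ℝ) / (R + u) + ck u R - Cwa * η - C2 / m) * E * M) =
      -(M * E * ((R : ℝ) / (R + u) + ck u R - Cwa * η - (C2 + C12) / m -
        2 * tau u R * ((R : ℝ) + u))) := by ring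
  rw [h5] at h4
  have h6 : 0 ≤ (R : ℝ) / (R + u) + ck u R - Cwa * η - (C2 + C12) / m -
        2 * tau u R * ((R : ℝ) + u) := by linarith
  have h7 : 0 ≤ M * E * ((R : ℝ) / (R + u) + ck u R - Cwa * η - (C2 + C12) / m -
        2 * tau u R * ((R : ℝ) + u)) := mul_nonneg (mul_nonneg hM.le hE0') h6
  linarith

end H23CL
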