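import Pool.Agent.H23.CL.Val
import Pool.Agent.H23.CL.IntC

/-! Steps 10, 13 of note 3669: helper lemmas for `N2_tie`. -/

set_option autoImplicit false

namespace H23CL

open Finset H57LC

set_option linter.unusedSectionVars false

/-- a nonempty clique inside the parts is the image of a tuple -/
lemma NTie_tuple {V : Type} [DecidableEq V] {G : SimpleGraph V} [DecidableRel G.Adj]
    {w : ℕ} {B : Fin w → Finset V} (hdisj : ∀ i j, i ≠ j → Disjoint (B i) (B j))
    (hind : ∀ i, ∀ a ∈ B i, ∀ b ∈ B i, ¬ G.Adj a b) {X : Finset V} (hX : X ⊆ un B)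
    (hcl : IsCl G X) (hne : X.Nonempty) :
    ∃ (P : Finset (Fin w)) (f : Fin w → V), P.card = X.card ∧ (∀ k ∈ P, f k ∈ B k) ∧
      (∀ k ∈ P, f k ∈ X) ∧ P.image f = X := by
  classical
  obtain ⟨x0, hx0⟩ := hne
  set P : Finset (Fin w) := univ.filter fun k => (X ∩ B k).Nonempty with hP
  set f : Fin w → V := fun k => if h : (X ∩ B k).Nonempty then h.choose else x0 with hf
  have hfk : ∀ k ∈ P, f k ∈ X ∩ B k := by
    intro k hk
    have h1 : (X ∩ B k).Nonempty := (mem_filter.1 hk).2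
    have h2 : f k = h1.choose := by simp only [hf]; rw [dif_pos h1]
    rw [h2]
    exact h1.choose_spec
  have himg : P.image f = X := by
    ext x
    rw [mem_image]
    constructor
    · rintro ⟨k, hk, rfl⟩
      exact (mem_inter.1 (hfk k hk)).1
    · intro hx
      obtain ⟨k, hk⟩ := mem_un.1 (hX hx)
      have hkP : k ∈ P := mem_filter.2 ⟨mem_univ _, ⟨x, mem_inter.2 ⟨hx, hk⟩⟩⟩
      refine ⟨k, hkP, ?_⟩
      by_contra hne'
      have h1 := mem_inter.1 (hfk k hkP)
      exact hind k _ h1.2 _ hk (hcl _ h1.1 _ hx hne')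
  have hinj : Set.InjOn f (P : Set (Fin w)) := by
    intro k hk l hl hkl
    by_contra hne'
    have h1 := (mem_inter.1 (hfk k hk)).2
    have h2 := (mem_inter.1 (hfk l hl)).2
    rw [hkl] at h1
    exact disjoint_left.1 (hdisj k l hne') h1 h2
  refine ⟨P, f, ?_, fun k hk => (mem_inter.1 (hfk k hk)).2, fun k hk => (mem_inter.1 (hfk k hk)).1,
    himg⟩
  rw [← himg, card_image_of_injOn hinj]

/-- `rw` is at most twice the number of missing pairs -/
lemma NTie_rw {V : Type} [DecidableEq V] {G : SimpleGraph V} [DecidableRel G.Adj]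
    {w : ℕ} {B : Fin w → Finset V} {P : Finset (Fin w)} {f : Fin w → V}
    (hf : ∀ k ∈ P, f k ∈ B k) : (rw G B univ f P : ℝ) ≤ 2 * ee G B univ := by
  have h0 : (rw G B univ f P : ℝ) ≤
      ∑ k ∈ univ \ P, ∑ l ∈ P, ((hs G (B k) (f l)).card : ℝ) := by
    unfold rw
    push_cast
    refine sum_le_sum fun k _ => ?_
    have h1 : ((B k).filter fun y => ∃ l ∈ P, ¬ G.Adj (f l) y) ⊆
        P.biUnion fun l => hs G (B k) (f l) := by
      intro y hy
      obtain ⟨hy1, l, hl, hy2⟩ := mem_filter.1 hy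
      exact mem_biUnion.2 ⟨l, hl, mem_hs.2 ⟨hy1, hy2⟩⟩
    have h2 := (card_le_card h1).trans card_biUnion_le
    have h3 : ((((B k).filter fun y => ∃ l ∈ P, ¬ G.Adj (f l) y).card : ℕ) : ℝ) ≤
        ∑ l ∈ P, ((hs G (B k) (f l)).card : ℝ) := by
      exact_mod_cast h2
    refine le_trans (le_of_eq ?_) h3
    congr!
  refine h0.trans ?_
  rw [sum_comm]
  have h1 : ∀ l ∈ P, ∑ k ∈ univ \ P, ((hs G (B k) (f l)).card : ℝ) ≤
      ∑ k ∈ univ.erase l, ∑ z ∈ B l, ((hs G (B k) z).card : ℝ) := by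
    intro l hl
    calc ∑ k ∈ univ \ P, ((hs G (B k) (f l)).card : ℝ)
        ≤ ∑ k ∈ univ.erase l, ((hs G (B k) (f l)).card : ℝ) := by
          refine sum_le_sum_of_subset_of_nonneg ?_ fun j _ _ => Nat.cast_nonneg _
          intro j hj
          refine mem_erase.2 ⟨?_, mem_univ _⟩
          rintro rfl
          exact (mem_sdiff.1 hj).2 hl
      _ ≤ _ := by
          refine sum_le_sum fun k _ => ?_
          exact single_le_sum (f := fun z => ((hs G (B k) z).card : ℝ))
            (fun z _ => Nat.cast_nonneg _) (hf l hl)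
  calc ∑ l ∈ P, ∑ k ∈ univ \ P, ((hs G (B k) (f l)).card : ℝ)
      ≤ ∑ l ∈ P, ∑ k ∈ univ.erase l, ∑ z ∈ B l, ((hs G (B k) z).card : ℝ) :=
        sum_le_sum h1
    _ ≤ ∑ l, ∑ k ∈ univ.erase l, ∑ z ∈ B l, ((hs G (B k) z).card : ℝ) := by
        refine sum_le_sum_of_subset_of_nonneg (subset_univ _) fun j _ _ => ?_
        exact sum_nonneg fun _ _ => sum_nonneg fun _ _ => Nat.cast_nonneg _
    _ = 2 * ee G B univ := by unfold ee; ring

/-- the vertices of the parts with a missing pair -/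
def badv {V : Type} [DecidableEq V] (G : SimpleGraph V) [DecidableRel G.Adj] {w : ℕ}
    (B : Fin w → Finset V) : Finset V :=
  univ.biUnion fun i => (B i).filter fun z => ∃ k ∈ univ.erase i, (hs G (B k) z).Nonempty

lemma NTie_badv {V : Type} [DecidableEq V] {G : SimpleGraph V} [DecidableRel G.Adj]
    {w : ℕ} (B : Fin w → Finset V) : ((badv G B).card : ℝ) ≤ 2 * ee G B univ := by
  have h1 : (badv G B).card ≤ ∑ i, ((B i).filter fun z =>
      ∃ k ∈ univ.erase i, (hs G (B k) z).Nonempty).card := card_biUnion_le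
  have h2 : ((badv G B).card : ℝ) ≤ ∑ i, (((B i).filter fun z =>
      ∃ k ∈ univ.erase i, (hs G (B k) z).Nonempty).card : ℝ) := by exact_mod_cast h1
  refine h2.trans ?_
  have h3 : 2 * ee G B univ = ∑ i, ∑ z ∈ B i, ∑ k ∈ univ.erase i, ((hs G (B k) z).card : ℝ) := by
    unfold ee
    rw [mul_div_cancel₀ _ (two_ne_zero)]
    exact sum_congr rfl fun i _ => sum_comm
  rw [h3]
  refine sum_le_sum fun i _ => ?_
  rw [card_filter]
  push_cast
  refine sum_le_sum fun z _ => ?_
  split_ifs with hz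
  · obtain ⟨k, hk, hk2⟩ := hz
    have h4 : (1 : ℝ) ≤ ((hs G (B k) z).card : ℝ) := by
      exact_mod_cast card_pos.2 hk2
    exact h4.trans (single_le_sum (f := fun k => ((hs G (B k) z).card : ℝ))
      (fun _ _ => Nat.cast_nonneg _) hk)
  · exact sum_nonneg fun _ _ => Nat.cast_nonneg _

/-- the number of `R`-subsets with at least two elements in `X` -/
lemma NTie_sub {V : Type} [DecidableEq V] (S X : Finset V) {R N : ℕ}
    (hN : S.card ≤ N) :
    ((S.powersetCard R).filter fun T => 2 ≤ (T ∩ X).card).card ≤ X.card ^ 2 * N ^ (R - 2) := by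
  classical
  have h1 : ((S.powersetCard R).filter fun T => 2 ≤ (T ∩ X).card) ⊆
      ((X.powersetCard 2) ×ˢ (S.powersetCard (R - 2))).image fun p => p.1 ∪ p.2 := by
    intro T hT
    obtain ⟨h1, h2⟩ := mem_filter.1 hT
    obtain ⟨h3, h4⟩ := mem_powersetCard.1 h1
    obtain ⟨A, hA, hA2⟩ := exists_subset_card_eq h2
    have hAT : A ⊆ T := hA.trans inter_subset_left
    refine mem_image.2 ⟨(A, T \ A), mem_product.2 ⟨?_, ?_⟩, ?_⟩
    · exact mem_powersetCard.2 ⟨hA.trans inter_subset_right, hA2⟩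
    · refine mem_powersetCard.2 ⟨sdiff_subset.trans h3, ?_⟩
      show (T \ A).card = R - 2
      rw [card_sdiff_of_subset hAT, h4, hA2]
    · show A ∪ T \ A = T
      exact union_sdiff_of_subset hAT
  calc _ ≤ (((X.powersetCard 2) ×ˢ (S.powersetCard (R - 2))).image fun p => p.1 ∪ p.2).card :=
        card_le_card h1
    _ ≤ ((X.powersetCard 2) ×ˢ (S.powersetCard (R - 2))).card := card_image_le
    _ = X.card.choose 2 * S.card.choose (R - 2) := by
        rw [card_product, card_powersetCard, card_powersetCard]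
    _ ≤ X.card ^ 2 * N ^ (R - 2) := by
        refine Nat.mul_le_mul (Nat.choose_le_pow _ _) ?_
        exact (Nat.choose_le_pow _ _).trans (Nat.pow_le_pow_left hN _)

/-- the outside common neighbours of a member of `UC` -/
lemma NTie_X {V : Type} [Fintype V] [DecidableEq V] {G : SimpleGraph V}
    [DecidableRel G.Adj] {𝒰 : Finset (Finset V)} {w u R r m : ℕ} {B : Fin w → Finset V}
    {ty : V → Fin w} {C η : ℝ} (h : Stp G 𝒰 B ty u R r m C η) (hu : 1 ≤ u) {U : Finset V}
    (hU : U ∈ UC 𝒰 B) :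
    ((cn G U \ un B).card : ℝ) ≤ r + R * C + 2 * ee G B univ := by
  obtain ⟨hU1, hU2⟩ := mem_filter.1 hU
  obtain ⟨⟨-, hUc⟩, hUcl⟩ := mem_clq.1 (h.sub hU1)
  have hne : U.Nonempty := by
    rw [← card_pos, hUc]
    omega
  obtain ⟨P, f, hPc, hfB, hfU, hPU⟩ := NTie_tuple h.bs.disj h.bs.ind hU2 hUcl hne
  have hPu : P.card = u := by rw [hPc, hUc]
  have hcl : ∀ k ∈ P, ∀ l ∈ P, k ≠ l → G.Adj (f k) (f l) := by
    intro k hk l hl hkl
    refine hUcl _ (hfU k hk) _ (hfU l hl) ?_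
    intro e
    have h1 := hfB k hk
    rw [e] at h1
    exact disjoint_left.1 (h.bs.disj k l hkl) h1 (hfB l hl)
  have hv := val_point h hPu hfB hcl
  have hX : cn G U \ un B ⊆ (outs B).filter fun z => ∀ l ∈ P, G.Adj (f l) z := by
    intro z hz
    rw [mem_sdiff, mem_cn] at hz
    rw [mem_filter, outs, mem_sdiff]
    exact ⟨⟨mem_univ _, hz.2⟩, fun l hl => hz.1 _ (hfU l hl)⟩
  have hX2 : ((cn G U \ un B).card : ℝ) ≤
      ((((outs B).filter fun z => ∀ l ∈ P, G.Adj (f l) z).card : ℕ) : ℝ) := by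
    exact_mod_cast card_le_card hX
  have hPcc : (univ \ P).card = R := by
    rw [card_sdiff_of_subset (subset_univ P), card_univ, Fintype.card_fin, hPu, h.hw]
    omega
  have hsum : (R : ℝ) * (m - C) ≤ ∑ k ∈ univ \ P, ((B k).card : ℝ) := by
    calc (R : ℝ) * (m - C) = ∑ _k ∈ univ \ P, ((m : ℝ) - C) := by
          rw [sum_const, nsmul_eq_mul, hPcc]
      _ ≤ _ := sum_le_sum fun k _ => by
          have := abs_le.1 (h.bs.size k)
          linarith [this.1]
  have hrw := NTie_rw (G := G) hfB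
  have e1 : (R : ℝ) * (m - C) = R * m - R * C := by ring
  linarith

/-- every member of `N2` contains a vertex with a missing pair -/
lemma NTie_exists {V : Type} [Fintype V] [DecidableEq V] {G : SimpleGraph V}
    [DecidableRel G.Adj] {𝒰 : Finset (Finset V)} {w u R r m : ℕ} {B : Fin w → Finset V}
    {ty : V → Fin w} {C η : ℝ} (h : Stp G 𝒰 B ty u R r m C η) (hu : 1 ≤ u) (hr : r < R)
    (hsz : ∑ k, (B k).card = w * m + r)
    (hnn : ∀ P : Finset (Fin w), P.card = u → 0 ≤ ∑ k ∈ P, (((B k).card : ℤ) - m))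
    {K : Finset V} (hK : K ∈ N2 G 𝒰 B u) : ∃ v ∈ K, v ∈ badv G B := by
  by_contra hno
  push Not at hno
  obtain ⟨h1, h2, h3⟩ := mem_filter.1 hK
  obtain ⟨h4, h5⟩ := mem_filter.1 h1
  obtain ⟨⟨-, hKc⟩, hKcl⟩ := mem_clq.1 h4
  set x : Fin w → ℤ := fun k => ((B k).card : ℤ) - m with hx
  have hxs : ∑ k, x k = r := by
    have e : ((∑ k, (B k).card : ℕ) : ℤ) = ((w * m + r : ℕ) : ℤ) := by rw [hsz]
    push_cast at e
    simp only [hx]
    rw [sum_sub_distrib, e, sum_const, card_univ, Fintype.card_fin, nsmul_eq_mul]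
    ring
  have hx0 := swap2 hu h.hw hr x hxs hnn
  set X : Finset V := K ∩ un B with hXdef
  have hXcl : IsCl G X := hKcl.subset inter_subset_left
  have hXne : X.Nonempty := by
    rw [← card_pos]
    omega
  obtain ⟨P, f, hPc, hfB, hfX, hPX⟩ := NTie_tuple h.bs.disj h.bs.ind inter_subset_right hXcl hXne
  set j : ℕ := (K \ un B).card with hj
  have hQj : P.card + j = w := by
    have e := card_inter_add_card_sdiff K (un B)
    rw [hKc] at e
    rw [hPc]
    exact e
  have hall : ∀ P' ⊆ P, P'.card = u → (j : ℤ) ≤ ∑ k ∈ P', x k := by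
    intro P' hP' hP'u
    have hfB' : ∀ k ∈ P', f k ∈ B k := fun k hk => hfB k (hP' hk)
    have hcl : ∀ k ∈ P', ∀ l ∈ P', k ≠ l → G.Adj (f k) (f l) := by
      intro k hk l hl hkl
      refine hXcl _ (hfX k (hP' hk)) _ (hfX l (hP' hl)) ?_
      intro e
      have h1 := hfB' k hk
      rw [e] at h1
      exact disjoint_left.1 (h.bs.disj k l hkl) h1 (hfB' l hl)
    have hv := val_point h hP'u hfB' hcl
    have hsub : K \ un B ⊆ (outs B).filter fun z => ∀ l ∈ P', G.Adj (f l) z := by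
      intro z hz
      rw [mem_sdiff] at hz
      rw [mem_filter, outs, mem_sdiff]
      refine ⟨⟨mem_univ _, hz.2⟩, fun l hl => ?_⟩
      have hfl := mem_inter.1 (hfX l (hP' hl))
      exact hKcl _ hfl.1 _ hz.1 fun e => hz.2 (e ▸ hfl.2)
    have hj2 : (j : ℝ) ≤
        ((((outs B).filter fun z => ∀ l ∈ P', G.Adj (f l) z).card : ℕ) : ℝ) := by
      exact_mod_cast card_le_card hsub
    have hmiss : ∀ k ∈ univ \ P', ∀ y ∈ B k, ∀ l ∈ P', ¬ G.Adj (f l) y → False := by
      intro k hk y hy l hl hadj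
      have hlk : k ≠ l := by
        rintro rfl
        exact (mem_sdiff.1 hk).2 hl
      have hfl := mem_inter.1 (hfX l (hP' hl))
      refine hno _ hfl.1 ?_
      unfold badv
      refine mem_biUnion.2 ⟨l, mem_univ _, mem_filter.2 ⟨hfB' l hl, k, ?_, y, ?_⟩⟩
      · exact mem_erase.2 ⟨hlk, mem_univ _⟩
      · exact mem_hs.2 ⟨hy, hadj⟩
    have hrw : rw G B univ f P' = 0 := by
      unfold rw
      refine sum_eq_zero fun k hk => ?_
      have h0 : ((B k).filter fun y => ∃ l ∈ P', ¬ G.Adj (f l) y).card = 0 := by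
        rw [card_eq_zero, filter_eq_empty_iff]
        rintro y hy ⟨l, hl, hadj⟩
        exact hmiss k hk y hy l hl hadj
      refine Eq.trans ?_ h0
      congr!
    rw [hrw] at hv
    have hsplit : ∑ k ∈ univ \ P', ((B k).card : ℝ) + ∑ k ∈ P', ((B k).card : ℝ) = w * m + r := by
      rw [sum_sdiff (subset_univ P')]
      exact_mod_cast hsz
    have hw' : (w : ℝ) = R + u := by
      rw [h.hw]
      push_cast
      ring
    have hfin : (j : ℝ) ≤ ∑ k ∈ P', ((B k).card : ℝ) - u * m := by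
      rw [hw'] at hsplit
      push_cast at hv
      nlinarith
    have hfin2 : (j : ℝ) ≤ ((∑ k ∈ P', x k : ℤ) : ℝ) := by
      simp only [hx]
      push_cast
      rw [sum_sub_distrib, sum_const, hP'u, nsmul_eq_mul]
      exact hfin
    exact_mod_cast hfin2
  have hfinal := swap3 (j := j) hu h.hw x hx0 P hQj (by rw [hPc]; exact h3) (by omega) hall
  rw [hxs] at hfinal
  have : (R : ℤ) ≤ r := hfinal
  omega

/-- the number of members of `N2` -/
lemma NTie_card {V : Type} [Fintype V] [DecidableEq V] {G : SimpleGraph V}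
    [DecidableRel G.Adj] {𝒰 : Finset (Finset V)} {w u R r m : ℕ} {B : Fin w → Finset V}
    {ty : V → Fin w} {C η : ℝ} (h : Stp G 𝒰 B ty u R r m C η) (hu : 1 ≤ u) (hr : r < R)
    (hsz : ∑ k, (B k).card = w * m + r)
    (hnn : ∀ P : Finset (Fin w), P.card = u → 0 ≤ ∑ k ∈ P, (((B k).card : ℤ) - m)) (N : ℕ)
    (hN : ∀ U ∈ UC 𝒰 B, (cn G U \ un B).card ≤ N) :
    (N2 G 𝒰 B u).card ≤
      (badv G B).card * ((w * m + r) ^ (u - 1) * (N ^ 2 * (R * m + r) ^ (R - 2))) := by
  classical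
  have hsub : N2 G 𝒰 B u ⊆ (badv G B).biUnion fun v => ((UC 𝒰 B).filter fun U => v ∈ U).biUnion
      fun U => (((cn G U).powersetCard R).filter fun T => 2 ≤ (T ∩ (cn G U \ un B)).card).image
        fun T => U ∪ T := by
    intro K hK
    obtain ⟨v, hvK, hvb⟩ := NTie_exists h hu hr hsz hnn hK
    obtain ⟨h1, h2, h3⟩ := mem_filter.1 hK
    obtain ⟨h4, h5⟩ := mem_filter.1 h1
    obtain ⟨⟨-, hKc⟩, hKcl⟩ := mem_clq.1 h4
    have hvB : v ∈ un B := by
      unfold badv at hvb
      obtain ⟨i, -, hi⟩ := mem_biUnion.1 hvb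
      exact mem_un.2 ⟨i, (mem_filter.1 hi).1⟩
    obtain ⟨U, hvU, hU, hUc⟩ := exists_subsuperset_card_eq (s := {v}) (t := K ∩ un B) (n := u)
      (singleton_subset_iff.2 (mem_inter.2 ⟨hvK, hvB⟩)) (by rw [card_singleton]; exact hu) h3
    have hUK : U ⊆ K := hU.trans inter_subset_left
    have hUB : U ⊆ un B := hU.trans inter_subset_right
    refine mem_biUnion.2 ⟨v, hvb, mem_biUnion.2 ⟨U, mem_filter.2 ⟨mem_filter.2
      ⟨h5 (mem_powersetCard.2 ⟨hUK, hUc⟩), hUB⟩, singleton_subset_iff.1 hvU⟩, ?_⟩⟩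
    refine mem_image.2 ⟨K \ U, mem_filter.2 ⟨mem_powersetCard.2 ⟨?_, ?_⟩, ?_⟩,
      union_sdiff_of_subset hUK⟩
    · intro z hz
      obtain ⟨hz1, hz2⟩ := mem_sdiff.1 hz
      exact mem_cn.2 fun a ha => hKcl a (hUK ha) z hz1 fun e => hz2 (e ▸ ha)
    · rw [card_sdiff_of_subset hUK, hKc, hUc, h.hw]
      omega
    · refine h2.trans (card_le_card ?_)
      intro z hz
      obtain ⟨hz1, hz2⟩ := mem_sdiff.1 hz
      have hzU : z ∉ U := fun e => hz2 (hUB e)
      refine mem_inter.2 ⟨mem_sdiff.2 ⟨hz1, hzU⟩, mem_sdiff.2 ⟨?_, hz2⟩⟩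
      exact mem_cn.2 fun a ha => hKcl a (hUK ha) z hz1 fun e => hzU (e ▸ ha)
  have hunc : (un B).card ≤ w * m + r := by
    rw [← hsz]
    exact card_biUnion_le
  refine (card_le_card hsub).trans (card_biUnion_le.trans ?_)
  rw [← smul_eq_mul, ← sum_const]
  refine sum_le_sum fun v _ => card_biUnion_le.trans ?_
  have hcount : ((UC 𝒰 B).filter fun U => v ∈ U).card ≤ (w * m + r) ^ (u - 1) := by
    have h1 : (((UC 𝒰 B).filter fun U => v ∈ U)).card ≤ ((un B).powersetCard (u - 1)).card := by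
      refine card_le_card_of_injOn (fun U => U.erase v) ?_ ?_
      · intro U hU
        obtain ⟨hU1, hU2⟩ := mem_filter.1 (mem_coe.1 hU)
        obtain ⟨hU3, hU4⟩ := mem_filter.1 hU1
        obtain ⟨⟨-, hUc⟩, -⟩ := mem_clq.1 (h.sub hU3)
        refine mem_coe.2 (mem_powersetCard.2 ⟨(erase_subset _ _).trans hU4, ?_⟩)
        rw [card_erase_of_mem hU2, hUc]
      · intro U hU U' hU' he
        have h1 := (mem_filter.1 (mem_coe.1 hU)).2
        have h2 := (mem_filter.1 (mem_coe.1 hU')).2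
        have he' : U.erase v = U'.erase v := he
        rw [← insert_erase h1, ← insert_erase h2, he']
    refine h1.trans ?_
    rw [card_powersetCard]
    exact (Nat.choose_le_pow _ _).trans (Nat.pow_le_pow_left hunc _)
  calc ∑ U ∈ (UC 𝒰 B).filter fun U => v ∈ U, ((((cn G U).powersetCard R).filter fun T =>
        2 ≤ (T ∩ (cn G U \ un B)).card).image fun T => U ∪ T).card
      ≤ ∑ _U ∈ (UC 𝒰 B).filter fun U => v ∈ U, (N ^ 2 * (R * m + r) ^ (R - 2)) := by
        refine sum_le_sum fun U hU => ?_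
        have hU1 := (mem_filter.1 hU).1
        refine card_image_le.trans ((NTie_sub _ _ (h.val U (h.sub (mem_filter.1 hU1).1))).trans ?_)
        exact Nat.mul_le_mul_right _ (Nat.pow_le_pow_left (hN U hU1) _)
    _ = ((UC 𝒰 B).filter fun U => v ∈ U).card * (N ^ 2 * (R * m + r) ^ (R - 2)) := by
        rw [sum_const, smul_eq_mul]
    _ ≤ _ := Nat.mul_le_mul_right _ hcount

end H23CL
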