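import Pool.Agent.H23.CL.ParX

/-! The conditions `Par u R` hold for large `R`. -/

set_option autoImplicit false

namespace H23CL

open Finset

/-- the explicit bound is `R₀ = 100 u³` (`par_of_ge`) -/
theorem exists_par (u : ℕ) (hu : 1 ≤ u) : ∃ R₀ : ℕ, ∀ R : ℕ, R₀ ≤ R → Par u R :=
  ⟨100 * u ^ 3, fun R hR => par_of_ge u R hu hR⟩

end H23CL
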