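import Pool.Agent.H23.CL.Defs

/-! The conditions `Par u R` hold for `R ≥ 100 u³`. -/

set_option autoImplicit false

namespace H23CL

open Finset

/-- basic real inequalities -/
private lemma basic (u R : ℕ) (hu : 1 ≤ u) (hR : 100 * u ^ 3 ≤ R) :
    (1 : ℝ) ≤ u ∧ 100 * (u : ℝ) ^ 3 ≤ R ∧ 100 * (u : ℝ) ^ 2 ≤ R ∧ 100 * (u : ℝ) ≤ R ∧
      (100 : ℝ) ≤ R := by
  have h1 : (1 : ℝ) ≤ u := by exact_mod_cast hu
  have h2 : 100 * (u : ℝ) ^ 3 ≤ R := by exact_mod_cast hR
  have h3 : (u : ℝ) ^ 2 ≤ (u : ℝ) ^ 3 := pow_le_pow_right₀ h1 (by norm_num)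
  have h4 : (u : ℝ) ≤ (u : ℝ) ^ 2 := by nlinarith
  refine ⟨h1, h2, by linarith, by linarith, by linarith⟩

private lemma huR_nat (u R : ℕ) (hR : 100 * u ^ 3 ≤ R) : 100 * u ≤ R := by
  have : u ≤ u ^ 3 := Nat.le_self_pow (by norm_num) u
  omega

private lemma half' (u R : ℕ) (hu : 1 ≤ u) (hR : 100 * u ^ 3 ≤ R) :
    ((R + u).choose u : ℝ) ≤ 2 * (R.choose u : ℝ) := by
  obtain ⟨h1, h2, h3, h4, h5⟩ := basic u R hu hR
  have hn := huR_nat u R hR
  have hf : (0 : ℝ) < (u.factorial : ℝ) := by exact_mod_cast Nat.factorial_pos u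
  have a1 : ((R + u).choose u : ℝ) * u.factorial ≤ ((R : ℝ) + u) ^ u := by
    have e := Nat.descFactorial_le_pow (R + u) u
    rw [Nat.descFactorial_eq_factorial_mul_choose] at e
    have : (((u.factorial * (R + u).choose u : ℕ)) : ℝ) ≤ (((R + u) ^ u : ℕ) : ℝ) := by
      exact_mod_cast e
    push_cast at this
    linarith
  have a2 : ((R : ℝ) + 1 - u) ^ u ≤ (R.choose u : ℝ) * u.factorial := by
    have e := Nat.pow_sub_le_descFactorial R u
    rw [Nat.descFactorial_eq_factorial_mul_choose] at e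
    have : (((R + 1 - u) ^ u : ℕ) : ℝ) ≤ (((u.factorial * R.choose u : ℕ)) : ℝ) := by
      exact_mod_cast e
    rw [Nat.cast_pow, Nat.cast_sub (by omega)] at this
    push_cast at this
    linarith
  have a3 : ((R : ℝ) + u) ^ u ≤ 2 * ((R : ℝ) + 1 - u) ^ u := by
    have hp : (0 : ℝ) < (R : ℝ) + 1 - u := by linarith
    have e1 : ((R : ℝ) + u) ≤ ((R : ℝ) + 1 - u) * Real.exp (1 / (40 * u)) := by
      have e2 : 1 / (40 * (u : ℝ)) + 1 ≤ Real.exp (1 / (40 * u)) := Real.add_one_le_exp _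
      have e3 : ((R : ℝ) + u) ≤ ((R : ℝ) + 1 - u) * (1 / (40 * u) + 1) := by
        have e4 : 2 * (u : ℝ) ≤ ((R : ℝ) + 1 - u) * (1 / (40 * u)) := by
          rw [mul_one_div, le_div_iff₀ (by positivity)]
          nlinarith
        linarith
      calc ((R : ℝ) + u) ≤ ((R : ℝ) + 1 - u) * (1 / (40 * u) + 1) := e3
        _ ≤ _ := mul_le_mul_of_nonneg_left e2 hp.le
    calc ((R : ℝ) + u) ^ u ≤ (((R : ℝ) + 1 - u) * Real.exp (1 / (40 * u))) ^ u :=
          pow_le_pow_left₀ (by positivity) e1 u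
      _ = Real.exp (1 / 40) * ((R : ℝ) + 1 - u) ^ u := by
          rw [mul_pow, ← Real.exp_nat_mul, mul_comm]
          congr 2
          field_simp
      _ ≤ 2 * ((R : ℝ) + 1 - u) ^ u := by
          apply mul_le_mul_of_nonneg_right _ (by positivity)
          have : Real.exp (1 / 40) ≤ 2 := by
            have := Real.exp_bound_div_one_sub_of_interval (x := 1 / 40) (by norm_num) (by norm_num)
            norm_num at this
            linarith
          exact this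
  have a4 : ((R + u).choose u : ℝ) * u.factorial ≤ 2 * (R.choose u : ℝ) * u.factorial := by
    linarith
  exact le_of_mul_le_mul_right a4 hf

private lemma exp_half_le : Real.exp (1 / 2) ≤ 9 / 5 := by
  have h := Real.exp_one_lt_d9
  have e : Real.exp (1 / 2) ^ 2 = Real.exp 1 := by
    rw [← Real.exp_nat_mul]; norm_num
  nlinarith [Real.exp_pos (1 / 2 : ℝ)]

private lemma epsp_le (u R : ℕ) (hu : 1 ≤ u) (hR : 100 * u ^ 3 ≤ R) : epsp u R ≤ 1 / 6 := by
  obtain ⟨h1, h2, h3, h4, h5⟩ := basic u R hu hR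
  have hn := huR_nat u R hR
  have a1 := half' u R hu hR
  -- `C(R,u) ≤ 50^u (51/50)^R`
  have a2 : (R.choose u : ℝ) ≤ 50 ^ u * (51 / 50) ^ R := by
    have e : (51 / 50 : ℝ) ^ R = ∑ m ∈ range (R + 1), (1 / 50 : ℝ) ^ m * 1 ^ (R - m) *
        (R.choose m : ℝ) := by
      rw [← add_pow]; norm_num
    have e2 : (1 / 50 : ℝ) ^ u * 1 ^ (R - u) * (R.choose u : ℝ) ≤ (51 / 50 : ℝ) ^ R := by
      rw [e]
      refine single_le_sum (f := fun m => (1 / 50 : ℝ) ^ m * 1 ^ (R - m) * (R.choose m : ℝ))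
        (fun i _ => by positivity) (mem_range.2 (by omega))
    have e3 : (50 : ℝ) ^ u * ((1 / 50 : ℝ) ^ u * 1 ^ (R - u) * (R.choose u : ℝ)) =
        (R.choose u : ℝ) := by
      rw [one_pow, mul_one, ← mul_assoc, ← mul_pow]
      norm_num
    rw [← e3]
    exact mul_le_mul_of_nonneg_left e2 (by positivity)
  have a3 : (50 : ℝ) ^ u ≤ (26 / 25) ^ R := by
    calc (50 : ℝ) ^ u ≤ ((26 / 25) ^ 100) ^ u := pow_le_pow_left₀ (by norm_num) (by norm_num) u
      _ = (26 / 25) ^ (100 * u) := by rw [pow_mul]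
      _ ≤ (26 / 25) ^ R := pow_le_pow_right₀ (by norm_num) hn
  have a4 : (2 : ℝ) + 4 * u * ((R : ℝ) + u) ≤ R ^ 2 := by nlinarith
  have a5 : 12 * (R : ℝ) ^ 2 ≤ (9 / 5) ^ R := by
    have e1 : Real.exp ((R : ℝ) / 2) ≤ (9 / 5) ^ R := by
      have : (R : ℝ) / 2 = R * (1 / 2) := by ring
      rw [this, Real.exp_nat_mul]
      exact pow_le_pow_left₀ (Real.exp_pos _).le exp_half_le R
    have e2 := Real.pow_div_factorial_le_exp ((R : ℝ) / 2) (by positivity) 4
    have e3 : 12 * (R : ℝ) ^ 2 ≤ ((R : ℝ) / 2) ^ 4 / (Nat.factorial 4 : ℝ) := by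
      norm_num [Nat.factorial]
      have : (10000 : ℝ) ≤ R ^ 2 := by nlinarith
      nlinarith [sq_nonneg (R : ℝ)]
    linarith
  have a6 : (51 / 50 : ℝ) ^ R * (26 / 25) ^ R * (51 / 100) ^ R * (9 / 5) ^ R ≤ 1 := by
    rw [← mul_pow, ← mul_pow, ← mul_pow]
    exact pow_le_one₀ (by norm_num) (by norm_num)
  unfold epsp
  have b1 : ((R + u).choose u : ℝ) ≤ 2 * ((26 / 25) ^ R * (51 / 50) ^ R) := by
    calc ((R + u).choose u : ℝ) ≤ 2 * (R.choose u : ℝ) := a1
      _ ≤ 2 * (50 ^ u * (51 / 50) ^ R) := by linarith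
      _ ≤ _ := by
        apply mul_le_mul_of_nonneg_left _ (by norm_num)
        exact mul_le_mul_of_nonneg_right a3 (by positivity)
  have b2 : (0 : ℝ) ≤ 2 + 4 * u * ((R : ℝ) + u) := by positivity
  calc ((R + u).choose u : ℝ) * (2 + 4 * u * ((R : ℝ) + u)) * (51 / 100) ^ R
      ≤ 2 * ((26 / 25) ^ R * (51 / 50) ^ R) * (R ^ 2) * (51 / 100) ^ R := by
        apply mul_le_mul_of_nonneg_right _ (by positivity)
        exact mul_le_mul b1 a4 b2 (by positivity)
    _ = (1 / 6) * (((51 / 50 : ℝ) ^ R * (26 / 25) ^ R * (51 / 100) ^ R) * (12 * R ^ 2)) := by ring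
    _ ≤ (1 / 6) * (((51 / 50 : ℝ) ^ R * (26 / 25) ^ R * (51 / 100) ^ R) * (9 / 5) ^ R) := by
        apply mul_le_mul_of_nonneg_left _ (by norm_num)
        exact mul_le_mul_of_nonneg_left a5 (by positivity)
    _ ≤ 1 / 6 := by linarith

private lemma ck_pos (u R : ℕ) (hu : 1 ≤ u) (hR : 100 * u ^ 3 ≤ R) :
    0 < ck u R ∧ (u : ℝ) / ((R : ℝ) + u) ≤ 2 * ck u R := by
  obtain ⟨h1, h2, h3, h4, h5⟩ := basic u R hu hR
  have p1 : (0 : ℝ) < (R : ℝ) + u := by linarith
  have p2 : (0 : ℝ) < (R : ℝ) + u - 1 := by linarith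
  unfold ck
  constructor
  · have : (0 : ℝ) < u * R := by nlinarith
    positivity
  · rw [← mul_div_assoc, div_le_div_iff₀ p1 (by positivity)]
    have : (u : ℝ) * (R + u - 1) ≤ 2 * (u * R) := by nlinarith
    nlinarith

private lemma p3a (u R : ℕ) (hu : 1 ≤ u) (hR : 100 * u ^ 3 ≤ R) :
    epsp u R * (u / ((R : ℝ) + u) + ck u R) ≤ ck u R / 2 := by
  obtain ⟨h1, h2⟩ := ck_pos u R hu hR
  have h3 := epsp_le u R hu hR
  have h0 : 0 ≤ epsp u R := by unfold epsp; positivity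
  calc epsp u R * (u / ((R : ℝ) + u) + ck u R) ≤ epsp u R * (3 * ck u R) := by
        apply mul_le_mul_of_nonneg_left _ h0
        linarith
    _ ≤ 1 / 6 * (3 * ck u R) := by
        apply mul_le_mul_of_nonneg_right h3
        linarith
    _ = ck u R / 2 := by ring

private lemma p4a (u R : ℕ) (hu : 1 ≤ u) (hR : 100 * u ^ 3 ≤ R) :
    2 * tau u R * ((R : ℝ) + u) * (6 * u + 4) ≤ 1 / 8 * ck u R * eta0 u R := by
  obtain ⟨h1, h2, h3, h4, h5⟩ := basic u R hu hR
  have p1 : (0 : ℝ) < (R : ℝ) + u := by linarith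
  have p2 : (0 : ℝ) < (R : ℝ) + u - 1 := by linarith
  -- the exponential
  have a1 : 1600 * (R : ℝ) ^ 4 * tau u R ≤ 1 := by
    have e1 : (R : ℝ) * (49 / 100) ≤ (R : ℝ) / 2 - u := by linarith
    have e2 : Real.exp (R * (49 / 100)) ≤ Real.exp ((R : ℝ) / 2 - u) := Real.exp_le_exp.2 e1
    have e3 := Real.pow_div_factorial_le_exp ((R : ℝ) * (49 / 100)) (by positivity) 16
    have e4 : 1600 * (R : ℝ) ^ 4 ≤ ((R : ℝ) * (49 / 100)) ^ 16 / (Nat.factorial 16 : ℝ) := by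
      have f1 : (100 : ℝ) ^ 12 ≤ R ^ 12 := pow_le_pow_left₀ (by norm_num) h5 12
      have f2 : ((R : ℝ) * (49 / 100)) ^ 16 / (Nat.factorial 16 : ℝ) =
          R ^ 4 * (R ^ 12 * ((49 / 100) ^ 16 / (Nat.factorial 16 : ℝ))) := by ring
      rw [f2, mul_comm (1600 : ℝ)]
      apply mul_le_mul_of_nonneg_left _ (by positivity)
      calc (1600 : ℝ) ≤ 100 ^ 12 * ((49 / 100) ^ 16 / (Nat.factorial 16 : ℝ)) := by
            norm_num [Nat.factorial]
        _ ≤ _ := mul_le_mul_of_nonneg_right f1 (by positivity)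
    have e5 : 1600 * (R : ℝ) ^ 4 ≤ Real.exp ((R : ℝ) / 2 - u) := by linarith
    unfold tau
    rw [Real.exp_neg, ← div_eq_mul_inv, div_le_one (Real.exp_pos _)]
    exact e5
  have ht : 0 < tau u R := Real.exp_pos _
  have a2 : (R : ℝ) + u ≤ 101 / 100 * R := by linarith
  have a3 : 1 / 8 * ck u R * eta0 u R =
      (u : ℝ) ^ 3 * R / (72 * (((R : ℝ) + u) ^ 3 * ((R : ℝ) + u - 1))) := by
    unfold ck eta0
    field_simp
    ring
  rw [a3, le_div_iff₀ (by positivity)]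
  have a4 : (6 * (u : ℝ) + 4) ≤ 10 * u := by linarith
  have a5 : ((R : ℝ) + u) ^ 4 ≤ 21 / 20 * R ^ 4 := by
    calc ((R : ℝ) + u) ^ 4 ≤ (101 / 100 * R) ^ 4 := pow_le_pow_left₀ p1.le a2 4
      _ = (101 / 100) ^ 4 * R ^ 4 := by ring
      _ ≤ 21 / 20 * R ^ 4 := by
        apply mul_le_mul_of_nonneg_right _ (by positivity)
        norm_num
  have a6 : ((R : ℝ) + u - 1) ≤ 101 / 100 * R := by linarith
  calc 2 * tau u R * ((R : ℝ) + u) * (6 * u + 4) * (72 * (((R : ℝ) + u) ^ 3 * ((R : ℝ) + u - 1)))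
      = 144 * tau u R * (6 * u + 4) * ((((R : ℝ) + u) ^ 4) * ((R : ℝ) + u - 1)) := by ring
    _ ≤ 144 * tau u R * (10 * u) * ((21 / 20 * R ^ 4) * (101 / 100 * R)) := by
        apply mul_le_mul
        · apply mul_le_mul_of_nonneg_left a4 (by positivity)
        · exact mul_le_mul a5 a6 p2.le (by positivity)
        · positivity
        · positivity
    _ = (1440 * (21 / 20) * (101 / 100) / 1600) * (1600 * R ^ 4 * tau u R) * (u * R) := by ring
    _ ≤ (1440 * (21 / 20) * (101 / 100) / 1600) * 1 * (u * R) := by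
        apply mul_le_mul_of_nonneg_right _ (by positivity)
        apply mul_le_mul_of_nonneg_left a1 (by norm_num)
    _ ≤ u * R := by
        have : (0 : ℝ) ≤ u * R := by positivity
        nlinarith
    _ ≤ u ^ 3 * R := by
        apply mul_le_mul_of_nonneg_right _ (by positivity)
        nlinarith [sq_nonneg ((u : ℝ) - 1)]

private lemma exp_four_ge : (54 : ℝ) ≤ Real.exp 4 := by
  have h := Real.exp_one_gt_d9
  have e : Real.exp 4 = Real.exp 1 ^ 4 := by
    rw [← Real.exp_nat_mul]; norm_num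
  rw [e]
  calc (54 : ℝ) ≤ (2.7182818283 : ℝ) ^ 4 := by norm_num
    _ ≤ _ := pow_le_pow_left₀ (by norm_num) h.le 4

/-- `log y ≤ 3 + y/54` -/
private lemma log_le_54 (y : ℝ) (hy : 0 < y) : Real.log y ≤ 3 + y / 54 := by
  have h1 : Real.log y = Real.log (y / Real.exp 4) + 4 := by
    rw [Real.log_div hy.ne' (Real.exp_pos 4).ne', Real.log_exp]; ring
  have h2 := Real.log_le_sub_one_of_pos (div_pos hy (Real.exp_pos 4))
  have h3 : y / Real.exp 4 ≤ y / 54 :=
    div_le_div_of_nonneg_left hy.le (by norm_num) exp_four_ge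
  linarith

private lemma log_eta (u R : ℕ) (hu : 1 ≤ u) :
    -Real.log (eta0 u R) = 2 * Real.log (3 * ((R : ℝ) + u) / u) := by
  have h1 : (1 : ℝ) ≤ u := by exact_mod_cast hu
  have p1 : (0 : ℝ) < (R : ℝ) + u := by positivity
  unfold eta0
  rw [Real.log_pow]
  have : (u : ℝ) / (3 * ((R : ℝ) + u)) = (3 * ((R : ℝ) + u) / u)⁻¹ := by
    rw [inv_div]
  rw [this, Real.log_inv]
  push_cast
  ring

private lemma p2b (u R : ℕ) (hu : 1 ≤ u) (hR : 100 * u ^ 3 ≤ R) :
    -Real.log (eta0 u R) ≤ R / 2 := by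
  obtain ⟨h1, h2, h3, h4, h5⟩ := basic u R hu hR
  rw [log_eta u R hu]
  have p1 : (0 : ℝ) < (R : ℝ) + u := by linarith
  have e := log_le_54 (3 * ((R : ℝ) + u) / u) (by positivity)
  have e2 : 3 * ((R : ℝ) + u) / u ≤ 303 / 100 * R := by
    rw [div_le_iff₀ (by linarith)]
    nlinarith
  linarith

private lemma p2a (u R : ℕ) (hu : 1 ≤ u) (hR : 100 * u ^ 3 ≤ R) :
    ck u R / 2 * (-Real.log (eta0 u R)) ≤ R / ((R : ℝ) + u) := by
  obtain ⟨h1, h2, h3, h4, h5⟩ := basic u R hu hR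
  rw [log_eta u R hu]
  have p1 : (0 : ℝ) < (R : ℝ) + u := by linarith
  have p2 : (0 : ℝ) < (R : ℝ) + u - 1 := by linarith
  have e := log_le_54 (3 * ((R : ℝ) + u) / u) (by positivity)
  have e1 : (u : ℝ) * (3 * ((R : ℝ) + u) / u) = 3 * ((R : ℝ) + u) := by
    field_simp
  have e2 : (u : ℝ) * Real.log (3 * ((R : ℝ) + u) / u) ≤ (R : ℝ) + u - 1 := by
    calc (u : ℝ) * Real.log (3 * ((R : ℝ) + u) / u) ≤ u * (3 + 3 * ((R : ℝ) + u) / u / 54) :=
          mul_le_mul_of_nonneg_left e (by linarith)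
      _ = 3 * u + (u * (3 * ((R : ℝ) + u) / u)) / 54 := by ring
      _ ≤ _ := by rw [e1]; linarith
  have e3 : ck u R / 2 * (2 * Real.log (3 * ((R : ℝ) + u) / u)) =
      (R / ((R : ℝ) + u)) * ((u * Real.log (3 * ((R : ℝ) + u) / u)) / ((R : ℝ) + u - 1)) := by
    unfold ck
    field_simp
  rw [e3]
  calc (R / ((R : ℝ) + u)) * ((u * Real.log (3 * ((R : ℝ) + u) / u)) / ((R : ℝ) + u - 1))
      ≤ (R / ((R : ℝ) + u)) * 1 := by
        apply mul_le_mul_of_nonneg_left _ (by positivity)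
        rw [div_le_one p2]
        exact e2
    _ = _ := by ring

private lemma chord (x0 : ℝ) (h0 : 0 < x0) (h1 : x0 < 1) (x : ℝ) (hx : x0 ≤ x) (hx1 : x ≤ 1) :
    -Real.log x ≤ (-Real.log x0 / (1 - x0)) * (1 - x) := by
  have hc := strictConcaveOn_log_Ioi.concaveOn
  have p : 0 < 1 - x0 := by linarith
  have ha : 0 ≤ (1 - x) / (1 - x0) := div_nonneg (by linarith) p.le
  have hb : 0 ≤ (x - x0) / (1 - x0) := div_nonneg (by linarith) p.le
  have hab : (1 - x) / (1 - x0) + (x - x0) / (1 - x0) = 1 := by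
    rw [← add_div, div_eq_one_iff_eq p.ne']; ring
  have key := hc.2 (Set.mem_Ioi.2 h0) (Set.mem_Ioi.2 (one_pos (α := ℝ))) ha hb hab
  simp only [smul_eq_mul, Real.log_one, mul_zero, add_zero, mul_one] at key
  have e : (1 - x) / (1 - x0) * x0 + (x - x0) / (1 - x0) = x := by
    field_simp
    ring
  rw [e] at key
  have e2 : (-Real.log x0 / (1 - x0)) * (1 - x) = -((1 - x) / (1 - x0) * Real.log x0) := by
    field_simp
  rw [e2]
  linarith

private lemma p5a (u R : ℕ) (hu : 1 ≤ u) (hR : 100 * u ^ 3 ≤ R) :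
    ∃ Lp : ℝ, 2 ≤ Lp ∧ (∀ x : ℝ, eta0 u R / 2 ^ u ≤ x → x ≤ 1 → -Real.log x ≤ Lp * (1 - x)) ∧
    u * (u + 1) * Lp ≤ (R : ℝ) + u - 1 := by
  obtain ⟨h1, h2, h3, h4, h5⟩ := basic u R hu hR
  have p1 : (0 : ℝ) < (R : ℝ) + u := by linarith
  have hu0 : (0 : ℝ) < u := by linarith
  set y : ℝ := 3 * ((R : ℝ) + u) / u with hy
  have hy0 : 0 < y := by positivity
  have hy1 : 303 ≤ y := by
    rw [hy, le_div_iff₀ hu0]
    linarith
  have q1 : eta0 u R = (1 / y) ^ 2 := by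
    unfold eta0
    rw [hy, one_div_div]
  have q2 : 0 < eta0 u R := by rw [q1]; positivity
  have q3 : eta0 u R ≤ 1 / 100 := by
    rw [q1]
    have : 1 / y ≤ 1 / 303 := one_div_le_one_div_of_le (by norm_num) hy1
    calc (1 / y) ^ 2 ≤ (1 / 303) ^ 2 := pow_le_pow_left₀ (by positivity) this 2
      _ ≤ _ := by norm_num
  set x0 : ℝ := eta0 u R / 2 ^ u with hx0
  have h2u : (1 : ℝ) ≤ 2 ^ u := one_le_pow₀ (by norm_num)
  have x0p : 0 < x0 := by positivity
  have x0l : x0 ≤ 1 / 100 := by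
    have : x0 ≤ eta0 u R := div_le_self q2.le h2u
    linarith
  have lx : -Real.log x0 = u * Real.log 2 + 2 * Real.log y := by
    rw [hx0, Real.log_div q2.ne' (by positivity), Real.log_pow]
    have := log_eta u R hu
    rw [← hy] at this
    linarith
  have l2 : Real.log 2 ≤ 7 / 10 := by
    have := Real.log_two_lt_d9
    linarith
  have l2' : 0 ≤ Real.log 2 := Real.log_nonneg (by norm_num)
  have ly : 1 ≤ Real.log y := by
    rw [Real.le_log_iff_exp_le hy0]
    have := Real.exp_one_lt_d9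
    linarith
  have ly2 : Real.log y ≤ 2 + u + y / (54 * u) := by
    have e1 : Real.log y = Real.log (y / u) + Real.log u := by
      rw [Real.log_div hy0.ne' hu0.ne']; ring
    have e2 := log_le_54 (y / u) (by positivity)
    have e3 := Real.log_le_sub_one_of_pos hu0
    have e4 : y / u / 54 = y / (54 * u) := by field_simp
    linarith
  have num0 : 0 ≤ u * Real.log 2 + 2 * Real.log y := by positivity
  refine ⟨-Real.log x0 / (1 - x0), ?_, ?_, ?_⟩
  · rw [le_div_iff₀ (by linarith), lx]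
    have : 0 ≤ u * Real.log 2 := by positivity
    nlinarith
  · intro x hx hx1
    exact chord x0 x0p (by linarith) x hx hx1
  · rw [lx]
    have e1 : (u * Real.log 2 + 2 * Real.log y) / (1 - x0) ≤
        (100 / 99) * (u * (7 / 10) + 2 * (2 + u + y / (54 * u))) := by
      rw [div_le_iff₀ (by linarith)]
      have e2 : u * Real.log 2 + 2 * Real.log y ≤ u * (7 / 10) + 2 * (2 + u + y / (54 * u)) := by
        have : u * Real.log 2 ≤ u * (7 / 10) := mul_le_mul_of_nonneg_left l2 hu0.le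
        linarith
      have e3 : 0 ≤ u * (7 / 10 : ℝ) + 2 * (2 + u + y / (54 * u)) := by positivity
      nlinarith
    have e2 : (u : ℝ) ^ 2 * (y / (54 * u)) ≤ 57 / 1000 * R := by
      have : (u : ℝ) ^ 2 * (y / (54 * u)) = 3 * ((R : ℝ) + u) / 54 := by
        rw [hy]; field_simp
      rw [this]
      linarith
    have e3 : (u : ℝ) ^ 2 ≤ R / 100 := by linarith
    have e4 : (u : ℝ) ^ 3 ≤ R / 100 := by linarith
    have e5 : (0 : ℝ) ≤ u * (7 / 10 : ℝ) + 2 * (2 + u + y / (54 * u)) := by positivity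
    calc (u : ℝ) * (u + 1) * ((u * Real.log 2 + 2 * Real.log y) / (1 - x0))
        ≤ (2 * u ^ 2) * ((100 / 99) * (u * (7 / 10) + 2 * (2 + u + y / (54 * u)))) := by
          apply mul_le_mul
          · nlinarith
          · exact e1
          · exact div_nonneg num0 (by linarith)
          · positivity
      _ = (100 / 99) * ((54 / 10) * u ^ 3 + 8 * u ^ 2 + 4 * (u ^ 2 * (y / (54 * u)))) := by ring
      _ ≤ (R : ℝ) + u - 1 := by nlinarith

/-- explicit version of `exists_par`.  Sizes at `R = 100 u³`: `-log (eta0) = 2 log (3 (R+u)/u)`;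
`p5`: `x₀ = eta0/2^u`, `Lp = -log x₀/(1 - x₀)` (at least `2`; chord of the convex function `-log`),
`u (u+1) Lp ≤ 2.1 u² (0.7 u + 2 log (3 (R+u)/u)) ≤ R`; `p4`: `exp(R/2 - u) ≥ exp(49 R/100)` against
`1600 R³` (`exp x ≥ x^10/10!`); `half`: `(1 + u/(R-u+1))^u ≤ 2`; `p3`: `(51/100)^R` against
`C(R+u,u) ≤ (2R)^u` or `≤ 2^(..)` as you like; the margins are large. -/
theorem par_of_ge (u R : ℕ) (hu : 1 ≤ u) (hR : 100 * u ^ 3 ≤ R) : Par u R := by
  obtain ⟨h1, h2, h3, h4, h5⟩ := basic u R hu hR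
  have hn := huR_nat u R hR
  have he := epsp_le u R hu hR
  exact ⟨hu, by omega, by omega, half' u R hu hR, p2a u R hu hR, p2b u R hu hR, p3a u R hu hR,
    by linarith, p4a u R hu hR, p5a u R hu hR⟩

end H23CL
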