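import Pool.Agent.H23.CL.Defs
import Pool.Agent.H57.LC.Zyk

/-! Step 1 of note 3669: the seed clique. -/

set_option autoImplicit false

namespace H23CL

open Finset H57LC

section

variable {V : Type*} [Fintype V] [DecidableEq V] {G : SimpleGraph V} [DecidableRel G.Adj]

/-- double counting of the pairs `U ⊆ K` -/
theorem Seed_double {𝒰 : Finset (Finset V)} {u w : ℕ} (hsub : 𝒰 ⊆ clq G univ u)
    (F : Finset V → Finset V → ℝ) :
    ∑ U ∈ 𝒰, ∑ K ∈ (KK G 𝒰 u w).filter (fun K => U ⊆ K), F U K =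
      ∑ K ∈ KK G 𝒰 u w, ∑ U ∈ K.powersetCard u, F U K := by
  refine sum_comm' ?_
  intro U K
  rw [mem_filter, mem_powersetCard]
  constructor
  · rintro ⟨hU, hK, hUK⟩
    exact ⟨⟨hUK, (mem_clq.1 (hsub hU)).1.2⟩, hK⟩
  · rintro ⟨⟨hUK, hc⟩, hK⟩
    exact ⟨(mem_filter.1 hK).2 (mem_powersetCard.2 ⟨hUK, hc⟩), hK, hUK⟩

/-- removing `U` from the cliques which contain it -/
theorem Seed_push {𝒰 : Finset (Finset V)} {u R : ℕ} (hsub : 𝒰 ⊆ clq G univ u) {U : Finset V}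
    (hU : U ∈ 𝒰) (F : Finset V → ℝ) (hF : ∀ Q, 0 ≤ F Q) :
    ∑ K ∈ (KK G 𝒰 u (R + u)).filter (fun K => U ⊆ K), F (K \ U) ≤
      ∑ Q ∈ clq G (cn G U) R, F Q := by
  have hinj : Set.InjOn (fun K : Finset V => K \ U)
      ((KK G 𝒰 u (R + u)).filter (fun K => U ⊆ K) : Set (Finset V)) := by
    intro K hK K' hK' h
    have h1 := (mem_filter.1 hK).2
    have h2 := (mem_filter.1 hK').2
    have h3 : K \ U = K' \ U := h
    rw [← sdiff_union_of_subset h1, h3, sdiff_union_of_subset h2]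
  have himg : ((KK G 𝒰 u (R + u)).filter (fun K => U ⊆ K)).image (fun K => K \ U) ⊆
      clq G (cn G U) R := by
    intro Q hQ
    obtain ⟨K, hK, rfl⟩ := mem_image.1 hQ
    obtain ⟨hK1, hUK⟩ := mem_filter.1 hK
    have hKc := mem_clq.1 (mem_filter.1 hK1).1
    have hUc := mem_clq.1 (hsub hU)
    rw [mem_clq]
    refine ⟨⟨fun t ht => ?_, ?_⟩, hKc.2.subset sdiff_subset⟩
    · rw [mem_cn]
      intro a ha
      have ht' := mem_sdiff.1 ht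
      exact hKc.2 a (hUK ha) t ht'.1 (fun e => ht'.2 (e ▸ ha))
    · have h1 := card_sdiff_add_card_eq_card hUK
      have h2 := hKc.1.2
      have h3 := hUc.1.2
      omega
  calc ∑ K ∈ (KK G 𝒰 u (R + u)).filter (fun K => U ⊆ K), F (K \ U)
      = ∑ Q ∈ ((KK G 𝒰 u (R + u)).filter (fun K => U ⊆ K)).image (fun K => K \ U), F Q :=
        (sum_image hinj).symm
    _ ≤ _ := sum_le_sum_of_subset_of_nonneg himg fun Q _ _ => hF Q

end

theorem Seed_pow {x m : ℝ} (hx : 0 ≤ x) (hm : 1 ≤ m) (R : ℕ) :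
    m * (m + x) ^ R ≤ m ^ R * (m + ((1 + x) ^ R - 1)) := by
  have hm0 : 0 < m := by linarith
  induction R with
  | zero => simp
  | succ R ih =>
    have hc : 0 ≤ (1 + x) ^ R - 1 := by
      have : (1 : ℝ) ≤ (1 + x) ^ R := one_le_pow₀ (by linarith)
      linarith
    obtain ⟨c, hc'⟩ : ∃ c : ℝ, c = (1 + x) ^ R - 1 := ⟨_, rfl⟩
    rw [← hc'] at ih hc
    have e1 : (1 + x) ^ (R + 1) - 1 = c + x + c * x := by
      rw [pow_succ, hc']
      ring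
    rw [e1]
    have h1 : m * (m + x) ^ R * (m + x) ≤ m ^ R * (m + c) * (m + x) :=
      mul_le_mul_of_nonneg_right ih (by linarith)
    have h2 : (m + c) * (m + x) ≤ m * (m + (c + x + c * x)) := by
      have h3 : c * x ≤ m * (c * x) := le_mul_of_one_le_left (mul_nonneg hc hx) hm
      nlinarith
    have h4 : m ^ R * ((m + c) * (m + x)) ≤ m ^ R * (m * (m + (c + x + c * x))) :=
      mul_le_mul_of_nonneg_left h2 (by positivity)
    calc m * (m + x) ^ (R + 1) = m * (m + x) ^ R * (m + x) := by ring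
      _ ≤ m ^ R * (m + c) * (m + x) := h1
      _ = m ^ R * ((m + c) * (m + x)) := by ring
      _ ≤ m ^ R * (m * (m + (c + x + c * x))) := h4
      _ = m ^ (R + 1) * (m + (c + x + c * x)) := by ring

/-- bounds for one `U` -/
theorem Seed_one {V : Type*} [Fintype V] [DecidableEq V] {G : SimpleGraph V}
    [DecidableRel G.Adj] {𝒰 : Finset (Finset V)} {u R r m : ℕ} (hR : 2 ≤ R) (hm : 1 ≤ m)
    (hfree : clq G univ (R + u + 1) = ∅) (hval : ∀ U ∈ clq G univ u, (cn G U).card ≤ R * m + r)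
    (hsub : 𝒰 ⊆ clq G univ u) {U : Finset V} (hU : U ∈ 𝒰) {c₀ : ℝ}
    (hc₀ : c₀ = (1 + (r : ℝ)) ^ R - 1) :
    (m : ℝ) * (((KK G 𝒰 u (R + u)).filter fun K => U ⊆ K).card : ℝ) ≤ (m : ℝ) ^ R * (m + c₀) ∧
    ∑ K ∈ (KK G 𝒰 u (R + u)).filter (fun K => U ⊆ K), (hge G (cn G U) (K \ U) : ℝ) ≤
      R * m * ((m : ℝ) ^ R - (((KK G 𝒰 u (R + u)).filter fun K => U ⊆ K).card : ℝ)) +
        (r + (R - 1) * r * (1 + c₀)) * (m : ℝ) ^ R := by
  have hUc := hsub hU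
  have hS := hval U hUc
  have hSr : ((cn G U).card : ℝ) ≤ R * m + r := by exact_mod_cast hS
  have hf := cn_free hfree hUc
  have hm1 : (1 : ℝ) ≤ (m : ℝ) := by exact_mod_cast hm
  have hm0 : (0 : ℝ) < (m : ℝ) := by linarith
  have hR2 : (2 : ℝ) ≤ (R : ℝ) := by exact_mod_cast hR
  have hr0 : (0 : ℝ) ≤ (r : ℝ) := Nat.cast_nonneg _
  have hmR : (0 : ℝ) < (m : ℝ) ^ R := by positivity
  have hc0 : 0 ≤ c₀ := by
    have : (1 : ℝ) ≤ (1 + (r : ℝ)) ^ R := one_le_pow₀ (by linarith)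
    rw [hc₀]
    linarith
  obtain ⟨k, hk⟩ : ∃ k : ℝ, k = ((clq G (cn G U) R).card : ℝ) := ⟨_, rfl⟩
  obtain ⟨d, hd⟩ : ∃ d : ℝ, d = (((KK G 𝒰 u (R + u)).filter fun K => U ⊆ K).card : ℝ) :=
    ⟨_, rfl⟩
  have hk0 : 0 ≤ k := by rw [hk]; exact Nat.cast_nonneg _
  have hdk : d ≤ k := by
    have h1 := Seed_push (G := G) (R := R) hsub hU (fun _ => 1) (fun _ => zero_le_one)
    rw [sum_const, sum_const, nsmul_eq_mul, nsmul_eq_mul, mul_one, mul_one] at h1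
    rw [hd, hk]
    exact h1
  obtain ⟨z1, z2⟩ := star_zyk (G := G) R (by omega)
  -- the number of cliques
  have hkm : m * k ≤ (m : ℝ) ^ R * (m + c₀) := by
    have h1 := z1 (cn G U) hf
    rw [← hk] at h1
    have h2 : ((cn G U).card : ℝ) ^ R ≤ ((R : ℝ) * (m + r)) ^ R := by
      apply pow_le_pow_left₀ (Nat.cast_nonneg _)
      nlinarith
    rw [mul_pow] at h2
    have h3 : k ≤ ((m : ℝ) + r) ^ R := by
      have h4 : (0 : ℝ) < (R : ℝ) ^ R := by positivity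
      exact le_of_mul_le_mul_left (h1.trans h2) h4
    have h5 := Seed_pow hr0 hm1 R
    rw [← hc₀] at h5
    exact (mul_le_mul_of_nonneg_left h3 hm0.le).trans h5
  have hk1 : k ≤ (1 + c₀) * (m : ℝ) ^ R := by
    have h1 : (m : ℝ) ^ R * (m + c₀) ≤ m * ((1 + c₀) * (m : ℝ) ^ R) := by
      have h2 : m + c₀ ≤ m * (1 + c₀) := by nlinarith
      calc (m : ℝ) ^ R * (m + c₀) ≤ (m : ℝ) ^ R * (m * (1 + c₀)) :=
            mul_le_mul_of_nonneg_left h2 hmR.le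
        _ = _ := by ring
    exact le_of_mul_le_mul_left (hkm.trans h1) hm0
  rw [← hd]
  refine ⟨(mul_le_mul_of_nonneg_left hdk hm0.le).trans hkm, ?_⟩
  have h1 := Seed_push (G := G) (R := R) hsub hU (fun Q => (hge G (cn G U) Q : ℝ))
    (fun _ => Nat.cast_nonneg _)
  refine h1.trans ?_
  have h2 := z2 hR (cn G U) hf m hm0
  rw [← hk] at h2
  have h3 : ((R : ℝ) * m - (R - 1) * r) * k ≤
      ((R : ℝ) ^ 2 * m - (R - 1) * (cn G U).card) * k := by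
    apply mul_le_mul_of_nonneg_right _ hk0
    have := mul_le_mul_of_nonneg_left hSr (by linarith : (0 : ℝ) ≤ (R : ℝ) - 1)
    nlinarith
  have h4 : ((cn G U).card : ℝ) * (m : ℝ) ^ R ≤ (R * m + r) * (m : ℝ) ^ R :=
    mul_le_mul_of_nonneg_right hSr hmR.le
  have h5 : (R : ℝ) * m * d ≤ R * m * k := mul_le_mul_of_nonneg_left hdk (by positivity)
  have h6 : ((R : ℝ) - 1) * r * k ≤ (R - 1) * r * ((1 + c₀) * (m : ℝ) ^ R) :=
    mul_le_mul_of_nonneg_left hk1 (mul_nonneg (by linarith) hr0)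
  linarith

/-- a clique `K₀` whose `u`-subsets have few exceptional common neighbours and many extensions.
Proof: `d U := #{K ∈ KK : U ⊆ K}`; `∑_{U ∈ 𝒰} d U = C(w,u) |KK| ≥ m^R |𝒰|`, `d U ≤ k_R(cn U) ≤
m^R + C m^(R-1)` (`H57LC.star_zyk`, first part), and the second part of `star_zyk` bounds
`∑_{T ∈ clq (cn U) R} hge` by `R m (m^R - k_R) + C m^R`; average over `K ∈ KK` of
`∑_{U ⊆ K} (hge (cn U) (K \ U) + m (1 + C/m - d U/m^R))`. -/
theorem exists_seed (u R r : ℕ) (hu : 1 ≤ u) (hR : 2 ≤ R) :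
    ∃ C : ℝ, 0 < C ∧ ∃ m₀ : ℕ, ∀ m : ℕ, m₀ ≤ m →
      ∀ (V : Type) [Fintype V] [DecidableEq V] (G : SimpleGraph V) [DecidableRel G.Adj]
        (𝒰 : Finset (Finset V)),
        clq G univ (R + u + 1) = ∅ → (∀ U ∈ clq G univ u, (cn G U).card ≤ R * m + r) →
        𝒰 ⊆ clq G univ u → 𝒰.Nonempty →
        (m : ℝ) ^ R * 𝒰.card ≤ ((R + u).choose u : ℝ) * (KK G 𝒰 u (R + u)).card →
        ∃ K₀ ∈ KK G 𝒰 u (R + u), ∀ U ∈ K₀.powersetCard u,
          (hge G (cn G U) (K₀ \ U) : ℝ) ≤ C ∧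
          (m : ℝ) ^ R - C * (m : ℝ) ^ (R - 1) ≤
            (((KK G 𝒰 u (R + u)).filter fun K => U ⊆ K).card : ℝ) := by
  obtain ⟨c₀, hc₀⟩ : ∃ c₀ : ℝ, c₀ = (1 + (r : ℝ)) ^ R - 1 := ⟨_, rfl⟩
  have hR2 : (2 : ℝ) ≤ (R : ℝ) := by exact_mod_cast hR
  have hr0 : (0 : ℝ) ≤ (r : ℝ) := Nat.cast_nonneg _
  have hc0 : 0 ≤ c₀ := by
    have : (1 : ℝ) ≤ (1 + (r : ℝ)) ^ R := one_le_pow₀ (by linarith)
    rw [hc₀]
    linarith
  obtain ⟨C₁, hC₁⟩ : ∃ C₁ : ℝ, C₁ = r + (R - 1) * r * (1 + c₀) := ⟨_, rfl⟩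
  have hC₁0 : 0 ≤ C₁ := by
    rw [hC₁]
    have := mul_nonneg (mul_nonneg (by linarith : (0 : ℝ) ≤ (R : ℝ) - 1) hr0)
      (by linarith : (0 : ℝ) ≤ 1 + c₀)
    linarith
  obtain ⟨B, hB⟩ : ∃ B : ℝ, B = ((R + u).choose u : ℝ) := ⟨_, rfl⟩
  have hB0 : 0 ≤ B := by rw [hB]; exact Nat.cast_nonneg _
  obtain ⟨C', hC'⟩ : ∃ C' : ℝ, C' = C₁ * B + (1 + c₀) * c₀ * B := ⟨_, rfl⟩
  have hC'0 : 0 ≤ C' := by rw [hC']; positivity
  refine ⟨C' + 1, by linarith, 1, ?_⟩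
  intro m hm V _ _ G _ 𝒰 hfree hval hsub hne hbig
  have hm1 : (1 : ℝ) ≤ (m : ℝ) := by exact_mod_cast hm
  have hm0 : (0 : ℝ) < (m : ℝ) := by linarith
  have hmR : (0 : ℝ) < (m : ℝ) ^ R := by positivity
  rw [← hB] at hbig
  obtain ⟨d, hd⟩ : ∃ d : Finset V → ℝ, d = fun U =>
      (((KK G 𝒰 u (R + u)).filter fun K => U ⊆ K).card : ℝ) := ⟨_, rfl⟩
  have hd' : ∀ U, (((KK G 𝒰 u (R + u)).filter fun K => U ⊆ K).card : ℝ) = d U := fun U => by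
    rw [hd]
  have h1 : ∀ U ∈ 𝒰, (m : ℝ) * d U ≤ (m : ℝ) ^ R * (m + c₀) := fun U hU => by
    rw [← hd']
    exact (Seed_one hR hm hfree hval hsub hU hc₀).1
  have h2 : ∀ U ∈ 𝒰,
      ∑ K ∈ (KK G 𝒰 u (R + u)).filter (fun K => U ⊆ K), (hge G (cn G U) (K \ U) : ℝ) ≤
      R * m * ((m : ℝ) ^ R - d U) + C₁ * (m : ℝ) ^ R := fun U hU => by
    rw [← hd', hC₁]
    exact (Seed_one hR hm hfree hval hsub hU hc₀).2
  have hdn : ∀ U, 0 ≤ d U := fun U => by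
    rw [← hd']
    exact Nat.cast_nonneg _
  have hd1 : ∀ U ∈ 𝒰, d U ≤ (1 + c₀) * (m : ℝ) ^ R := fun U hU => by
    have h3 : (m : ℝ) ^ R * (m + c₀) ≤ m * ((1 + c₀) * (m : ℝ) ^ R) := by
      have h4 : m + c₀ ≤ m * (1 + c₀) := by nlinarith
      calc (m : ℝ) ^ R * (m + c₀) ≤ (m : ℝ) ^ R * (m * (1 + c₀)) :=
            mul_le_mul_of_nonneg_left h4 hmR.le
        _ = _ := by ring
    exact le_of_mul_le_mul_left ((h1 U hU).trans h3) hm0
  -- the sum of the `d U`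
  have hsum : ∑ U ∈ 𝒰, d U = B * (KK G 𝒰 u (R + u)).card := by
    have h3 := Seed_double (G := G) (w := R + u) hsub (fun _ _ => 1)
    have h4 : ∀ U ∈ 𝒰, ∑ K ∈ (KK G 𝒰 u (R + u)).filter (fun K => U ⊆ K), (1 : ℝ) = d U :=
      fun U _ => by
        rw [sum_const, nsmul_eq_mul, mul_one, hd']
    have h5 : ∀ K ∈ KK G 𝒰 u (R + u), ∑ U ∈ K.powersetCard u, (1 : ℝ) = B := fun K hK => by
      rw [sum_const, nsmul_eq_mul, mul_one, card_powersetCard,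
        (mem_clq.1 (mem_filter.1 hK).1).1.2, hB]
    rw [sum_congr rfl h4, sum_congr rfl h5, sum_const, nsmul_eq_mul, mul_comm] at h3
    exact h3
  have hgd : (m : ℝ) ^ R * 𝒰.card ≤ ∑ U ∈ 𝒰, d U := by
    rw [hsum]
    exact hbig
  have hKne : (KK G 𝒰 u (R + u)).Nonempty := by
    rw [nonempty_iff_ne_empty]
    intro h0
    rw [h0, card_empty, Nat.cast_zero, mul_zero] at hbig
    have h3 : (0 : ℝ) < 𝒰.card := by exact_mod_cast hne.card_pos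
    have := mul_pos hmR h3
    linarith
  obtain ⟨n, hn⟩ : ∃ n : ℝ, n = (𝒰.card : ℝ) := ⟨_, rfl⟩
  obtain ⟨N, hN⟩ : ∃ N : ℝ, N = ((KK G 𝒰 u (R + u)).card : ℝ) := ⟨_, rfl⟩
  have hn0 : 0 ≤ n := by rw [hn]; exact Nat.cast_nonneg _
  rw [← hn] at hbig hgd
  rw [← hN] at hbig hsum
  -- the first sum
  have s1 : ∑ K ∈ KK G 𝒰 u (R + u), ∑ U ∈ K.powersetCard u, (hge G (cn G U) (K \ U) : ℝ) ≤
      C₁ * (B * N) := by
    rw [← Seed_double hsub (fun U K => (hge G (cn G U) (K \ U) : ℝ))]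
    refine (sum_le_sum h2).trans ?_
    rw [sum_add_distrib, ← mul_sum, sum_sub_distrib, sum_const, sum_const, nsmul_eq_mul,
      nsmul_eq_mul, ← hn]
    have h3 : (R : ℝ) * m * (n * (m : ℝ) ^ R - ∑ U ∈ 𝒰, d U) ≤ 0 := by
      apply mul_nonpos_of_nonneg_of_nonpos (by positivity)
      linarith
    have h4 : C₁ * ((m : ℝ) ^ R * n) ≤ C₁ * (B * N) := mul_le_mul_of_nonneg_left hbig hC₁0
    linarith
  -- the second sum
  have s2 : ∑ K ∈ KK G 𝒰 u (R + u), ∑ U ∈ K.powersetCard u,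
      ((m : ℝ) ^ R * (m + c₀) - m * d U) ≤ (1 + c₀) * c₀ * (m : ℝ) ^ R * (B * N) := by
    rw [← Seed_double hsub (fun U _ => (m : ℝ) ^ R * (m + c₀) - m * d U)]
    have h3 : ∀ U ∈ 𝒰, ∑ K ∈ (KK G 𝒰 u (R + u)).filter (fun K => U ⊆ K),
        ((m : ℝ) ^ R * (m + c₀) - m * d U) ≤
        (1 + c₀) * (m : ℝ) ^ R * ((m : ℝ) ^ R * (m + c₀) - m * d U) := by
      intro U hU
      rw [sum_const, nsmul_eq_mul, hd']
      exact mul_le_mul_of_nonneg_right (hd1 U hU) (by linarith [h1 U hU])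
    refine (sum_le_sum h3).trans ?_
    rw [← mul_sum, sum_sub_distrib, sum_const, nsmul_eq_mul, ← mul_sum, ← hn]
    have h4 : n * ((m : ℝ) ^ R * (m + c₀)) - m * ∑ U ∈ 𝒰, d U ≤ c₀ * ((m : ℝ) ^ R * n) := by
      have := mul_le_mul_of_nonneg_left hgd hm0.le
      linarith
    have h5 : c₀ * ((m : ℝ) ^ R * n) ≤ c₀ * (B * N) := mul_le_mul_of_nonneg_left hbig hc0
    have h6 : (1 + c₀) * (m : ℝ) ^ R * (n * ((m : ℝ) ^ R * (m + c₀)) - m * ∑ U ∈ 𝒰, d U) ≤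
        (1 + c₀) * (m : ℝ) ^ R * (c₀ * (B * N)) :=
      mul_le_mul_of_nonneg_left (h4.trans h5) (by positivity)
    linarith
  have s3 : ∑ K ∈ KK G 𝒰 u (R + u), ∑ U ∈ K.powersetCard u,
      ((m : ℝ) ^ R * (hge G (cn G U) (K \ U) : ℝ) + ((m : ℝ) ^ R * (m + c₀) - m * d U)) ≤
      ∑ K ∈ KK G 𝒰 u (R + u), (m : ℝ) ^ R * C' := by
    simp only [sum_add_distrib, ← mul_sum]
    rw [sum_const, nsmul_eq_mul, ← hN]
    have h3 := mul_le_mul_of_nonneg_left s1 hmR.le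
    rw [hC']
    linarith
  obtain ⟨K₀, hK₀, hle⟩ := exists_le_of_sum_le hKne s3
  refine ⟨K₀, hK₀, fun U hU => ?_⟩
  have hUU : U ∈ 𝒰 := (mem_filter.1 hK₀).2 hU
  have hterm : ∀ W ∈ K₀.powersetCard u, 0 ≤ (m : ℝ) ^ R * (hge G (cn G W) (K₀ \ W) : ℝ) +
      ((m : ℝ) ^ R * (m + c₀) - m * d W) := by
    intro W hW
    have h3 := h1 W ((mem_filter.1 hK₀).2 hW)
    have h4 : 0 ≤ (m : ℝ) ^ R * (hge G (cn G W) (K₀ \ W) : ℝ) :=
      mul_nonneg hmR.le (Nat.cast_nonneg _)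
    linarith
  have h3 := (single_le_sum hterm hU).trans hle
  have h4 := h1 U hUU
  have h5 : 0 ≤ (m : ℝ) ^ R * (hge G (cn G U) (K₀ \ U) : ℝ) :=
    mul_nonneg hmR.le (Nat.cast_nonneg _)
  constructor
  · have h6 : (m : ℝ) ^ R * (hge G (cn G U) (K₀ \ U) : ℝ) ≤ (m : ℝ) ^ R * C' := by
      linarith
    have h7 := le_of_mul_le_mul_left h6 hmR
    linarith
  · rw [hd']
    have h6 : (m : ℝ) ^ R = m ^ (R - 1) * m := by
      rw [← pow_succ]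
      congr 1
      omega
    have h7 : (m : ℝ) ^ R * (m + c₀) - m * d U ≤ (m : ℝ) ^ R * C' := by linarith
    have h8 : 0 < (m : ℝ) ^ (R - 1) := by positivity
    have h9 : (m : ℝ) * ((m : ℝ) ^ R - (C' + 1) * (m : ℝ) ^ (R - 1)) ≤ m * d U := by
      have h10 : (m : ℝ) * ((C' + 1) * (m : ℝ) ^ (R - 1)) = (C' + 1) * (m : ℝ) ^ R := by
        rw [h6]
        ring
      have h11 : 0 ≤ c₀ * (m : ℝ) ^ R := by positivity
      rw [mul_sub, h10]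
      linarith
    exact le_of_mul_le_mul_left h9 hm0

end H23CL
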