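import Pool.Agent.H23.CL.Defs

/-! Step 4 of note 3669: types of the outside vertices. -/

set_option autoImplicit false

namespace H23CL

open Finset H57LC

set_option linter.unusedSectionVars false

section aux

variable {V : Type*} [DecidableEq V] {G : SimpleGraph V} [DecidableRel G.Adj] {w : ℕ}

/-- the number of neighbours of `z` in the part `B k` -/
private lemma TypM_al_card {B : Fin w → Finset V} {k : Fin w} (hb : 0 < ((B k).card : ℝ)) (z : V) :
    (((B k).filter fun y => G.Adj z y).card : ℝ) = al G B z k * (B k).card := by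
  unfold al
  rw [div_mul_cancel₀]
  exact ne_of_gt hb

private lemma TypM_al_compl {B : Fin w → Finset V} {k : Fin w} (hb : 0 < ((B k).card : ℝ)) (z : V) :
    1 - al G B z k = ((hs G (B k) z).card : ℝ) / (B k).card := by
  have h := card_filter_add_card_filter_not (s := B k) (fun t => G.Adj z t)
  have h' : ((((B k).filter fun t => G.Adj z t).card + ((B k).filter fun t => ¬ G.Adj z t).card :
      ℕ) : ℝ) = ((B k).card : ℝ) := by rw [h]
  push_cast at h'
  unfold al hs
  rw [eq_div_iff (ne_of_gt hb), sub_mul, one_mul, div_mul_cancel₀ _ (ne_of_gt hb)]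
  linarith

private lemma TypM_al_le_one (B : Fin w → Finset V) (z : V) (k : Fin w) : al G B z k ≤ 1 := by
  unfold al
  refine div_le_one_of_le₀ ?_ (Nat.cast_nonneg _)
  exact_mod_cast card_filter_le _ _

/-- one step of the greedy choice -/
private lemma TypM_step {B : Fin w → Finset V} {m : ℕ} {C η : ℝ} (hη : 0 < η)
    (hB : BS G m C η B) (hm : 2 * C < m) {k : Fin w} {z : V} (hal : 4 * w * η ≤ al G B z k)
    {K : Finset V} (hK : K.card ≤ w) (hKB : ∀ a ∈ K, ∃ j, j ≠ k ∧ a ∈ B j) :
    ∃ y ∈ B k, G.Adj z y ∧ ∀ a ∈ K, G.Adj a y := by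
  by_contra hcon
  push Not at hcon
  have hsize := hB.size k
  rw [abs_le] at hsize
  have hw : 0 < (w : ℝ) := by exact_mod_cast (Fin.pos k)
  have hsub : ((B k).filter fun y => G.Adj z y) ⊆ K.biUnion fun a => hs G (B k) a := by
    intro y hy
    rw [mem_filter] at hy
    obtain ⟨a, ha, hay⟩ := hcon y hy.1 hy.2
    rw [mem_biUnion]
    exact ⟨a, ha, mem_hs.2 ⟨hy.1, hay⟩⟩
  have hC0 : 0 ≤ C := le_trans (abs_nonneg _) (hB.size k)
  have hbpos : 0 < ((B k).card : ℝ) := by linarith
  have h1 : (((B k).filter fun y => G.Adj z y).card : ℝ) ≤ ∑ a ∈ K, ((hs G (B k) a).card : ℝ) := by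
    have := (card_le_card hsub).trans card_biUnion_le
    exact_mod_cast this
  have h2 : ∑ a ∈ K, ((hs G (B k) a).card : ℝ) ≤ (K.card : ℝ) * (2 * η * m) := by
    calc ∑ a ∈ K, ((hs G (B k) a).card : ℝ) ≤ ∑ _a ∈ K, (2 * η * m) := by
          refine sum_le_sum fun a ha => ?_
          obtain ⟨j, hj, haj⟩ := hKB a ha
          exact hB.row j k hj a haj
      _ = (K.card : ℝ) * (2 * η * m) := by rw [sum_const, nsmul_eq_mul]
  have h3 : (K.card : ℝ) * (2 * η * m) ≤ (w : ℝ) * (2 * η * m) := by
    refine mul_le_mul_of_nonneg_right (by exact_mod_cast hK) ?_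
    positivity
  rw [TypM_al_card hbpos] at h1
  have h4 : 4 * w * η * (B k).card ≤ al G B z k * (B k).card :=
    mul_le_mul_of_nonneg_right hal hbpos.le
  have h5 : (w : ℝ) * η * (2 * ((B k).card : ℝ)) ≤ (w : ℝ) * η * m := by nlinarith
  have h6 := le_of_mul_le_mul_left h5 (mul_pos hw hη)
  linarith

/-- the greedy choice -/
private lemma TypM_greedy {B : Fin w → Finset V} {m : ℕ} {C η : ℝ} (hη : 0 < η)
    (hB : BS G m C η B) (hm : 2 * C < m) {z : V} {J : Finset (Fin w)} {K : Finset V}
    (hK : K.card = J.card) (hKc : IsCl G K) (hKz : ∀ a ∈ K, G.Adj z a)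
    (hKB : ∀ a ∈ K, ∃ j ∈ J, a ∈ B j) (s : Finset (Fin w)) (hs : Disjoint J s)
    (hal : ∀ k ∈ s, 4 * w * η ≤ al G B z k) :
    ∃ K' : Finset V, K'.card = J.card + s.card ∧ IsCl G K' ∧ (∀ a ∈ K', G.Adj z a) ∧
      ∀ a ∈ K', ∃ j ∈ J ∪ s, a ∈ B j := by
  classical
  induction s using Finset.induction_on with
  | empty =>
    refine ⟨K, by simpa using hK, hKc, hKz, ?_⟩
    simpa using hKB
  | insert k s hks ih =>
    have hd : Disjoint J s := hs.mono_right (subset_insert _ _)
    have hkJ : k ∉ J := fun h => (Finset.disjoint_left.1 hs) h (mem_insert_self _ _)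
    obtain ⟨K', hc, hcl, hz, hB'⟩ := ih hd (fun l hl => hal l (mem_insert_of_mem hl))
    have hcw : K'.card ≤ w := by
      rw [hc, ← card_union_of_disjoint hd]
      exact (card_le_univ _).trans (by rw [Fintype.card_fin])
    obtain ⟨y, hy, hzy, hay⟩ := TypM_step hη hB hm (hal k (mem_insert_self _ _)) hcw (by
      intro a ha
      obtain ⟨j, hj, haj⟩ := hB' a ha
      refine ⟨j, ?_, haj⟩
      rintro rfl
      rw [mem_union] at hj
      exact hj.elim hkJ hks)
    have hyK : y ∉ K' := fun h => G.loopless.irrefl y (hay y h)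
    refine ⟨insert y K', ?_, isCl_insert hcl fun t ht => (hay t ht).symm, ?_, ?_⟩
    · rw [card_insert_of_notMem hyK, card_insert_of_notMem hks, hc]
      ring
    · intro a ha
      rw [mem_insert] at ha
      rcases ha with rfl | ha
      · exact hzy
      · exact hz a ha
    · intro a ha
      rw [mem_insert] at ha
      rcases ha with rfl | ha
      · exact ⟨k, mem_union_right _ (mem_insert_self _ _), hy⟩
      · obtain ⟨j, hj, haj⟩ := hB' a ha
        refine ⟨j, ?_, haj⟩
        rw [mem_union] at hj ⊢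
        exact hj.imp id (fun h => mem_insert_of_mem h)

private lemma TypM_false [Fintype V] (hfree : clq G univ (w + 1) = ∅) {z : V} {K : Finset V}
    (hc : K.card = w) (hK : IsCl G K) (hz : ∀ a ∈ K, G.Adj z a) : False := by
  have hzK : z ∉ K := fun h => G.loopless.irrefl z (hz z h)
  have : insert z K ∈ clq G univ (w + 1) := by
    rw [mem_clq]
    refine ⟨⟨subset_univ _, ?_⟩, isCl_insert hK hz⟩
    rw [card_insert_of_notMem hzK, hc]
  rw [hfree] at this
  exact absurd this (notMem_empty _)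

private lemma TypM_typ_or_thin [Fintype V] {B : Fin w → Finset V} {m : ℕ} {C η : ℝ} (hη : 0 < η)
    (hfree : clq G univ (w + 1) = ∅) (hB : BS G m C η B) (hm : 2 * C < m) (z : V) :
    (∃ i, Typ G B (4 * w * η) z i) ∨ Thin G B (4 * w * η) z := by
  by_cases hthin : Thin G B (4 * w * η) z
  · exact Or.inr hthin
  left
  have hthin' : ∀ j₁ j₂, j₁ ≠ j₂ → al G B z j₁ < 4 * w * η → 4 * w * η ≤ al G B z j₂ := by
    intro j₁ j₂ hj h1
    by_contra h2
    exact hthin ⟨j₁, j₂, hj, h1, not_le.1 h2⟩
  by_cases hall : ∀ k, 4 * w * η ≤ al G B z k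
  · exfalso
    obtain ⟨K', hc, hcl, hz, -⟩ := TypM_greedy (J := ∅) (K := ∅) (z := z) hη hB hm (by simp)
      (by intro a ha; simp at ha) (by intro a ha; simp at ha) (by intro a ha; simp at ha) univ
      (disjoint_empty_left _) (fun k _ => hall k)
    refine TypM_false hfree ?_ hcl hz
    rw [hc, card_empty, card_univ, Fintype.card_fin, zero_add]
  · push Not at hall
    obtain ⟨i, hi⟩ := hall
    refine ⟨i, ?_, fun k hk => hthin' i k (Ne.symm hk) hi⟩
    intro y hy hzy
    obtain ⟨K', hc, hcl, hz, -⟩ := TypM_greedy (J := {i}) (K := {y}) (z := z) hη hB hm (by simp)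
      (by
        intro a ha b hb hab
        rw [mem_singleton] at ha hb
        exact absurd (ha.trans hb.symm) hab)
      (by intro a ha; rw [mem_singleton] at ha; rwa [ha])
      (by intro a ha; rw [mem_singleton] at ha; exact ⟨i, mem_singleton_self _, by rwa [ha]⟩)
      (univ.erase i) (by
        rw [disjoint_singleton_left]
        exact notMem_erase _ _)
      (fun k hk => hthin' i k (Ne.symm (ne_of_mem_erase hk)) hi)
    refine TypM_false hfree ?_ hcl hz
    rw [hc, card_singleton, card_erase_of_mem (mem_univ _), card_univ, Fintype.card_fin]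
    have := Fin.pos i
    omega

end aux

/-- Proof: greedy choice (`row`: at most `2 η m` vertices are lost at every step): if
`al z k ≥ 4wη` for all `k`, or for all `k ≠ i` and `z` has a neighbour in `B i`, then `z` and a
clique transversal inside its neighbourhood form a `(w+1)`-clique.  So either two shares are
`< 4wη` (`Thin`) or `z` has no neighbour in some `B i` and `al z k ≥ 4wη` for `k ≠ i`.
`sgm ≥ η/4`: in the first case `sgm ≥ 1 - 8wη`, in the second use the hypothesis for `i`. -/
theorem exists_ty (w : ℕ) (hw : 2 ≤ w) :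
    ∃ η₁ : ℝ, 0 < η₁ ∧ ∀ η : ℝ, 0 < η → η ≤ η₁ → ∀ C : ℝ, 0 < C → ∃ m₀ : ℕ, ∀ m : ℕ, m₀ ≤ m →
      ∀ (V : Type) [Fintype V] [DecidableEq V] (G : SimpleGraph V) [DecidableRel G.Adj]
        (B : Fin w → Finset V), clq G univ (w + 1) = ∅ → BS G m C η B →
        (∀ z, z ∉ un B → ∀ i, ∃ j, j ≠ i ∧ η / 2 * m ≤ ((hs G (B j) z).card : ℝ)) →
        ∃ ty : V → Fin w, (∀ z, z ∉ un B →
          Typ G B (4 * w * η) z (ty z) ∨ Thin G B (4 * w * η) z) ∧
          ∀ z, z ∉ un B → η / 4 ≤ sgm G B z := by
  have hw0 : (2 : ℝ) ≤ w := by exact_mod_cast hw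
  refine ⟨1 / (16 * w), by positivity, fun η hη hη1 C hC => ⟨⌈2 * C⌉₊ + 1, ?_⟩⟩
  intro m hm V _ _ G _ B hfree hB hheavy
  classical
  have hm2 : 2 * C < m := by
    have h1 : 2 * C ≤ (⌈2 * C⌉₊ : ℝ) := Nat.le_ceil _
    have h2 : ((⌈2 * C⌉₊ + 1 : ℕ) : ℝ) ≤ m := by exact_mod_cast hm
    push_cast at h2
    linarith
  have hη16 : 16 * w * η ≤ 1 := by
    rw [le_div_iff₀ (by positivity)] at hη1
    linarith
  have hbpos : ∀ k, 0 < ((B k).card : ℝ) ∧ ((B k).card : ℝ) ≤ 2 * m := by
    intro k
    have := hB.size k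
    rw [abs_le] at this
    constructor <;> linarith
  have hnn : ∀ z k, 0 ≤ 1 - al G B z k := fun z k => by
    have := TypM_al_le_one (G := G) B z k
    linarith
  have hor := fun z => TypM_typ_or_thin hη hfree hB hm2 z
  refine ⟨fun z => if h : ∃ i, Typ G B (4 * w * η) z i then h.choose else ⟨0, by omega⟩, ?_, ?_⟩
  · intro z _
    by_cases h : ∃ i, Typ G B (4 * w * η) z i
    · left
      simp only [dif_pos h]
      exact h.choose_spec
    · exact Or.inr ((hor z).resolve_left h)
  · intro z hz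
    rcases hor z with ⟨i, hi⟩ | ⟨j₁, j₂, hj, h1, h2⟩
    · obtain ⟨j, hji, hj⟩ := hheavy z hz i
      have hi0 : al G B z i = 0 := by
        unfold al
        rw [filter_false_of_mem (fun y hy => hi.1 y hy)]
        simp
      have hle : (1 - al G B z i) + (1 - al G B z j) ≤ ∑ k, (1 - al G B z k) := by
        rw [← sum_pair (f := fun k => 1 - al G B z k) (Ne.symm hji)]
        exact sum_le_sum_of_subset_of_nonneg (subset_univ _) fun k _ _ => hnn z k
      have hj2 : η / 4 ≤ 1 - al G B z j := by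
        rw [TypM_al_compl (hbpos j).1, le_div_iff₀ (hbpos j).1]
        have : η / 4 * ((B j).card : ℝ) ≤ η / 4 * (2 * m) :=
          mul_le_mul_of_nonneg_left (hbpos j).2 (by positivity)
        linarith
      unfold sgm
      rw [hi0] at hle
      linarith
    · have hle : (1 - al G B z j₁) + (1 - al G B z j₂) ≤ ∑ k, (1 - al G B z k) := by
        rw [← sum_pair (f := fun k => 1 - al G B z k) hj]
        exact sum_le_sum_of_subset_of_nonneg (subset_univ _) fun k _ _ => hnn z k
      unfold sgm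
      have : η ≤ w * η := by nlinarith
      linarith

end H23CL
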