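import Pool.Agent.H23.CL.Main
import Pool.Agent.H23.CL.Closure
import Pool.Agent.H23.CL.Seed
import Pool.Agent.H23.CL.BStr
import Pool.Agent.H23.CL.TypM

/-! The upper bound for all residues. -/

set_option autoImplicit false

namespace H23CL

open Finset H57LC

/-- the upper bound for given `u`, `R` -/
theorem upper_par (u R r : ℕ) (hp : Par u R) (hr : r < R) :
    ∃ m₀ : ℕ, ∀ m : ℕ, m₀ ≤ m →
      ∀ (V : Type) [Fintype V] [DecidableEq V] (G : SimpleGraph V) [DecidableRel G.Adj],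
        (∀ U ∈ clq G univ u, (cn G U).card ≤ R * m + r) → clq G univ (R + u + 1) = ∅ →
        ((clq G univ (R + u)).card : ℝ) * rinv (R + u) R r m ≤ ((clq G univ u).card : ℝ) := by
  have hR10 := hp.hR
  have huR := hp.huR
  have hu := hp.hu
  obtain ⟨ηa, hηa, hno⟩ := no_stp u R r hp hr
  obtain ⟨ηb, hηb, hBS⟩ := exists_BS u R r hu (by omega) (by omega)
  obtain ⟨ηc, hηc, hty⟩ := exists_ty (R + u) (by omega)
  obtain ⟨C1, hC1, m1, hseed⟩ := exists_seed u R r hu (by omega)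
  obtain ⟨C2, hC2, m2, hAW⟩ := exists_AW u R r hu (by omega) (by omega) C1 hC1
  set η : ℝ := min ηa (min ηb ηc) with hη
  have hη0 : 0 < η := lt_min hηa (lt_min hηb hηc)
  obtain ⟨C3, hC3, m3, hBS⟩ := hBS η hη0 ((min_le_right _ _).trans (min_le_left _ _)) C2 hC2
  obtain ⟨m4, hty⟩ := hty η hη0 ((min_le_right _ _).trans (min_le_right _ _)) C3 hC3
  obtain ⟨m5, hno⟩ := hno η hη0 (min_le_left _ _) C3 hC3
  refine ⟨max (max (max m1 m2) (max m3 m4)) (max m5 1), fun m hm V _ _ G _ hval hfree => ?_⟩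
  simp only [max_le_iff] at hm
  obtain ⟨⟨⟨hm1, hm2⟩, hm3, hm4⟩, hm5, hmN⟩ := hm
  by_contra hcon
  rw [not_le] at hcon
  have hpos : 0 < rinv (R + u) R r m := rinv_pos hmN (by omega)
  have h1 : (rinv (R + u) R r m)⁻¹ * ((clq G univ u).card : ℝ) <
      ((clq G univ (R + u)).card : ℝ) := by
    rw [inv_mul_lt_iff₀ hpos]
    linarith
  obtain ⟨𝒰, hsub, hne, h2, hmin⟩ := exists_min G (by omega : u ≤ R + u) _ h1
  have hρ : (m : ℝ) ^ R / ((R + u).choose u : ℝ) ≤ (rinv (R + u) R r m)⁻¹ := rho_ge hmN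
  have hch : (0 : ℝ) < ((R + u).choose u : ℝ) := by
    exact_mod_cast Nat.choose_pos (by omega)
  have h3 : (m : ℝ) ^ R * 𝒰.card ≤ ((R + u).choose u : ℝ) * (KK G 𝒰 u (R + u)).card := by
    have h4 : (m : ℝ) ^ R / ((R + u).choose u : ℝ) * 𝒰.card ≤ (KK G 𝒰 u (R + u)).card :=
      (mul_le_mul_of_nonneg_right hρ (Nat.cast_nonneg _)).trans h2.le
    rw [div_mul_eq_mul_div, div_le_iff₀ hch] at h4
    linarith
  obtain ⟨K₀, hK₀, hK₀'⟩ := hseed m hm1 V G 𝒰 hfree hval hsub hne h3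
  obtain ⟨A, hA⟩ := hAW m hm2 V G 𝒰 K₀ hfree hval hsub hK₀ hK₀'
  obtain ⟨B, hB, hheavy, hbad⟩ := hBS m hm3 V G 𝒰 A hfree hval hA
  obtain ⟨ty, hty1, hty2⟩ := hty m hm4 V G B hfree hB hheavy
  exact hno m hm5 V G 𝒰 (R + u) B ty
    { hw := rfl, free := hfree, val := hval, sub := hsub, bs := hB, bad := hbad, typ := hty1,
      sgl := hty2 } hmin

end H23CL
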